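import Pool.Agent.Lib.MP_03ba20_al.Graph

namespace Pool.Agent.Lib.MP_03ba20_al

open Subgroup MulAction

/-- `c` is within distance `n` of `a`. -/
inductive Nr {V : Type*} (Γ : SimpleGraph V) : ℕ → V → V → Prop
  | refl (n : ℕ) (a : V) : Nr Γ n a a
  | step {n : ℕ} {a c d : V} : Nr Γ n a c → Γ.Adj c d → Nr Γ (n + 1) a d

variable {G V : Type*} [Group G] [MulAction G V] {Γ : SimpleGraph V}

theorem Nr.succ {n : ℕ} {a c : V} (h : Nr Γ n a c) : Nr Γ (n + 1) a c := by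
  induction h with
  | refl => exact .refl _ _
  | step _ h ih => exact ih.step h

theorem Nr.mono {n m : ℕ} {a c : V} (h : Nr Γ n a c) (hn : n ≤ m) : Nr Γ m a c := by
  induction hn with
  | refl => exact h
  | step _ ih => exact ih.succ

theorem Nr.cons {n : ℕ} {a' a c : V} (h' : Γ.Adj a' a) (h : Nr Γ n a c) : Nr Γ (n + 1) a' c := by
  induction h with
  | refl n a => exact (Nr.refl n a').step h'
  | step _ h ih => exact (ih h').step h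

theorem Nr.symm {n : ℕ} {a c : V} (h : Nr Γ n a c) : Nr Γ n c a := by
  induction h with
  | refl => exact .refl _ _
  | step _ h ih => exact ih.cons h.symm

theorem Nr.split {n : ℕ} {a d : V} (h : Nr Γ (n + 1) a d) :
    Nr Γ n a d ∨ ∃ c, Nr Γ n a c ∧ Γ.Adj c d := by
  cases h with
  | refl => exact Or.inl (.refl _ _)
  | step h h' => exact Or.inr ⟨_, h, h'⟩

theorem Setup.nr_smul (S : Setup G Γ) (g : G) {n : ℕ} {a c : V} (h : Nr Γ n a c) :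
    Nr Γ n (g • a) (g • c) := by
  induction h with
  | refl => exact .refl _ _
  | step _ h ih => exact ih.step (S.adj g _ _ h)

theorem exists_nr (h : Γ.Preconnected) (a c : V) : ∃ n, Nr Γ n a c := by
  have := (SimpleGraph.reachable_iff_reflTransGen a c).1 (h a c)
  induction this with
  | refl => exact ⟨0, .refl _ _⟩
  | tail _ h ih => exact ih.elim fun n hn => ⟨n + 1, hn.step h⟩

variable (G Γ) in
/-- pointwise stabiliser of the ball of radius `n`. -/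
def Ball (n : ℕ) (v : V) : Subgroup G where
  carrier := {g | ∀ w, Nr Γ n v w → g • w = w}
  one_mem' := by simp
  mul_mem' := fun ha hb w hw => by rw [mul_smul, hb w hw, ha w hw]
  inv_mem' := fun ha w hw => inv_fix (ha w hw)

theorem Setup.eqvB (S : Setup G Γ) (n : ℕ) : Eqv (Ball G Γ n) := fun g v x hx w hw => by
  have := hx (g⁻¹ • w) (by simpa using S.nr_smul g⁻¹ hw)
  simp [mul_smul, this]

theorem Ball_le {n m : ℕ} {a c : V} (h : Nr Γ n a c) (hn : n < m) : Ball G Γ m a ≤ KK G Γ c :=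
  fun _ hx => ⟨hx c (h.mono hn.le), fun u hu => hx u ((h.step hu).mono hn)⟩

variable (G Γ) in
/-- the central elements of order `p` of `Q_v` fixing the ball of radius three. -/
def ZZ (p : ℕ) (v : V) : Subgroup G where
  carrier := {z | z ∈ Op p (KK G Γ v) ∧ z ∈ Ball G Γ 3 v ∧ z ^ p = 1 ∧
    ∀ q ∈ Op p (KK G Γ v), q * z = z * q}
  one_mem' := ⟨one_mem _, one_mem _, one_pow _, by simp⟩
  mul_mem' := fun {a b} ha hb => ⟨mul_mem ha.1 hb.1, mul_mem ha.2.1 hb.2.1, by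
    rw [Commute.mul_pow (hb.2.2.2 a ha.1), ha.2.2.1, hb.2.2.1, one_mul], fun q hq => by
    rw [← mul_assoc, ha.2.2.2 q hq, mul_assoc, hb.2.2.2 q hq, mul_assoc]⟩
  inv_mem' := fun {a} ha => ⟨inv_mem ha.1, inv_mem ha.2.1, by rw [inv_pow, ha.2.2.1, inv_one],
    fun q hq => Commute.inv_right (ha.2.2.2 q hq)⟩

variable (G Γ) in
/-- the commutators of `Z_c` with the elements of `Q_{c'}` of order `p` modulo `K_c`. -/
def RS (p : ℕ) (c c' : V) : Set G :=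
  {r | ∃ z ∈ ZZ G Γ p c, ∃ y ∈ Op p (KK G Γ c'), y ^ p ∈ KK G Γ c ∧
    (r = z * y * z⁻¹ * y⁻¹ ∨ r = y * z * y⁻¹ * z⁻¹)}

/-- commutators of two subgroups. -/
def CS (A B : Subgroup G) : Set G :=
  {r | ∃ z ∈ A, ∃ y ∈ B, r = z * y * z⁻¹ * y⁻¹ ∨ r = y * z * y⁻¹ * z⁻¹}

theorem CS_comm (A B : Subgroup G) : CS A B = CS B A := by
  ext r
  exact ⟨fun ⟨z, hz, y, hy, h⟩ => ⟨y, hy, z, hz, h.symm⟩, fun ⟨z, hz, y, hy, h⟩ =>
    ⟨y, hy, z, hz, h.symm⟩⟩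

variable (G Γ) in
/-- the image of `Q_u` in the local action at `v` has at most one subgroup of order `p`. -/
def RankOne (p : ℕ) : Prop :=
  ∀ u v, Γ.Adj u v → ∀ x ∈ Op p (KK G Γ u), ∀ y ∈ Op p (KK G Γ u), x ^ p ∈ KK G Γ v →
    y ^ p ∈ KK G Γ v → x ∉ KK G Γ v → ∃ n : ℤ, y * (x ^ n)⁻¹ ∈ KK G Γ v

namespace Setup

variable (S : Setup G Γ) {p : ℕ}
include S

theorem eqvZ : Eqv (ZZ G Γ p) := fun g v x hx =>
  ⟨S.eqvQ p g v x hx.1, S.eqvB 3 g v x hx.2.1, by rw [conj_pow, hx.2.2.1]; simp, fun q hq => by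
    have := hx.2.2.2 _ (show g⁻¹ * q * g ∈ _ from by simpa using S.eqvQ p g⁻¹ _ q hq)
    calc q * (g * x * g⁻¹) = g * (g⁻¹ * q * g * x) * g⁻¹ := by group
      _ = _ := by rw [this]; group⟩

theorem eqvR : Eqv2 (RS G Γ p) := by
  rintro g u v r ⟨z, hz, y, hy, h1, h2⟩
  refine ⟨_, S.eqvZ g _ z hz, _, S.eqvQ p g _ y hy, by rw [conj_pow]; exact S.eqvK g _ _ h1, ?_⟩
  rcases h2 with rfl | rfl
  · left; group
  · right; group

theorem RS_le {c c' : V} (h : Γ.Adj c' c) {r : G} (hr : r ∈ RS G Γ p c c') : r ∈ ZZ G Γ p c := by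
  obtain ⟨z, hz, y, hy, -, h2⟩ := hr
  have := S.eqvZ.conj ((Op_le _ hy).2 c h) hz
  rcases h2 with rfl | rfl
  · simpa [mul_assoc] using mul_mem hz (inv_mem this)
  · exact mul_mem this (inv_mem hz)

theorem ZZ_inter (hp : p.Prime) {v₀ : V} (h0 : Op p (KK G Γ v₀) ≠ ⊥) {u v : V} (h : Γ.Adj u v)
    (hD : Ball G Γ 3 u ⊓ Ball G Γ 3 v ≠ ⊥) : ∃ z ∈ ZZ G Γ p u ⊓ ZZ G Γ p v, z ≠ 1 := by
  have := S.fin v
  have h1 : Op p (KK G Γ u) ⊔ Op p (KK G Γ v) ≤ stabilizer G u ⊓ stabilizer G v :=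
    sup_le (fun x hx => ⟨(Op_le _ hx).1, (Op_le _ hx).2 v h⟩)
      (fun x hx => ⟨(Op_le _ hx).2 u h.symm, (Op_le _ hx).1⟩)
  have : Finite (Op p (KK G Γ u) ⊔ Op p (KK G Γ v) : Subgroup G) :=
    Finite.of_injective _ (inclusion_injective (h1.trans inf_le_right))
  have h2 : Ball G Γ 3 u ⊓ Ball G Γ 3 v ≤ KK G Γ u ⊓ KK G Γ v :=
    inf_le_inf (Ball_le (.refl 0 u) (by omega)) (Ball_le (.refl 0 v) (by omega))
  have h3 := h2.trans (S.E_le hp h0 h)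
  have h4 := h2.trans ((inf_comm _ _).le.trans (S.E_le hp h0 h.symm))
  obtain ⟨z, hz, z1, z2, z3⟩ := exists_central hp
    ((Op_pgroup (KK G Γ u)).to_sup_of_normal_left' (Op_pgroup (KK G Γ v))
      fun x hx => (S.eqvQ p).nrm ((Op_le _ hx).2 u h.symm))
    (Nm.of (h3.trans le_sup_right) fun g hg x hx =>
      ⟨(S.eqvB 3).conj (h1 hg).1 hx.1, (S.eqvB 3).conj (h1 hg).2 hx.2⟩) hD
  exact ⟨z, ⟨⟨h4 hz, hz.1, z2, fun q hq => z3 q (mem_sup_left hq)⟩,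
    ⟨h3 hz, hz.2, z2, fun q hq => z3 q (mem_sup_right hq)⟩⟩, z1⟩

section Crit

variable (hE : ∀ u v, Γ.Adj u v → KK G Γ u ⊓ KK G Γ v ≤ Op p (KK G Γ v))
  (hZ : ∀ u v, Γ.Adj u v → ∃ z ∈ ZZ G Γ p u ⊓ ZZ G Γ p v, z ≠ 1) (hR : RankOne G Γ p)
  {b : ℕ} (hb : ∀ n < b, ∀ a c, Nr Γ n a c → ZZ G Γ p a ≤ KK G Γ c)

include hZ in
theorem cent_le {u v : V} (h : Γ.Adj u v) {t : G} (h1 : t • v = v)
    (h2 : ∀ z ∈ ZZ G Γ p v, t * z = z * t) : t ∈ KK G Γ v := by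
  by_contra h3
  obtain ⟨g, g1, g2⟩ := S.move h1 h3 h.symm
  obtain ⟨z, hz, hz1⟩ := hZ u v h
  have h6 : ∀ x ∈ ZZ G Γ p v, g * t * g⁻¹ * x = x * (g * t * g⁻¹) := fun x hx => by
    have := h2 _ (nrm_conj' (S.eqvZ.nrm g1) hx)
    calc g * t * g⁻¹ * x = g * (t * (g⁻¹ * x * g)) * g⁻¹ := by group
      _ = _ := by rw [this]; group
  refine hz1 (S.TL1 (F := fun u v => ((ZZ G Γ p u ⊓ ZZ G Γ p v : Subgroup G) : Set G))
    (fun g u v x hx => ⟨S.eqvZ g u x hx.1, S.eqvZ g v x hx.2⟩) h (by simp only [inf_comm])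
    (fun x hx => ⟨(Op_le _ hx.1.1).1, (Op_le _ hx.2.1).1⟩) (t := g * t * g⁻¹)
    (mem_nrm (fun x hx => ?_) fun x hx => ?_) (by rw [← g1, conj_smul, h1]) g2 z hz)
  · rwa [h6 x hx.2, mul_inv_cancel_right]
  · rwa [mul_assoc, ← h6 x hx.2, inv_mul_cancel_left]

omit S in
include hE hb in
theorem ZQ {n : ℕ} (hn : n < b) {a c : V} (h : Nr Γ n a c) : ZZ G Γ p a ≤ Op p (KK G Γ c) := by
  cases h with
  | refl => exact fun _ hx => hx.1
  | step h h' => exact (le_inf (hb _ (by omega) _ _ h) (hb _ hn _ _ (h.step h'))).trans (hE _ _ h')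

include hE hR hb in
theorem RS_eq {n : ℕ} (hn : n < b) {a c' c : V} (h1 : Nr Γ n a c') (h2 : Γ.Adj c' c)
    (h3 : ¬ ZZ G Γ p a ≤ KK G Γ c) : RS G Γ p c c' = CS (ZZ G Γ p c) (ZZ G Γ p a) := by
  have hQ := ZQ hE hb hn h1
  ext r
  constructor
  · rintro ⟨z, hz, y, hy, h4, h5⟩
    obtain ⟨x, hx, hx'⟩ := SetLike.not_le_iff_exists.1 h3
    obtain ⟨m, hm⟩ := hR c' c h2 x (hQ hx) y hy (by rw [hx.2.2.1]; exact one_mem _) h4 hx'
    have hxm := zpow_mem hx m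
    have he : y * (x ^ m)⁻¹ ∈ Op p (KK G Γ c) :=
      hE c' c h2 ⟨Op_le _ (mul_mem hy (inv_mem (hQ hxm))), hm⟩
    have h6 := (S.eqvZ.conj ((Op_le _ (hQ hxm)).2 c h2) hz).2.2.2 _ he
    have h7 : y * z * y⁻¹ = x ^ m * z * (x ^ m)⁻¹ := by
      calc y * z * y⁻¹ = y * (x ^ m)⁻¹ * (x ^ m * z * (x ^ m)⁻¹) * (y * (x ^ m)⁻¹)⁻¹ := by group
        _ = _ := by rw [h6]; group
    refine ⟨z, hz, x ^ m, hxm, h5.imp (fun e => ?_) fun e => ?_⟩
    · calc r = z * (y * z * y⁻¹)⁻¹ := by rw [e]; group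
        _ = _ := by rw [h7]; group
    · rw [e, h7]
  · rintro ⟨z, hz, y, hy, h5⟩
    exact ⟨z, hz, y, hQ hy, by rw [hy.2.2.1]; exact one_mem _, h5⟩

include hE hZ hb in
theorem CS_ne {n : ℕ} (hn : n < b) {a c' c : V} (h1 : Nr Γ n a c') (h2 : Γ.Adj c' c)
    (h3 : ¬ ZZ G Γ p a ≤ KK G Γ c) : ∃ z ∈ ZZ G Γ p c, ∃ x ∈ ZZ G Γ p a, x * z ≠ z * x := by
  by_contra hc
  push Not at hc
  exact h3 fun x hx => S.cent_le hZ h2 ((Op_le _ (ZQ hE hb hn h1 hx)).2 c h2)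
    fun z hz => hc z hz x hx

include hE hZ hb in
theorem crit_symm {n : ℕ} (hn : n < b) {a a' c' c : V} (h1 : Nr Γ n a c') (h2 : Γ.Adj c' c)
    (h1' : Nr Γ n c a') (h2' : Γ.Adj a' a) (h3 : ¬ ZZ G Γ p a ≤ KK G Γ c) :
    ¬ ZZ G Γ p c ≤ KK G Γ a := fun h => by
  obtain ⟨z, hz, x, hx, hne⟩ := S.CS_ne hE hZ hb hn h1 h2 h3
  exact hne (hx.2.2.2 z (hE _ _ h2' ⟨hb n hn _ _ h1' hz, h hz⟩)).symm

include hE hZ hR hb in
theorem shift {n : ℕ} (hn : n < b) {a c' c y : V} (h1 : Nr Γ n a c') (h2 : Γ.Adj c' c)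
    (h3 : ¬ ZZ G Γ p a ≤ KK G Γ c) (hy : Γ.Adj y a) {c'' : V} (h4 : Nr Γ n y c'')
    (h5 : Γ.Adj c'' c') (hfix : ∀ z ∈ ZZ G Γ p c, z • a = a) {t : G} (ht : t ∈ ZZ G Γ p c)
    (t2 : t • y ≠ y) : ¬ ZZ G Γ p y ≤ KK G Γ c' := fun h => by
  have t1 := hfix t ht
  have hQ : ZZ G Γ p y ≤ Op p (KK G Γ c') := (le_inf (hb n hn _ _ h4) h).trans (hE _ _ h5)
  have key : ∀ t ∈ ZZ G Γ p c, t • a = a → ∀ x ∈ ZZ G Γ p y ⊔ ZZ G Γ p a,
      t * x * t⁻¹ ∈ ZZ G Γ p y ⊔ ZZ G Γ p a := by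
    intro t ht t1 x hx
    have : ZZ G Γ p y ⊔ ZZ G Γ p a ≤ cj t⁻¹ (ZZ G Γ p y ⊔ ZZ G Γ p a) := by
      refine sup_le (fun x hx => mem_cj.2 ?_) fun x hx => mem_cj.2 (mem_sup_right (by
        simpa using S.eqvZ.conj t1 hx))
      have h6 : t * x * t⁻¹ * x⁻¹ ∈ RS G Γ p c c' :=
        ⟨t, ht, x, hQ hx, by rw [hx.2.2.1]; exact one_mem _, Or.inl rfl⟩
      rw [S.RS_eq hE hR hb hn h1 h2 h3] at h6
      have h7 : t * x * t⁻¹ * x⁻¹ ∈ ZZ G Γ p a := by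
        obtain ⟨z, hz, w, hw, h8⟩ := h6
        have := S.eqvZ.conj (hfix z hz) hw
        rcases h8 with e | e <;> rw [e]
        · exact mul_mem this (inv_mem hw)
        · simpa [mul_assoc] using mul_mem hw (inv_mem this)
      simpa using mul_mem (mem_sup_right h7) (mem_sup_left hx)
    simpa using mem_cj.1 (this hx)
  obtain ⟨z, hz, hz1⟩ := hZ y a hy
  refine hz1 (S.TL1 (F := fun u v => ((ZZ G Γ p u ⊔ ZZ G Γ p v : Subgroup G) : Set G))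
    (fun g u v x hx => ?_) hy (by simp only [sup_comm]) (fun x hx => ?_)
    (mem_nrm (key t ht t1) fun x hx => by simpa using key _ (inv_mem ht) (inv_fix t1) x hx)
    t1 t2 z (mem_sup_left hz.1))
  · have : ZZ G Γ p u ⊔ ZZ G Γ p v ≤ cj g⁻¹ (ZZ G Γ p (g • u) ⊔ ZZ G Γ p (g • v)) :=
      sup_le (fun x hx => mem_cj.2 (mem_sup_left (by simpa using S.eqvZ g u x hx)))
        fun x hx => mem_cj.2 (mem_sup_right (by simpa using S.eqvZ g v x hx))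
    simpa using mem_cj.1 (this hx)
  · have : ZZ G Γ p y ⊔ ZZ G Γ p a ≤ stabilizer G y ⊓ stabilizer G a :=
      sup_le (fun x hx => ⟨(Op_le _ hx.1).1, (Op_le _ hx.1).2 a hy⟩)
        fun x hx => ⟨(Op_le _ hx.1).2 y hy.symm, (Op_le _ hx.1).1⟩
    exact this hx

omit S in
theorem exists_moved {A : Subgroup G} {a : V} (h : ¬ A ≤ KK G Γ a) (hfix : ∀ z ∈ A, z • a = a) :
    ∃ t ∈ A, ∃ y, Γ.Adj y a ∧ t • y ≠ y := by
  by_contra hc
  push Not at hc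
  exact h fun t ht => ⟨hfix t ht, fun y hy => hc t ht y hy.symm⟩

include hE hZ hR in
theorem no_crit {m : ℕ} (hb : ∀ n < m + 3, ∀ a c, Nr Γ n a c → ZZ G Γ p a ≤ KK G Γ c) {a c : V}
    (h : Nr Γ (m + 3) a c) : ZZ G Γ p a ≤ KK G Γ c := by
  by_contra h0
  have hn : m + 2 < m + 3 := by omega
  have nc : ¬ Nr Γ (m + 2) a c := fun e => h0 (hb _ hn _ _ e)
  obtain ⟨c₁, n1, e1⟩ := h.split.resolve_left nc
  obtain ⟨c₂, n2, e2⟩ := n1.split.resolve_left fun e => nc (e.step e1)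
  obtain ⟨c₃, n3, e3⟩ := n2.split.resolve_left fun e => nc ((e.step e2).step e1)
  obtain ⟨a₁, m1, f1⟩ := h.symm.split.resolve_left fun e => nc e.symm
  have fa : ∀ z ∈ ZZ G Γ p c, z • a = a := fun z hz => (hb _ hn _ _ m1 hz).2 a f1
  obtain ⟨t, ht, y, hy, hty⟩ := exists_moved (S.crit_symm hE hZ hb hn n1 e1 m1 f1 h0) fa
  have k1 := S.shift hE hZ hR hb hn n1 e1 h0 hy (n2.cons hy) e2 fa ht hty
  have fy : ∀ z ∈ ZZ G Γ p c₁, z • y = y := fun z hz => (hb _ hn _ _ n1.symm hz).2 y hy.symm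
  obtain ⟨t', ht', z, hz, htz⟩ := exists_moved
    (S.crit_symm hE hZ hb hn (n2.cons hy) e2 n1.symm hy.symm k1) fy
  have n4 := (n3.cons hy).cons hz
  have k2 := S.shift hE hZ hR hb hn (n2.cons hy) e2 k1 hz n4 e3 fy ht' htz
  have k3 := S.crit_symm hE hZ hb hn n4 e3 (n2.cons hy).symm hz.symm k2
  have r1 := S.RS_eq hE hR hb hn n4 e3 k2
  have r2 := S.RS_eq hE hR hb hn (n2.cons hy).symm hz.symm k3
  have r3 : RS G Γ p z y = RS G Γ p c₂ c₃ := by rw [r1, r2, CS_comm]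
  have nr : ∀ s ∈ KK G Γ c₂, s ∈ normalizer (RS G Γ p z y) := fun s hs => by
    rw [r3]; exact S.eqvR.nrm hs.1 (hs.2 _ e3.symm) rfl
  have t'n := nr t' (hb 1 (by omega) _ _ ((Nr.refl 0 c₁).step e2.symm) ht')
  have tn := nr t (hb 2 (by omega) _ _ (((Nr.refl 0 c).step e1.symm).step e2.symm) ht)
  have tr1 := S.tr_of hz.symm (fun g g1 g2 => S.eqvR.nrm g2 g1 rfl) t'n (fy t' ht') htz
  have gy : ∀ g : G, g • y = y → g ∈ normalizer (RS G Γ p z y) := fun g hg => by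
    obtain ⟨h, h1, h2, h3⟩ := tr1 z (g • z) hz.symm (by simpa [hg] using S.adj g _ _ hz.symm)
    have : h⁻¹ * g ∈ normalizer (RS G Γ p z y) := S.eqvR.nrm
      (by rw [mul_smul, ← h3, inv_smul_smul]) (by rw [mul_smul, hg, inv_fix h2]) rfl
    simpa using mul_mem h1 this
  have tr2 := S.tr_of hy.symm (fun g _ g2 => gy g g2) tn (fa t ht) hty
  have fin := S.TL hy (fun x hx => by
    have := hb 1 (by omega) _ _ ((Nr.refl 0 z).step hz) (S.RS_le hz.symm hx)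
    exact ⟨this.1, this.2 a hy⟩) tr1 tr2
  obtain ⟨w, hw, x, hx, hne⟩ := S.CS_ne hE hZ hb hn n4 e3 k2
  have := fin (x * w * x⁻¹ * w⁻¹) (by rw [r2]; exact ⟨x, hx, w, hw, Or.inl rfl⟩)
  exact hne (by rwa [mul_inv_eq_one, mul_inv_eq_iff_eq_mul] at this)

end Crit

/-- the pointwise stabiliser of the balls of radius three about an edge is trivial. -/
theorem ball_edge (hR : ∀ p, p.Prime → RankOne G Γ p) {u v : V} (h : Γ.Adj u v) :
    Ball G Γ 3 u ⊓ Ball G Γ 3 v = ⊥ := by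
  by_contra hD
  have hD' : ∀ a c, Γ.Adj a c → Ball G Γ 3 a ⊓ Ball G Γ 3 c ≠ ⊥ := by
    intro a c hac e
    obtain ⟨g₀, g0⟩ := S.trans u a
    obtain ⟨g₁, g1, g2⟩ := S.loc a (g₀ • v) c (by simpa [g0] using S.adj g₀ _ _ h) hac
    refine hD ((eq_bot_iff_forall _).2 fun x hx => ?_)
    have h1 := S.eqvB 3 (g₁ * g₀) u x hx.1
    have h2 := S.eqvB 3 (g₁ * g₀) v x hx.2
    rw [mul_smul, g0, g1] at h1
    rw [mul_smul, g2] at h2
    have := (eq_bot_iff_forall _).1 e _ (mem_inf.2 ⟨h1, h2⟩)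
    rwa [mul_inv_eq_one, mul_eq_left] at this
  obtain ⟨p, hp, h0⟩ := S.exists_prime h fun e => hD (le_bot_iff.1 (e ▸
    inf_le_inf (Ball_le (.refl 0 u) (by omega)) (Ball_le (.refl 0 v) (by omega))))
  have hE := fun u v h => S.E_le hp h0 (u := u) (v := v) h
  have hZ := fun a c h => S.ZZ_inter hp h0 (u := a) (v := c) h (hD' a c h)
  have key : ∀ n a c, Nr Γ n a c → ZZ G Γ p a ≤ KK G Γ c := by
    intro n
    induction n using Nat.strong_induction_on with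
    | _ n ih =>
      intro a c hac
      by_cases hn : n < 3
      · exact fun x hx => Ball_le hac hn hx.2.1
      · obtain ⟨m, rfl⟩ : ∃ m, n = m + 3 := ⟨n - 3, by omega⟩
        exact S.no_crit hE hZ (hR p hp) ih hac
  obtain ⟨z, hz, hz1⟩ := hZ u v h
  exact hz1 (S.faith z fun w => (exists_nr S.conn u w).elim fun n hn => (key n u w hn hz.1).1)

theorem ball_four (hR : ∀ p, p.Prime → RankOne G Γ p) (v : V) : Ball G Γ 4 v = ⊥ := by
  refine (eq_bot_iff_forall _).2 fun x hx => ?_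
  by_cases h : ∃ u, Γ.Adj u v
  · obtain ⟨u, h⟩ := h
    exact (eq_bot_iff_forall _).1 (S.ball_edge hR h) x
      ⟨fun w hw => hx w (hw.cons h.symm), fun w hw => hx w hw.succ⟩
  · refine S.faith x fun w => hx w ?_
    obtain ⟨n, hn⟩ := exists_nr S.conn w v
    cases hn with
    | refl => exact .refl _ _
    | step _ h' => exact absurd ⟨_, h'⟩ h

end Setup

end Pool.Agent.Lib.MP_03ba20_al
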