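import Pool.Agent.Lib.MP_03ba20_al.AltGlue
import Pool.Agent.Lib.MP_03ba20_al.Amalgam

namespace Pool.Agent.Lib.MP_03ba20_al

open Equiv Equiv.Perm Subgroup MulAction

variable {G V Ω ι : Type*} [Group G] [MulAction G V] {Γ : SimpleGraph V}
variable [Fintype Ω] [DecidableEq Ω] [DecidableEq ι]

variable (Γ) in
/-- the local action at `x` embeds in a wreath product and contains the alternating groups of the
fibres. -/
structure LocAlt (x : V) (π : G → Perm Ω) (f : Ω → ι) : Prop where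
  mul : ∀ g h : G, g • x = x → h • x = x → π (g * h) = π g * π h
  ker : ∀ g : G, g • x = x → (π g = 1 ↔ g ∈ KK G Γ x)
  fib : ∀ g : G, g • x = x → ∀ u v, f u = f v → f (π g u) = f (π g v)
  big : ∀ u, 25 ≤ (Fb f u).card
  lift : ∀ u, ∀ σ ∈ alt (Fb f u), ∃ g : G, g • x = x ∧ π g = σ

variable (Γ) in
/-- an equivariant system of roots in `Z_x`. -/
structure Rt (p : ℕ) (x : V) (π : G → Perm Ω) (f : Ω → ι) (R : Ω → Ω → G) : Prop where
  mem : ∀ u v, R u v ∈ ZZ G Γ p x
  eqv : ∀ g : G, g • x = x → ∀ u v, g * R u v * g⁻¹ = R (π g u) (π g v)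
  coc : ∀ u v w, f v = f u → f w = f u → R u v * R v w = R u w

/-- all roots of the fibre of `u` are nontrivial. -/
def Gd' (f : Ω → ι) (R : Ω → Ω → G) (u : Ω) : Prop := ∀ v w, f v = f u → f w = f u → v ≠ w → R v w ≠ 1

variable (G Γ) in
/-- `Z_c` written additively. -/
def ZT (p : ℕ) (c : V) : Type _ := Additive (ZZ G Γ p c)

instance (p : ℕ) (c : V) : AddCommGroup (ZT G Γ p c) :=
  { (inferInstance : AddGroup (Additive (ZZ G Γ p c))) with
    add_comm := fun a b => Subtype.ext (b.2.2.2.2 _ a.2.1) }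

variable {x y : V} {π : G → Perm Ω} {f : Ω → ι} {p : ℕ}

theorem LocAlt.one (h : LocAlt Γ x π f) : π 1 = 1 := (h.ker 1 (one_smul _ _)).2 (one_mem _)

theorem LocAlt.inv (h : LocAlt Γ x π f) {g : G} (hg : g • x = x) : π g⁻¹ = (π g)⁻¹ :=
  eq_inv_of_mul_eq_one_left (by rw [← h.mul _ _ (inv_fix hg) hg, inv_mul_cancel, h.one])

/-- the local action as a homomorphism. -/
def LocAlt.hom (h : LocAlt Γ x π f) : stabilizer G x →* Perm Ω :=
  MonoidHom.mk' (fun g => π g) fun a b => h.mul a b a.2 b.2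

theorem LocAlt.pow (h : LocAlt Γ x π f) {g : G} (hg : g • x = x) (n : ℕ) : π (g ^ n) = π g ^ n :=
  map_pow h.hom ⟨g, hg⟩ n

theorem LocAlt.pickF (h : LocAlt Γ x π f) (u : Ω) (l : List Ω) (hl : l.length < 25) :
    ∃ v, f v = f u ∧ v ∉ l :=
  (pick _ l (hl.trans_le (h.big u))).imp fun _ hx => ⟨mem_Fb.1 hx.1, hx.2⟩

theorem LocAlt.lift3 (h : LocAlt Γ x π f) {u v w : Ω} (h1 : u ≠ v) (h2 : u ≠ w) (hv : f v = f u)
    (hw : f w = f u) : ∃ g : G, g • x = x ∧ π g = cyc u v w :=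
  h.lift u _ (cyc_mem h1 h2 (mem_Fb.2 rfl) (mem_Fb.2 hv) (mem_Fb.2 hw))

namespace Setup

variable (S : Setup G Γ)
include S

theorem roots (hp : p.Prime) (hE : ∀ u v, Γ.Adj u v → KK G Γ u ⊓ KK G Γ v ≤ Op p (KK G Γ v))
    (hZ : ∀ u v, Γ.Adj u v → ∃ z ∈ ZZ G Γ p u ⊓ ZZ G Γ p v, z ≠ 1) {a c' c : V} (h1 : Γ.Adj c' c)
    (h2 : ZZ G Γ p a ≤ Op p (KK G Γ c')) (h3 : ¬ ZZ G Γ p a ≤ KK G Γ c)
    (h4 : ∀ z ∈ ZZ G Γ p c, z • a = a)
    (h5 : Nat.card (ZZ G Γ p a ⊓ centralizer (ZZ G Γ p c) : Subgroup G) ≤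
      Nat.card (ZZ G Γ p c ⊓ centralizer (ZZ G Γ p a) : Subgroup G)) (h : LocAlt Γ c π f) :
    p = 2 ∧ ∃ R : Ω → Ω → G, Rt Γ p c π f R ∧ ∃ i j, i ≠ j ∧ f j = f i ∧ Gd' f R i ∧
      ∀ w, f w = f i → w ≠ i → w ≠ j → ∃ q ∈ Op p (KK G Γ c'), π q i = j ∧ π q j = i ∧ π q w = w := by
  let _ : DistribMulAction (stabilizer G c) (ZT G Γ p c) :=
    { smul := fun g z => ⟨g * z.1 * g⁻¹, S.eqvZ.conj g.2 z.2⟩
      one_smul := fun z => Subtype.ext (by change (1 : G) * z.1 * 1⁻¹ = z.1; simp)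
      mul_smul := fun g k z => Subtype.ext (by
        change (g : G) * k * z.1 * ((g : G) * k)⁻¹ = g * (k * z.1 * (k : G)⁻¹) * (g : G)⁻¹; group)
      smul_zero := fun g => Subtype.ext (by change (g : G) * 1 * (g : G)⁻¹ = 1; simp)
      smul_add := fun g z w => Subtype.ext (by
        change (g : G) * (z.1 * w.1) * (g : G)⁻¹ = g * z.1 * (g : G)⁻¹ * (g * w.1 * (g : G)⁻¹); group) }
  have sm : ∀ (g : stabilizer G c) (z : ZT G Γ p c), g • z = z ↔ (g : G) * z.1 = z.1 * g :=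
    fun g z => ⟨fun e => mul_inv_eq_iff_eq_mul.1 (congrArg Subtype.val e),
      fun e => Subtype.ext (mul_inv_eq_iff_eq_mul.2 e)⟩
  have := S.fin c
  have fz : ∀ v, Finite (ZZ G Γ p v) := fun v =>
    have := S.finK v
    Finite.of_injective _ (inclusion_injective (show ZZ G Γ p v ≤ KK G Γ v from fun _ hx => Op_le _ hx.1))
  have fz' : ∀ v D, Finite (ZZ G Γ p v ⊓ D : Subgroup G) := fun v D =>
    have := fz v
    Finite.of_injective _ (inclusion_injective inf_le_left)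
  have hQ : ∀ q ∈ Op p (KK G Γ c'), q • c = c := fun q hq => (Op_le _ hq).2 c h1
  let E : Subgroup (stabilizer G c) :=
    { carrier := {g | ∀ k ∈ KK G Γ c, (g : G) * k * (g : G)⁻¹ * k⁻¹ ∈ Op p (KK G Γ c)}
      one_mem' := by simp
      mul_mem' := fun {g g'} hg hg' k hk => by
        simpa [mul_assoc] using mul_mem ((S.eqvQ p).conj g.2 (hg' k hk)) (hg k hk)
      inv_mem' := fun {g} hg k hk => by
        simpa [mul_assoc] using (S.eqvQ p).conj (inv_fix g.2) (inv_mem (hg k hk)) }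
  have inj : ∀ q : stabilizer G c, q.1 ∈ Op p (KK G Γ c) → ∀ v : ZT G Γ p c, q • v = v :=
    fun q hq v => (sm _ v).2 (v.2.2.2.2 q hq)
  have L : Loc0 (ZT G Γ p c) p h.hom f E ((ZZ G Γ p a).subgroupOf _) :=
    { finV := fz c
      finA := inferInstance
      prime := hp
      ker := fun g hg => (h.ker g g.2).2 (S.cent_le hZ h1 g.2 fun z hz => (sm g ⟨z, hz⟩).1 (hg _))
      exp := fun v => Subtype.ext v.2.2.2.1
      fib := fun g => h.fib g g.2
      big := h.big
      lift := fun u σ hσ => (h.lift u σ hσ).elim fun g hg => ⟨⟨g, hg.1⟩, hg.2⟩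
      nrm := ⟨fun g hg t k hk => by
        simpa [mul_assoc] using (S.eqvQ p).conj t.2 (hg _ (S.eqvK.conj (inv_fix t.2) hk))⟩
      cen := fun z hz e g hg v => by
        have := inj (g * z * g⁻¹ * z⁻¹) (hg z ((h.ker z z.2).1 e)) ((z * g) • v)
        rwa [← mul_smul, show g * z * g⁻¹ * z⁻¹ * (z * g) = g * z by group] at this
      odd := by
        rintro rfl z hz e h6 v
        have hK := (h.ker z z.2).1 e
        obtain ⟨k, m, hm, e1⟩ := Nat.exists_eq_pow_mul_and_not_dvd (orderOf_pos z).ne' 2 (by norm_num)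
        have h7 : ((z ^ m : stabilizer G c) : G) ∈ Op 2 (KK G Γ c) := by
          have m1 : ((z ^ m : stabilizer G c) : G) ∈ KK G Γ c := pow_mem hK m
          have m2 := pow_mem hz m
          refine le_Op (N := Op 2 (KK G Γ c) ⊔ zpowers ((z ^ m : stabilizer G c) : G))
            (Nm.of (sup_le (Op_le _) (zpowers_le.2 m1)) fun t ht => ?_)
            ((Op_pgroup _).to_sup_of_normal_left' (isPGroup_iff.2 ?_) (zpowers_le.2
              ((S.eqvQ 2).nrm m1.1))) (mem_sup_right (mem_zpowers _))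
          · have : Op 2 (KK G Γ c) ⊔ zpowers ((z ^ m : stabilizer G c) : G) ≤
                cj t⁻¹ (Op 2 (KK G Γ c) ⊔ zpowers ((z ^ m : stabilizer G c) : G)) :=
              sup_le (fun s hs => mem_cj.2 (mem_sup_left (by simpa using (S.eqvQ 2).conj ht.1 hs)))
                (zpowers_le.2 (mem_cj.2 (by
                  simpa [mul_assoc] using mul_mem (mem_sup_left (inv_mem (m2 t ht)))
                    (mem_sup_right (mem_zpowers ((z ^ m : stabilizer G c) : G))))))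
            exact fun s hs => by simpa using mem_cj.1 (this hs)
          · rintro _ ⟨n, rfl⟩
            refine ⟨k, ?_⟩
            beta_reduce
            rw [← zpow_natCast, ← zpow_mul, mul_comm, zpow_mul, zpow_natCast, ← Subgroup.coe_pow, ← pow_mul,
              mul_comm, ← e1, pow_orderOf_eq_one, Subgroup.coe_one, one_zpow]
        obtain ⟨n, rfl⟩ := Nat.odd_iff.2 (Nat.two_dvd_ne_zero.1 hm)
        have h8 := inj _ h7 v
        have h9 : ∀ n : ℕ, ∀ v : ZT G Γ 2 c, (z ^ (2 * n)) • v = v := fun n v => by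
          induction n with
          | zero => simp
          | succ n ih => rw [mul_add, pow_add, mul_smul, mul_one, pow_two, h6, ih]
        rwa [pow_succ', mul_smul, h9] at h8
      AE := fun g hg k hk => hE c' c h1 ⟨Op_le _ (by
          simpa [mul_assoc] using mul_mem (h2 hg) ((S.eqvQ p).conj (hk.2 c' h1.symm) (inv_mem (h2 hg)))),
        (KK G Γ c).mul_mem (S.eqvK.conj g.2 hk) ((KK G Γ c).inv_mem hk)⟩
      comm := fun g hg k hk => Subtype.ext (hk.2.2.2 _ hg.1)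
      pow := fun g hg => Subtype.ext hg.2.2.1
      quad := fun g hg k hk v => (sm _ _).2 (by
        have : (Dl k v).1 ∈ ZZ G Γ p a := by
          have e : (Dl k v).1 = (k : G) * (v.1 * (k : G)⁻¹ * v.1⁻¹) := by
            rw [Dl_apply, sub_eq_add_neg]
            change (k : G) * v.1 * (k : G)⁻¹ * v.1⁻¹ = _
            group
          rw [e]
          exact mul_mem hk (S.eqvZ.conj (h4 _ v.2) (inv_mem hk))
        exact this.2.2.2 _ hg.1)
      off := by
        have := fz' a (centralizer (ZZ G Γ p c))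
        have : Finite (ZT G Γ p c) := fz c
        refine Nat.mul_le_mul ?_ (le_trans ?_ (h5.trans ?_))
        · obtain ⟨g, rfl⟩ := S.trans c a
          exact Nat.card_le_card_of_injective (fun z : ZT G Γ p c => (⟨⟨g * z.1 * g⁻¹,
            hQ _ (h2 (S.eqvZ g c _ z.2))⟩, S.eqvZ g c _ z.2⟩ : (ZZ G Γ p (g • c)).subgroupOf _))
            fun z w e => Subtype.ext (by simpa using congrArg (fun t => t.1.1) e)
        · exact Nat.card_le_card_of_injective (fun z => ⟨z.1.1, z.2.1, fun w hw =>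
            ((sm _ ⟨w, hw⟩).1 (z.2.2 _ trivial)).symm⟩) fun z w e =>
              Subtype.ext (Subtype.ext (congrArg (fun t => t.1) e))
        · exact Nat.card_le_card_of_injective (fun z => ⟨⟨z.1, z.2.1⟩, fun g hg =>
            (sm _ _).2 (z.2.2 _ hg)⟩) fun z w e => Subtype.ext (congrArg (fun t => t.1.1) e)
      inj := fun g hg e => inj _ (hE c' c h1 ⟨Op_le _ (h2 hg), (h.ker g g.2).1 e⟩)
      ne := by
        obtain ⟨z, hz, hz'⟩ := SetLike.not_le_iff_exists.1 h3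
        exact ⟨⟨z, hQ z (h2 hz)⟩, hz, fun e => hz' ((h.ker z (hQ z (h2 hz))).1 e)⟩ }
  obtain ⟨hp2, R, r1, r2, i, j, k1, k2, k3, k4⟩ := L.main
  exact ⟨hp2, fun u v => (R u v).1, ⟨fun u v => (R u v).2, fun g hg u v =>
    congrArg Subtype.val (r1 ⟨g, hg⟩ u v), fun u v w hv hw => congrArg Subtype.val (r2 u v w hv hw)⟩,
    i, j, k1, k2, fun v w hv hw e e' => k3 v w hv hw e (Subtype.ext e'), fun w e1 e2 e3 =>
      (k4 w e1 e2 e3).elim fun q hq => ⟨q, h2 hq.1, hq.2⟩⟩

theorem max {H : Subgroup G} (h : Γ.Adj x y) (h1 : ∀ g : G, g • x = x → g • y = y → g ∈ H) {g : G}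
    (g1 : g • x = x) (g2 : g ∉ H) {t : G} (ht : t ∈ H) (t1 : t • x = x) : t • y = y := by
  by_contra hc
  obtain ⟨k, hk, k1, k2⟩ := S.prim x y h H h1 t ht t1 hc (g • y) (by simpa [g1] using S.adj g _ _ h)
  exact g2 (by simpa using mul_mem hk (h1 (k⁻¹ * g) (by rw [mul_smul, g1, inv_fix k1])
    (by rw [mul_smul, ← k2, inv_smul_smul])))

end Setup

end Pool.Agent.Lib.MP_03ba20_al
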