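import Pool.Agent.Lib.MP_03ba20_al.AltAut0

namespace Pool.Agent.Lib.MP_03ba20_al

open Equiv Equiv.Perm

variable {Ω ι : Type*} [DecidableEq Ω]

variable [Fintype Ω] [DecidableEq ι] {X : Type*} [Group X]

/-- `J` identifies `X` with the direct product of the alternating groups of the fibres. -/
structure Prd (J : X →* Perm Ω) (f : Ω → ι) : Prop where
  inj : Function.Injective J
  big : ∀ u, 25 ≤ (Fb f u).card
  lift : ∀ u, ∀ σ ∈ alt (Fb f u), ∃ s, J s = σ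
  gen : ∀ T : Subgroup X, (∀ s u, J s ∈ alt (Fb f u) → s ∈ T) → ∀ s, s ∈ T
  fib : ∀ s u, f (J s u) = f u

/-- `s` is a three-cycle inside a fibre. -/
def Tc (J : X →* Perm Ω) (f : Ω → ι) (s : X) : Prop :=
  ∃ u v w, u ≠ v ∧ u ≠ w ∧ v ≠ w ∧ f v = f u ∧ f w = f u ∧ J s = cyc u v w

namespace Prd

variable {J : X →* Perm Ω} {f : Ω → ι} (P : Prd J f)
include P

theorem pickF (u : Ω) (l : List Ω) (h : l.length < 25) : ∃ x, f x = f u ∧ x ∉ l :=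
  (pick _ l (h.trans_le (P.big u))).imp fun _ hx => ⟨mem_Fb.1 hx.1, hx.2⟩

theorem lift3 {u v w : Ω} (h1 : u ≠ v) (h2 : u ≠ w) (hv : f v = f u) (hw : f w = f u) :
    ∃ s, J s = cyc u v w := P.lift u _ (cyc_mem h1 h2 (mem_Fb.2 rfl) (mem_Fb.2 hv) (mem_Fb.2 hw))

theorem eq_one {σ : Perm Ω} (h : ∀ s, σ * J s = J s * σ) : σ = 1 := by
  refine Equiv.ext fun u => (?_ : σ u = u)
  by_contra hc
  obtain ⟨v, hv, v1⟩ := P.pickF u [u, σ u] (by simp)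
  obtain ⟨w, hw, w1⟩ := P.pickF u [u, σ u, v] (by simp)
  simp only [List.mem_cons, List.not_mem_nil, or_false, not_or] at v1 w1
  obtain ⟨s, hs⟩ := P.lift3 (Ne.symm v1.1) (Ne.symm w1.1) hv hw
  have : σ (J s u) = J s (σ u) := by rw [← mul_apply, h, mul_apply]
  rw [hs, cyc_fst (Ne.symm v1.1) (Ne.symm w1.2.2), cyc_other hc (Ne.symm v1.2) (Ne.symm w1.2.1)] at this
  exact v1.1 (σ.injective this)

theorem tc_iff (s : X) : Tc J f s ↔ s ≠ 1 ∧ s ^ 3 = 1 ∧ ∀ g, (s * g * s⁻¹ * g⁻¹) ^ 2 = 1 ∨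
    (s * g * s⁻¹ * g⁻¹) ^ 3 = 1 ∨ (s * g * s⁻¹ * g⁻¹) ^ 5 = 1 := by
  have k : ∀ (y : X) (n : ℕ), y ^ n = 1 ↔ J y ^ n = 1 := fun y n => by
    rw [← map_pow, map_eq_one_iff _ P.inj]
  simp only [k]
  constructor
  · rintro ⟨u, v, w, h1, h2, h3, -, -, e⟩
    refine ⟨fun h => cyc_ne_one h1 h3 (by rw [← e, h, map_one]), e ▸ cyc_pow3 h1 h2 h3, fun g => ?_⟩
    rw [show J (s * g * s⁻¹ * g⁻¹) = cyc u v w * cyc (J g u) (J g w) (J g v) by
      rw [← cyc_conj, ← cyc_inv' (v := v), ← e]; simp [mul_assoc]]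
    exact (cyc_prod h1 h2 h3 ((J g).injective.ne h2) ((J g).injective.ne h1)
      ((J g).injective.ne h3.symm)).imp_left And.right
  rintro ⟨h1, h2, h3⟩
  have c : ∀ x, J s (J s (J s x)) = x := fun x => by
    simpa [pow_succ] using congrArg (fun σ : Perm Ω => σ x) h2
  obtain ⟨u, hu⟩ : ∃ u, J s u ≠ u := by
    by_contra hc
    push Not at hc
    exact h1 (P.inj ((Equiv.ext hc).trans (map_one J).symm))
  have fb := P.fib s
  have cj : ∀ g, J (s * g * s⁻¹ * g⁻¹) = J s * J g * (J s)⁻¹ * (J g)⁻¹ := fun g => by simp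
  have cs : ∀ (σ : Perm Ω) a b c d, σ * (swap a b * swap c d) * σ⁻¹ =
      swap (σ a) (σ b) * swap (σ c) (σ d) := fun σ a b c d => by
    simp only [swap_apply_apply]; group
  have inj := (J s).injective
  have mv : ∀ u, (Mv f (J s) u).card ≤ 6 := fun u => by
    by_contra hc
    obtain ⟨a, ha, -⟩ := pick (Mv f (J s) u) [] (by simp only [List.length_nil]; omega)
    obtain ⟨b, hb, b1⟩ := pick (Mv f (J s) u) [a, J s a, J s (J s a)] (by simp; omega)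
    obtain ⟨d, hd, d1⟩ := pick (Mv f (J s) u) [a, J s a, J s (J s a), b, J s b, J s (J s b)]
      (by simp; omega)
    rw [mem_Mv] at ha hb hd
    obtain ⟨g, hg⟩ := P.lift u _ (swaps_mem (fun e : a = b => b1 (by simp [e])) (Ne.symm hd.2)
      (mem_Fb.2 ha.1) (mem_Fb.2 hb.1) (mem_Fb.2 hd.1) (mem_Fb.2 ((fb d).trans hd.1)))
    exact np1 (nd1 c ha.2 hb.2 hd.2 b1 d1) (by rw [cj, hg, cs]) (h3 g)
  have pk : ∀ u (l : List Ω), l.length < 19 → ∃ x, f x = f u ∧ J s x = x ∧ x ∉ l := fun u l hl => by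
    have h1 := P.big u
    have h2 := Finset.le_card_sdiff (Mv f (J s) u) (Fb f u)
    have := mv u
    obtain ⟨x, hx, hx'⟩ := pick (Fb f u \ Mv f (J s) u) l (by omega)
    simp only [Finset.mem_sdiff, mem_Fb, mem_Mv, not_and, not_not] at hx
    exact ⟨x, hx.1, hx.2 hx.1, hx'⟩
  have c1 := c u
  have u1 : u ≠ J s (J s u) := by clear * - c1 hu; grind
  have u2 : J s u ≠ J s (J s u) := inj.ne hu.symm
  refine ⟨u, J s u, J s (J s u), hu.symm, u1, u2, fb u, (fb _).trans (fb u), Equiv.ext fun w => ?_⟩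
  by_cases w1 : w = u
  · rw [w1, cyc_fst hu.symm u2]
  by_cases w2 : w = J s u
  · rw [w2, cyc_snd]
  by_cases w3 : w = J s (J s u)
  · rw [w3, cyc_thd u1 u2, c]
  rw [cyc_other w1 w2 w3]
  by_contra hw
  obtain ⟨a, ha, a1, -⟩ := pk u [] (by simp)
  obtain ⟨b, hb, b1, b2⟩ := pk w [a] (by simp)
  obtain ⟨d, hd, d1, d2⟩ := pk w [a, b] (by simp)
  simp only [List.mem_cons, List.not_mem_nil, or_false, not_or] at b2 d2
  obtain ⟨g, hg⟩ := P.lift3 hu.symm (fun e : u = a => hu (by rw [e, a1])) (fb u) ha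
  obtain ⟨g', hg'⟩ := P.lift w _ (swaps_mem (Ne.symm hw) (Ne.symm d2.2) (mem_Fb.2 rfl) (mem_Fb.2 (fb w))
    (mem_Fb.2 hb) (mem_Fb.2 hd))
  have e : J (s * (g * g') * s⁻¹ * (g * g')⁻¹) = cyc (J s u) (J s (J s u)) a *
      (swap (J s w) (J s (J s w)) * swap b d) * (cyc u (J s u) a * (swap w (J s w) * swap b d))⁻¹ := by
    conv_rhs => rw [← a1, ← b1, ← d1, ← cs, ← cyc_conj, a1, b1, d1, ← hg, ← hg']
    simp [mul_assoc]
  exact np2 (nd2 c hu hw w1 w2 w3 a1 b1 d1 b2 d2.1 d2.2) e (h3 (g * g'))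

theorem tc_map (θ : X ≃* X) {s : X} (h : Tc J f s) : Tc J f (θ s) := by
  rw [P.tc_iff] at h ⊢
  refine ⟨by simpa using h.1, by rw [← map_pow, h.2.1, map_one], fun g => ?_⟩
  obtain ⟨g, rfl⟩ := θ.surjective g
  simpa only [← map_inv, ← map_mul, ← map_pow, EmbeddingLike.map_eq_one_iff] using h.2.2 g

theorem edge (θ : X ≃* X) {i j : Ω} (ij : i ≠ j) (fj : f j = f i) : ∃ a b, a ≠ b ∧ f b = f a ∧
    ∀ k s, f k = f i → k ≠ i → k ≠ j → J s = cyc i j k →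
      ∃ c, a ≠ c ∧ b ≠ c ∧ f c = f a ∧ J (θ s) = cyc a b c := by
  have key : ∀ k l s t, f k = f i → k ≠ i → k ≠ j → J s = cyc i j k → f l = f i → l ≠ i → l ≠ j →
      J t = cyc i j l → k ≠ l → ∃ x y z z', x ≠ y ∧ x ≠ z ∧ y ≠ z ∧ x ≠ z' ∧ y ≠ z' ∧
        J (θ s) = cyc x y z ∧ J (θ t) = cyc x y z' ∧ z ≠ z' :=
      fun k l s t h1 h2 h3 h4 k1 k2 k3 k4 kl => by
    obtain ⟨a, b, c, a1, a2, a3, -, -, e1⟩ := P.tc_map θ ⟨i, j, k, ij, h2.symm, h3.symm, fj, h1, h4⟩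
    obtain ⟨d, e, g, d1, d2, d3, -, -, e2⟩ := P.tc_map θ ⟨i, j, l, ij, k2.symm, k3.symm, fj, k1, k4⟩
    have e3 : J (s * t) = swap i k * swap j l := by
      rw [map_mul, h4, k4]; ext x; simp only [mul_apply, cyc_apply, swap_apply_def]; grind
    have e4 : (s * t) ^ 2 = 1 := P.inj (by
      rw [map_pow, e3, swaps_sq ij k2.symm h3 kl, map_one])
    have e5 : ∀ n, (cyc a b c * cyc d e g) ^ (2 * n + 1) ≠ 1 := fun n h => by
      rw [← e1, ← e2, ← map_mul, ← map_mul, ← map_pow, ← map_pow, map_eq_one_iff _ P.inj,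
        EmbeddingLike.map_eq_one_iff, pow_succ, pow_mul, e4, one_pow, one_mul] at h
      have : (swap i k * swap j l) i = i := by rw [← e3, h, map_one, one_apply]
      rw [mul_apply, swap_apply_of_ne_of_ne ij k2.symm, swap_apply_left] at this
      exact h2 this
    obtain ⟨x, y, z, z', q1, q2, q3, q4, q5, q6, q7⟩ :=
      ((cyc_prod a1 a2 a3 d1 d2 d3).resolve_right fun h => h.elim (e5 1) (e5 2)).1
    refine ⟨x, y, z, z', q1, q2, q3, q4, q5, e1.trans q6, e2.trans q7, fun e => kl ?_⟩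
    rw [← e, ← q6, ← e2, ← e1, P.inj.eq_iff, θ.injective.eq_iff] at q7
    have : cyc i j k j = cyc i j l j := by rw [← h4, ← k4, q7]
    rwa [cyc_snd, cyc_snd] at this
  obtain ⟨k, hk, k1⟩ := P.pickF i [i, j] (by simp)
  obtain ⟨l, hl, l1⟩ := P.pickF i [i, j, k] (by simp)
  simp only [List.mem_cons, List.not_mem_nil, or_false, not_or] at k1 l1
  obtain ⟨s, hs⟩ := P.lift3 ij (Ne.symm k1.1) fj hk
  obtain ⟨t, ht⟩ := P.lift3 ij (Ne.symm l1.1) fj hl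
  obtain ⟨a, b, c, d, h1, h2, h3, h4, h5, e1, e2, cd⟩ := key k l s t hk k1.1 k1.2 hs hl l1.1 l1.2.1 ht
    (Ne.symm l1.2.2)
  have fb : ∀ s c, b ≠ c → J s = cyc a b c → f b = f a ∧ f c = f a := fun s c h e => by
    have e1 := P.fib s a
    have e2 := P.fib s b
    rw [e, cyc_fst h1 h] at e1
    rw [e, cyc_snd] at e2
    exact ⟨e1, e2.trans e1⟩
  refine ⟨a, b, h1, (fb _ c h3 e1).1, fun m r m1 m2 m3 m4 => ?_⟩
  by_cases mk : m = k
  · rw [P.inj (m4.trans (mk ▸ hs.symm))]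
    exact ⟨c, h2, h3, (fb _ c h3 e1).2, e1⟩
  by_cases ml : m = l
  · rw [P.inj (m4.trans (ml ▸ ht.symm))]
    exact ⟨d, h4, h5, (fb _ d h5 e2).2, e2⟩
  obtain ⟨x, y, z, w, x1, x2, x3, x4, x5, e3, e4, zw⟩ := key k m s r hk k1.1 k1.2 hs m1 m2 m3 m4
    (Ne.symm mk)
  obtain ⟨x', y', z', w', y1, y2, y3, y4, y5, e5, e6, -⟩ := key l m t r hl l1.1 l1.2.1 ht m1 m2 m3 m4
    (Ne.symm ml)
  have q1 := cyc_third x1 x2 x3 h1 h2 h3 (e3.symm.trans e1)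
  have q2 := cyc_third y1 y2 y3 h1 h4 h5 (e5.symm.trans e2)
  have q3 := cyc_third x1 x4 x5 y1 y4 y5 (e4.symm.trans e6)
  have : x = a ∧ y = b := by
    clear * - q1 q2 q3 cd h1 h2 h3 h4 h5 zw
    grind
  rw [this.1] at x4 e4
  rw [this.2] at x5 e4
  exact ⟨w, x4, x5, (fb _ w x5 e4).2, e4⟩

theorem exists_conj (θ : X ≃* X) : ∃ σ : Perm Ω, (∀ u v, f u = f v → f (σ u) = f (σ v)) ∧
    ∀ s, J (θ s) = σ * J s * σ⁻¹ := by
  have h : ∀ k : ι, ∀ u, f u = k → ∃ i j, i ≠ j ∧ f i = k ∧ f j = k := fun k u hu => by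
    obtain ⟨v, hv, v1⟩ := P.pickF u [u] (by simp)
    exact ⟨u, v, fun e => v1 (by simp [e]), hu, hv.trans hu⟩
  have h' : ∀ k : Set.range f, ∃ i j a b, i ≠ j ∧ f i = k ∧ f j = k ∧ a ≠ b ∧ f b = f a ∧
      ∀ m s, f m = f i → m ≠ i → m ≠ j → J s = cyc i j m →
      ∃ c, a ≠ c ∧ b ≠ c ∧ f c = f a ∧ J (θ s) = cyc a b c := fun ⟨k, u, hu⟩ => by
    obtain ⟨i, j, h1, h2, h3⟩ := h k u hu
    obtain ⟨a, b, h4⟩ := P.edge θ h1 (h3.trans h2.symm)
    exact ⟨i, j, a, b, h1, h2, h3, h4⟩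
  choose i j a b h1 h2 h3 h4 h5 h6 using h'
  let φ : Ω → Set.range f := fun u => ⟨f u, u, rfl⟩
  have hφ : ∀ u k, f u = k.1 → φ u = k := fun u k e => Subtype.ext e
  have h7 : ∀ u, ∃ c, (u = i (φ u) → c = a (φ u)) ∧ (u = j (φ u) → c = b (φ u)) ∧ f c = f (a (φ u)) ∧
      (u ≠ i (φ u) → u ≠ j (φ u) → a (φ u) ≠ c ∧ b (φ u) ≠ c ∧
        ∀ s, J s = cyc (i (φ u)) (j (φ u)) u → J (θ s) = cyc (a (φ u)) (b (φ u)) c) := fun u => by
    by_cases e1 : u = i (φ u)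
    · exact ⟨_, fun _ => rfl, fun e => absurd (e1.symm.trans e) (h1 _), rfl, fun e => absurd e1 e⟩
    by_cases e2 : u = j (φ u)
    · exact ⟨_, fun e => absurd e e1, fun _ => rfl, h5 _, fun _ e => absurd e2 e⟩
    obtain ⟨s, hs⟩ := P.lift3 (h1 (φ u)) (Ne.symm e1) ((h3 _).trans (h2 _).symm) (h2 (φ u)).symm
    obtain ⟨c, c1, c2, c3, c4⟩ := h6 _ u s (h2 (φ u)).symm e1 e2 hs
    exact ⟨c, fun e => absurd e e1, fun e => absurd e e2, c3, fun _ _ => ⟨c1, c2, fun t ht => by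
      rw [P.inj (ht.trans hs.symm), c4]⟩⟩
  choose σ s1 s2 s3 s4 using h7
  have si : ∀ k, σ (i k) = a k := fun k => by
    have := s1 (i k); rw [hφ _ k (h2 k)] at this; exact this rfl
  have sj : ∀ k, σ (j k) = b k := fun k => by
    have := s2 (j k); rw [hφ _ k (h3 k)] at this; exact this rfl
  have s5 : ∀ k u, f u = k.1 → u ≠ i k → u ≠ j k → ∃ s, J s = cyc (i k) (j k) u ∧ a k ≠ σ u ∧
      b k ≠ σ u ∧ J (θ s) = cyc (a k) (b k) (σ u) := fun k u e e1 e2 => by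
    obtain ⟨s, hs⟩ := P.lift3 (h1 k) (Ne.symm e1) ((h3 _).trans (h2 _).symm) (e.trans (h2 _).symm)
    have := s4 u
    rw [hφ u k e] at this
    exact ⟨s, hs, (this e1 e2).1, (this e1 e2).2.1, (this e1 e2).2.2 s hs⟩
  have s6 : ∀ u, ∃ w s, f w = f u ∧ w ≠ i (φ u) ∧ w ≠ j (φ u) ∧ J s = cyc (i (φ u)) (j (φ u)) w ∧
      a (φ u) ≠ σ w ∧ b (φ u) ≠ σ w ∧ J (θ s) = cyc (a (φ u)) (b (φ u)) (σ w) ∧
      (σ u = a (φ u) ∨ σ u = b (φ u) ∨ σ u = σ w) := fun u => by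
    by_cases e : u ≠ i (φ u) ∧ u ≠ j (φ u)
    · obtain ⟨s, hs⟩ := s5 (φ u) u rfl e.1 e.2
      exact ⟨u, s, rfl, e.1, e.2, hs.1, hs.2.1, hs.2.2.1, hs.2.2.2, Or.inr (Or.inr rfl)⟩
    obtain ⟨w, hw, w1⟩ := P.pickF u [i (φ u), j (φ u)] (by simp)
    simp only [List.mem_cons, List.not_mem_nil, or_false, not_or] at w1
    obtain ⟨s, hs⟩ := s5 (φ u) w hw w1.1 w1.2
    refine ⟨w, s, hw, w1.1, w1.2, hs.1, hs.2.1, hs.2.2.1, hs.2.2.2, ?_⟩
    by_cases e1 : u = i (φ u)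
    · exact Or.inl (s1 u e1)
    · exact Or.inr (Or.inl (s2 u (not_not.1 fun e2 => e ⟨e1, e2⟩)))
  have inj : Function.Injective σ := fun u v e => by
    by_contra hc
    by_cases k : f u = f v
    · have k1 := hφ v (φ u) k.symm
      have a1 := s1 u; have a2 := s2 u; have a3 := s5 (φ u) u rfl
      have b1 := s1 v; have b2 := s2 v; have b3 := s5 (φ u) v k.symm
      have c1 := h4 (φ u)
      rw [k1] at b1 b2
      by_cases k2 : (u ≠ i (φ u) ∧ u ≠ j (φ u)) ∧ v ≠ i (φ u) ∧ v ≠ j (φ u)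
      · obtain ⟨s, hs, -, -, hs'⟩ := a3 k2.1.1 k2.1.2
        obtain ⟨t, ht, -, -, ht'⟩ := b3 k2.2.1 k2.2.2
        rw [← e, ← hs', P.inj.eq_iff, θ.injective.eq_iff] at ht'
        have : cyc (i (φ u)) (j (φ u)) u (j (φ u)) = cyc (i (φ u)) (j (φ u)) v (j (φ u)) := by
          rw [← hs, ← ht, ht']
        rw [cyc_snd, cyc_snd] at this
        exact hc this
      · have a4 : u ≠ i (φ u) → u ≠ j (φ u) → a (φ u) ≠ σ u ∧ b (φ u) ≠ σ u := fun x y =>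
          (a3 x y).elim fun _ h => ⟨h.2.1, h.2.2.1⟩
        have b4 : v ≠ i (φ u) → v ≠ j (φ u) → a (φ u) ≠ σ v ∧ b (φ u) ≠ σ v := fun x y =>
          (b3 x y).elim fun _ h => ⟨h.2.1, h.2.2.1⟩
        clear * - a1 a2 a4 b1 b2 b4 c1 k2 hc e
        grind
    obtain ⟨w, s, w1, w2, w3, w4, w5, w6, w7, w8⟩ := s6 u
    obtain ⟨z, t, z1, z2, z3, z4, z5, z6, z7, z8⟩ := s6 v
    have fi : ∀ u, f (i (φ u)) = f u := fun u => h2 _
    have fj : ∀ u, f (j (φ u)) = f u := fun u => h3 _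
    have fx : ∀ x, f x = f v → J s x = x := fun x hx => by
      rw [w4, cyc_other] <;> (intro e; apply k; rw [← hx, e]; simp [fi, fj, w1])
    have cm : s * t = t * s := P.inj (by
      rw [map_mul, map_mul, ← mul_inv_eq_iff_eq_mul, z4, cyc_conj, fx _ (fi v), fx _ (fj v), fx _ z1])
    have := cyc_comm (h4 _) w5 w6 (h4 _) z5 z6 (by rw [← w7, ← z7, ← map_mul, ← map_mul, ← map_mul,
      ← map_mul, cm]) w8 (e ▸ z8)
    rw [← w7, ← z7, ← map_inv, ← map_inv, P.inj.eq_iff, P.inj.eq_iff, θ.injective.eq_iff,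
      θ.injective.eq_iff] at this
    have k1 : J t (j (φ v)) = j (φ v) := by
      rcases this with rfl | rfl
      · exact fx _ (fj v)
      · rw [map_inv, Perm.inv_eq_iff_eq, fx _ (fj v)]
    rw [z4, cyc_snd] at k1
    exact z3 k1
  let σ' : Perm Ω := Equiv.ofBijective σ (Finite.injective_iff_bijective.1 inj)
  refine ⟨σ', fun u v e => ?_, fun s => ?_⟩
  · change f (σ u) = f (σ v)
    rw [s3, s3, hφ v (φ u) e.symm]
  refine P.gen (T := (J.comp θ.toMonoidHom).eqLocus ((MulAut.conj σ').toMonoidHom.comp J))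
    (fun s u hs => ?_) s
  obtain ⟨t, ht, e⟩ := alt_le_of_cyc (N := ((J.comp θ.toMonoidHom).eqLocus
    ((MulAut.conj σ').toMonoidHom.comp J)).map J) ((by norm_num : 5 ≤ 25).trans (P.big u))
    (fun x hx y hy z hz => cyc_gen (P := fun x => f x = f u) (h1 (φ u)) (fun k hk k1 k2 => by
      obtain ⟨s, hs, -, -, hs'⟩ := s5 (φ u) k hk k1 k2
      refine ⟨s, ?_, hs⟩
      change J (θ s) = σ' * J s * σ'⁻¹
      rw [hs, hs', cyc_conj, ← si, ← sj]; rfl) x y z (mem_Fb.1 hx) (mem_Fb.1 hy) (mem_Fb.1 hz)) hs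
  exact P.inj e ▸ ht

end Prd

end Pool.Agent.Lib.MP_03ba20_al
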