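import Pool.Agent.Lib.MP_03ba20_al.AltOdd

namespace Pool.Agent.Lib.MP_03ba20_al

open Equiv Equiv.Perm

variable {Ω ι : Type*} [DecidableEq Ω]

theorem cyc_pow3 {a b c : Ω} (h1 : a ≠ b) (h2 : a ≠ c) (h3 : b ≠ c) : cyc a b c ^ 3 = 1 := by
  rw [pow_succ, pow_two, cyc_cube h1 h2 h3]

theorem swaps_sq {a b c d : Ω} (h1 : a ≠ c) (h2 : a ≠ d) (h3 : b ≠ c) (h4 : b ≠ d) :
    (swap a b * swap c d) ^ 2 = 1 := by
  ext x; simp only [pow_two, mul_apply, swap_apply_def, one_apply]; grind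

theorem cyc_share {a b c e g : Ω} (h1 : a ≠ b) (h2 : a ≠ c) (h3 : b ≠ c) (h4 : a ≠ e) (h5 : a ≠ g)
    (h6 : e ≠ g) : (e = b ∧ g ≠ c ∨ g = c ∧ e ≠ b) ∧ (cyc a b c * cyc a e g) ^ 2 = 1 ∨
      (cyc a b c * cyc a e g) ^ 3 = 1 ∨ (cyc a b c * cyc a e g) ^ 5 = 1 := by
  by_cases k1 : e = b
  · subst k1
    by_cases k2 : g = c
    · subst k2
      exact Or.inr (Or.inl (by rw [cyc_sq h1 h2 h3, cyc_pow3 h2 h1 h3.symm]))
    · refine Or.inl ⟨Or.inl ⟨rfl, k2⟩, ?_⟩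
      rw [show cyc a e c * cyc a e g = swap a c * swap e g by
        ext x; simp only [mul_apply, cyc_apply, swap_apply_def]; grind]
      exact swaps_sq h1 h5 h3.symm (Ne.symm k2)
  by_cases k2 : g = c
  · subst k2
    refine Or.inl ⟨Or.inr ⟨rfl, k1⟩, ?_⟩
    rw [show cyc a b g * cyc a e g = swap a e * swap g b by
      ext x; simp only [mul_apply, cyc_apply, swap_apply_def]; grind]
    exact swaps_sq h2 h1 h6 k1
  right
  by_cases k3 : e = c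
  · subst k3
    by_cases k4 : g = b
    · subst k4
      exact Or.inl (by rw [← cyc_inv' (v := g), mul_inv_cancel, one_pow])
    · left
      rw [show cyc a b e * cyc a e g = cyc e g b by
        ext x; simp only [mul_apply, cyc_apply, swap_apply_def]; grind]
      exact cyc_pow3 h6 k1 k4
  by_cases k4 : g = b
  · subst k4
    left
    rw [show cyc a g c * cyc a e g = cyc a e c by
      ext x; simp only [mul_apply, cyc_apply, swap_apply_def]; grind]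
    exact cyc_pow3 h4 h2 k3
  · right
    refine pow5 (a := a) (b := e) (c := g) (d := b) (e := c) ?_ ?_ ?_ ?_ ?_ fun x => ?_ <;>
      simp only [mul_apply, cyc_apply, swap_apply_def] <;> grind

theorem cyc_prod {a b c d e g : Ω} (h1 : a ≠ b) (h2 : a ≠ c) (h3 : b ≠ c) (h4 : d ≠ e) (h5 : d ≠ g)
    (h6 : e ≠ g) : (∃ x y z z', x ≠ y ∧ x ≠ z ∧ y ≠ z ∧ x ≠ z' ∧ y ≠ z' ∧ cyc a b c = cyc x y z ∧
      cyc d e g = cyc x y z') ∧ (cyc a b c * cyc d e g) ^ 2 = 1 ∨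
      (cyc a b c * cyc d e g) ^ 3 = 1 ∨ (cyc a b c * cyc d e g) ^ 5 = 1 := by
  have k1 : ∀ a b c e g : Ω, a ≠ b → a ≠ c → b ≠ c → a ≠ e → a ≠ g → e ≠ g →
      (∃ x y z z', x ≠ y ∧ x ≠ z ∧ y ≠ z ∧ x ≠ z' ∧ y ≠ z' ∧ cyc a b c = cyc x y z ∧
      cyc a e g = cyc x y z') ∧ (cyc a b c * cyc a e g) ^ 2 = 1 ∨
      (cyc a b c * cyc a e g) ^ 3 = 1 ∨ (cyc a b c * cyc a e g) ^ 5 = 1 :=
    fun a b c e g h1 h2 h3 h4 h5 h6 => (cyc_share h1 h2 h3 h4 h5 h6).imp_left fun h => ⟨by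
      rcases h.1 with ⟨rfl, k⟩ | ⟨rfl, k⟩
      · exact ⟨a, e, c, g, h1, h2, h3, h5, h6, rfl, rfl⟩
      · exact ⟨g, a, b, e, h2.symm, h3.symm, h1, h6.symm, h4, (cyc_rot h2.symm h3.symm h1).symm,
          (cyc_rot h2.symm h6.symm h4).symm⟩, h.2⟩
  have k2 : ∀ a b c : Ω, a ≠ b → a ≠ c → b ≠ c → (a = d ∨ a = e ∨ a = g) →
      (∃ x y z z', x ≠ y ∧ x ≠ z ∧ y ≠ z ∧ x ≠ z' ∧ y ≠ z' ∧ cyc a b c = cyc x y z ∧
      cyc d e g = cyc x y z') ∧ (cyc a b c * cyc d e g) ^ 2 = 1 ∨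
      (cyc a b c * cyc d e g) ^ 3 = 1 ∨ (cyc a b c * cyc d e g) ^ 5 = 1 := by
    rintro a b c h1 h2 h3 (rfl | rfl | rfl)
    · exact k1 _ _ _ _ _ h1 h2 h3 h4 h5 h6
    · rw [cyc_rot h4 h5 h6]; exact k1 _ _ _ _ _ h1 h2 h3 h6 h4.symm h5.symm
    · rw [← cyc_rot h5.symm h6.symm h4]; exact k1 _ _ _ _ _ h1 h2 h3 h5.symm h6.symm h4
  by_cases c1 : a = d ∨ a = e ∨ a = g
  · exact k2 a b c h1 h2 h3 c1
  by_cases c2 : b = d ∨ b = e ∨ b = g
  · rw [cyc_rot h1 h2 h3]; exact k2 b c a h3 h1.symm h2.symm c2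
  by_cases c3 : c = d ∨ c = e ∨ c = g
  · rw [← cyc_rot h2.symm h3.symm h1]; exact k2 c a b h2.symm h3.symm h1 c3
  push Not at c1 c2 c3
  have : Commute (cyc a b c) (cyc d e g) := by
    rw [Commute, SemiconjBy, ← mul_inv_eq_iff_eq_mul, cyc_conj, cyc_other, cyc_other, cyc_other] <;>
      tauto
  exact Or.inr (Or.inl (by rw [this.mul_pow, cyc_pow3 h1 h2 h3, cyc_pow3 h4 h5 h6, one_mul]))

theorem cyc_third {x y z s t w : Ω} (h1 : x ≠ y) (h2 : x ≠ z) (h3 : y ≠ z) (h4 : s ≠ t) (h5 : s ≠ w)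
    (h6 : t ≠ w) (e : cyc x y z = cyc s t w) :
    x = s ∧ y = t ∧ z = w ∨ x = t ∧ y = w ∧ z = s ∨ x = w ∧ y = s ∧ z = t := by
  have k1 : cyc s t w x = y := by rw [← e, cyc_fst h1 h3]
  have k2 : cyc s t w y = z := by rw [← e, cyc_snd]
  simp only [cyc_apply, swap_apply_def] at k1 k2
  grind

theorem cyc_self {a b c d : Ω} (h1 : a ≠ b) (h2 : a ≠ c) (h3 : b ≠ c) (h : cyc a b c d ≠ d) :
    cyc a b c = cyc d (cyc a b c d) (cyc a b c (cyc a b c d)) := by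
  by_cases k1 : d = a
  · rw [k1, cyc_fst h1 h3, cyc_snd]
  by_cases k2 : d = b
  · rw [k2, cyc_snd, cyc_thd h2 h3, ← cyc_rot h1 h2 h3]
  by_cases k3 : d = c
  · rw [k3, cyc_thd h2 h3, cyc_fst h1 h3, cyc_rot h2.symm h3.symm h1]
  exact absurd (cyc_other k1 k2 k3) h

theorem cyc_comm {a b c d e g : Ω} (h1 : a ≠ b) (h2 : a ≠ c) (h3 : b ≠ c) (h4 : d ≠ e) (h5 : d ≠ g)
    (h6 : e ≠ g) (h : cyc a b c * cyc d e g = cyc d e g * cyc a b c) {x : Ω}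
    (k1 : x = a ∨ x = b ∨ x = c) (k2 : x = d ∨ x = e ∨ x = g) :
    cyc d e g = cyc a b c ∨ cyc d e g = (cyc a b c)⁻¹ := by
  rw [← mul_inv_eq_iff_eq_mul, cyc_conj] at h
  have k3 : cyc a b c x ≠ x := by
    rcases k1 with rfl | rfl | rfl
    · rw [cyc_fst h1 h3]; exact h1.symm
    · rw [cyc_snd]; exact h3.symm
    · rw [cyc_thd h2 h3]; exact h2
  rcases cyc_third ((cyc a b c).injective.ne h4) ((cyc a b c).injective.ne h5)
    ((cyc a b c).injective.ne h6) h4 h5 h6 h with ⟨e1, e2, e3⟩ | ⟨e1, e2, e3⟩ | ⟨e1, e2, e3⟩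
  · rcases k2 with rfl | rfl | rfl <;> contradiction
  · have := cyc_self h1 h2 h3 (d := d) (by rw [e1]; exact h4.symm)
    rw [e1, e2] at this
    exact Or.inl this.symm
  · have := cyc_self h1 h2 h3 (d := d) (by rw [e1]; exact h5.symm)
    rw [e1, e3] at this
    exact Or.inr (by rw [this, cyc_inv'])

theorem cyc_gen {T : Subgroup (Perm Ω)} {P : Ω → Prop} {a b : Ω} (ab : a ≠ b)
    (h : ∀ k, P k → k ≠ a → k ≠ b → cyc a b k ∈ T) (u v w : Ω) (hu : P u) (hv : P v) (hw : P w)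
    (h1 : u ≠ v) (h2 : u ≠ w) (h3 : v ≠ w) : cyc u v w ∈ T := by
  have k1 : ∀ j k, P j → P k → j ≠ a → k ≠ a → j ≠ k → cyc a j k ∈ T := fun j k hj hk ja ka jk => by
    by_cases e : j = b
    · exact e ▸ h k hk ka (e ▸ jk.symm)
    by_cases e' : k = b
    · rw [← cyc_inv']; exact inv_mem (e' ▸ h j hj ja e)
    have := mul_mem (mul_mem (inv_mem (h k hk ka e')) (h j hj ja e)) (inv_mem (inv_mem (h k hk ka e')))
    rwa [cyc_conj, cyc_inv', cyc_fst ka.symm e', cyc_thd ab e', cyc_other ja jk e,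
      cyc_rot ka jk.symm ja.symm] at this
  have k2 : ∀ j k, P j → P k → j ≠ b → k ≠ b → j ≠ k → j ≠ a → k ≠ a → cyc b j k ∈ T :=
    fun j k hj hk jb kb jk ja ka => by
      have := mul_mem (mul_mem (h j hj ja jb) (h k hk ka kb)) (inv_mem (h j hj ja jb))
      rwa [cyc_conj, cyc_fst ab jb.symm, cyc_snd, cyc_other ka kb jk.symm] at this
  by_cases c1 : u = a
  · exact c1 ▸ k1 v w hv hw (c1 ▸ h1.symm) (c1 ▸ h2.symm) h3
  by_cases c2 : v = a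
  · rw [cyc_rot h1 h2 h3]; exact c2 ▸ k1 w u hw hu (c2 ▸ h3.symm) c1 h2.symm
  by_cases c3 : w = a
  · rw [← cyc_rot h2.symm h3.symm h1]; exact c3 ▸ k1 u v hu hv c1 c2 h1
  by_cases d1 : u = b
  · exact d1 ▸ k2 v w hv hw (d1 ▸ h1.symm) (d1 ▸ h2.symm) h3 c2 c3
  by_cases d2 : v = b
  · rw [cyc_rot h1 h2 h3]; exact d2 ▸ k2 w u hw hu (d2 ▸ h3.symm) d1 h2.symm c3 c1
  by_cases d3 : w = b
  · rw [← cyc_rot h2.symm h3.symm h1]; exact d3 ▸ k2 u v hu hv d1 d2 h1 c1 c2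
  have := mul_mem (mul_mem (h u hu c1 d1) (k2 v w hv hw d2 d3 h3 c2 c3)) (inv_mem (h u hu c1 d1))
  rwa [cyc_conj, cyc_snd, cyc_other c2 d2 h1.symm, cyc_other c3 d3 h2.symm] at this

omit [DecidableEq Ω] in
theorem not_pow {y : Perm Ω} {a a' b : Ω} (h1 : y a = a') (h2 : y a' = a) (h3 : a' ≠ a)
    (h4 : y (y b) ≠ b) : ¬ (y ^ 2 = 1 ∨ y ^ 3 = 1 ∨ y ^ 5 = 1) := by
  rintro (h | h | h)
  · exact h4 (by simpa [pow_succ] using congrArg (fun σ : Perm Ω => σ b) h)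
  · exact h3 (by simpa [pow_succ, h1, h2] using congrArg (fun σ : Perm Ω => σ a) h)
  · exact h3 (by simpa [pow_succ, h1, h2] using congrArg (fun σ : Perm Ω => σ a) h)

theorem np1 {a b d a1 b1 d1 d2 : Ω} (n : [a, b, d, a1, b1, d1, d2].Nodup) {y : Perm Ω}
    (e : y = swap a1 b1 * swap d1 d2 * (swap a b * swap d d1)⁻¹) :
    ¬ (y ^ 2 = 1 ∨ y ^ 3 = 1 ∨ y ^ 5 = 1) := by
  simp only [List.nodup_cons, List.mem_cons, List.not_mem_nil, or_false, not_or] at n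
  casesm* _ ∧ _
  refine not_pow (a := a) (a' := b) (b := d) ?_ ?_ (Ne.symm (by assumption)) ?_ <;>
    simp (disch := first | assumption | (apply Ne.symm; assumption)) only [e, mul_inv_rev, swap_inv,
      mul_apply, swap_apply_left, swap_apply_right, swap_apply_of_ne_of_ne]
  exact Ne.symm (by assumption)

theorem np2 {u w a b d u1 w1 u2 w2 : Ω} (n : [u, w, a, b, d, u1, w1, u2, w2].Nodup) {y : Perm Ω}
    (e : y = cyc u1 u2 a * (swap w1 w2 * swap b d) * (cyc u u1 a * (swap w w1 * swap b d))⁻¹) :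
    ¬ (y ^ 2 = 1 ∨ y ^ 3 = 1 ∨ y ^ 5 = 1) := by
  simp only [List.nodup_cons, List.mem_cons, List.not_mem_nil, or_false, not_or] at n
  casesm* _ ∧ _
  refine not_pow (a := u) (a' := u1) (b := w) ?_ ?_ (Ne.symm (by assumption)) ?_ <;>
    simp (disch := first | assumption | (apply Ne.symm; assumption)) only [e, mul_inv_rev, swap_inv,
      cyc_inv', cyc_apply, mul_apply, swap_apply_left, swap_apply_right, swap_apply_of_ne_of_ne]
  exact Ne.symm (by assumption)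

omit [DecidableEq Ω] in
theorem nd1 {σ : Perm Ω} (c : ∀ x, σ (σ (σ x)) = x) {a b d : Ω} (ha : σ a ≠ a) (hb : σ b ≠ b)
    (hd : σ d ≠ d) (b1 : b ∉ [a, σ a, σ (σ a)]) (d1 : d ∉ [a, σ a, σ (σ a), b, σ b, σ (σ b)]) :
    [a, b, d, σ a, σ b, σ d, σ (σ d)].Nodup := by
  have c1 := c a
  have c2 := c b
  have c3 := c d
  simp only [List.nodup_cons, List.mem_cons, List.not_mem_nil, or_false, not_or] at b1 d1 ⊢
  clear c
  (repeat' apply And.intro) <;> grind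

omit [DecidableEq Ω] in
theorem nd2 {σ : Perm Ω} (c : ∀ x, σ (σ (σ x)) = x) {u w a b d : Ω} (hu : σ u ≠ u) (hw : σ w ≠ w)
    (w1 : w ≠ u) (w2 : w ≠ σ u) (w3 : w ≠ σ (σ u)) (a1 : σ a = a) (b1 : σ b = b) (d1 : σ d = d)
    (b2 : b ≠ a) (d2 : d ≠ a) (d3 : d ≠ b) :
    [u, w, a, b, d, σ u, σ w, σ (σ u), σ (σ w)].Nodup := by
  have c1 := c u
  have c2 := c w
  simp only [List.nodup_cons, List.mem_cons, List.not_mem_nil, or_false, not_or]
  clear c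
  (repeat' apply And.intro) <;> grind

end Pool.Agent.Lib.MP_03ba20_al
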