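import Pool.Agent.Lib.MP_03ba20_al.AltShift

namespace Pool.Agent.Lib.MP_03ba20_al

open Equiv Equiv.Perm Subgroup MulAction

variable {G V Ω ι : Type*} [Group G] [MulAction G V] {Γ : SimpleGraph V}
variable [Fintype Ω] [DecidableEq Ω] [DecidableEq ι]
variable {x y : V} {π : G → Perm Ω} {f : Ω → ι}

theorem Nr.path {n : ℕ} {a c : V} (h : Nr Γ n a c) :
    ∃ k ≤ n, ∃ w : ℕ → V, w 0 = a ∧ w k = c ∧ ∀ i < k, Γ.Adj (w i) (w (i + 1)) := by
  induction h with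
  | refl n a => exact ⟨0, Nat.zero_le _, fun _ => a, rfl, rfl, by simp⟩
  | @step n a c d _ h ih =>
    obtain ⟨k, hk, w, h1, h2, h3⟩ := ih
    refine ⟨k + 1, by omega, fun i => if i ≤ k then w i else d, by simp [h1], by simp, fun i hi => ?_⟩
    by_cases e : i = k
    · simp [e, h2, h]
    · beta_reduce
      rw [if_pos (by omega), if_pos (by omega)]
      exact h3 i (by omega)

theorem nr_of_path {w : ℕ → V} {k : ℕ} (h : ∀ i < k, Γ.Adj (w i) (w (i + 1))) (i j : ℕ)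
    (hk : i + j ≤ k) : Nr Γ j (w i) (w (i + j)) := by
  induction j with
  | zero => exact .refl _ _
  | succ j ih => exact (ih (by omega)).step (h (i + j) (by omega))

theorem Ball_anti {n m : ℕ} (h : n ≤ m) (v : V) : Ball G Γ m v ≤ Ball G Γ n v :=
  fun _ hx w hw => hx w (hw.mono h)

namespace Setup

variable (S : Setup G Γ)
include S

theorem loc_conj (A : LocAlt Γ x π f) (g : G) : LocAlt Γ (g • x) (fun h => π (g⁻¹ * h * g)) f := by
  have k : ∀ (h : G) (v : V), h • g • v = g • v → (g⁻¹ * h * g) • v = v := fun h v e => by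
    rw [mul_smul, mul_smul, e, inv_smul_smul]
  refine ⟨fun a b ha hb => ?_, fun a ha => ?_, fun a ha => A.fib _ (k a x ha), A.big, fun u σ hσ => ?_⟩
  · rw [← A.mul _ _ (k a x ha) (k b x hb)]; congr 1; group
  · rw [A.ker _ (k a x ha), ← S.eqvK.cj_eq, mem_cj]
  · obtain ⟨a, h1, rfl⟩ := A.lift u σ hσ
    exact ⟨g * a * g⁻¹, by rw [conj_smul, h1], by simp [mul_assoc]⟩

theorem exists_rho {R : Ω → Ω → G} {τ : Perm Ω} (h : Γ.Adj x y) (A : ArcS Γ x y π f R τ) :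
    ∃ ρ : V → V → Set G, Eqv2 ρ ∧ ∀ x y, Γ.Adj x y → ∃ (π : G → Perm Ω) (R : Ω → Ω → G) (τ : Perm Ω),
      ArcS Γ x y π f R τ ∧ ∀ z, z ∈ ρ x y ↔ ∃ u, τ u ≠ u ∧ z = R u (τ u) := by
  refine ⟨fun a b => {z | ∃ g : G, g • x = a ∧ g • y = b ∧ ∃ u, τ u ≠ u ∧ z = g * R u (τ u) * g⁻¹},
    ?_, fun a b hab => ?_⟩
  · rintro k _ _ _ ⟨g, rfl, rfl, u, hu, rfl⟩
    exact ⟨k * g, mul_smul _ _ _, mul_smul _ _ _, u, hu, by group⟩
  obtain ⟨g₀, g0⟩ := S.trans x a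
  obtain ⟨g₁, g1, g2⟩ := S.loc a (g₀ • y) b (by simpa [g0] using S.adj g₀ _ _ h) hab
  obtain ⟨g, rfl, rfl⟩ : ∃ g : G, g • x = a ∧ g • y = b :=
    ⟨g₁ * g₀, by rw [mul_smul, g0, g1], by rw [mul_smul, g2]⟩
  refine ⟨_, _, τ, S.arc_conj A g, fun z => ⟨?_, fun ⟨u, hu, e⟩ => ⟨g, rfl, rfl, u, hu, e⟩⟩⟩
  rintro ⟨k, k1, k2, u, hu, rfl⟩
  have e1 : (g⁻¹ * k) • x = x := by rw [mul_smul, k1, inv_smul_smul]
  have e2 : (g⁻¹ * k) • y = y := by rw [mul_smul, k2, inv_smul_smul]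
  refine ⟨π (g⁻¹ * k) u, ?_, ?_⟩
  · rw [← A.cm _ e1 e2]; exact (π _).injective.ne hu
  · rw [← A.cm _ e1 e2, ← A.rt.eqv _ e1]; group

theorem persist {ρ : V → V → Set G} (hρ : Eqv2 ρ)
    (hA : ∀ x y, Γ.Adj x y → ∃ (π : G → Perm Ω) (R : Ω → Ω → G) (τ : Perm Ω), ArcS Γ x y π f R τ ∧
      ∀ z, z ∈ ρ x y ↔ ∃ u, τ u ≠ u ∧ z = R u (τ u))
    (hE : ∀ u v, Γ.Adj u v → KK G Γ u ⊓ KK G Γ v ≤ Op 2 (KK G Γ v))
    (hZ : ∀ u v, Γ.Adj u v → ∃ z ∈ ZZ G Γ 2 u ⊓ ZZ G Γ 2 v, z ≠ 1) {m : ℕ}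
    (hb : ∀ n < m + 3, ∀ a c, Nr Γ n a c → ZZ G Γ 2 a ≤ KK G Γ c) {w₀ : ℕ → V}
    (h1 : ∀ i < m + 3, Γ.Adj (w₀ i) (w₀ (i + 1))) (h2 : ¬ ZZ G Γ 2 (w₀ 0) ≤ KK G Γ (w₀ (m + 3))) :
    m + 3 ≤ 2 * Fintype.card Ω := by
  let W := {w : ℕ → V // (∀ i < m + 3, Γ.Adj (w i) (w (i + 1))) ∧
    ¬ ZZ G Γ 2 (w 0) ≤ KK G Γ (w (m + 3))}
  have step : ∀ w : W, ∃ w' : W, (∀ i < m + 3, w'.1 i = w.1 (i + 1)) ∧ ∃ t ∈ ZZ G Γ 2 (w.1 0),
      (∀ z ∈ ρ (w'.1 (m + 3)) (w.1 (m + 3)), t * z = z * t → z ∈ ρ (w.1 (m + 2)) (w.1 (m + 3))) ∧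
      (∀ z ∈ ρ (w.1 (m + 3)) (w'.1 (m + 3)), t * z = z * t → z ∈ ρ (w.1 (m + 3)) (w.1 (m + 2))) ∧
      ∃ z ∈ ρ (w.1 (m + 3)) (w.1 (m + 2)), z ∈ ZZ G Γ 2 (w.1 0) ∧
        z ∉ ρ (w.1 (m + 3)) (w'.1 (m + 3)) := by
    rintro ⟨w, k1, k2⟩
    have n1 := nr_of_path k1 0 (m + 2) (by omega)
    have n2 := nr_of_path k1 1 (m + 2) (by omega)
    have n3 := nr_of_path k1 2 (m + 1) (by omega)
    have n4 := nr_of_path k1 1 (m + 1) (by omega)
    rw [show 1 + (m + 2) = m + 3 by omega] at n2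
    rw [show 2 + (m + 1) = m + 3 by omega] at n3
    rw [zero_add] at n1
    obtain ⟨δ, d1, d2, d3⟩ := S.shift2 hρ hA hE hZ (k1 0 (by omega)) (k1 (m + 2) (by omega)).symm
      (ZQ hE hb (by omega) n1) (ZQ hE hb (by omega) n2.symm) (fun δ d1 d2 =>
        (le_inf (hb (m + 2) (by omega) _ _ (n3.symm.cons d1.symm)) d2).trans
          (hE _ _ (k1 1 (by omega)).symm)) k2
    refine ⟨⟨fun i => if i < m + 3 then w (i + 1) else δ, fun i hi => ?_, ?_⟩, fun i hi => if_pos hi,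
      by simpa using d3⟩
    · by_cases e : i + 1 < m + 3
      · simp only [if_pos hi, if_pos e]; exact k1 _ e
      · simp only [if_pos hi, if_neg e]
        rwa [show i + 1 = m + 3 by omega]
    · simp only [if_pos (show 0 < m + 3 by omega), lt_irrefl, if_false]
      exact S.crit_symm hE hZ hb (show m + 2 < m + 3 by omega) (n3.symm.cons d1.symm)
        (k1 1 (by omega)).symm n2 d1 d2
  choose nx s1 t t1 t2 t3 z z1 z2 z3 using step
  let w : ℕ → W := fun i => nx^[i] ⟨w₀, h1, h2⟩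
  have hw : ∀ i, w (i + 1) = nx (w i) := fun i => Function.iterate_succ_apply' _ _ _
  let x : ℕ → V := fun i => (w i).1 0
  have e : ∀ k ≤ m + 3, ∀ i, (w i).1 k = x (i + k) := fun k => by
    induction k with
    | zero => exact fun _ _ => rfl
    | succ k ih =>
      intro hk i
      rw [← s1 (w i) k hk, ← hw, ih (by omega), add_right_comm, add_assoc]
  have adj : ∀ i, Γ.Adj (x i) (x (i + 1)) := fun i => by
    have := (w i).2.1 0 (by omega)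
    rwa [e (0 + 1) (by omega)] at this
  have cm : ∀ l i, l ≤ i → i < m + 3 → ∀ y ∈ ZZ G Γ 2 (x i), t (w l) * y = y * t (w l) :=
    fun l i h h' y hy => by
      obtain ⟨j, rfl⟩ := Nat.exists_eq_add_of_le h
      exact hy.2.2.2 _ (ZQ hE hb (show j < m + 3 by omega)
        (nr_of_path (k := l + j) (fun i _ => adj i) l j le_rfl) (t1 (w l)))
  have T2 : ∀ l, ∀ y ∈ ρ (x (l + m + 4)) (x (l + m + 3)), t (w l) * y = y * t (w l) →
      y ∈ ρ (x (l + m + 2)) (x (l + m + 3)) := fun l => by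
    have := t2 (w l)
    rwa [← hw, e _ le_rfl, e _ le_rfl, e _ (by omega), show l + 1 + (m + 3) = l + m + 4 by omega] at this
  have T3 : ∀ l, ∀ y ∈ ρ (x (l + m + 3)) (x (l + m + 4)), t (w l) * y = y * t (w l) →
      y ∈ ρ (x (l + m + 3)) (x (l + m + 2)) := fun l => by
    have := t3 (w l)
    rwa [← hw, e _ le_rfl, e _ le_rfl, e _ (by omega), show l + 1 + (m + 3) = l + m + 4 by omega] at this
  have Z1 : ∀ l, z (w l) ∈ ρ (x (l + m + 3)) (x (l + m + 2)) := fun l => by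
    have := z1 (w l)
    rwa [e _ le_rfl, e _ (by omega)] at this
  have Z3 : ∀ l, z (w l) ∉ ρ (x (l + m + 3)) (x (l + m + 4)) := fun l => by
    have := z3 (w l)
    rwa [← hw, e _ le_rfl, e _ le_rfl, show l + 1 + (m + 3) = l + m + 4 by omega] at this
  have down : ∀ j l, l + 2 * j + 2 < m + 3 → z (w (l + 2 * j + 2)) ∈ ρ (x (l + m + 3)) (x (l + m + 4)) ∧
      z (w (l + 2 * j + 2)) ∈ ρ (x (l + m + 3)) (x (l + m + 2)) := fun j => by
    have k : ∀ l i, l + 2 ≤ i → i < m + 3 → z (w i) ∈ ρ (x (l + 2 + m + 3)) (x (l + 2 + m + 2)) →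
        z (w i) ∈ ρ (x (l + m + 3)) (x (l + m + 4)) ∧ z (w i) ∈ ρ (x (l + m + 3)) (x (l + m + 2)) :=
      fun l i h h' hy => by
        have k1 := T2 (l + 1) _ (by convert hy using 3 <;> omega) (cm _ i (by omega) h' _ (z2 _))
        have k2 : z (w i) ∈ ρ (x (l + m + 3)) (x (l + m + 4)) := by convert k1 using 3 <;> omega
        exact ⟨k2, T3 l _ k2 (cm _ i (by omega) h' _ (z2 _))⟩
    induction j with
    | zero => exact fun l h => k l _ le_rfl h (Z1 _)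
    | succ j ih =>
      intro l h
      refine k l _ (by omega) h ?_
      rw [show l + 2 * (j + 1) + 2 = l + 2 + 2 * j + 2 by omega]
      exact (ih (l + 2) (by omega)).2
  obtain ⟨π, R, τ, -, hr⟩ := hA (x (0 + m + 3)) (x (0 + m + 2)) (adj _).symm
  have ex : ∀ k : Fin ((m + 4) / 2), ∃ u, z (w (2 * k)) = R u (τ u) := fun ⟨k, hk⟩ => by
    refine ((hr _).1 ?_).imp fun u hu => hu.2
    rcases k with _ | k
    · exact Z1 0
    · have := (down k 0 (by omega)).2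
      rwa [show 0 + 2 * k + 2 = 2 * (k + 1) by omega] at this
  choose u hu using ex
  have lt : ∀ k k' : Fin ((m + 4) / 2), k < k' → u k ≠ u k' := fun k k' h e => by
    obtain ⟨j, hj⟩ := Nat.exists_eq_add_of_lt (show (k : ℕ) < k' from h)
    have := (down j (2 * k) (by omega)).1
    rw [show 2 * (k : ℕ) + 2 * j + 2 = 2 * k' by omega, hu, ← e, ← hu] at this
    exact Z3 _ this
  have := Fintype.card_le_of_injective u fun k k' e => by
    by_contra hc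
    rcases lt_or_gt_of_ne hc with h | h
    · exact lt _ _ h e
    · exact lt _ _ h e.symm
  rw [Fintype.card_fin] at this
  omega

theorem ball_alt (hL : LocAlt Γ x π f) (v : V) : Ball G Γ (2 * Fintype.card Ω + 4) v = ⊥ := by
  classical
  by_contra h0
  obtain ⟨u, h⟩ : ∃ u, Γ.Adj u v := by
    by_contra h
    refine h0 ((eq_bot_iff_forall _).2 fun g hg => S.faith g fun w => hg w ?_)
    obtain ⟨n, hn⟩ := exists_nr S.conn w v
    cases hn with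
    | refl => exact .refl _ _
    | step _ h' => exact absurd ⟨_, h'⟩ h
  have ed : ∀ n, n ≤ 2 * Fintype.card Ω + 3 → ∀ a c, Γ.Adj a c → Ball G Γ n a ⊓ Ball G Γ n c ≠ ⊥ :=
    fun n hn a c hac e => (S.eqvB _).ne_bot S h0 c (le_bot_iff.1 (e ▸ le_inf
      (fun g hg w hw => hg w ((hw.cons hac.symm).mono (by omega))) (Ball_anti (by omega) c)))
  have hD := ed 3 (by omega)
  obtain ⟨p, hp, h1⟩ := S.exists_prime h fun e => hD u v h (le_bot_iff.1 (e ▸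
    inf_le_inf (Ball_le (.refl 0 u) (by omega)) (Ball_le (.refl 0 v) (by omega))))
  have hE := fun u v h => S.E_le hp h1 (u := u) (v := v) h
  have hZ := fun a c h => S.ZZ_inter hp h1 (u := a) (v := c) h (hD a c h)
  have ex : ∃ n, ∃ a c, Nr Γ n a c ∧ ¬ ZZ G Γ p a ≤ KK G Γ c := by
    by_contra hc
    push Not at hc
    obtain ⟨z, hz, hz1⟩ := hZ u v h
    exact hz1 (S.faith z fun w => (exists_nr S.conn u w).elim fun n hn => (hc n u w hn hz.1).1)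
  obtain ⟨a, c, n1, h2⟩ := Nat.find_spec ex
  have hb : ∀ n < Nat.find ex, ∀ a c, Nr Γ n a c → ZZ G Γ p a ≤ KK G Γ c := fun n hn a c k => by
    by_contra hc
    exact Nat.find_min ex hn ⟨a, c, k, hc⟩
  obtain ⟨m, hm⟩ : ∃ m, Nat.find ex = m + 3 := ⟨Nat.find ex - 3, by
    by_contra hc
    exact h2 fun g hg => Ball_le n1 (by omega) hg.2.1⟩
  rw [hm] at hb n1
  obtain ⟨k, hk, w, rfl, rfl, h3⟩ := n1.path
  obtain rfl : k = m + 3 := by
    by_contra hc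
    exact h2 (hb k (by omega) _ _ (by simpa using nr_of_path h3 0 k (by omega)))
  have n2 := nr_of_path h3 0 (m + 2) (by omega)
  have n3 := nr_of_path h3 1 (m + 2) (by omega)
  rw [show 1 + (m + 2) = m + 3 by omega] at n3
  rw [zero_add] at n2
  have a1 := h3 0 (by omega)
  have a2 := h3 (m + 2) (by omega)
  have z1 := ZQ hE hb (by omega) n2
  have z2 := ZQ hE hb (by omega) n3.symm
  have fc : ∀ z ∈ ZZ G Γ p (w 0), z • w (m + 3) = w (m + 3) := fun z hz => (Op_le _ (z1 hz)).2 _ a2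
  have fa : ∀ z ∈ ZZ G Γ p (w (m + 3)), z • w 0 = w 0 := fun z hz => (Op_le _ (z2 hz)).2 _ a1.symm
  have hL' : ∀ v, ∃ π : G → Perm Ω, LocAlt Γ v π f := fun v => by
    obtain ⟨g, rfl⟩ := S.trans x v
    exact ⟨_, S.loc_conj hL g⟩
  obtain ⟨rfl, x, y, π, R, hxy, k1, k2, i, j, k3⟩ : p = 2 ∧ ∃ (x y : V) (π : G → Perm Ω) (R : Ω → Ω → G),
      Γ.Adj x y ∧ LocAlt Γ x π f ∧ Rt Γ p x π f R ∧ ∃ i j, i ≠ j ∧ f j = f i ∧ Gd' f R i ∧
      ∀ w, f w = f i → w ≠ i → w ≠ j → ∃ q ∈ Op p (KK G Γ y), π q i = j ∧ π q j = i ∧ π q w = w := by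
    rcases le_total (Nat.card (ZZ G Γ p (w 0) ⊓ centralizer (ZZ G Γ p (w (m + 3))) : Subgroup G))
      (Nat.card (ZZ G Γ p (w (m + 3)) ⊓ centralizer (ZZ G Γ p (w 0)) : Subgroup G)) with k | k
    · obtain ⟨π, hπ⟩ := hL' (w (m + 3))
      obtain ⟨e, R, k1⟩ := S.roots hp hE hZ a2 z1 h2 fa k hπ
      exact ⟨e, _, _, π, R, a2.symm, hπ, k1⟩
    · obtain ⟨π, hπ⟩ := hL' (w 0)
      obtain ⟨e, R, k1⟩ := S.roots hp hE hZ a1.symm z2 (S.crit_symm hE hZ hb (by omega) n2 a2 n3.symm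
        a1.symm h2) fc k hπ
      exact ⟨e, _, _, π, R, a1, hπ, k1⟩
  obtain ⟨τ, A⟩ := S.exists_arc hxy k1 k2 k3.1 k3.2.1 k3.2.2.1 k3.2.2.2
  obtain ⟨ρ, hρ, hA⟩ := S.exists_rho hxy A
  have h4 := S.persist hρ hA hE hZ hb h3 h2
  obtain ⟨t, ht, s, hs, ts⟩ := exists_moved h2 fc
  have h5 : ∀ g ∈ Ball G Γ (m + 4) s ⊓ Ball G Γ (m + 4) (w (m + 3)), g * t = t * g := fun g hg =>
    ht.2.2.2 g (hE _ _ a1.symm ⟨Ball_le n3.symm (by omega) hg.2, Ball_le n1.symm (by omega) hg.2⟩)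
  refine ed (m + 4) (by omega) _ _ hs ((eq_bot_iff_forall _).2 (S.TL1
    (F := fun u v => ((Ball G Γ (m + 4) u ⊓ Ball G Γ (m + 4) v : Subgroup G) : Set G))
    (fun g u v x hx => ⟨S.eqvB _ g u x hx.1, S.eqvB _ g v x hx.2⟩) hs (by simp only [inf_comm])
    (fun x hx => ⟨hx.1 _ (.refl _ _), hx.2 _ (.refl _ _)⟩) (mem_nrm (fun x hx => ?_) fun x hx => ?_)
    (fc t ht) ts))
  · rwa [← h5 x hx, mul_inv_cancel_right]
  · rwa [mul_assoc, h5 x hx, inv_mul_cancel_left]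

end Setup

end Pool.Agent.Lib.MP_03ba20_al
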