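import Mathlib

namespace Pool.Agent.Lib.MP_03ba20_al

/-- The permutation group induced on the neighbours of `v` by the elements of `H` fixing `v`. -/
def localGroup {V : Type} {G : SimpleGraph V} (H : Subgroup (G ≃g G)) (v : V) :
    Subgroup (Equiv.Perm (G.neighborSet v)) where
  carrier := {σ | ∃ h ∈ H, h v = v ∧ ∀ x : G.neighborSet v, (σ x : V) = h x}
  one_mem' := ⟨1, one_mem _, rfl, fun _ => rfl⟩
  mul_mem' := by
    rintro σ τ ⟨h, h1, h2, h4⟩ ⟨k, k1, k2, k4⟩
    exact ⟨h * k, mul_mem h1 k1, by simp [h2, k2], fun x => by simp [h4, k4]⟩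
  inv_mem' := by
    rintro σ ⟨h, h1, h2, h4⟩
    exact ⟨h⁻¹, inv_mem h1, h.injective (by simp [h2]), fun x => h.injective (by simp [← h4])⟩

/-- The socle: the subgroup generated by the minimal normal subgroups. -/
def socle (L : Type) [Group L] : Subgroup L :=
  sSup {N | Minimal (fun M : Subgroup L => M.Normal ∧ M ≠ ⊥) N}

end Pool.Agent.Lib.MP_03ba20_al
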