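import Pool.Agent.Lib.MP_03ba20_al.Tree

namespace Pool.Agent.Lib.MP_03ba20_al.Rad

variable {V : Type*} {Γ : SimpleGraph V}

section Conj

variable (N : ℕ) (v : V) (H H' : Subgroup (Γ ≃g Γ))

/-- elements moving `v` by at most one and agreeing on the ball of radius `N + 1`. -/
def Rl (s s' : Γ ≃g Γ) : Prop :=
  s ∈ H ∧ s' ∈ H' ∧ Nr Γ 1 v (s v) ∧ ∀ w, Nr Γ (N + 1) v w → s w = s' w

/-- corresponding words. -/
inductive Wd : (Γ ≃g Γ) → (Γ ≃g Γ) → Prop
  | one : Wd 1 1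
  | mul {h h' s s' : Γ ≃g Γ} : Wd h h' → Rl N v H H' s s' → Wd (h * s) (h' * s')

/-- corresponding geodesic words. -/
inductive Gd : (Γ ≃g Γ) → (Γ ≃g Γ) → Prop
  | base {s s' : Γ ≃g Γ} : Rl N v H H' s s' → s v = v → Gd s s'
  | step {h h' s s' : Γ ≃g Γ} : Gd h h' → Rl N v H H' s s' →
      Γ.dist v ((h * s) v) = Γ.dist v (h v) + 1 → Gd (h * s) (h' * s')

/-- `H'` has the same local data as `H`. -/
structure Same : Prop where
  partner : ∀ s ∈ H, Nr Γ 1 v (s v) → ∃ s', Rl N v H H' s s'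
  inj : ∀ h ∈ H', (∀ w, Nr Γ N v w → h w = w) → h = 1
  trans : ∀ w, ∃ h ∈ H, h v = w

variable {N v H H'}

theorem Rl.symm {s s' : Γ ≃g Γ} (h : Rl N v H H' s s') : Rl N v H' H s' s :=
  ⟨h.2.1, h.1, h.2.2.2 v (.refl _ _) ▸ h.2.2.1, fun w hw => (h.2.2.2 w hw).symm⟩

theorem Wd.symm {h h' : Γ ≃g Γ} (w : Wd N v H H' h h') : Wd N v H' H h' h := by
  induction w with
  | one => exact .one
  | mul _ r ih => exact ih.mul r.symm

theorem Wd.mem {h h' : Γ ≃g Γ} (w : Wd N v H H' h h') : h ∈ H ∧ h' ∈ H' := by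
  induction w with
  | one => exact ⟨one_mem _, one_mem _⟩
  | mul _ r ih => exact ⟨mul_mem ih.1 r.1, mul_mem ih.2 r.2.1⟩

theorem Wd.mul' {h h' k k' : Γ ≃g Γ} (w : Wd N v H H' h h') (w' : Wd N v H H' k k') :
    Wd N v H H' (h * k) (h' * k') := by
  induction w' with
  | one => simpa using w
  | mul _ r ih => rw [← mul_assoc, ← mul_assoc]; exact ih.mul r

theorem Same.rl_mul (S : Same N v H H') {s s' t t' : Γ ≃g Γ} (h : Rl N v H H' s s')
    (k : Rl N v H H' t t') (e : Nr Γ 1 v ((s * t) v)) : Rl N v H H' (s * t) (s' * t') := by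
  obtain ⟨r, hr⟩ := S.partner _ (mul_mem h.1 k.1) e
  have : r⁻¹ * (s' * t') = 1 := S.inj _ (mul_mem (inv_mem hr.2.1) (mul_mem h.2.1 k.2.1))
    fun w hw => by
      have h5 : Nr Γ (N + 1) v w := hw.succ
      have h1 : s' (t' w) = r w := by
        rw [← k.2.2.2 w h5, ← h.2.2.2 _ (Nat.add_comm 1 N ▸ k.2.2.1.trans (hw.map t)), ← hr.2.2.2 w h5]; rfl
      change r⁻¹ (s' (t' w)) = w
      rw [h1]; exact r.symm_apply_apply w
  rwa [← inv_mul_eq_one.1 this]

theorem Same.rl_inv (S : Same N v H H') {s s' : Γ ≃g Γ} (h : Rl N v H H' s s') :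
    Rl N v H H' s⁻¹ s'⁻¹ := by
  obtain ⟨r, hr⟩ := S.partner _ (inv_mem h.1) (by
    have := (h.2.2.1.map s⁻¹).symm
    rwa [show s⁻¹ (s v) = v from s.symm_apply_apply v] at this)
  have h1 := S.rl_mul h hr (by rw [mul_inv_cancel]; exact .refl _ _)
  rw [mul_inv_cancel] at h1
  have := S.inj _ h1.2.1 fun w hw => (h1.2.2.2 w hw.succ).symm
  rwa [← eq_inv_of_mul_eq_one_right this]

theorem Same.wd_inv (S : Same N v H H') {h h' : Γ ≃g Γ} (w : Wd N v H H' h h') :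
    Wd N v H H' h⁻¹ h'⁻¹ := by
  induction w with
  | one => simpa using Wd.one
  | mul _ r ih =>
    rw [mul_inv_rev, mul_inv_rev]
    simpa using (Wd.one.mul (S.rl_inv r)).mul' ih

theorem Same.gd_mulC (S : Same N v H H') {h h' c c' : Γ ≃g Γ} (g : Gd N v H H' h h')
    (r : Rl N v H H' c c') (e : c v = v) : Gd N v H H' (h * c) (h' * c') := by
  cases g with
  | base r' e' =>
    have : (h * c) v = v := by change h (c v) = v; rw [e, e']
    exact .base (S.rl_mul r' r (by rw [this]; exact .refl _ _)) this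
  | @step k k' s s' g r' e' =>
    have : (s * c) v = s v := by change s (c v) = _; rw [e]
    rw [mul_assoc, mul_assoc]
    refine g.step (S.rl_mul r' r (by rw [this]; exact r'.2.2.1)) ?_
    change Γ.dist v (k ((s * c) v)) = _
    rw [this]; exact e'

theorem Same.gd_mul (S : Same N v H H') (hT : Γ.IsTree) {h h' s s' : Γ ≃g Γ} (g : Gd N v H H' h h')
    (r : Rl N v H H' s s') : Gd N v H H' (h * s) (h' * s') := by
  rcases nr_one r.2.2.1 with e | e
  · exact S.gd_mulC g r e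
  have e1 : Γ.Adj (h v) ((h * s) v) := h.map_adj_iff.2 e
  rcases hT.dist_eq_dist_add_one_of_adj v e1 with d | d
  swap
  · exact g.step r d
  cases g with
  | base _ e' => rw [e'] at d; simp at d
  | @step k k' t t' g r' e' =>
    have e2 : Γ.Adj (k v) ((k * t) v) := by
      rcases nr_one r'.2.2.1 with e3 | e3
      · exfalso
        change Γ.dist v (k (t v)) = _ at e'
        rw [e3] at e'; omega
      · exact k.map_adj_iff.2 e3
    have e4 : (t * s) v = v := k.injective (parent_unique hT v e1.symm e2 d e')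
    rw [mul_assoc, mul_assoc]
    exact S.gd_mulC g (S.rl_mul r' r (by rw [e4]; exact .refl _ _)) e4

theorem Same.fix (S : Same N v H H') (hT : Γ.IsTree) {h h' : Γ ≃g Γ} (w : Wd N v H H' h h')
    (e : h v = v) : h' v = v := by
  have g : Gd N v H H' h h' := by
    clear e
    induction w with
    | one => exact .base ⟨one_mem _, one_mem _, .refl _ _, fun _ _ => rfl⟩ rfl
    | mul _ r ih => exact S.gd_mul hT ih r
  cases g with
  | base r _ => rw [← r.2.2.2 v (.refl _ _), e]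
  | step _ _ d => rw [e] at d; simp at d

theorem Same.step (S : Same N v H H') {h h' : Γ ≃g Γ} (w : Wd N v H H' h h') {y : V}
    (e : Γ.Adj (h v) y) : ∃ k k', Wd N v H H' k k' ∧ k v = y ∧ Γ.Adj (h' v) (k' v) := by
  obtain ⟨s, hs, e1⟩ := S.trans (h⁻¹ y)
  have e2 : Γ.Adj v (s v) := by
    rw [e1, ← h.map_adj_iff]
    rwa [show h (h⁻¹ y) = y from h.apply_symm_apply y]
  obtain ⟨s', r⟩ := S.partner s hs ((Nr.refl 0 v).step e2)
  refine ⟨_, _, w.mul r, ?_, h'.map_adj_iff.2 (r.2.2.2 v (.refl _ _) ▸ e2)⟩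
  change h (s v) = y
  rw [e1]; exact h.apply_symm_apply y

theorem Same.exists_wd (S : Same N v H H') (hT : Γ.IsTree) (y : V) :
    ∃ k k', Wd N v H H' k k' ∧ k v = y := by
  obtain ⟨n, hn⟩ := exists_nr hT.connected.preconnected v y
  induction hn with
  | refl => exact ⟨1, 1, .one, rfl⟩
  | step _ e ih =>
    obtain ⟨h, h', w, rfl⟩ := ih S
    obtain ⟨k, k', w', e', -⟩ := S.step w e
    exact ⟨k, k', w', e'⟩

theorem Same.exists_map (S : Same N v H H') (hT : Γ.IsTree) :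
    ∃ f : V → V, (∀ h h', Wd N v H H' h h' → f (h v) = h' v) ∧
      ∀ x y, Γ.Adj x y → Γ.Adj (f x) (f y) := by
  choose k k' w e using S.exists_wd hT
  have h1 : ∀ h h', Wd N v H H' h h' → k' (h v) v = h' v := fun h h' wh => by
    have := S.fix hT ((S.wd_inv wh).mul' (w (h v))) (by
      change h⁻¹ (k (h v) v) = v
      rw [e]; exact h.symm_apply_apply v)
    exact (h'.apply_symm_apply _).symm.trans (congrArg h' this)
  refine ⟨fun y => k' y v, h1, fun x y hxy => ?_⟩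
  obtain ⟨l, l', wl, rfl, e'⟩ := S.step (w x) (y := y) (by rwa [e])
  beta_reduce
  rwa [h1 l l' wl]

theorem Same.exists_partner (S : Same N v H H') (hT : Γ.IsTree) {x : Γ ≃g Γ} (hx : x ∈ H) :
    ∃ x', Wd N v H H' x x' := by
  obtain ⟨k, k', w, e⟩ := S.exists_wd hT (x v)
  obtain ⟨c', r⟩ := S.partner (k⁻¹ * x) (mul_mem (inv_mem w.mem.1) hx) (by
    change Nr Γ 1 v (k⁻¹ (x v))
    rw [← e, show k⁻¹ (k v) = v from k.symm_apply_apply v]; exact .refl _ _)
  exact ⟨_, by simpa using w.mul r⟩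

theorem Same.conj (S : Same N v H H') (S' : Same N v H' H) (hT : Γ.IsTree) :
    ∃ g : Γ ≃g Γ, ∀ x, x ∈ H ↔ g⁻¹ * x * g ∈ H' := by
  obtain ⟨f, f1, f2⟩ := S.exists_map hT
  obtain ⟨f', f1', f2'⟩ := S'.exists_map hT
  have i1 : ∀ y, f' (f y) = y := fun y => by
    obtain ⟨k, k', w, rfl⟩ := S.exists_wd hT y
    rw [f1 _ _ w, f1' _ _ w.symm]
  have i2 : ∀ y, f (f' y) = y := fun y => by
    obtain ⟨k, k', w, rfl⟩ := S'.exists_wd hT y
    rw [f1' _ _ w, f1 _ _ w.symm]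
  let g : Γ ≃g Γ := ⟨⟨f', f, i2, i1⟩, fun {a b} =>
    ⟨fun h => by simpa [i2] using f2 _ _ h, f2' a b⟩⟩
  have key : ∀ x x', Wd N v H H' x x' → g⁻¹ * x * g = x' := fun x x' w => by
    ext y
    obtain ⟨k, k', w', rfl⟩ := S'.exists_wd hT y
    change f (x (f' (k v))) = x' (k v)
    rw [f1' _ _ w']
    exact f1 _ _ (w.mul' w'.symm)
  refine ⟨g, fun x => ⟨fun hx => ?_, fun hx => ?_⟩⟩
  · obtain ⟨x', w⟩ := S.exists_partner hT hx
    rw [key _ _ w]; exact w.mem.2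
  · obtain ⟨x', w⟩ := S'.exists_partner hT hx
    have := key _ _ w.symm
    rw [mul_right_cancel_iff, mul_left_cancel_iff] at this
    rw [← this]; exact w.mem.2

end Conj

/-- finitely many conjugacy classes of vertex-transitive groups with trivial ball stabilisers. -/
theorem finite_classes (N : ℕ) (hT : Γ.IsTree) (hf : ∀ v, (Γ.neighborSet v).Finite) :
    ∃ S : Set (Subgroup (Γ ≃g Γ)), S.Finite ∧ ∀ H : Subgroup (Γ ≃g Γ),
      (∀ v w : V, ∃ h ∈ H, h v = w) →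
      (∀ v, ∀ h ∈ H, (∀ w, Nr Γ N v w → h w = w) → h = 1) →
      ∃ K ∈ S, ∃ g : Γ ≃g Γ, ∀ x, x ∈ H ↔ g⁻¹ * x * g ∈ K := by
  classical
  obtain ⟨v⟩ := hT.connected.nonempty
  have := (finite_nr hf v (N + 1)).to_subtype
  have := (finite_nr hf v (1 + (N + 1))).to_subtype
  let D : Subgroup (Γ ≃g Γ) → Set ({w | Nr Γ (N + 1) v w} → {w | Nr Γ (1 + (N + 1)) v w}) := fun H =>
    {f | ∃ s ∈ H, Nr Γ 1 v (s v) ∧ ∀ w, (f w : V) = s w}
  let P : Subgroup (Γ ≃g Γ) → Prop := fun H => (∀ w : V, ∃ h ∈ H, h v = w) ∧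
    ∀ h ∈ H, (∀ w, Nr Γ N v w → h w = w) → h = 1
  have same : ∀ H H', P H → P H' → D H = D H' → Same N v H H' := fun H H' h h' e =>
    ⟨fun s hs h1 => by
      obtain ⟨s', hs', -, h2⟩ : (fun w => ⟨s w, h1.trans (Nr.map s w.2)⟩) ∈ D H' :=
        e ▸ ⟨s, hs, h1, fun _ => rfl⟩
      exact ⟨s', hs, hs', h1, fun w hw => h2 ⟨w, hw⟩⟩, h'.2, h.1⟩
  refine ⟨Set.range fun d => if h : ∃ H, P H ∧ D H = d then h.choose else ⊥, Set.finite_range _,
    fun H h1 h2 => ?_⟩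
  have hP : P H := ⟨h1 v, h2 v⟩
  have h : ∃ H', P H' ∧ D H' = D H := ⟨H, hP, rfl⟩
  exact ⟨h.choose, ⟨D H, dif_pos h⟩, (same _ _ hP h.choose_spec.1 h.choose_spec.2.symm).conj
    (same _ _ h.choose_spec.1 hP h.choose_spec.2) hT⟩

end Pool.Agent.Lib.MP_03ba20_al.Rad
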