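import Pool.Agent.Lib.MP_03ba20_al.Defs
import Pool.Agent.Lib.MP_03ba20_al.Tree

namespace Pool.Agent.Lib.MP_03ba20_al

open Subgroup MulAction

variable {V : Type} {Γ : SimpleGraph V} {H : Subgroup (Γ ≃g Γ)}

theorem setup_of (hc : Γ.Preconnected) (h1 : ∀ v : V, {h : Γ ≃g Γ | h ∈ H ∧ h v = v}.Finite)
    (h2 : ∀ v w : V, ∃ h ∈ H, h v = w)
    (h3 : ∀ v : V, (∀ x ∈ Γ.neighborSet v, ∀ y ∈ Γ.neighborSet v, ∃ h ∈ H, h v = v ∧ h x = y) ∧
      ∀ B : Set V, B ⊆ Γ.neighborSet v →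
        (∀ h ∈ H, h v = v → ((⇑h) '' B = B ∨ Disjoint ((⇑h) '' B) B)) →
        B.Subsingleton ∨ B = Γ.neighborSet v) : Setup H Γ where
  adj g _ _ h := g.1.map_adj_iff.2 h
  conn := hc
  faith g hg := Subtype.ext (RelIso.ext hg)
  fin v := by
    have := (h1 v).to_subtype
    exact Finite.of_injective (fun g : stabilizer H v =>
      (⟨g.1.1, g.1.2, g.2⟩ : {h : Γ ≃g Γ | h ∈ H ∧ h v = v}))
      fun a b e => Subtype.ext (Subtype.ext (Subtype.mk.inj e))
  trans v w := (h2 v w).elim fun h hh => ⟨⟨h, hh.1⟩, hh.2⟩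
  loc v u w hu hw := ((h3 v).1 u hu w hw).elim fun h hh => ⟨⟨h, hh.1⟩, hh.2⟩
  prim v u hu M hM t ht t1 t2 w hw := by
    let B : Set V := {y | ∃ h ∈ M, h • v = v ∧ h • u = y}
    have key : ∀ g ∈ M, g • v = v → ∀ y ∈ B, g • y ∈ B := fun g hg g1 y ⟨h, hh, e1, e2⟩ =>
      ⟨g * h, mul_mem hg hh, by rw [mul_smul, e1, g1], by rw [mul_smul, e2]⟩
    rcases (h3 v).2 B (by
      rintro _ ⟨h, -, e, rfl⟩
      have := h.1.map_adj_iff.2 hu
      rwa [show h.1 v = v from e] at this) (fun g hg g1 => by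
        by_cases hd : Disjoint (g '' B) B
        · exact Or.inr hd
        left
        obtain ⟨_, ⟨_, ⟨h, hh, e1, rfl⟩, rfl⟩, h', hh', e1', e2'⟩ := Set.not_disjoint_iff.1 hd
        let g' : H := ⟨g, hg⟩
        have g1' : g' • v = v := g1
        have hg' : g' ∈ M := by
          have := hM (h'⁻¹ * g' * h) (by rw [mul_smul, mul_smul, e1, g1', inv_fix e1'])
            (by rw [mul_smul, mul_smul, inv_smul_eq_iff]; exact e2'.symm)
          simpa [mul_assoc] using mul_mem (mul_mem hh' this) (inv_mem hh)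
        refine Set.Subset.antisymm ?_ fun y hy => ⟨g'⁻¹ • y, key _ (inv_mem hg') (inv_fix g1') y hy,
          smul_inv_smul g' y⟩
        rintro _ ⟨y, hy, rfl⟩
        exact key g' hg' g1' y hy) with h | h
    · exact absurd (h ⟨t, ht, t1, rfl⟩ ⟨1, one_mem _, one_smul _ _, one_smul _ _⟩) t2
    · have : w ∈ B := h ▸ hw
      exact this

/-- restriction to the neighbours. -/
def resP (v : V) (g : H) (hg : g • v = v) : Equiv.Perm (Γ.neighborSet v) :=
  Equiv.Perm.subtypePerm (toPerm g) fun x => by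
    have := g.1.map_adj_iff (v := v) (w := x)
    rwa [show g.1 v = v from hg] at this

/-- restriction to the neighbours, as a homomorphism. -/
def resH (v u : V) : (stabilizer H u ⊓ stabilizer H v : Subgroup H) →* localStab H v u where
  toFun g := ⟨resP v g.1 g.2.2, g.1.1, g.1.2, g.2.2, g.2.1, fun _ => rfl⟩
  map_one' := Subtype.ext (Equiv.ext fun _ => rfl)
  map_mul' _ _ := Subtype.ext (Equiv.ext fun _ => rfl)

theorem resH_surj (v u : V) : Function.Surjective (resH (H := H) v u) := by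
  rintro ⟨σ, h, h1, h2, h3, h4⟩
  exact ⟨⟨⟨h, h1⟩, h3, h2⟩, Subtype.ext (Equiv.ext fun x => Subtype.ext (h4 x).symm)⟩

theorem resH_eq_one {v u : V} (g : (stabilizer H u ⊓ stabilizer H v : Subgroup H)) :
    resH v u g = 1 ↔ g.1 ∈ KK H Γ v :=
  ⟨fun h => ⟨g.2.2, fun w hw => congrArg Subtype.val
      (Equiv.congr_fun (congrArg Subtype.val h) ⟨w, hw⟩)⟩,
    fun h => Subtype.ext (Equiv.ext fun x => Subtype.ext (h.2 x x.2))⟩

theorem rankOne_of (S : Setup H Γ) (h : ∀ v u, Γ.Adj v u → RankOneFitting (localStab H v u))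
    (p : ℕ) (hp : p.Prime) : RankOne H Γ p := by
  intro u v huv x hx y hy x1 y1 x2
  have := Fact.mk hp
  have hle : Op p (KK H Γ u) ≤ stabilizer H u ⊓ stabilizer H v := (Op_le _).trans (by
    rw [inf_comm]; exact (S.nmK huv).1)
  let N := ((Op p (KK H Γ u)).subgroupOf (stabilizer H u ⊓ stabilizer H v)).map (resH v u)
  have hN0 : ((Op p (KK H Γ u)).subgroupOf (stabilizer H u ⊓ stabilizer H v)).Normal :=
    ⟨fun n hn g => (S.eqvQ p).conj g.2.1 hn⟩
  have hN : N.Normal := hN0.map _ (resH_surj v u)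
  have hP : IsPGroup p N := ((Op_pgroup _).comap_subtype).map _
  let x' : (stabilizer H u ⊓ stabilizer H v : Subgroup H) := ⟨x, hle hx⟩
  let y' : (stabilizer H u ⊓ stabilizer H v : Subgroup H) := ⟨y, hle hy⟩
  have card : ∀ z : (stabilizer H u ⊓ stabilizer H v : Subgroup H), z.1 ^ p ∈ KK H Γ v →
      z.1 ∉ KK H Γ v → Nat.card (zpowers (resH v u z)) = p := fun z z1 z2 => by
    rw [Nat.card_zpowers]
    exact orderOf_eq_prime (by rw [← map_pow, resH_eq_one]; exact z1)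
      (by rwa [Ne, resH_eq_one])
  by_cases y2 : y ∈ KK H Γ v
  · exact ⟨0, by simpa using y2⟩
  have e := h v u huv.symm p hp N hN hP _ (zpowers_le.2 ⟨x', hx, rfl⟩) _
    (zpowers_le.2 ⟨y', hy, rfl⟩) (card x' x1 x2) (card y' y1 y2)
  obtain ⟨n, hn⟩ : resH v u y' ∈ zpowers (resH v u x') := e ▸ mem_zpowers _
  refine ⟨n, (resH_eq_one (y' * (x' ^ n)⁻¹)).1 ?_⟩
  rw [map_mul, map_inv, map_zpow, mul_inv_eq_one]
  exact hn.symm

end Pool.Agent.Lib.MP_03ba20_al
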