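import Pool.Agent.Lib.MP_03ba20_al.AltAut
import Pool.Agent.Lib.MP_03ba20_al.AltBound
import Pool.Agent.Lib.MP_03ba20_al.AltTree
import Pool.Agent.Lib.MP_03ba20_al.AltDefs
import Pool.Agent.Lib.MP_03ba20_al.Main

namespace Pool.Agent.Lib.MP_03ba20_al

open Equiv Equiv.Perm Subgroup MulAction

variable {n k : ℕ}

/-- the imprimitive action of a power of an alternating group. -/
def blk (n k : ℕ) : (Fin k → alternatingGroup (Fin n)) →* Perm (Fin k × Fin n) :=
  MonoidHom.mk' (fun x => prodCongrRight fun i => (x i : Perm (Fin n))) fun _ _ => rfl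

theorem blk_apply (x : Fin k → alternatingGroup (Fin n)) (i : Fin k) (a : Fin n) :
    blk n k x (i, a) = (i, (x i : Perm (Fin n)) a) := rfl

theorem blk_prd (hn : 25 ≤ n) : Prd (blk n k) Prod.fst := by
  have big : ∀ u : Fin k × Fin n, 25 ≤ (Fb Prod.fst u).card := fun u => by
    have := Finset.card_le_card_of_injOn (s := Finset.univ) (t := Fb Prod.fst u)
      (fun a : Fin n => (u.1, a)) (fun a _ => mem_Fb.2 rfl) fun a _ b _ e => (Prod.mk.inj e).2
    rw [Finset.card_univ, Fintype.card_fin] at this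
    omega
  refine ⟨fun x y e => funext fun i => Subtype.ext (Equiv.ext fun a => ?_), big, fun u σ hσ => ?_,
    fun T hT s => pi_mem_of_mulSingle_mem s fun i => hT _ (i, ⟨0, by omega⟩) ⟨fun ⟨j, a⟩ h => ?_, ?_⟩,
    fun _ _ => rfl⟩
  · exact (Prod.mk.inj ((blk_apply x i a).symm.trans (e ▸ blk_apply y i a))).2
  · refine alt_le_of_cyc (N := (blk n k).range) ((by norm_num : 5 ≤ 25).trans (big u)) ?_ hσ
    rintro ⟨i, a⟩ ha ⟨j, b⟩ hb ⟨l, c⟩ hc h1 h2 h3
    obtain rfl : j = i := (mem_Fb.1 hb).trans (mem_Fb.1 ha).symm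
    obtain rfl : l = j := (mem_Fb.1 hc).trans (mem_Fb.1 ha).symm
    have k1 : a ≠ b := fun e => h1 (by rw [e])
    have k2 : a ≠ c := fun e => h2 (by rw [e])
    refine ⟨Pi.mulSingle l ⟨cyc a b c, by simp [cyc, k1, k2]⟩, Equiv.ext fun ⟨m, x⟩ => ?_⟩
    rw [blk_apply]
    by_cases e : m = l
    · subst e
      simp only [Pi.mulSingle_eq_same, cyc_apply, swap_apply_def, Prod.mk.injEq, true_and]
      grind
    · rw [Pi.mulSingle_eq_of_ne e, cyc_other] <;> simp [e]
  · exact (sign_prodCongrRight _).trans (Finset.prod_eq_one fun j _ =>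
      mem_alternatingGroup.1 (Subtype.prop _))
  · rw [blk_apply, Pi.mulSingle_eq_of_ne fun e => h (mem_Fb.2 e)]; rfl

theorem Prd.comp {Ω ι X Y : Type*} [DecidableEq Ω] [Fintype Ω] [DecidableEq ι] [Group X] [Group Y]
    {J : Y →* Perm Ω} {f : Ω → ι} (P : Prd J f) (e : X ≃* Y) : Prd (J.comp e.toMonoidHom) f :=
  ⟨P.inj.comp e.injective, P.big, fun u σ h => (P.lift u σ h).elim fun s hs => ⟨e.symm s, by simpa⟩,
    fun T hT s => by
      simpa using P.gen (T.comap e.symm.toMonoidHom) (fun s u h => hT _ u (by simpa)) (e s),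
    fun s => P.fib (e s)⟩

theorem exists_rep {L : Type} [Group L] [Finite L] (hn : 25 ≤ n)
    (e : socle L ≃* (Fin k → alternatingGroup (Fin n))) : k * n ≤ Nat.card L ^ 2 ∧
    ∃ ρ : L →* Perm (Fin k × Fin n), Function.Injective ρ ∧
      (∀ g u v, u.1 = v.1 → (ρ g u).1 = (ρ g v).1) ∧ (∀ u : Fin k × Fin n, 25 ≤ (Fb Prod.fst u).card) ∧
      ∀ u, ∀ σ ∈ alt (Fb Prod.fst u), ∃ g, ρ g = σ := by
  have P := (blk_prd hn).comp e
  generalize (blk n k).comp e.toMonoidHom = J at P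
  have hN : (socle L).Normal := sSup_normal _ fun _ h => h.1.1
  choose σ h1 h2 using fun g : L => P.exists_conj (MulAut.conjNormal g)
  have un : ∀ a b : Perm (Fin k × Fin n), (∀ s, a * J s * a⁻¹ = b * J s * b⁻¹) → a = b := fun a b h =>
    (inv_mul_eq_one.1 (P.eq_one (σ := b⁻¹ * a) fun s => by
      rw [mul_assoc, mul_inv_eq_iff_eq_mul.1 (h s)]; group)).symm
  refine ⟨?_, MonoidHom.mk' σ fun a b => un _ _ fun s => ?_, (injective_iff_map_eq_one _).2 fun g hg => ?_,
    h1, P.big, fun u τ hτ => (P.lift u τ hτ).elim fun s hs => ⟨s, un _ _ fun t => ?_⟩⟩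
  · obtain ⟨m, rfl⟩ := Nat.exists_eq_add_of_le' hn
    have c1 := two_mul_nat_card_alternatingGroup (α := Fin (m + 25))
    have c2 := (Nat.card_congr e.toEquiv).symm.trans_le (Subgroup.card_le_card_group _)
    rw [Nat.card_perm, Nat.card_fin, Nat.factorial_succ] at c1
    rw [Nat.card_fun, Nat.card_fin] at c2
    have c3 := Nat.self_le_factorial (m + 24)
    generalize Nat.card (alternatingGroup (Fin (m + 25))) = N at c1 c2
    have c4 : m + 25 ≤ N := by nlinarith
    rcases Nat.eq_zero_or_pos k with rfl | hk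
    · simp
    rw [pow_two]
    exact Nat.mul_le_mul ((Nat.lt_pow_self (by omega)).le.trans c2)
      ((c4.trans (Nat.le_self_pow hk.ne' N)).trans c2)
  · rw [← h2, map_mul, MulAut.mul_apply, h2, h2]; group
  · have hg' : g ∈ centralizer (socle L : Set L) := fun s hs => by
      have := h2 g ⟨s, hs⟩
      rw [show σ g = 1 from hg, one_mul, inv_one, mul_one, P.inj.eq_iff, Subtype.ext_iff,
        MulAut.conjNormal_apply, mul_inv_eq_iff_eq_mul] at this
      exact this.symm
    by_contra hc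
    obtain ⟨M, hM, hM'⟩ := exists_minimal_le_of_wellFoundedLT
      (fun M : Subgroup L => M.Normal ∧ M ≠ ⊥) (centralizer (socle L : Set L))
      ⟨inferInstance, fun e => hc (by rwa [e, mem_bot] at hg')⟩
    refine hM'.1.2 ((eq_bot_iff_forall _).2 fun x hx => ?_)
    have hx' : x ∈ socle L := (le_sSup hM' : M ≤ socle L) hx
    exact congrArg Subtype.val ((map_eq_one_iff J P.inj).1 (P.eq_one (σ := J ⟨x, hx'⟩) fun s => by
      rw [← map_mul, ← map_mul]; exact congrArg J (Subtype.ext (hM hx s s.2).symm)))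
  · change σ s * _ * (σ s)⁻¹ = _
    rw [← h2, ← hs, ← map_inv, ← map_mul, ← map_mul]; rfl

variable {V : Type} {Γ : SimpleGraph V} {H : Subgroup (Γ ≃g Γ)}

theorem ball_socle (S : Setup H Γ) {x : V} {d : ℕ} (hd : (Γ.neighborSet x).ncard = d) (h0 : d ≠ 0)
    (hn : 25 ≤ n) (e : socle (localGroup H x) ≃* (Fin k → alternatingGroup (Fin n))) (v : V) :
    Ball H Γ (2 * d.factorial ^ 2 + 4) v = ⊥ := by
  classical
  have := (Set.finite_of_ncard_ne_zero (hd ▸ h0)).to_subtype
  obtain ⟨c, ρ, h1, h2, h3, h4⟩ := exists_rep hn e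
  let r : ∀ g : H, g • x = x → localGroup H x := fun g hg => ⟨resP x g hg, g, g.2, hg, fun _ => rfl⟩
  have hL : LocAlt Γ x (fun g : H => if hg : g • x = x then ρ (r g hg) else 1) Prod.fst := by
    refine ⟨fun g h hg hh => ?_, fun g hg => ?_, fun g hg => ?_, h3, fun u σ hσ => ?_⟩
    · rw [dif_pos hg, dif_pos hh, dif_pos (by rw [mul_smul, hh, hg]), ← map_mul]; rfl
    · rw [dif_pos hg, map_eq_one_iff _ h1]
      exact ⟨fun h => ⟨hg, fun w hw => congrArg Subtype.val
        (Equiv.congr_fun (congrArg Subtype.val h) ⟨w, hw⟩)⟩,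
        fun h => Subtype.ext (Equiv.ext fun x => Subtype.ext (h.2 x x.2))⟩
    · rw [dif_pos hg]; exact h2 _
    · obtain ⟨⟨τ, g, g1, g2, g3⟩, rfl⟩ := h4 u σ hσ
      refine ⟨⟨g, g1⟩, g2, ?_⟩
      rw [dif_pos (show (⟨g, g1⟩ : H) • x = x from g2)]
      exact congrArg ρ (Subtype.ext (Equiv.ext fun y => Subtype.ext (g3 y).symm))
  have c2 := Subgroup.card_le_card_group (localGroup H x)
  rw [Nat.card_perm, Nat.card_coe_set_eq, hd] at c2
  refine le_bot_iff.1 ((Ball_anti ?_ v).trans (S.ball_alt hL v).le)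
  have := c.trans (Nat.pow_le_pow_left c2 2)
  rw [Fintype.card_prod, Fintype.card_fin, Fintype.card_fin]
  omega

end Pool.Agent.Lib.MP_03ba20_al
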