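import Pool.Agent.Lib.MP_03ba20_al.AltMain1

namespace Pool.Agent.Lib.MP_03ba20_al

open Equiv Equiv.Perm

variable {H V Ω ι : Type*} [Group H] [AddCommGroup V] [DistribMulAction H V]
variable [Fintype Ω] [DecidableEq Ω] [DecidableEq ι]

variable (V) in
/-- a quadratic offender for an action which need not be faithful. -/
structure Loc0 (p : ℕ) (π : H →* Perm Ω) (f : Ω → ι) (E A : Subgroup H) : Prop where
  finV : Finite V
  finA : Finite A
  prime : p.Prime
  ker : ∀ g : H, (∀ v : V, g • v = v) → π g = 1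
  exp : ∀ v : V, p • v = 0
  fib : ∀ g u v, f u = f v → f (π g u) = f (π g v)
  big : ∀ u, 25 ≤ (Fb f u).card
  lift : ∀ u, ∀ σ ∈ alt (Fb f u), ∃ g, π g = σ
  nrm : E.Normal
  cen : ∀ z ∈ E, π z = 1 → ∀ e ∈ E, ∀ v : V, (e * z) • v = (z * e) • v
  odd : p = 2 → ∀ z ∈ E, π z = 1 → (∀ v : V, (z * z) • v = v) → ∀ v : V, z • v = v
  AE : A ≤ E
  comm : ∀ a ∈ A, ∀ b ∈ A, a * b = b * a
  pow : ∀ a ∈ A, a ^ p = 1
  quad : ∀ a ∈ A, ∀ b ∈ A, ∀ v : V, a • Dl b v = Dl b v
  off : Nat.card V * Nat.card (A ⊓ PS (Set.univ : Set V) : Subgroup H) ≤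
    Nat.card A * Nat.card (CV V A)
  inj : ∀ a ∈ A, π a = 1 → ∀ v : V, a • v = v
  ne : ∃ a ∈ A, π a ≠ 1

variable (H V) in
/-- the group induced on `V`. -/
abbrev Im : Subgroup (Perm V) := (MulAction.toPermHom H V).range

instance imAction : DistribMulAction (Im H V) V where
  smul_zero := by rintro ⟨_, g, rfl⟩; exact smul_zero g
  smul_add := by rintro ⟨_, g, rfl⟩; exact smul_add g

theorem Loc0.main {p : ℕ} {π : H →* Perm Ω} {f : Ω → ι} {E A : Subgroup H} (L : Loc0 V p π f E A) :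
    p = 2 ∧ ∃ R : Ω → Ω → V, (∀ (g : H) x y, g • R x y = R (π g x) (π g y)) ∧
    (∀ x y z, f y = f x → f z = f x → R x y + R y z = R x z) ∧ ∃ i j, i ≠ j ∧ f j = f i ∧
      (∀ x y, f x = f i → f y = f i → x ≠ y → R x y ≠ 0) ∧
      ∀ w, f w = f i → w ≠ i → w ≠ j → ∃ a ∈ A, π a i = j ∧ π a j = i ∧ π a w = w := by
  have := L.finV
  have := L.finA
  let ρ : H →* Im H V := (MulAction.toPermHom H V).rangeRestrict
  have hρ : Function.Surjective ρ := MonoidHom.rangeRestrict_surjective _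
  have sm : ∀ (g : H) (v : V), ρ g • v = g • v := fun _ _ => rfl
  have ex : ∀ g h : Im H V, (∀ v : V, g • v = h • v) → g = h := fun g h e => Subtype.ext (Equiv.ext e)
  let π' : Im H V →* Perm Ω := ρ.liftOfSurjective hρ ⟨π, fun g hg => L.ker g fun v => by
    rw [← sm, MonoidHom.mem_ker.1 hg, one_smul]⟩
  have e : ∀ g, π' (ρ g) = π g := fun g => MonoidHom.liftOfRightInverse_comp_apply _ _ _ _ g
  have c1 : Nat.card (A.map ρ) * Nat.card (A ⊓ PS (Set.univ : Set V) : Subgroup H) = Nat.card A := by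
    have k : ρ.ker = PS (Set.univ : Set V) := by
      ext g
      exact ⟨fun h v _ => by rw [← sm, MonoidHom.mem_ker.1 h, one_smul],
        fun h => ex _ _ fun v => h v trivial⟩
    rw [← Subgroup.relIndex_ker, ← k, ← Subgroup.inf_relIndex_right, inf_comm, mul_comm,
      ← Nat.card_congr (Subgroup.subgroupOfEquivOfLe inf_le_left).toEquiv]
    exact Subgroup.card_mul_index _
  have c2 : CV V (A.map ρ) = CV V A := by
    ext v
    exact ⟨fun h a ha => h _ ⟨a, ha, rfl⟩, by rintro h _ ⟨a, ha, rfl⟩; exact h a ha⟩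
  have c3 : Nat.card V ≤ Nat.card (A.map ρ) * Nat.card (CV V (A.map ρ)) := by
    have := L.off
    have : Finite (A ⊓ PS (Set.univ : Set V) : Subgroup H) :=
      Finite.of_injective _ (Subgroup.inclusion_injective inf_le_left)
    rw [← c1, mul_right_comm, ← c2] at *
    exact Nat.le_of_mul_le_mul_right ‹_› Nat.card_pos
  obtain ⟨a, ha, a1⟩ := L.ne
  have n0 : A.map ρ ≠ ⊥ := fun h => a1 (by
    rw [← e, (Subgroup.eq_bot_iff_forall _).1 h _ ⟨a, ha, rfl⟩, map_one])
  obtain ⟨B, ⟨hB, B0⟩, hmax⟩ := Set.Finite.exists_maximalFor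
    (fun B : Subgroup (Im H V) => Nat.card B * Nat.card (CV V B)) {B | B ≤ A.map ρ ∧ B ≠ ⊥}
    (Set.toFinite _) ⟨_, le_rfl, n0⟩
  have mx : ∀ C ≤ A.map ρ, C ≠ ⊥ → Nat.card C * Nat.card (CV V C) ≤ Nat.card B * Nat.card (CV V B) :=
    fun C h1 h2 => (le_total _ _).elim id (hmax ⟨h1, h2⟩)
  have L' : Loc V p π' f (E.map ρ) B :=
    { finM := inferInstance
      finV := inferInstance
      prime := L.prime
      faith := fun g h => ex _ _ h
      exp := L.exp
      fib := fun g => by obtain ⟨g, rfl⟩ := hρ g; rw [e]; exact L.fib g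
      big := L.big
      lift := fun u σ h => (L.lift u σ h).elim fun g hg => ⟨ρ g, (e g).trans hg⟩
      nrm := L.nrm.map ρ hρ
      cen := by
        rintro _ ⟨z, hz, rfl⟩ h _ ⟨g, hg, rfl⟩
        rw [← map_mul, ← map_mul]
        exact ex _ _ (L.cen z hz (e z ▸ h) g hg)
      odd := by
        rintro hp _ ⟨z, hz, rfl⟩ h h'
        exact ex _ _ (L.odd hp z hz (e z ▸ h) fun v => by rw [← sm, map_mul, h', one_smul])
      AE := hB.trans (Subgroup.map_mono L.AE)
      comm := fun _ h1 _ h2 => by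
        obtain ⟨a, ha, rfl⟩ := hB h1
        obtain ⟨b, hb, rfl⟩ := hB h2
        rw [← map_mul, L.comm a ha b hb, map_mul]
      pow := fun _ h1 => by
        obtain ⟨a, ha, rfl⟩ := hB h1
        rw [← map_pow, L.pow a ha, map_one]
      quad := fun _ h1 _ h2 => by
        obtain ⟨a, ha, rfl⟩ := hB h1
        obtain ⟨b, hb, rfl⟩ := hB h2
        exact L.quad a ha b hb
      best := fun C hC => by
        by_cases h : C = ⊥
        · refine le_trans ?_ (c3.trans (mx _ le_rfl n0))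
          rw [h, Subgroup.card_bot, one_mul]
          exact Nat.card_le_card_of_injective _ Subtype.val_injective
        · exact mx C (hC.trans hB) h
      ne := by
        obtain ⟨⟨b, hb⟩, h⟩ := (Subgroup.ne_bot_iff_exists_ne_one).1 B0
        obtain ⟨a, ha, rfl⟩ := hB hb
        exact ⟨_, hb, fun k => h (Subtype.ext (ex _ _ (L.inj a ha (e a ▸ k))))⟩ }
  obtain rfl := L'.eq_two
  obtain ⟨R, r1, r2, i, j, h1, h2, h3, h4⟩ := L'.main2
  refine ⟨rfl, R, fun g x y => by rw [← sm, r1, e], r2, i, j, h1, h2, h3, fun w k1 k2 k3 => ?_⟩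
  obtain ⟨b, hb, k⟩ := h4 w k1 k2 k3
  obtain ⟨a, ha, rfl⟩ := hB hb
  exact ⟨a, ha, e a ▸ k⟩

end Pool.Agent.Lib.MP_03ba20_al
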