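import Pool.Agent.Lib.MP_03ba20_al.AltPerm

namespace Pool.Agent.Lib.MP_03ba20_al

open Equiv Equiv.Perm

/-- the fibre through a point. -/
def Fb {Ω ι : Type*} [Fintype Ω] [DecidableEq ι] (f : Ω → ι) (u : Ω) : Finset Ω :=
  Finset.univ.filter fun v => f v = f u

theorem mem_Fb {Ω ι : Type*} [Fintype Ω] [DecidableEq ι] {f : Ω → ι} {u v : Ω} :
    v ∈ Fb f u ↔ f v = f u := by simp [Fb]

theorem Fb_eq {Ω ι : Type*} [Fintype Ω] [DecidableEq ι] {f : Ω → ι} {u v : Ω} (h : f u = f v) :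
    Fb f u = Fb f v := by ext; simp [mem_Fb, h]

theorem card_le_mul {G X : Type*} [Group G] [Finite G] {A B : Subgroup G} (T : Finset X) (κ : G → X)
    (h1 : ∀ a ∈ A, κ a ∈ T) (h2 : ∀ a ∈ A, ∀ a' ∈ A, κ a = κ a' → a⁻¹ * a' ∈ B) :
    Nat.card A ≤ T.card * Nat.card B := by
  classical
  let ρ : X → G := fun t => if h : ∃ r ∈ A, κ r = t then h.choose else 1
  have h3 : ∀ a ∈ A, ρ (κ a) ∈ A ∧ κ (ρ (κ a)) = κ a := fun a ha => by
    have h : ∃ r ∈ A, κ r = κ a := ⟨a, ha, rfl⟩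
    simp only [ρ, dif_pos h]
    exact h.choose_spec
  have := Nat.card_le_card_of_injective (fun a : A => ((⟨κ a, h1 a a.2⟩,
    ⟨(ρ (κ a))⁻¹ * a, h2 _ (h3 a a.2).1 _ a.2 (h3 a a.2).2⟩) : T × B)) fun a a' e => by
      simp only [Prod.mk.injEq, Subtype.mk.injEq] at e
      rw [e.1] at e
      exact Subtype.ext (mul_left_cancel e.2)
  simpa using this

theorem mul_le_card {V X : Type*} [AddCommGroup V] [Finite V] {C W : AddSubgroup V} (hC : C ≤ W)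
    (T : Finset X) (x : X → V) (h1 : ∀ i ∈ T, x i ∈ W)
    (h2 : ∀ i ∈ T, ∀ j ∈ T, x i - x j ∈ C → i = j) : T.card * Nat.card C ≤ Nat.card W := by
  have := Nat.card_le_card_of_injective (fun y : T × C => (⟨x y.1 + y.2, add_mem (h1 _ y.1.2)
    (hC y.2.2)⟩ : W)) fun y y' e => by
      simp only [Subtype.mk.injEq] at e
      have e1 : y.1 = y'.1 := Subtype.ext (h2 _ y.1.2 _ y'.1.2 (by
        rw [show x y.1 - x y'.1 = y'.2 - y.2 by rw [sub_eq_sub_iff_add_eq_add, e, add_comm]]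
        exact sub_mem y'.2.2 y.2.2))
      rw [e1] at e
      exact Prod.ext e1 (Subtype.ext (add_left_cancel e))
  simpa using this

variable {M V Ω ι : Type*} [Group M] [AddCommGroup V] [DistribMulAction M V]

variable (V) in
/-- the vectors fixed by a subgroup. -/
def CV (B : Subgroup M) : AddSubgroup V where
  carrier := {v | ∀ b ∈ B, b • v = v}
  zero_mem' := by simp
  add_mem' := fun ha hb b h => by rw [smul_add, ha b h, hb b h]
  neg_mem' := fun ha b h => by rw [smul_neg, ha b h]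

/-- `g - 1`. -/
def Dl (g : M) : V →+ V := DistribSMul.toAddMonoidHom V g - AddMonoidHom.id V

theorem Dl_apply (g : M) (v : V) : Dl g v = g • v - v := rfl

theorem Dl_eq_zero {g : M} {v : V} : Dl g v = 0 ↔ g • v = v := sub_eq_zero

theorem smul_Dl (h g : M) (v : V) : h • Dl g v = Dl (h * g * h⁻¹) (h • v) := by
  simp [Dl_apply, smul_sub, mul_smul]

theorem smul_Dl_of {h g : M} (e : h * g = g * h) (v : V) : h • Dl g v = Dl g (h • v) := by
  rw [smul_Dl, e, mul_inv_cancel_right]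

theorem card_map_le [Finite V] {W C : AddSubgroup V} (hC : C ≤ W) {g : M} (h1 : ∀ v ∈ C, g • v = v)
    {N : ℕ} (h2 : Nat.card W ≤ N * Nat.card C) : Nat.card (W.map (Dl g)) ≤ N := by
  classical
  have := Fintype.ofFinite (W.map (Dl g))
  have h : ∀ y : W.map (Dl g), ∃ w ∈ W, Dl g w = y := fun y => y.2
  choose x x1 x2 using h
  have h3 := (mul_le_card hC Finset.univ x (fun i _ => x1 i) fun i _ j _ e => Subtype.ext (by
    rw [← x2, ← x2, ← sub_eq_zero, ← map_sub, Dl_eq_zero]; exact h1 _ e)).trans h2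
  rw [Finset.card_univ, ← Nat.card_eq_fintype_card] at h3
  exact Nat.le_of_mul_le_mul_right h3 Nat.card_pos

theorem fix_of_coprime {p N : ℕ} (hp : ∀ v : V, p • v = 0) (hN : N.Coprime p) {g : M}
    (hg : g ^ N = 1) {w : V} (h : g • Dl g w = Dl g w) : g • w = w := by
  have h1 : ∀ k : ℕ, g ^ k • w = w + k • Dl g w := fun k => by
    induction k with
    | zero => simp
    | succ k ih =>
      rw [pow_succ', mul_smul, ih, smul_add, smul_comm, h, succ_nsmul, Dl_apply]; abel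
  have h2 := h1 N
  rw [hg, one_smul, left_eq_add] at h2
  have := Nat.dvd_gcd (addOrderOf_dvd_of_nsmul_eq_zero h2) (addOrderOf_dvd_of_nsmul_eq_zero (hp _))
  rw [hN, Nat.dvd_one, AddMonoid.addOrderOf_eq_one_iff] at this
  exact Dl_eq_zero.1 this

/-- pointwise stabiliser of a set of vectors. -/
def PS (X : Set V) : Subgroup M where
  carrier := {g | ∀ v ∈ X, g • v = v}
  one_mem' := by simp
  mul_mem' := fun ha hb v h => by rw [mul_smul, hb v h, ha v h]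
  inv_mem' := fun ha v h => inv_smul_eq_iff.2 (ha v h).symm

variable [Fintype Ω] [DecidableEq Ω] [DecidableEq ι]

variable (V) in
/-- a quadratic best offender `A` inside a central extension `E`. -/
structure Loc (p : ℕ) (π : M →* Perm Ω) (f : Ω → ι) (E A : Subgroup M) : Prop where
  finM : Finite M
  finV : Finite V
  prime : p.Prime
  faith : ∀ g : M, (∀ v : V, g • v = v) → g = 1
  exp : ∀ v : V, p • v = 0
  fib : ∀ g u v, f u = f v → f (π g u) = f (π g v)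
  big : ∀ u, 25 ≤ (Fb f u).card
  lift : ∀ u, ∀ σ ∈ alt (Fb f u), ∃ g, π g = σ
  nrm : E.Normal
  cen : ∀ z ∈ E, π z = 1 → ∀ e ∈ E, e * z = z * e
  odd : p = 2 → ∀ z ∈ E, π z = 1 → z * z = 1 → z = 1
  AE : A ≤ E
  comm : ∀ a ∈ A, ∀ b ∈ A, a * b = b * a
  pow : ∀ a ∈ A, a ^ p = 1
  quad : ∀ a ∈ A, ∀ b ∈ A, ∀ v : V, a • Dl b v = Dl b v
  best : ∀ B ≤ A, Nat.card B * Nat.card (CV V B) ≤ Nat.card A * Nat.card (CV V A)
  ne : ∃ a ∈ A, π a ≠ 1

/-- every even permutation of the fibre lifts to `E`. -/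
def GE (π : M →* Perm Ω) (f : Ω → ι) (E : Subgroup M) (u : Ω) : Prop :=
  ∀ σ ∈ alt (Fb f u), ∃ e ∈ E, π e = σ

/-- the elements of `A` fixing `Δ` pointwise. -/
def BF (π : M →* Perm Ω) (A : Subgroup M) (Δ : Finset Ω) : Subgroup M where
  carrier := {b | b ∈ A ∧ ∀ x ∈ Δ, π b x = x}
  one_mem' := ⟨one_mem _, by simp⟩
  mul_mem' := fun ha hb => ⟨mul_mem ha.1 hb.1, fun x hx => by simp [ha.2 x hx, hb.2 x hx]⟩
  inv_mem' := fun ha => ⟨inv_mem ha.1, fun x hx => by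
    rw [map_inv, Perm.inv_eq_iff_eq, ha.2 x hx]⟩

namespace Loc

variable {p : ℕ} {π : M →* Perm Ω} {f : Ω → ι} {E A : Subgroup M} (L : Loc V p π f E A)
include L

theorem fib' {g : M} {u v : Ω} (h : f (π g u) = f (π g v)) : f u = f v := by
  simpa using L.fib g⁻¹ _ _ h

theorem pickF (u : Ω) (l : List Ω) (h : l.length < 25) : ∃ x, f x = f u ∧ x ∉ l :=
  (pick _ l (h.trans_le (L.big u))).imp fun _ hx => ⟨mem_Fb.1 hx.1, hx.2⟩

theorem ge_of {e : M} (he : e ∈ E) {u : Ω} (hu : π e u ≠ u) : GE π f E u :=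
  alt_le_of_moves (N := E.map π) ((by norm_num : 8 ≤ 25).trans (L.big u)) (by
    rintro σ hσ _ ⟨g, hg, rfl⟩
    obtain ⟨s, rfl⟩ := L.lift u σ hσ
    exact ⟨s * g * s⁻¹, L.nrm.conj_mem g hg s, by simp⟩) ⟨e, he, rfl⟩ (mem_Fb.2 rfl) hu

theorem exists_z {g g' : M} (hg : g ∈ E) (hg' : g' ∈ E) (h : π g = π g') :
    ∃ z ∈ E, π z = 1 ∧ g' = g * z ∧ ∀ e ∈ E, e * z = z * e :=
  have h1 : π (g⁻¹ * g') = 1 := by simp [h]
  ⟨g⁻¹ * g', mul_mem (inv_mem hg) hg', h1, by simp, L.cen _ (mul_mem (inv_mem hg) hg') h1⟩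

theorem comm_lift {u : Ω} (hu : GE π f E u) {Δ : Finset Ω} (hΔ : Δ ⊆ Fb f u) (h5 : 5 ≤ Δ.card)
    {h : M} (hh : h ∈ E) (h1 : ∀ x ∈ Δ, π h x = x) {g : M} (hg : g ∈ E) (h2 : π g ∈ alt Δ) :
    h * g = g * h := by
  have key : ∀ s ∈ E, π s ∈ alt Δ → ∃ z, h * s * h⁻¹ = s * z ∧ ∀ e ∈ E, e * z = z * e :=
    fun s hs h3 => by
      obtain ⟨z, -, -, z1, z2⟩ := L.exists_z hs (L.nrm.conj_mem s hs h) (by
        simp [alt_comm h3 h1])
      exact ⟨z, z1, z2⟩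
  obtain ⟨a, ha, -⟩ := pick Δ [] (by simp only [List.length_nil]; omega)
  obtain ⟨b, hb, b1⟩ := pick Δ [a] (by simp; omega)
  obtain ⟨c, hc, c1⟩ := pick Δ [a, b] (by simp; omega)
  obtain ⟨d, hd, d1⟩ := pick Δ [a, b, c] (by simp; omega)
  simp only [List.mem_cons, List.not_mem_nil, or_false, not_or] at b1 c1 d1
  have m1 := cyc_mem (Ne.symm b1) (Ne.symm c1.1) ha hb hc
  have m2 := cyc_mem (Ne.symm b1) (Ne.symm d1.1) ha hb hd
  obtain ⟨g1, hg1, e1⟩ := hu _ (alt_mono hΔ m1)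
  obtain ⟨g2, hg2, e2⟩ := hu _ (alt_mono hΔ m2)
  obtain ⟨z1, k1, k1'⟩ := key g1 hg1 (e1 ▸ m1)
  obtain ⟨z2, k2, k2'⟩ := key g2 hg2 (e2 ▸ m2)
  obtain ⟨g0, ⟨hg0, c0⟩, e0⟩ := alt_le_of_normal (N := (E ⊓ Subgroup.centralizer {h}).map π) h5
    (by
      rintro σ hσ _ ⟨g, ⟨hg, hg'⟩, rfl⟩
      obtain ⟨s, hs, rfl⟩ := hu σ (alt_mono hΔ hσ)
      obtain ⟨z, k, k'⟩ := key s hs hσ
      refine ⟨s * g * s⁻¹, ⟨L.nrm.conj_mem g hg s, Subgroup.mem_centralizer_singleton_iff.2 ?_⟩, by simp⟩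
      have := Subgroup.mem_centralizer_singleton_iff.1 hg'
      calc s * g * s⁻¹ * h = s * (g * z) * (s * z)⁻¹ * h := by group
        _ = (h * s * h⁻¹) * g * (h * s * h⁻¹)⁻¹ * h := by rw [k, k' g hg]; group
        _ = h * s * h⁻¹ * (g * h) * s⁻¹ := by group
        _ = _ := by rw [this]; group)
    (g := π (g1 * g2 * g1⁻¹ * g2⁻¹)) ⟨_, ⟨E.mul_mem (L.nrm.conj_mem _ hg2 _) (E.inv_mem hg2),
      Subgroup.mem_centralizer_singleton_iff.2 (by
        have : h * (g1 * g2 * g1⁻¹ * g2⁻¹) * h⁻¹ = g1 * g2 * g1⁻¹ * g2⁻¹ := by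
          calc _ = (h * g1 * h⁻¹) * (h * g2 * h⁻¹) * (h * g1 * h⁻¹)⁻¹ * (h * g2 * h⁻¹)⁻¹ := by group
            _ = g1 * (z1 * (g2 * z2)) * z1⁻¹ * g1⁻¹ * (g2 * z2)⁻¹ := by rw [k1, k2]; group
            _ = g1 * g2 * (z2 * g1⁻¹) * z2⁻¹ * g2⁻¹ := by
              rw [← mul_assoc z1, ← k1' g2 hg2, mul_assoc g2, ← k1' z2 (by
                have := mul_mem (inv_mem hg2) (L.nrm.conj_mem g2 hg2 h)
                rwa [k2, inv_mul_cancel_left] at this)]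
              group
            _ = _ := by rw [← k2' _ (inv_mem hg1)]; group
        exact (mul_inv_eq_iff_eq_mul.1 this).symm)⟩, rfl⟩
    (by simpa [e1, e2] using mul_mem (mul_mem (mul_mem m1 m2) (inv_mem m1)) (inv_mem m2))
    (by
      simp only [map_mul, map_inv, e1, e2, Ne, mul_inv_eq_iff_eq_mul, one_mul]
      intro e
      have : cyc a b c (cyc a b d a) = cyc a b d (cyc a b c a) := by rw [← mul_apply, e, mul_apply]
      rw [cyc_fst, cyc_fst, cyc_snd, cyc_snd] at this <;> tauto) h2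
  obtain ⟨z, -, -, rfl, z2⟩ := L.exists_z hg0 hg e0
  rw [← mul_assoc, ← Subgroup.mem_centralizer_singleton_iff.1 c0, mul_assoc, z2 h hh, mul_assoc]

theorem exists_fix {B : Subgroup M} (hB : B ≤ A) {U : AddSubgroup V} (hU : ∀ b ∈ B, ∀ v ∈ U, b • v ∈ U)
    (h : ∀ v ∈ U, v ∈ CV V B → v = 0) : ∀ v ∈ U, v = 0 := fun v hv =>
  h v hv fun b hb => Dl_eq_zero.1 (h _ (sub_mem (hU b hb v hv) hv) fun a ha =>
    L.quad a (hB ha) b (hB hb) v)

theorem W_le {X : Type*} (Δ : Finset Ω) (T : Finset X) (κ : M → X) (h1 : ∀ a ∈ A, κ a ∈ T)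
    (h2 : ∀ a ∈ A, ∀ a' ∈ A, κ a = κ a' → ∀ x ∈ Δ, π a x = π a' x) :
    Nat.card (CV V (BF π A Δ)) ≤ T.card * Nat.card (CV V A) := by
  have := L.finM
  have h3 := card_le_mul (B := BF π A Δ) T κ h1 fun a ha a' ha' e =>
    ⟨mul_mem (inv_mem ha) ha', fun x hx => by simp [← h2 a ha a' ha' e x hx]⟩
  have h4 := (L.best (BF π A Δ) fun _ h => h.1).trans (Nat.mul_le_mul_right _ h3)
  rw [mul_comm T.card, mul_assoc] at h4
  exact Nat.le_of_mul_le_mul_left h4 Nat.card_pos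

omit L [Fintype Ω] [DecidableEq Ω] in
theorem CV_le (Δ : Finset Ω) : CV V A ≤ CV V (BF π A Δ) := fun _ hv b hb => hv b hb.1

omit L in
theorem W_inv {B : Subgroup M} {g : M} (hg : ∀ b ∈ B, b * g = g * b) {v : V} (hv : v ∈ CV V B) :
    g • v ∈ CV V B := fun b hb => by rw [← mul_smul, hg b hb, mul_smul, hv b hb]

/-- an element of coprime order commuting with `B` and trivial on its fixed vectors is trivial. -/
theorem eq_one_of {B : Subgroup M} (hB : B ≤ A) {g : M} (hg : ∀ b ∈ B, b * g = g * b) {N : ℕ}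
    (hN : N.Coprime p) (h1 : g ^ N = 1) (h2 : ∀ v ∈ CV V B, g • v = v) : g = 1 :=
  L.faith g fun v => Dl_eq_zero.1 (L.exists_fix hB (U := (Dl g).range) (by
    rintro b hb _ ⟨w, rfl⟩
    exact ⟨b • w, (smul_Dl_of (hg b hb) w).symm⟩) (by
    rintro _ ⟨w, rfl⟩ hw
    exact Dl_eq_zero.2 (fix_of_coprime L.exp hN h1 (h2 _ hw))) _ ⟨v, rfl⟩)

end Loc

end Pool.Agent.Lib.MP_03ba20_al
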