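import Pool.Agent.Lib.MP_03ba20_al.AltType

namespace Pool.Agent.Lib.MP_03ba20_al

open Equiv Equiv.Perm

variable {M V Ω ι : Type*} [Group M] [AddCommGroup V] [DistribMulAction M V]
variable [Fintype Ω] [DecidableEq Ω] [DecidableEq ι]
variable {π : M →* Perm Ω} {f : Ω → ι} {E A : Subgroup M} {u : Ω} {r : Ω → Ω → V}

namespace Loc

variable (L : Loc V 2 π f E A)
include L

theorem type_main (F : Fx π f E A u r) {a₀ : M} (ha₀ : a₀ ∈ A) (hu : π a₀ u ≠ u) :
    (∀ s : Ω → Ω → V, RSys π f E u s → s ≠ 0 → s = r) ∧ ∃ i j, i ≠ j ∧ f i = f u ∧ f j = f u ∧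
      ∀ w, f w = f u → w ≠ i → w ≠ j → ∃ a ∈ A, π a i = j ∧ π a j = i ∧ π a w = w := by
  classical
  have := L.finM
  have := L.finV
  have := Fintype.ofFinite M
  obtain ⟨τ, T, t1, t2, t3, t4, t5⟩ := L.exists_tau F
  set U := AddSubgroup.closure {y | ∃ x z, y = r x z}
  set W := CV V (BF π A (Fb f u))
  let κ : M → Finset Ω := fun a => T.filter fun x => π a x ≠ x
  let K := (Finset.univ.filter (· ∈ A)).image κ
  have mK : ∀ S, S ∈ K ↔ ∃ a ∈ A, κ a = S := fun S => by simp [K]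
  have hK : K ⊆ T.powerset := fun S hS => by
    obtain ⟨a, -, rfl⟩ := (mK S).1 hS
    exact Finset.mem_powerset.2 (Finset.filter_subset _ _)
  have k1 : ∀ a ∈ A, ∀ x, f x = f u → (π a x ≠ x ↔ x ∈ κ a ∨ τ x ∈ κ a) := fun a ha x hx => by
    have q1 := t1 a ha x hx
    have q2 := t1 a ha _ (t3 x hx).2
    have q3 := t3 x hx
    have q4 := t5 x hx
    have q5 := L.invol ha x
    have q6 := L.invol ha (τ x)
    simp only [κ, Finset.mem_filter]
    clear * - q1 q2 q3 q4 q5 q6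
    grind
  have hW : Nat.card W ≤ K.card * Nat.card (CV V A) := L.W_le _ K κ (fun a ha => (mK _).2 ⟨a, ha, rfl⟩)
    fun a ha b hb e x hx => by
      have q1 := k1 a ha x (mem_Fb.1 hx)
      have q2 := k1 b hb x (mem_Fb.1 hx)
      have q3 := t1 a ha x (mem_Fb.1 hx)
      have q4 := t1 b hb x (mem_Fb.1 hx)
      rw [e, ← q2] at q1
      clear * - q1 q3 q4
      grind
  have hK' : ∀ X ∈ K, ∀ Y ∈ K, symmDiff X Y ∈ K := fun X hX Y hY => by
    obtain ⟨a, ha, rfl⟩ := (mK X).1 hX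
    obtain ⟨b, hb, rfl⟩ := (mK Y).1 hY
    refine (mK _).2 ⟨a * b, mul_mem ha hb, Finset.ext fun x => ?_⟩
    simp only [κ, Finset.mem_symmDiff, Finset.mem_filter, map_mul, mul_apply]
    by_cases hx : x ∈ T
    · have q1 := t1 a ha x (t4 x hx).1
      have q2 := t1 b hb x (t4 x hx).1
      have q3 := t4 x hx
      have q4 := L.invol ha
      clear * - q1 q2 q3 q4 hx
      grind
    · simp [hx]
  have UW : U ⊔ CV V A ≤ W := sup_le ((AddSubgroup.closure_le _).2 (by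
    rintro _ ⟨x, z, rfl⟩; exact fx_W F x z)) (CV_le _)
  have low : ∀ (w : Ω) (P : Finset (Finset Ω)), (∀ S ∈ P, ∀ S' ∈ P, S ≠ S' →
      ∑ j ∈ symmDiff S S', r j w ∉ CV V A) →
      P.card * Nat.card (CV V A) ≤ Nat.card (U ⊔ CV V A : AddSubgroup V) := fun w P hP =>
    mul_le_card le_sup_right P (fun S => ∑ j ∈ S, r j w) (fun S _ => AddSubgroup.mem_sup_left
      (sum_mem fun j _ => AddSubgroup.subset_closure ⟨_, _, rfl⟩)) fun S hS S' hS' e => by
      by_contra hc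
      exact hP S hS S' hS' hc (L.sum_sub _ S S' ▸ e)
  have DU : ∀ a ∈ A, ∀ v ∈ U ⊔ CV V A, Dl a v ∈ U := fun a ha v hv => by
    obtain ⟨y, hy, z, hz, rfl⟩ := AddSubgroup.mem_sup.1 hv
    rw [map_add, Dl_eq_zero.2 (hz a ha), add_zero]
    exact sub_mem (U_inv (F.inv a ha (L.fx_fib F ha)) hy) hy
  have nz : ∀ S ⊆ T, ∀ w, f w = f u → w ∉ S → τ w ∉ S → ∀ a ∈ A, ∀ i ∈ S, π a i ≠ i → ∀ z, f z = f u →
      z ∉ S → τ z ∉ S → (π a w = w ∨ (z ≠ w ∧ z ≠ τ w)) → ∑ j ∈ S, r j w ∉ CV V A :=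
    fun S hS w hw w1 w2 a ha i hi ai z hz z1 z2 z3 =>
      L.sum_ne F (fun x hx => (t4 x (hS hx)).1) hw hi hz ha ai (fun j hj => by
        have q1 := t1 a ha i (t4 i (hS hi)).1
        have q2 := t3 i (t4 i (hS hi)).1
        have q3 := t4 i (hS hi)
        have q4 := L.invol ha
        rcases Finset.mem_insert.1 hj with rfl | hj
        · have q5 := t1 a ha j hw
          have q6 := t3 j hw
          clear * - q1 q2 q3 q4 q5 q6 w1 w2 hi ai z1 z2 z3
          grind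
        · have q5 := t1 a ha j (t4 j (hS hj)).1
          have q6 := t3 j (t4 j (hS hj)).1
          have q7 := hS hj
          clear * - q1 q2 q3 q4 q5 q6 q7 hj hi ai z1 z2
          grind) fun e => w1 (e ▸ hi)
  let P : Ω → Prop := fun i => ∀ w w', f w = f u → f w' = f u → w ≠ i → w ≠ τ i → w' ≠ i → w' ≠ τ i →
    ∃ a ∈ A, π a i = τ i ∧ π a w = w ∧ π a w' = w'
  have pk : ∀ S ∈ K, ∀ i ∈ S, ∀ w w', f w = f u → f w' = f u → w ∉ S → τ w ∉ S → w' ∉ S → τ w' ∉ S →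
      ∃ a ∈ A, π a i = τ i ∧ π a w = w ∧ π a w' = w' := fun S hS i hi w w' hw hw' h1 h2 h3 h4 => by
    obtain ⟨a, ha, rfl⟩ := (mK S).1 hS
    have := Finset.mem_filter.1 hi
    exact ⟨a, ha, (t1 a ha i (t4 i this.1).1).resolve_left this.2,
      not_not.1 fun e => ((k1 a ha w hw).1 e).elim h1 h2,
      not_not.1 fun e => ((k1 a ha w' hw').1 e).elim h3 h4⟩
  have p1 : ∀ i ∈ T, {i} ∈ K → P i := fun i hi h w w' hw hw' h1 h2 h3 h4 => by
    exact pk _ h i (by simp) w w' hw hw' (by simpa) (fun e => h2 (by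
      rw [← Finset.mem_singleton.1 e, (t3 w hw).1])) (by simpa) fun e => h4 (by
      rw [← Finset.mem_singleton.1 e, (t3 w' hw').1])
  have fin : ∀ i ∈ T, P i → ∀ w c, Can π f E i (τ i) w c → (∀ v ∈ W, Dl c v ∈ U) →
      (∀ s : Ω → Ω → V, RSys π f E u s → s ≠ 0 → s = r) ∧ ∃ i j, i ≠ j ∧ f i = f u ∧ f j = f u ∧
      ∀ w, f w = f u → w ≠ i → w ≠ j → ∃ a ∈ A, π a i = j ∧ π a j = i ∧ π a w = w :=
    fun i hi h w c hc hU => by
      have fi := (t4 i hi).1
      obtain ⟨a, ha, a1, a2, -⟩ := h w w (hc.fw.trans fi) (hc.fw.trans fi) hc.uw.symm hc.vw.symm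
        hc.uw.symm hc.vw.symm
      refine ⟨fun s hs h0 => L.uniq_V F fi hc hU ha a1 a2 hs h0, i, τ i, hc.uv, fi, (t3 i fi).2,
        fun w hw h1 h2 => ?_⟩
      obtain ⟨a, ha, a1, a2, -⟩ := h w w hw hw h1 h2 h1 h2
      exact ⟨a, ha, a1, by rw [← a1, L.invol ha], a2⟩
  have pos : 0 < Nat.card (CV V A) := Nat.card_pos
  have cK := (Finset.card_le_card hK).trans_eq (Finset.card_powerset T)
  have cW := AddSubgroup.card_le_of_le UW
  by_cases h0 : ∃ w, f w = f u ∧ τ w = w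
  · obtain ⟨w, hw, w1⟩ := h0
    have wT : w ∉ T := fun e => (t4 w e).2.1 w1
    have l1 := low w T.powerset fun S hS S' hS' e => by
      have h1 : symmDiff S S' ⊆ T := symmDiff_le_sup.trans (sup_le (Finset.mem_powerset.1 hS)
        (Finset.mem_powerset.1 hS'))
      obtain ⟨i, hi⟩ := Finset.nonempty_iff_ne_empty.2 fun k => e (symmDiff_eq_bot.1 k)
      obtain ⟨a, ha, a1⟩ := t2 i (t4 i (h1 hi)).2.1
      exact nz _ h1 w hw (fun e => wT (h1 e)) (fun e => wT (h1 (w1 ▸ e))) a ha i hi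
        (a1 ▸ (t4 i (h1 hi)).2.1) w hw (fun e => wT (h1 e)) (fun e => wT (h1 (w1 ▸ e)))
        (Or.inl ((t1 a ha w hw).elim id fun e => e.trans w1))
    have e1 : K = T.powerset := Finset.eq_of_subset_of_card_le hK
      (Nat.le_of_mul_le_mul_right (l1.trans (cW.trans hW)) pos)
    have e2 : U ⊔ CV V A = W := AddSubgroup.eq_of_le_of_card_ge UW (hW.trans (e1 ▸ l1))
    obtain ⟨i, hi⟩ : ∃ i, i ∈ T := (t5 u rfl fun e =>
      hu ((t1 a₀ ha₀ u rfl).elim id fun e' => e'.trans e)).elim (fun h => ⟨_, h⟩) fun h => ⟨_, h⟩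
    have h1 := p1 i hi (by simp [e1, hi])
    have fi := (t4 i hi).1
    obtain ⟨c, hc⟩ := L.can_exists (F.ge.of_eq fi) (v := τ i) (w := w) (t4 i hi).2.1.symm
      (fun e => wT (e ▸ hi)) (fun e => wT (by rw [← w1, ← e, (t3 i fi).1]; exact hi))
      ((t3 i fi).2.trans fi.symm) (hw.trans fi.symm)
    refine fin i hi h1 w c hc ?_
    by_contra hc'
    obtain ⟨a, ha, a1, a2, -⟩ := h1 w w hw hw hc.uw.symm hc.vw.symm hc.uw.symm hc.vw.symm
    obtain ⟨v, hv, v1⟩ := L.exists_out F fi hc ha a1 a2 hc'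
    exact v1 (DU a ha _ (e2 ▸ sub_mem (W_inv (fun b hb => L.B_comm' (Fb_eq fi ▸ hc.memF) hb) hv) hv))
  push Not at h0
  have cT : 13 ≤ T.card := by
    have h1 := L.big u
    have h2 : Fb f u ⊆ T ∪ T.image τ := fun x hx => by
      rw [mem_Fb] at hx
      rw [Finset.mem_union, Finset.mem_image]
      exact (t5 x hx (h0 x hx)).imp_right fun h => ⟨_, h, (t3 x hx).1⟩
    have := (Finset.card_le_card h2).trans (Finset.card_union_le _ _)
    have := Finset.card_image_le (s := T) (f := τ)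
    omega
  have nz' : ∀ S ⊆ T, S ≠ ∅ → ∀ w ∈ T, w ∉ S → ∀ z ∈ T, z ∉ S → z ≠ w → ∑ j ∈ S, r j w ∉ CV V A :=
    fun S hS e w hw w1 z hz z1 z2 => by
      obtain ⟨i, hi⟩ := Finset.nonempty_iff_ne_empty.2 e
      obtain ⟨a, ha, a1⟩ := t2 i (t4 i (hS hi)).2.1
      exact nz S hS w (t4 w hw).1 w1 (fun e => (t4 w hw).2.2 (hS e)) a ha i hi
        (a1 ▸ (t4 i (hS hi)).2.1) z (t4 z hz).1 z1 (fun e => (t4 z hz).2.2 (hS e))
        (Or.inr ⟨z2, fun e => (t4 w hw).2.2 (e ▸ hz)⟩)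
  obtain ⟨a₁, ha₁, w, hw, w1, i₁, hi₁⟩ : ∃ a ∈ A, ∃ w ∈ T, π a w = w ∧ ∃ i, i ∈ κ a := by
    by_contra hc
    push Not at hc
    have h1 : K ⊆ {∅, T} := fun S hS => by
      obtain ⟨a, ha, rfl⟩ := (mK S).1 hS
      rw [Finset.mem_insert, Finset.mem_singleton, or_iff_not_imp_left]
      intro h
      obtain ⟨i, hi⟩ := Finset.nonempty_iff_ne_empty.2 h
      exact Finset.filter_true_of_mem fun x hx e => hc a ha x hx e i hi
    obtain ⟨w, hw, -⟩ := pick T [] (by simp only [List.length_nil]; omega)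
    obtain ⟨z, hz, z1⟩ := pick T [w] (by simp; omega)
    obtain ⟨i, hi, i1⟩ := pick T [w, z] (by simp; omega)
    obtain ⟨j, hj, j1⟩ := pick T [w, z, i] (by simp; omega)
    simp only [List.mem_cons, List.not_mem_nil, or_false, not_or] at z1 i1 j1
    have l1 := low w {∅, {i}, {j}} fun S hS S' hS' e => by
      have h2 : symmDiff S S' ⊆ {i, j} := symmDiff_le_sup.trans (sup_le (by
        simp only [Finset.mem_insert, Finset.mem_singleton] at hS
        rcases hS with rfl | rfl | rfl <;> simp) (by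
        simp only [Finset.mem_insert, Finset.mem_singleton] at hS'
        rcases hS' with rfl | rfl | rfl <;> simp))
      exact nz' _ (h2.trans (by simp [Finset.insert_subset_iff, hi, hj]))
        (fun k => e (symmDiff_eq_bot.1 k)) w hw (fun e => by
          have := h2 e; clear * - this i1 j1; grind) z hz
        (fun e => by have := h2 e; clear * - this i1 j1; grind) z1
    have h3 : ({∅, {i}, {j}} : Finset (Finset Ω)).card = 3 := by
      rw [Finset.card_eq_three]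
      exact ⟨_, _, _, by simp, by simp, by simp [Ne.symm j1.2.2], rfl⟩
    have h4 := (Finset.card_le_card h1).trans Finset.card_le_two
    have := Nat.le_of_mul_le_mul_right (l1.trans (cW.trans hW)) pos
    omega
  have l1 := low w (T.erase w).powerset fun S hS S' hS' e => by
    have h1 : symmDiff S S' ⊆ T.erase w := symmDiff_le_sup.trans (sup_le (Finset.mem_powerset.1 hS)
      (Finset.mem_powerset.1 hS'))
    have h2 := h1.trans (Finset.erase_subset _ _)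
    have h3 : w ∉ symmDiff S S' := fun e => by simpa using h1 e
    by_cases h4 : symmDiff S S' = T.erase w
    · have := Finset.mem_filter.1 hi₁
      exact nz _ h2 w (t4 w hw).1 h3 (fun e => (t4 w hw).2.2 (h2 e)) a₁ ha₁ i₁
        (h4 ▸ Finset.mem_erase.2 ⟨fun e => this.2 (e ▸ w1), this.1⟩) this.2 w (t4 w hw).1 h3
        (fun e => (t4 w hw).2.2 (h2 e)) (Or.inl w1)
    · obtain ⟨z, hz, z1⟩ := Finset.exists_of_ssubset (h1.ssubset_of_ne h4)
      exact nz' _ h2 (fun k => e (symmDiff_eq_bot.1 k)) w hw h3 z (Finset.mem_erase.1 hz).2 z1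
        (Finset.mem_erase.1 hz).1
  rw [Finset.card_powerset, Finset.card_erase_of_mem hw] at l1
  have e0 : 2 ^ T.card = 2 * 2 ^ (T.card - 1) := by rw [← pow_succ']; congr 1; omega
  have l2 := Nat.le_of_mul_le_mul_right (l1.trans (cW.trans hW)) pos
  have tw : ∀ S ⊆ T, ∀ S' ⊆ T, S ∉ K → S' ∉ K → symmDiff S S' ∈ K := fun S hS S' hS' h1 h2 => by
    by_contra h3
    have := three_le hK hK' hS hS' h1 h2 h3
    have := Nat.two_pow_pos (T.card - 1)
    omega
  obtain ⟨i, hi, i', hi', ii, pi, pi'⟩ : ∃ i ∈ T, ∃ i' ∈ T, i ≠ i' ∧ P i ∧ P i' := by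
    by_cases h : ∃ i ∈ T, ∃ i' ∈ T, i ≠ i' ∧ {i} ∈ K ∧ {i'} ∈ K
    · obtain ⟨i, hi, i', hi', h1, h2, h3⟩ := h
      exact ⟨i, hi, i', hi', h1, p1 i hi h2, p1 i' hi' h3⟩
    push Not at h
    have h1 : (T.filter fun i => {i} ∈ K).card ≤ 1 := Finset.card_le_one.2 fun a ha b hb => by
      rw [Finset.mem_filter] at ha hb
      by_contra hc
      exact h a ha.1 b hb.1 hc ha.2 hb.2
    have h2 := Finset.card_filter_add_card_filter_not (s := T) fun i => {i} ∈ K
    have h3 : ∀ i ∈ T.filter fun i => {i} ∉ K, P i := fun i hi w w' hw hw' h4 h5 h6 h7 => by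
      obtain ⟨z, hz, z1⟩ := pick (T.filter fun i => {i} ∉ K) [i, w, τ w, w', τ w'] (by simp; omega)
      simp only [List.mem_cons, List.not_mem_nil, or_false, not_or, Finset.mem_filter] at z1 hi hz
      have q1 := t3 w hw
      have q2 := t3 w' hw'
      refine pk _ (tw {i} (by simp [hi]) {z} (by simp [hz]) hi.2 hz.2) i ?_ w w' hw hw' ?_ ?_ ?_ ?_ <;>
        simp only [Finset.mem_symmDiff, Finset.mem_singleton] <;>
        clear * - q1 q2 z1 h4 h5 h6 h7 <;> grind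
    obtain ⟨i, hi, -⟩ := pick (T.filter fun i => {i} ∉ K) [] (by simp only [List.length_nil]; omega)
    obtain ⟨i', hi', i1⟩ := pick (T.filter fun i => {i} ∉ K) [i] (by simp; omega)
    exact ⟨i, (Finset.mem_filter.1 hi).1, i', (Finset.mem_filter.1 hi').1,
      fun e => i1 (by simp [e]), h3 i hi, h3 i' hi'⟩
  obtain ⟨x, hx, x1⟩ := L.pickF u [i, τ i, i', τ i'] (by simp)
  obtain ⟨y, hy, y1⟩ := L.pickF u [i, τ i, i', τ i', x] (by simp)
  simp only [List.mem_cons, List.not_mem_nil, or_false, not_or] at x1 y1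
  have fi := (t4 i hi).1
  have fi' := (t4 i' hi').1
  obtain ⟨c, hc⟩ := L.can_exists (F.ge.of_eq fi) (t4 i hi).2.1.symm (Ne.symm x1.1) (Ne.symm x1.2.1)
    ((t3 i fi).2.trans fi.symm) (hx.trans fi.symm)
  obtain ⟨d, hd⟩ := L.can_exists (F.ge.of_eq fi') (t4 i' hi').2.1.symm (Ne.symm y1.2.2.1)
    (Ne.symm y1.2.2.2.1) ((t3 i' fi').2.trans fi'.symm) (hy.trans fi'.symm)
  by_cases h1 : ∀ v ∈ W, Dl c v ∈ U
  · exact fin i hi pi x c hc h1
  by_cases h2 : ∀ v ∈ W, Dl d v ∈ U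
  · exact fin i' hi' pi' y d hd h2
  exfalso
  obtain ⟨a, ha, a1, a2, a3⟩ := pi x y hx hy x1.1 x1.2.1 y1.1 y1.2.1
  obtain ⟨b, hb, b1, b2, -⟩ := pi' y y hy hy y1.2.2.1 y1.2.2.2.1 y1.2.2.1 y1.2.2.2.1
  obtain ⟨v, hv, v1⟩ := L.exists_out F fi hc ha a1 a2 h1
  obtain ⟨v', hv', v1'⟩ := L.exists_out F fi' hd hb b1 b2 h2
  have mc : c ∈ HH π f E (Fb f u) := Fb_eq fi ▸ hc.memF
  have md : d ∈ HH π f E (Fb f u) := Fb_eq fi' ▸ hd.memF
  have m1 : Dl c v ∈ W := sub_mem (W_inv (fun b hb => L.B_comm' mc hb) hv) hv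
  have m2 : Dl d v' ∈ W := sub_mem (W_inv (fun b hb => L.B_comm' md hb) hv') hv'
  have n1 : Dl c v ∉ U ⊔ CV V A := fun e => v1 (DU a ha _ e)
  have n2 : Dl d v' ∉ U ⊔ CV V A := fun e => v1' (DU b hb _ e)
  have n3 : Dl c v - Dl d v' ∈ U ⊔ CV V A := by
    by_contra n3
    have h3 := mul_le_card UW (Finset.univ : Finset (Fin 3)) ![0, Dl c v, Dl d v'] (fun k _ => by
      fin_cases k <;> simp [m1, m2]) fun k _ l _ e => by
      have n4 : Dl d v' - Dl c v ∉ U ⊔ CV V A := fun e => n3 (by simpa using neg_mem e)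
      generalize U ⊔ CV V A = Y at n1 n2 n3 n4 e
      generalize Dl c v = y1 at n1 n2 n3 n4 e
      generalize Dl d v' = y2 at n1 n2 n3 n4 e
      clear * - n1 n2 n3 n4 e
      fin_cases k <;> fin_cases l <;> simp_all
    have h4 := hW.trans (Nat.mul_le_mul_right _ cK)
    rw [e0, mul_assoc] at h4
    have : 0 < Nat.card (U ⊔ CV V A : AddSubgroup V) := Nat.card_pos
    simp only [Finset.card_univ, Fintype.card_fin] at h3
    omega
  have rg : ∀ {i j w g}, f i = f u → Can π f E i j w g → (π a i = i ∧ π a j = j ∨ π a i = j) →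
      π a w = w → ∀ v : V, ∃ v' : V, Dl a (Dl g v) = Dl g v' := fun {i j w g} fi hg h3 h4 v => by
    have := L.can_conj hg a
    rw [Dl_apply a, smul_Dl a]
    rcases h3 with h3 | h3
    · rw [h3.1, h3.2, h4] at this
      exact ⟨a • v - v, by rw [L.can_uniq this hg, map_sub]⟩
    · rw [h3, h4, ← h3, L.invol ha, h3] at this
      refine ⟨-(g⁻¹ • a • v) - v, ?_⟩
      rw [L.can_uniq this hg.inv'.rot.rot]
      simp only [Dl_apply, smul_sub, smul_neg, smul_inv_smul]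
      abel
  obtain ⟨z, hz⟩ := rg fi hc (Or.inr a1) a2 v
  obtain ⟨z', hz'⟩ := rg fi' hd (by
    have q1 := t1 a ha i' fi'
    have q2 := t1 a ha _ (t3 i' fi').2
    have q3 := t3 i' fi'
    have q4 := L.invol ha (τ i')
    clear * - q1 q2 q3 q4
    grind) a3 v'
  have k2 := DU a ha _ n3
  have k3 : c • Dl d z' = Dl d z' := mem_KW.1 (F.nv _ _ _ d fi' hd (hc.memH ?_ ?_ ?_)) z' trivial
  · rw [map_sub, hz, hz'] at k2
    have k4 := sub_mem (U_inv (F.rs.eqv c mc) k2) k2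
    rw [smul_sub, k3, sub_sub_sub_cancel_right, ← Dl_apply] at k4
    have k5 := U_inv (F.rs.eqv c mc) k4
    rw [L.sq_Dl hc, ← hz] at k5
    exact v1 k5
  all_goals
    have q1 := t3 i fi
    have q2 := t3 i' fi'
    have q3 := t4 i hi
    have q4 := t4 i' hi'
    simp only [Finset.mem_sdiff, mem_Fb, Finset.mem_insert, Finset.mem_singleton]
    clear * - q1 q2 q3 q4 hi hi' ii x1 y1 hx
    grind

theorem main2 : ∃ R : Ω → Ω → V, (∀ (g : M) x y, g • R x y = R (π g x) (π g y)) ∧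
    (∀ x y z, f y = f x → f z = f x → R x y + R y z = R x z) ∧ ∃ i j, i ≠ j ∧ f j = f i ∧
      (∀ x y, f x = f i → f y = f i → x ≠ y → R x y ≠ 0) ∧
      ∀ w, f w = f i → w ≠ i → w ≠ j → ∃ a ∈ A, π a i = j ∧ π a j = i ∧ π a w = w := by
  classical
  let P : ι → (Ω → Ω → V) → Prop := fun k r => ∃ u, f u = k ∧ RSys π f E u r ∧ r ≠ 0 ∧
    ∀ s : Ω → Ω → V, RSys π f E u s → s ≠ 0 → s = r
  let ρ : ι → Ω → Ω → V := fun k => if h : ∃ r, P k r then h.choose else 0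
  have p1 : ∀ k r, P k r → ρ k = r := fun k r h => by
    have h' : ∃ r, P k r := ⟨r, h⟩
    obtain ⟨u, hu, -, -, h1⟩ := h
    obtain ⟨v, hv, h2, h3, -⟩ := h'.choose_spec
    simp only [ρ, dif_pos h']
    exact h1 _ (h2.of_eq (hu.trans hv.symm)) h3
  have az : ∀ (g : M) (r : Ω → Ω → V), r ≠ 0 → act π g r ≠ 0 := fun g r h e => h (by
    rw [← act_one (π := π) r, ← inv_mul_cancel g, ← act_act, e]
    ext x y; simp [act])
  have p2 : ∀ (g : M) x r, P (f x) r → P (f (π g x)) (act π g r) := by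
    rintro g x r ⟨u, hu, h1, h2, h3⟩
    refine ⟨π g u, L.fib g _ _ hu, L.rs_act h1 g, az g r h2, fun s hs h0 => ?_⟩
    have := L.rs_act hs g⁻¹
    rw [← mul_apply, ← map_mul, inv_mul_cancel, map_one, one_apply] at this
    rw [← h3 _ this (az _ s h0), act_act, mul_inv_cancel, act_one]
  obtain ⟨a, ha, h1⟩ := L.ne
  obtain ⟨u, hu⟩ : ∃ u, π a u ≠ u := by
    by_contra hc
    push Not at hc
    exact h1 (Equiv.ext hc)
  obtain ⟨r, F⟩ := L.exists_fx ha hu
  obtain ⟨h2, i, j, ij, hi, hj, h3⟩ := L.type_main F ha hu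
  refine ⟨fun x y => ρ (f x) x y, fun g x y => ?_, fun x y z hy hz => ?_, i, j, ij, hj.trans hi.symm,
    fun x y hx hy hxy => ?_, fun w hw => h3 w (hw.trans hi)⟩
  · by_cases h : ∃ r, P (f x) r
    · obtain ⟨r, h⟩ := h
      beta_reduce
      rw [p1 _ _ h, p1 _ _ (p2 g x r h), act_apply]
    · have h' : ¬ ∃ r, P (f (π g x)) r := fun ⟨r, h'⟩ => h ⟨_, by simpa using p2 g⁻¹ _ r h'⟩
      simp [ρ, dif_neg h, dif_neg h']
  · beta_reduce
    rw [hy]
    by_cases h : ∃ r, P (f x) r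
    · obtain ⟨r, h⟩ := h
      rw [p1 _ _ h]
      obtain ⟨v, hv, h4, -⟩ := h
      exact h4.coc x y z hv.symm (hy.trans hv.symm) (hz.trans hv.symm)
    · simp [ρ, dif_neg h]
  · beta_reduce
    rw [p1 _ r ⟨u, (hx.trans hi).symm, F.rs, F.ne, h2⟩]
    exact L.rs_ne F.ge F.rs F.ne hxy (hx.trans hi) (hy.trans hi)

end Loc

end Pool.Agent.Lib.MP_03ba20_al
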