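import Pool.Agent.Lib.MP_03ba20_al.AltLoc

namespace Pool.Agent.Lib.MP_03ba20_al

open Equiv Equiv.Perm

variable {M V Ω ι : Type*} [Group M] [AddCommGroup V] [DistribMulAction M V]
  [Fintype Ω] [DecidableEq Ω] [DecidableEq ι]

theorem ring_comm {R : Type*} [Ring R] {a b : R} (h : a * (a - 1) = a - 1) :
    a * (a * b + (2 - b) * (2 - a)) = (a * b + (2 - b) * (2 - a)) * a := by
  have : a * (a * b + (2 - b) * (2 - a)) - (a * b + (2 - b) * (2 - a)) * a =
      (a * (a - 1) - (a - 1)) * b - b * (a * (a - 1) - (a - 1)) := by noncomm_ring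
  rwa [h, sub_self, zero_mul, mul_zero, sub_zero, sub_eq_zero] at this

omit [Fintype Ω] [DecidableEq Ω] in
theorem pow5 {τ : Perm Ω} {a b c d e : Ω} (h1 : τ a = b) (h2 : τ b = c) (h3 : τ c = d) (h4 : τ d = e)
    (h5 : τ e = a) (h : ∀ x, x ≠ a → x ≠ b → x ≠ c → x ≠ d → x ≠ e → τ x = x) : τ ^ 5 = 1 := by
  ext x
  simp only [pow_succ, pow_zero, one_mul, mul_apply, one_apply]
  by_cases k : x = a ∨ x = b ∨ x = c ∨ x = d ∨ x = e <;> grind

omit [Fintype Ω] [DecidableEq Ω] in
theorem pow7 {τ : Perm Ω} {a b c d e f g : Ω} (h1 : τ a = b) (h2 : τ b = c) (h3 : τ c = d)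
    (h4 : τ d = e) (h5 : τ e = f) (h6 : τ f = g) (h7 : τ g = a)
    (h : ∀ x, x ≠ a → x ≠ b → x ≠ c → x ≠ d → x ≠ e → x ≠ f → x ≠ g → τ x = x) : τ ^ 7 = 1 := by
  ext x
  simp only [pow_succ, pow_zero, one_mul, mul_apply, one_apply]
  by_cases k : x = a ∨ x = b ∨ x = c ∨ x = d ∨ x = e ∨ x = f ∨ x = g <;> grind

omit [Fintype Ω] in
theorem five {a b c s t : Ω} (h : [a, b, c, s, t].Nodup) :
    (swap b s * swap c t * (swap a s * swap b t)⁻¹) ^ 5 = 1 ∧
      swap b s * swap c t * (swap a s * swap b t)⁻¹ ≠ 1 := by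
  simp only [List.nodup_cons, List.mem_cons, List.not_mem_nil, or_false, not_or] at h
  refine ⟨pow5 (a := a) (b := b) (c := c) (d := t) (e := s) ?_ ?_ ?_ ?_ ?_ (fun x => ?_), fun e => ?_⟩
  rotate_right
  · have := congrArg (fun σ : Perm Ω => σ s) e
    simp only [mul_inv_rev, swap_inv, mul_apply, swap_apply_def, one_apply] at this
    grind
  all_goals simp only [mul_inv_rev, swap_inv, mul_apply, swap_apply_def]; grind

omit [Fintype Ω] in
theorem seven {a b c d s t r y z : Ω} (h : [a, b, c, d, s, t, r, y, z].Nodup) :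
    (swap b s * swap c t * (swap d r * swap y z) * (swap a s * swap b t * (swap c r * swap y z))⁻¹) ^ 7
      = 1 ∧ swap b s * swap c t * (swap d r * swap y z) *
        (swap a s * swap b t * (swap c r * swap y z))⁻¹ ≠ 1 := by
  simp only [List.nodup_cons, List.mem_cons, List.not_mem_nil, or_false, not_or] at h
  rw [show swap b s * swap c t * (swap d r * swap y z) * (swap a s * swap b t * (swap c r * swap y z))⁻¹
    = swap b s * swap c t * swap d r * swap c r * swap b t * swap a s by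
      simp [mul_assoc]]
  refine ⟨pow7 (a := a) (b := b) (c := c) (d := d) (e := r) (f := t) (g := s) ?_ ?_ ?_ ?_ ?_ ?_ ?_
    (fun x => ?_), fun e => ?_⟩
  rotate_right
  · have := congrArg (fun σ : Perm Ω => σ s) e
    simp only [mul_apply, swap_apply_def, one_apply] at this
    grind
  all_goals simp only [mul_apply, swap_apply_def]; grind

theorem card_sup_le' [Finite V] (X Y : AddSubgroup V) :
    Nat.card (X ⊔ Y : AddSubgroup V) ≤ Nat.card X * Nat.card Y := by
  rw [← Nat.card_prod]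
  refine Nat.card_le_card_of_surjective (fun y : X × Y => (⟨y.1 + y.2,
    AddSubgroup.add_mem_sup y.1.2 y.2.2⟩ : (X ⊔ Y : AddSubgroup V))) ?_
  rintro ⟨z, hz⟩
  obtain ⟨x, hx, y, hy, rfl⟩ := AddSubgroup.mem_sup.1 hz
  exact ⟨(⟨x, hx⟩, ⟨y, hy⟩), rfl⟩

/-- points of the fibre of `u` moved by `σ`. -/
def Mv (f : Ω → ι) (σ : Perm Ω) (u : Ω) : Finset Ω := (Fb f u).filter fun x => σ x ≠ x

theorem mem_Mv {f : Ω → ι} {σ : Perm Ω} {u x : Ω} : x ∈ Mv f σ u ↔ f x = f u ∧ σ x ≠ x := by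
  simp [Mv, mem_Fb]

namespace Loc

variable {p : ℕ} {π : M →* Perm Ω} {f : Ω → ι} {E A : Subgroup M} (L : Loc V p π f E A)
include L

theorem pick_fix {σ : Perm Ω} {u : Ω} {n : ℕ} (h : (Mv f σ u).card ≤ n) (l : List Ω)
    (hl : l.length + n < 25) : ∃ x, f x = f u ∧ σ x = x ∧ x ∉ l := by
  have h1 := L.big u
  have h2 := Finset.le_card_sdiff (Mv f σ u) (Fb f u)
  obtain ⟨x, hx, hx'⟩ := pick (Fb f u \ Mv f σ u) l (by omega)
  simp only [Finset.mem_sdiff, mem_Fb, mem_Mv, not_and, not_not] at hx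
  exact ⟨x, hx.1, hx.2 hx.1, hx'⟩

theorem odd1 (h2 : p ≠ 2) {a x : M} (ha : a ∈ A) (hx : x ∈ E) (h1 : π x * π x = 1)
    (h3 : x * (a * x * a⁻¹) = a * x * a⁻¹ * x) : π a * π x = π x * π a := by
  let φ := DistribMulAction.toAddMonoidEnd M V
  have q : ∀ c ∈ A, φ c * (φ c - 1) = φ c - 1 := fun c hc => AddMonoidHom.ext (L.quad c hc c hc)
  have q' : ∀ c, φ c * (φ c - 1) = φ c - 1 → φ c⁻¹ = 2 - φ c := fun c hc => by
    have : φ c⁻¹ * (φ c * (φ c - 1)) = φ c⁻¹ * (φ c - 1) := by rw [hc]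
    rw [← mul_assoc, mul_sub (φ c⁻¹), ← map_mul, inv_mul_cancel, map_one, one_mul, mul_one] at this
    rw [← sub_sub_cancel 1 (φ c⁻¹), ← this, ← one_add_one_eq_two]; abel
  have qb : φ (x * a⁻¹ * x⁻¹) * (φ (x * a⁻¹ * x⁻¹) - 1) = φ (x * a⁻¹ * x⁻¹) - 1 := by
    have e : φ (x * a⁻¹ * x⁻¹) - 1 = φ x * (φ a⁻¹ - 1) * φ x⁻¹ := by
      rw [mul_sub, sub_mul, mul_one, ← map_mul, ← map_mul, ← map_mul, mul_inv_cancel, map_one]
    rw [e]
    conv_rhs => rw [← q _ (inv_mem ha)]
    simp only [← mul_assoc, ← map_mul, inv_mul_cancel_right]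
  have hz := L.cen (x * x) (mul_mem hx hx) (by rw [map_mul, h1]) a (L.AE ha)
  have hg : (x * a⁻¹ * x⁻¹)⁻¹ * a⁻¹ = a * (x * a⁻¹ * x⁻¹) := by
    calc _ = (x * (a * x * a⁻¹)) * a * (a * (x * x))⁻¹ := by group
      _ = (a * x * a⁻¹ * x) * (a * (x * x)⁻¹ * a⁻¹) := by rw [h3]; group
      _ = (a * x * a⁻¹ * x) * (a * (a * (x * x))⁻¹) := by group
      _ = _ := by rw [hz]; group
  have e := ring_comm (b := φ (x * a⁻¹ * x⁻¹)) (q a ha)
  rw [← q' _ qb, ← q' _ (q a ha), ← map_mul, ← map_mul, hg] at e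
  set g := a * (x * a⁻¹ * x⁻¹) with hgd
  have e1 : (g * a)⁻¹ * (a * g) = 1 := L.faith _ fun v => by
    have h4 : (2 : ℕ) • ((a * g) • v - (g * a) • v) = 0 := by
      have := DFunLike.congr_fun e v
      change a • (g • v + g • v) = g • a • v + g • a • v at this
      rw [smul_add] at this
      rw [two_nsmul, mul_smul a g, mul_smul g a, sub_add_sub_comm, this, sub_self]
    have := Nat.dvd_gcd (addOrderOf_dvd_of_nsmul_eq_zero h4) (addOrderOf_dvd_of_nsmul_eq_zero (L.exp _))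
    rw [(Nat.coprime_primes Nat.prime_two L.prime).2 h2.symm, Nat.dvd_one,
      AddMonoid.addOrderOf_eq_one_iff, sub_eq_zero] at this
    rw [mul_smul, this, inv_smul_smul]
  have e2 : π a * π a * π x = π x * (π a * π a) := by
    have e3 := congrArg π (inv_mul_eq_one.1 e1)
    have e4 := congrArg π h3
    simp only [hgd, map_mul, map_inv] at e3 e4
    rw [inv_eq_of_mul_eq_one_left h1] at e3
    calc _ = (π a * (π a * (π x * (π a)⁻¹ * π x))) * π x * π a * (π x * π x) := by
          rw [h1]; simp only [mul_assoc, h1]; group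
      _ = π a * π x * (π a)⁻¹ * π x * (π a * π x * (π a)⁻¹) * π a * π a := by
          rw [← e3, h1]; group
      _ = π a * π x * (π a)⁻¹ * (π a * π x * (π a)⁻¹ * π x) * π a * π a := by
          rw [mul_assoc _ (π x), e4]
      _ = π a * (π x * π x) * (π a)⁻¹ * π x * π a * π a := by group
      _ = _ := by rw [h1]; group
  obtain ⟨k, hk⟩ := L.prime.odd_of_ne_two h2
  have e5 : π a = ((π a * π a) ^ k)⁻¹ := by
    have := congrArg π (L.pow a ha)
    rw [map_pow, map_one, hk, pow_succ, pow_mul, pow_two] at this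
    exact eq_inv_of_mul_eq_one_right this
  have := ((show Commute (π a * π a) (π x) from e2).pow_left k).inv_left
  rwa [← e5] at this

theorem odd2 (h2 : p ≠ 2) {a : M} (ha : a ∈ A) {u v w z : Ω} (hv : f v = f u) (hw : f w = f u)
    (hz : f z = f u) (h : [u, v, w, z, π a u, π a v, π a w, π a z].Nodup) : False := by
  simp only [List.nodup_cons, List.mem_cons, List.not_mem_nil, or_false, not_or] at h
  have hu := L.ge_of (L.AE ha) (u := u) (by tauto)
  obtain ⟨s, hs, s1⟩ := L.pickF u [u, v, w, z, π a u, π a v, π a w, π a z] (by simp)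
  simp only [List.mem_cons, List.not_mem_nil, or_false, not_or] at s1
  have hΔ : ({u, v, w, z, s} : Finset Ω) ⊆ Fb f u := by
    simp [Finset.insert_subset_iff, mem_Fb, *]
  have m : swap u v * swap w z ∈ alt ({u, v, w, z, s} : Finset Ω) :=
    swaps_mem (by tauto) (by tauto) (by simp) (by simp) (by simp) (by simp)
  obtain ⟨x, hx, e⟩ := hu _ (alt_mono hΔ m)
  have := L.odd1 h2 ha hx (by rw [e]; ext y; simp only [mul_apply, swap_apply_def, one_apply]; grind)
    (L.comm_lift hu hΔ (by grind) (L.nrm.conj_mem x hx a) (fun y hy => by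
      rw [map_mul, map_mul, map_inv, e, show π a * (swap u v * swap w z) * (π a)⁻¹ =
        swap (π a u) (π a v) * swap (π a w) (π a z) by simp only [swap_apply_apply]; group]
      simp only [mul_apply, swap_apply_def]
      grind) hx (e ▸ m)).symm
  have : π a (π x u) = π x (π a u) := by rw [← mul_apply, this, mul_apply]
  simp only [e, mul_apply, swap_apply_def] at this
  grind

theorem mv_le (h2 : p ≠ 2) {a : M} (ha : a ∈ A) (u : Ω) : (Mv f (π a) u).card ≤ 9 := by
  by_contra h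
  obtain ⟨x, hx, -⟩ := pick (Mv f (π a) u) [] (by simp only [List.length_nil]; omega)
  obtain ⟨y, hy, y1⟩ := pick (Mv f (π a) u) [x, π a x, (π a)⁻¹ x] (by simp; omega)
  obtain ⟨z, hz, z1⟩ := pick (Mv f (π a) u) [x, π a x, (π a)⁻¹ x, y, π a y, (π a)⁻¹ y]
    (by simp; omega)
  obtain ⟨w, hw, w1⟩ := pick (Mv f (π a) u) [x, π a x, (π a)⁻¹ x, y, π a y, (π a)⁻¹ y, z, π a z,
    (π a)⁻¹ z] (by simp; omega)
  simp only [List.mem_cons, List.not_mem_nil, or_false, not_or, mem_Mv, Perm.eq_inv_iff_eq]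
    at hx hy hz hw y1 z1 w1
  refine L.odd2 h2 ha (u := x) (v := y) (w := z) (z := w) (by grind) (by grind) (by grind) ?_
  simp only [List.nodup_cons, List.mem_cons, List.not_mem_nil, or_false, not_or,
    EmbeddingLike.apply_eq_iff_eq]
  grind

theorem odd3 (h2 : p ≠ 2) {a : M} (ha : a ∈ A) {u0 u1 u2 w0 w1 w2 s t : Ω}
    (hf : ∀ x ∈ [u1, u2, w0, w1, w2, s, t], f x = f u0) (h : [u0, u1, u2, w0, w1, w2, s, t].Nodup)
    (a0 : π a u0 = u1) (a1 : π a u1 = u2) (a2 : π a u2 = u0) (b0 : π a w0 = w1) (b1 : π a w1 = w2)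
    (b2 : π a w2 = w0) (hs : π a s = s) (ht : π a t = t) : False := by
  simp only [List.nodup_cons, List.mem_cons, List.not_mem_nil, or_false, not_or, forall_eq_or_imp,
    forall_eq] at h hf
  have hu := L.ge_of (L.AE ha) (u := u0) (by grind)
  obtain ⟨r, hr, r1⟩ := L.pickF u0 [u0, u1, u2, w0, w1, w2, s, t] (by simp)
  simp only [List.mem_cons, List.not_mem_nil, or_false, not_or] at r1
  have hΔ : ({u0, u1, u2, s, r} : Finset Ω) ⊆ Fb f u0 := by
    simp [Finset.insert_subset_iff, mem_Fb, *]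
  have m1 : swap u0 s * swap u1 u2 ∈ alt ({u0, u1, u2, s, r} : Finset Ω) :=
    swaps_mem (by tauto) (by tauto) (by simp) (by simp) (by simp) (by simp)
  have m1' : swap u1 s * swap u2 u0 ∈ alt ({u0, u1, u2, s, r} : Finset Ω) :=
    swaps_mem (by tauto) (by tauto) (by simp) (by simp) (by simp) (by simp)
  obtain ⟨x, hx, ex⟩ := hu _ (alt_mono hΔ m1)
  obtain ⟨y, hy, ey⟩ := hu (swap w0 t * swap w1 w2) (swaps_mem (by tauto) (by tauto)
    (by simp [mem_Fb, *]) (by simp [mem_Fb, *]) (by simp [mem_Fb, *]) (by simp [mem_Fb, *]))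
  obtain ⟨g, hg, eg⟩ := hu ((swap u0 w0 * swap u1 w1) * (swap u2 w2 * swap s t)) (mul_mem
    (swaps_mem (by tauto) (by tauto) (by simp [mem_Fb]) (by simp [mem_Fb, *]) (by simp [mem_Fb, *])
      (by simp [mem_Fb, *])) (swaps_mem (by tauto) (by tauto) (by simp [mem_Fb, *])
      (by simp [mem_Fb, *]) (by simp [mem_Fb, *]) (by simp [mem_Fb, *])))
  have cj : ∀ (σ : Perm Ω) a b c d, σ * (swap a b * swap c d) * σ⁻¹ =
      swap (σ a) (σ b) * swap (σ c) (σ d) := fun σ a b c d => by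
    simp only [swap_apply_apply]; group
  have hx' := L.nrm.conj_mem x hx a
  have hy' := L.nrm.conj_mem y hy a
  have ex' : π (a * x * a⁻¹) = swap u1 s * swap u2 u0 := by
    rw [map_mul, map_mul, map_inv, ex, cj, a0, a1, a2, hs]
  have ey' : π (a * y * a⁻¹) = swap w1 t * swap w2 w0 := by
    rw [map_mul, map_mul, map_inv, ey, cj, b0, b1, b2, ht]
  set x' := a * x * a⁻¹ with hxd
  set y' := a * y * a⁻¹ with hyd
  clear_value x' y'
  have c5 : 5 ≤ ({u0, u1, u2, s, r} : Finset Ω).card := by grind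
  have fy : ∀ z ∈ ({u0, u1, u2, s, r} : Finset Ω), π y z = z := fun z hz => by
    simp only [ey, mul_apply, swap_apply_def]; grind
  have fy' : ∀ z ∈ ({u0, u1, u2, s, r} : Finset Ω), π y' z = z := fun z hz => by
    simp only [ey', mul_apply, swap_apply_def]; grind
  have c1 := L.comm_lift hu hΔ c5 hy fy hx (ex ▸ m1)
  have c2 := L.comm_lift hu hΔ c5 hy fy hx' (ex' ▸ m1')
  have c3 := L.comm_lift hu hΔ c5 hy' fy' hx (ex ▸ m1)
  have c4 := L.comm_lift hu hΔ c5 hy' fy' hx' (ex' ▸ m1')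
  obtain ⟨ε, hε, -, e1, e2⟩ := L.exists_z (mul_mem hx' hx) (mul_mem hx hx') (by
    rw [map_mul, map_mul, ex, ex']
    ext z; simp only [mul_apply, swap_apply_def]; grind)
  have g1 : π g u0 = w0 ∧ π g u1 = w1 ∧ π g u2 = w2 ∧ π g s = t := by
    simp only [eg, mul_apply, swap_apply_def]; grind
  obtain ⟨z, hz, -, z1, z2⟩ := L.exists_z (L.nrm.conj_mem x hx g) hy (by
    rw [map_mul, map_mul, map_inv, ex, ey, cj, g1.1, g1.2.1, g1.2.2.1, g1.2.2.2])
  obtain ⟨z', hz', -, z1', z2'⟩ := L.exists_z (L.nrm.conj_mem x' hx' g) hy' (by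
    rw [map_mul, map_mul, map_inv, ex', ey', cj, g1.1, g1.2.1, g1.2.2.1, g1.2.2.2])
  have e3 : y * y' = y' * y * ε := by
    have k1 := z2 _ (L.nrm.conj_mem x' hx' g)
    have k2 := z2' _ (L.nrm.conj_mem x hx g)
    calc y * y' = g * x * g⁻¹ * (z * (g * x' * g⁻¹)) * z' := by rw [z1, z1']; group
      _ = g * (x * x') * g⁻¹ * (z * z') := by rw [← k1]; group
      _ = g * x' * x * (ε * g⁻¹) * (z * z') := by rw [e1]; group
      _ = g * x' * g⁻¹ * (g * x * g⁻¹) * (ε * (z * z')) := by rw [← e2 _ (inv_mem hg)]; group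
      _ = g * x' * g⁻¹ * (g * x * g⁻¹ * z') * z * ε := by
        rw [← e2 _ (mul_mem hz hz'), z2' z hz]; group
      _ = _ := by rw [k2, z1, z1']; group
  have e4 : ε * ε = 1 := by
    have k := L.cen (x * x) (mul_mem hx hx) (by
      rw [map_mul, ex]; ext z; simp only [mul_apply, swap_apply_def, one_apply]; grind) x' hx'
    have : x * x * x' = x' * (x * x) * (ε * ε) := by
      calc x * x * x' = x * (x' * x * ε) := by rw [mul_assoc, e1]
        _ = (x * x') * x * ε := by group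
        _ = x' * x * (ε * x) * ε := by rw [e1]; group
        _ = _ := by rw [← e2 x hx]; group
    rwa [k, left_eq_mul] at this
  have := L.odd1 h2 ha (mul_mem hx hy) (by
    rw [map_mul, ex, ey]; ext z; simp only [mul_apply, swap_apply_def, one_apply]; grind) (by
    rw [show a * (x * y) * a⁻¹ = x' * y' by rw [hxd, hyd]; group]
    calc x * y * (x' * y') = x * (y * x') * y' := by group
      _ = (x * x') * (y * y') := by rw [c2]; group
      _ = x' * x * (ε * (y' * y)) * ε := by rw [e1, e3]; group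
      _ = x' * (x * y') * y * (ε * ε) := by rw [← e2 _ (mul_mem hy' hy)]; group
      _ = _ := by rw [e4, ← c3]; group)
  have : π a (π (x * y) s) = π (x * y) (π a s) := by rw [← mul_apply, this, mul_apply]
  simp only [map_mul, ex, ey, hs, mul_apply, swap_apply_def] at this
  grind

theorem odd4 {a : M} (ha : a ∈ A) {u : Ω} (hu : GE π f E u)
    (hW : Nat.card (CV V (BF π A (Fb f u))) ≤ p * Nat.card (CV V A)) {σ : Perm Ω}
    (hσ : σ ∈ alt (Fb f u)) {q : ℕ} (hq : q.Prime)
    (h1 : q ≠ p) (h2 : ¬ p ≡ 1 [MOD q]) (h3 : ¬ p ^ 2 ≡ 1 [MOD q])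
    (h4 : (π a * σ * (π a)⁻¹ * σ⁻¹) ^ q = 1) : π a * σ * (π a)⁻¹ * σ⁻¹ = 1 := by
  have := L.finM
  have := L.finV
  obtain ⟨g, hg, rfl⟩ := hu σ hσ
  set B := BF π A (Fb f u)
  set W := CV V B
  have gB : ∀ b ∈ B, b * g = g * b := fun b hb => L.comm_lift hu subset_rfl
    ((by norm_num : 5 ≤ 25).trans (L.big u)) (L.AE hb.1) hb.2 hg hσ
  have aB : ∀ b ∈ B, b * a = a * b := fun b hb => L.comm b hb.1 a ha
  have yB : ∀ b ∈ B, Commute b (a * (g * a⁻¹ * g⁻¹)) := fun b hb =>
    Commute.mul_right (aB b hb) (((show Commute b g from gB b hb).mul_right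
      (Commute.inv_right (aB b hb))).mul_right (Commute.inv_right (gB b hb)))
  set y := a * (g * a⁻¹ * g⁻¹) with hy
  let X := W.map (Dl a) ⊔ (W.map (Dl a⁻¹)).map (DistribSMul.toAddMonoidHom V g)
  have cX : Nat.card X ≤ p ^ 2 := (card_sup_le' _ _).trans (by
    rw [pow_two]
    exact Nat.mul_le_mul (card_map_le (CV_le _) (fun v hv => hv a ha) hW)
      ((Nat.card_le_card_of_surjective _ (AddMonoidHom.addSubgroupMap_surjective _ _)).trans (card_map_le (CV_le _) (fun v hv => hv _ (inv_mem ha)) hW)))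
  have gW : ∀ w ∈ W, g⁻¹ • w ∈ W := fun w hw => W_inv (fun b hb => Commute.inv_right (gB b hb)) hw
  have k1 : ∀ w ∈ W, Dl y w ∈ X := fun w hw => by
    have : Dl y w = Dl a ((g * a⁻¹ * g⁻¹) • w) + g • Dl a⁻¹ (g⁻¹ • w) := by
      simp [Dl_apply, hy, mul_smul, smul_sub]
    rw [this]
    refine AddSubgroup.add_mem_sup ⟨_, W_inv (fun b hb => ((show Commute b g from gB b hb).mul_right
      (Commute.inv_right (aB b hb))).mul_right (Commute.inv_right (gB b hb))) hw, rfl⟩
      ⟨_, ⟨_, gW w hw, rfl⟩, rfl⟩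
  have k2 : ∀ n : ℕ, ∀ w ∈ W, Dl (y ^ n) w ∈ X := fun n w hw => by
    induction n with
    | zero => simp [Dl_apply]
    | succ n ih =>
      have : Dl (y ^ (n + 1)) w = Dl y (y ^ n • w) + Dl (y ^ n) w := by
        simp [Dl_apply, pow_succ', mul_smul]
      rw [this]
      exact add_mem (k1 _ (W_inv (fun b hb => (yB b hb).pow_right n) hw)) ih
  obtain ⟨k, m, hm, e⟩ := Nat.exists_eq_pow_mul_and_not_dvd (orderOf_pos y).ne' q hq.ne_one
  have y1 : (y ^ m) ^ q ^ k = 1 := by rw [← pow_mul, mul_comm, ← e, pow_orderOf_eq_one]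
  have cp : (q ^ k).Coprime p := ((Nat.coprime_primes hq L.prime).2 h1).pow_left k
  let U := W.map (Dl (y ^ m))
  have yW : ∀ w ∈ W, y ^ m • w ∈ W := fun w hw => W_inv (fun b hb => (yB b hb).pow_right m) hw
  have cU : Nat.card U ≤ p ^ 2 := (AddSubgroup.card_le_of_le (by
    rintro _ ⟨w, hw, rfl⟩; exact k2 m w hw)).trans cX
  have := Fact.mk L.prime
  have := Fact.mk hq
  obtain ⟨j, hj⟩ := (IsPGroup.iff_card (p := p) (G := Multiplicative U)).1 fun v =>
    ⟨1, by rw [pow_one]; exact Subtype.ext (L.exp _)⟩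
  change Nat.card U = _ at hj
  let F : Function.End U := fun v => ⟨y ^ m • v.1, by
    obtain ⟨w, hw, e⟩ := v.2
    exact ⟨_, yW w hw, by rw [← e, smul_Dl_of rfl]⟩⟩
  have hF : ∀ n : ℕ, ∀ v : U, ((F ^ n) v).1 = (y ^ m) ^ n • v.1 := fun n v => by
    induction n with
    | zero => simp; rfl
    | succ n ih => rw [pow_succ', pow_succ', mul_smul, ← ih]; rfl
  classical
  have := Fintype.ofFinite U
  have h5 := card_fixedPoints_modEq (f := F) (p := q) (n := k) (funext fun v => Subtype.ext (by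
    rw [hF, y1, one_smul]; rfl))
  have h6 : Fintype.card F.fixedPoints = 1 := Fintype.card_eq_one_iff.2 ⟨⟨0, Subtype.ext (smul_zero _)⟩,
    fun v => Subtype.ext (Subtype.ext (by
      obtain ⟨w, hw, e⟩ := v.1.2
      have : y ^ m • v.1.1 = v.1.1 := congrArg Subtype.val v.2
      rw [← e] at this ⊢
      exact Dl_eq_zero.2 (fix_of_coprime L.exp cp y1 this)))⟩
  rw [h6, ← Nat.card_eq_fintype_card, hj] at h5
  rw [hj] at cU
  have hj2 := (Nat.pow_le_pow_iff_right L.prime.one_lt).1 cU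
  have j0 : j = 0 := by
    interval_cases j
    · rfl
    · exact absurd (by simpa using h5) h2
    · exact absurd h5 h3
  rw [j0, pow_zero, AddSubgroup.card_eq_one] at hj
  have h7 := L.eq_one_of (B := B) (fun _ h => h.1) (fun b hb => (yB b hb).pow_right m) cp y1
    fun w hw => Dl_eq_zero.1 (AddSubgroup.mem_bot.1 (hj ▸ ⟨w, hw, rfl⟩))
  have h8 : π y = π a * π g * (π a)⁻¹ * (π g)⁻¹ := by simp [hy, mul_assoc]
  rw [← h8] at h4 ⊢
  have := Nat.dvd_gcd (orderOf_dvd_of_pow_eq_one h4) (orderOf_dvd_of_pow_eq_one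
    (show π y ^ m = 1 by rw [← map_pow, h7, map_one]))
  rwa [(hq.coprime_iff_not_dvd.2 hm), Nat.dvd_one, orderOf_eq_one_iff] at this

theorem odd5 (h2 : p ≠ 2) {a : M} (ha : a ∈ A) {u : Ω} : f (π a u) = f u := by
  obtain ⟨s, hs, s1, -⟩ := L.pick_fix (L.mv_le h2 ha u) [] (by simp)
  rw [L.fib a _ _ hs.symm, s1, hs]

theorem orb_sub (h2 : p ≠ 2) {a : M} (ha : a ∈ A) {u w : Ω} (hw : w ∈ Mv f (π a) u) :
    (Finset.range p).image (fun i => (π a ^ i) w) ⊆ Mv f (π a) u ∧
      ((Finset.range p).image fun i => (π a ^ i) w).card = p := by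
  rw [mem_Mv] at hw
  constructor
  · intro x hx
    obtain ⟨i, -, rfl⟩ := Finset.mem_image.1 hx
    refine mem_Mv.2 ⟨?_, ?_⟩
    · rw [← map_pow, L.odd5 h2 (pow_mem ha i), hw.1]
    · rw [← mul_apply, ← pow_succ', pow_succ, mul_apply]
      exact (π a ^ i).injective.ne hw.2
  · rw [Finset.card_image_of_injOn, Finset.card_range]
    intro i hi j hj e
    exact pow_inj (g := π a) (y := w) L.prime (by rw [← map_pow, L.pow a ha, map_one]) hw.2
      (by simpa using hi) (by simpa using hj) e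

theorem odd6 (h2 : p ≠ 2) {a : M} (ha : a ∈ A) {u w : Ω} (hu : π a u ≠ u) (hw : w ∈ Mv f (π a) u) :
    ∃ i < p, (π a ^ i) u = w := by
  by_contra hc
  push Not at hc
  have hp : π a ^ p = 1 := by rw [← map_pow, L.pow a ha, map_one]
  have h1 := L.orb_sub h2 ha (mem_Mv.2 ⟨rfl, hu⟩)
  have h3 := L.orb_sub h2 ha hw
  have h4 : ∀ i, ∀ j ≤ p, (π a ^ i) u ≠ (π a ^ j) w := fun i j hj e =>
    hc ((p - j + i) % p) (Nat.mod_lt _ L.prime.pos) (by
      rw [← pow_eq_pow_mod _ hp, pow_add, mul_apply, e, ← mul_apply, ← pow_add,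
        Nat.sub_add_cancel hj, hp, one_apply])
  have h5 := Finset.card_le_card (Finset.union_subset h1.1 h3.1)
  rw [Finset.card_union_of_disjoint (Finset.disjoint_left.2 fun x hx hx' => by
    obtain ⟨i, -, rfl⟩ := Finset.mem_image.1 hx
    obtain ⟨j, hj, e⟩ := Finset.mem_image.1 hx'
    exact h4 i j (Finset.mem_range.1 hj).le e.symm), h1.2, h3.2] at h5
  have h6 := L.mv_le h2 ha u
  have h7 := L.prime.two_le
  have p3 : p = 3 := by
    have : p ≠ 4 := fun e => absurd L.prime (by rw [e]; norm_num)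
    omega
  subst p3
  obtain ⟨s, hs, s1, -⟩ := L.pick_fix h6 [] (by simp)
  obtain ⟨t, ht, t1, t2⟩ := L.pick_fix h6 [s] (by simp)
  have c : ∀ x, π a (π a (π a x)) = x := fun x => by
    have := congrArg (fun σ : Perm Ω => σ x) hp
    simpa [pow_succ] using this
  rw [mem_Mv] at hw
  have k0 := hc 0 (by omega)
  have k1 := hc 1 (by omega)
  have k2 := hc 2 (by omega)
  simp only [pow_succ, pow_zero, one_mul, one_apply, mul_apply, List.mem_singleton] at k0 k1 k2 t2
  refine L.odd3 h2 ha (u0 := u) (w0 := w) (s := s) (t := t) ?_ ?_ rfl rfl (c u) rfl rfl (c w) s1 t1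
  · simp [L.odd5 h2 ha, *]
  · simp only [List.nodup_cons, List.mem_cons, List.not_mem_nil, or_false, not_or]
    have := c u
    have := c w
    clear h1 h3 h4 h5 h6 hc hp c
    (repeat' apply And.intro) <;> grind

theorem eq_two : p = 2 := by
  by_contra h2
  obtain ⟨a, ha, h1⟩ := L.ne
  obtain ⟨u, hu⟩ : ∃ u, π a u ≠ u := by
    by_contra hc
    push Not at hc
    exact h1 (Equiv.ext hc)
  have h3 := L.orb_sub h2 ha (mem_Mv.2 ⟨rfl, hu⟩)
  have h4 := L.mv_le h2 ha u
  have cm : ∀ b ∈ A, ∀ x, π a (π b x) = π b (π a x) := fun b hb x => by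
    rw [← mul_apply, ← map_mul, L.comm a ha b hb, map_mul, mul_apply]
  have hW := L.W_le (Fb f u) ((Finset.range p).image fun i => (π a ^ i) u) (fun b => π b u)
    (fun b hb => by
      obtain ⟨i, hi, e⟩ := L.odd6 h2 ha hu (w := π b u) (mem_Mv.2 ⟨L.odd5 h2 hb, by
        rw [cm b hb]; exact (π b).injective.ne hu⟩)
      exact Finset.mem_image.2 ⟨i, Finset.mem_range.2 hi, e⟩) (fun b hb b' hb' e x hx => by
      have hc := mul_mem (inv_mem hb) hb'
      have c1 : π (b⁻¹ * b') u = u := by simp [← e]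
      have c2 : ∀ i : ℕ, π (b⁻¹ * b') ((π a ^ i) u) = (π a ^ i) u := fun i => by
        rw [← map_pow, ← mul_apply, ← map_mul, L.comm _ hc _ (pow_mem ha i), map_mul, mul_apply, c1]
      suffices π (b⁻¹ * b') x = x by
        rw [map_mul, map_inv, mul_apply, Perm.inv_eq_iff_eq] at this
        exact this.symm
      by_contra hx'
      by_cases h5 : π a x = x
      · obtain ⟨i, -, rfl⟩ := L.odd6 h2 (mul_mem ha hc) (u := u) (w := x)
          (by rwa [map_mul, mul_apply, c1]) (mem_Mv.2 ⟨mem_Fb.1 hx, by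
            rw [map_mul, mul_apply, cm _ hc, h5]; exact hx'⟩)
        apply hx'
        rw [← map_pow, ← mul_apply, ← map_mul, L.comm _ hc _ (pow_mem (mul_mem ha hc) i), map_mul,
          mul_apply, c1]
      · obtain ⟨i, -, rfl⟩ := L.odd6 h2 ha hu (mem_Mv.2 ⟨mem_Fb.1 hx, h5⟩)
        exact hx' (c2 i))
  rw [h3.2] at hW
  have h5 := (h3.2.symm.le.trans (Finset.card_le_card h3.1)).trans h4
  have hG := L.ge_of (L.AE ha) hu
  have inj := fun i j => pow_inj (g := π a) (y := u) (i := i) (j := j) L.prime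
    (by rw [← map_pow, L.pow a ha, map_one]) hu
  obtain ⟨s, hs, s1, -⟩ := L.pick_fix h4 [] (by simp)
  obtain ⟨t, ht, t1, t2⟩ := L.pick_fix h4 [s] (by simp)
  have f1 := L.odd5 h2 ha (u := u)
  have f2 := L.odd5 h2 ha (u := π a u)
  have h6 := L.prime.two_le
  have i1 : π a (π a u) ≠ u := fun e => by
    simpa using inj 2 0 (by omega) (by omega) (by simpa [pow_succ] using e)
  have cj : ∀ (σ : Perm Ω) a b c d, σ * (swap a b * swap c d) * σ⁻¹ =
      swap (σ a) (σ b) * swap (σ c) (σ d) := fun σ a b c d => by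
    simp only [swap_apply_apply]; group
  simp only [List.mem_singleton] at t2
  by_cases p5 : p = 5
  · subst p5
    obtain ⟨r, hr, r1, r2⟩ := L.pick_fix h4 [s, t] (by simp)
    obtain ⟨y, hy, y1, y2⟩ := L.pick_fix h4 [s, t, r] (by simp)
    obtain ⟨z, hz, z1, z2⟩ := L.pick_fix h4 [s, t, r, y] (by simp)
    simp only [List.mem_cons, List.not_mem_nil, or_false, not_or] at r2 y2 z2
    have i2 : π a (π a (π a u)) ≠ u := fun e => by
      simpa using inj 3 0 (by omega) (by omega) (by simpa [pow_succ] using e)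
    have e : π a * (swap u s * swap (π a u) t * (swap (π a (π a u)) r * swap y z)) * (π a)⁻¹ =
        swap (π a u) s * swap (π a (π a u)) t * (swap (π a (π a (π a u))) r * swap y z) := by
      conv_rhs => rw [← s1, ← t1, ← r1, ← y1, ← z1, ← cj, ← cj]
      group
    have n : [u, π a u, π a (π a u), π a (π a (π a u)), s, t, r, y, z].Nodup := by
      simp only [List.nodup_cons, List.mem_cons, List.not_mem_nil, or_false, not_or]
      have := (π a).injective
      clear * - this hu i1 i2 s1 t1 t2 r1 r2 y1 y2 z1 z2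
      (repeat' apply And.intro) <;> grind [Function.Injective]
    have n' := seven n
    simp only [List.nodup_cons, List.mem_cons, List.not_mem_nil, or_false, not_or] at n
    rw [← e] at n'
    exact n'.2 (L.odd4 ha hG hW
      (mul_mem (swaps_mem (by tauto) (by tauto) (by simp [mem_Fb]) (by simp [mem_Fb, *])
        (by simp [mem_Fb, *]) (by simp [mem_Fb, *])) (swaps_mem (by tauto) (by tauto)
        (by simp [mem_Fb, *]) (by simp [mem_Fb, *]) (by simp [mem_Fb, *]) (by simp [mem_Fb, *])))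
      (q := 7) (by norm_num) (by norm_num) (by decide) (by decide) n'.1)
  · have e : π a * (swap u s * swap (π a u) t) * (π a)⁻¹ =
        swap (π a u) s * swap (π a (π a u)) t := by rw [cj, s1, t1]
    have p37 : p = 3 ∨ p = 7 := by
      have := L.prime.eq_two_or_odd
      have : p ≠ 9 := fun e => absurd L.prime (by rw [e]; norm_num)
      omega
    have n : [u, π a u, π a (π a u), s, t].Nodup := by
      simp only [List.nodup_cons, List.mem_cons, List.not_mem_nil, or_false, not_or]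
      have := (π a).injective
      clear * - this hu i1 s1 t1 t2
      (repeat' apply And.intro) <;> grind [Function.Injective]
    have n' := five n
    simp only [List.nodup_cons, List.mem_cons, List.not_mem_nil, or_false, not_or] at n
    rw [← e] at n'
    exact n'.2 (L.odd4 ha hG hW
      (swaps_mem (by tauto) (by tauto) (by simp [mem_Fb]) (by simp [mem_Fb, *])
        (by simp [mem_Fb, *]) (by simp [mem_Fb, *]))
      (q := 5) (by norm_num) (Ne.symm p5) (by rcases p37 with rfl | rfl <;> decide)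
      (by rcases p37 with rfl | rfl <;> decide) n'.1)

end Loc

end Pool.Agent.Lib.MP_03ba20_al
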