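import Pool.Agent.Lib.MP_03ba20_al.AltSplit
import Pool.Agent.Lib.MP_03ba20_al.AltOdd

namespace Pool.Agent.Lib.MP_03ba20_al

open Equiv Equiv.Perm

variable {M V Ω ι : Type*} [Group M] [AddCommGroup V] [DistribMulAction M V]

theorem Dl_comm {g h : M} (e : g * h = h * g) (v : V) : Dl g (Dl h v) = Dl h (Dl g v) := by
  simp only [Dl_apply, smul_sub, ← mul_smul, e]; abel

/-- `g` fixes the commutators of `W` with `h`. -/
def KW (W : AddSubgroup V) (h : M) : Subgroup M := PS (W.map (Dl h) : Set V)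

theorem mem_KW {W : AddSubgroup V} {g h : M} : g ∈ KW W h ↔ ∀ w ∈ W, g • Dl h w = Dl h w :=
  ⟨fun k w hw => k _ ⟨w, hw, rfl⟩, by rintro k _ ⟨w, hw, rfl⟩; exact k w hw⟩

theorem KW_symm {W : AddSubgroup V} {g h : M} (e : g * h = h * g) (k : g ∈ KW W h) : h ∈ KW W g :=
  mem_KW.2 fun w hw => Dl_eq_zero.1 (by rw [← Dl_comm e, Dl_eq_zero, mem_KW.1 k w hw])

theorem KW_conj {W : AddSubgroup V} {g h t : M} (hW : ∀ w ∈ W, g⁻¹ • w ∈ W) (k : t ∈ KW W h) :
    g * t * g⁻¹ ∈ KW W (g * h * g⁻¹) := mem_KW.2 fun w hw => by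
  rw [mul_smul, mul_smul, smul_Dl g⁻¹, show g⁻¹ * (g * h * g⁻¹) * g⁻¹⁻¹ = h by group,
    mem_KW.1 k _ (hW w hw), smul_Dl, smul_inv_smul]

variable [Fintype Ω] [DecidableEq Ω] [DecidableEq ι]
variable {π : M →* Perm Ω} {f : Ω → ι} {E A : Subgroup M} {u : Ω}

variable (V π f A u) in
/-- starting data for the spreading argument. -/
def St (a : M) : Prop := ∃ h Δ, Δ ⊆ Fb f u ∧ 8 ≤ Δ.card ∧ h * a = a * h ∧
  h ∈ KW (CV V (BF π A (Fb f u))) a ∧ (∀ x ∈ Δ, π h x = x) ∧ (∃ v ∈ Δ, π a v ≠ v) ∧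
  ∃ x, f x = f u ∧ π h x ≠ x

variable (V π f E u) in
/-- disjoint three-cycles annihilate each other. -/
def NV : Prop := ∀ x y z c, f x = f u → Can π f E x y z c →
  HH π f E (Fb f u \ {x, y, z}) ≤ KW (⊤ : AddSubgroup V) c

variable (V π f E u) in
/-- three-cycles in different fibres annihilate each other. -/
def NX (u' : Ω) : Prop := ∀ x y z c, f x = f u → Can π f E x y z c →
  HH π f E (Fb f u') ≤ KW (⊤ : AddSubgroup V) c

namespace Loc

variable (L : Loc V 2 π f E A)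
include L

theorem cm {a b : M} (ha : a ∈ A) (hb : b ∈ A) (x : Ω) : π a (π b x) = π b (π a x) := by
  rw [← mul_apply, ← map_mul, L.comm a ha b hb, map_mul, mul_apply]

theorem sq {a : M} (ha : a ∈ A) : a * a = 1 := by rw [← pow_two, L.pow a ha]

theorem inv_eq {a : M} (ha : a ∈ A) : a⁻¹ = a := inv_eq_of_mul_eq_one_left (L.sq ha)

theorem invol {a : M} (ha : a ∈ A) (x : Ω) : π a (π a x) = x := by
  rw [← mul_apply, ← map_mul, L.sq ha, map_one, one_apply]

theorem can_pow {x y z : Ω} {c : M} (h : Can π f E x y z c) : c ^ 3 = 1 := by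
  rw [pow_succ, pow_two, L.can_cube h, inv_mul_cancel]

theorem card_sd (u : Ω) (l : List Ω) : 25 ≤ (Fb f u \ l.toFinset).card + l.length := by
  have := L.big u
  have := Finset.le_card_sdiff l.toFinset (Fb f u)
  have := l.toFinset_card_le
  omega

theorem card_sd3 (u x y z : Ω) : 22 ≤ (Fb f u \ {x, y, z}).card := by
  have := L.big u
  have := Finset.le_card_sdiff {x, y, z} (Fb f u)
  have : ({x, y, z} : Finset Ω).card ≤ 3 := Finset.card_le_three
  omega

theorem B_comm {a : M} (ha : a ∈ A) {g : M} (hg : g ∈ HH π f E (Fb f (π a u))) {b : M}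
    (hb : b ∈ BF π A (Fb f u)) : b * g = g * b :=
  L.HH_comm subset_rfl hg fun y hy => by
    rw [← L.invol ha y, L.cm hb.1 ha, hb.2 _ (mem_Fb.2 (L.fib' (g := a) (by
      rw [L.invol ha, mem_Fb.1 hy])))]

theorem B_comm' {g : M} (hg : g ∈ HH π f E (Fb f u)) {b : M} (hb : b ∈ BF π A (Fb f u)) :
    b * g = g * b := L.HH_comm subset_rfl hg hb.2

theorem transfer {B : Subgroup M} (hB : B ≤ A) {c d : M} (hc : c ^ 3 = 1) (hd : d ^ 3 = 1)
    (e : d * c = c * d) (h1 : ∀ b ∈ B, b * c = c * b) (h2 : ∀ b ∈ B, b * d = d * b)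
    (h : d ∈ KW (CV V B) c) : d ∈ KW (⊤ : AddSubgroup V) c :=
  mem_KW.2 fun v _ => Dl_eq_zero.1 (L.exists_fix hB (U := ((Dl d).comp (Dl c)).range) (by
    rintro b hb _ ⟨w, rfl⟩
    exact ⟨b • w, by simp only [AddMonoidHom.comp_apply, smul_Dl_of (h1 b hb), smul_Dl_of (h2 b hb)]⟩)
    (by
      rintro _ ⟨w, rfl⟩ hw
      have k := mem_KW.1 h _ hw
      simp only [AddMonoidHom.comp_apply] at k ⊢
      rw [← Dl_comm e] at k
      have k1 := Dl_eq_zero.2 (fix_of_coprime L.exp (by norm_num) hd k)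
      rw [Dl_comm e, Dl_comm e, Dl_eq_zero] at k1
      rw [Dl_comm e, Dl_eq_zero]
      exact fix_of_coprime L.exp (by norm_num) hc k1) _ ⟨v, rfl⟩)

theorem spread {a : M} (ha : a ∈ A) (h : St V π f A u a) :
    NV V π f E u ∧ (f (π a u) ≠ f u → NX V π f E u (π a u)) := by
  obtain ⟨h, Δ, hΔ, h8, e, k, h1, ⟨v, hv, av⟩, s, hs, hs'⟩ := h
  set B := BF π A (Fb f u)
  set W := CV V B
  have hG := (L.ge_of (L.AE ha) av).of_eq (mem_Fb.1 (hΔ hv)).symm
  have hW : ∀ g ∈ HH π f E (Fb f u), ∀ w ∈ W, g⁻¹ • w ∈ W := fun g hg w hw =>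
    W_inv (fun b hb => L.B_comm' (inv_mem hg) hb) hw
  have k1 := L.HH_le hG hΔ h8 (T := KW W h) (fun g hg t ht => by
    have := KW_conj (hW g (HH_mono hΔ hg)) ht
    rwa [← L.HH_comm hΔ hg h1, mul_inv_cancel_right] at this) (KW_symm e k) hv av
  obtain ⟨x, hx, -⟩ := pick Δ [] (by simp only [List.length_nil]; omega)
  obtain ⟨y, hy, y1⟩ := pick Δ [x] (by simp; omega)
  obtain ⟨z, hz, z1⟩ := pick Δ [x, y] (by simp; omega)
  simp only [List.mem_cons, List.not_mem_nil, or_false, not_or] at y1 z1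
  have fx := mem_Fb.1 (hΔ hx)
  obtain ⟨c, hc⟩ := L.can_exists (hG.of_eq fx) (Ne.symm y1) (Ne.symm z1.1) (Ne.symm z1.2)
    ((mem_Fb.1 (hΔ hy)).trans fx.symm) ((mem_Fb.1 (hΔ hz)).trans fx.symm)
  have cm := hc.memH hx hy hz
  have k2 : h ∈ KW W c := KW_symm (L.HH_comm hΔ cm h1).symm (k1 cm)
  have fc : ∀ {x y z c}, Can π f E x y z c → ∀ s ∈ Fb f u \ {x, y, z}, π c s = s := fun hc s hs => by
    simp only [Finset.mem_sdiff, Finset.mem_insert, Finset.mem_singleton, not_or] at hs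
    rw [hc.eq, cyc_other] <;> tauto
  have fc' : f (π a u) ≠ f u → ∀ {x y z c}, f x = f u → Can π f E x y z c →
      ∀ s ∈ Fb f (π a u), π c s = s := fun h0 x y z c fx hc s hs => by
    have := hc.fv; have := hc.fw
    rw [mem_Fb] at hs
    rw [hc.eq, cyc_other] <;> grind
  have k3 := L.HH_le hG Finset.sdiff_subset ((by norm_num : 8 ≤ 22).trans (L.card_sd3 u x y z))
    (T := KW W c) (fun g hg t ht => by
      have := KW_conj (hW g (HH_mono Finset.sdiff_subset hg)) ht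
      rwa [← L.HH_comm Finset.sdiff_subset hg (fc hc), mul_inv_cancel_right] at this) k2 (v := s)
    (by simp only [Finset.mem_sdiff, Finset.mem_insert, Finset.mem_singleton, mem_Fb]; grind) hs'
  have k4 : f (π a u) ≠ f u → HH π f E (Fb f (π a u)) ≤ KW W c := fun h0 =>
    L.HH_le (L.ge_of (L.AE ha) (by rw [L.invol ha]; exact fun e => h0 (by rw [← e]))) subset_rfl
      ((by norm_num : 8 ≤ 25).trans (L.big _)) (fun g hg t ht => by
        have := KW_conj (W := W) (fun w hw => W_inv (fun b hb => L.B_comm ha (inv_mem hg) hb) hw) ht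
        rwa [← L.HH_comm subset_rfl hg (fc' h0 fx hc), mul_inv_cancel_right] at this) k2
      (v := π a s) (mem_Fb.2 (L.fib a _ _ hs)) (by
        rw [← mul_apply, ← map_mul, e, map_mul, mul_apply]; exact (π a).injective.ne hs')
  have tr : ∀ x' y' z' c', f x' = f u → Can π f E x' y' z' c' → ∃ g ∈ HH π f E (Fb f u),
      π g x = x' ∧ π g y = y' ∧ π g z = z' ∧ g * c * g⁻¹ = c' := fun x' y' z' c' fx' hc' => by
    obtain ⟨σ, hσ, s1, s2, s3⟩ := exists_map3 ((by norm_num : 5 ≤ 25).trans (L.big u)) hc.uv hc.uw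
      hc.vw hc'.uv hc'.uw hc'.vw (hΔ hx) (hΔ hy) (hΔ hz) (mem_Fb.2 fx') (mem_Fb.2 (hc'.fv.trans fx'))
      (mem_Fb.2 (hc'.fw.trans fx'))
    obtain ⟨g, hg, rfl⟩ := L.HH_surj hG subset_rfl ((by norm_num : 5 ≤ 25).trans (L.big u)) hσ
    exact ⟨g, hg, s1, s2, s3, L.can_uniq (s1 ▸ s2 ▸ s3 ▸ L.can_conj hc g) hc'⟩
  refine ⟨fun x' y' z' c' fx' hc' => (Subgroup.closure_le _).2 ?_,
    fun h0 x' y' z' c' fx' hc' => (Subgroup.closure_le _).2 ?_⟩
  · rintro d ⟨r, hr, s, hs, t, ht, hd⟩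
    obtain ⟨g, hg, rfl, rfl, rfl, rfl⟩ := tr x' y' z' c' fx' hc'
    have md := hd.memH hr hs ht
    refine L.transfer (B := B) (fun _ h => h.1) (L.can_pow hc') (L.can_pow hd)
      (L.HH_comm Finset.sdiff_subset md (fc hc')).symm
      (fun b hb => L.B_comm' (Fb_eq fx' ▸ hc'.memF) hb)
      (fun b hb => L.B_comm' (HH_mono Finset.sdiff_subset md) hb) ?_
    have := KW_conj (hW g hg) (k3 (L.HH_conj g⁻¹ md fun s hs => by
      have := alt_mem (HH_alt (inv_mem hg)) (Finset.mem_sdiff.1 hs).1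
      simp only [Finset.mem_sdiff, Finset.mem_insert, Finset.mem_singleton, map_inv,
        Perm.inv_eq_iff_eq] at hs this ⊢
      tauto))
    simpa [mul_assoc] using this
  · rintro d ⟨r, hr, s, hs, t, ht, hd⟩
    obtain ⟨g, hg, rfl, rfl, rfl, rfl⟩ := tr x' y' z' c' fx' hc'
    have md := hd.memH hr hs ht
    refine L.transfer (B := B) (fun _ h => h.1) (L.can_pow hc') (L.can_pow hd)
      (L.HH_comm subset_rfl md (fc' h0 fx' hc')).symm
      (fun b hb => L.B_comm' (Fb_eq fx' ▸ hc'.memF) hb) (fun b hb => L.B_comm ha md hb) ?_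
    have := KW_conj (hW g hg) (k4 h0 md)
    rwa [L.HH_comm subset_rfl md (x := g) fun s hs => (HH_alt hg).1 s fun e =>
      h0 ((mem_Fb.1 hs).symm.trans (mem_Fb.1 e)), mul_inv_cancel_right] at this

theorem exists_g (hG : GE π f E u) {a : M} (ha : a ∈ A) {x y z : Ω} (fx : f x = f u) (fy : f y = f u)
    (fz : f z = f u) (h1 : x ≠ y) (h2 : x ≠ z) (h3 : y ≠ z)
    (h : (π a x = x ∧ π a y = y ∧ π a z = z) ∨ ∀ s ∈ [x, y, z], π a s ∉ [x, y, z]) :
    ∃ g, g * a = a * g ∧ g ^ 3 = 1 ∧ (∀ b ∈ BF π A (Fb f u), b * g = g * b) ∧ π g x = y ∧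
      ∀ s ∉ [x, y, z, π a x, π a y, π a z], π g s = s := by
  obtain ⟨t, ht⟩ := L.can_exists (hG.of_eq fx) h1 h2 h3 (fy.trans fx.symm) (fz.trans fx.symm)
  have hΔ : ({x, y, z} : Finset Ω) ⊆ Fb f u := by simp [Finset.insert_subset_iff, mem_Fb, *]
  have m := ht.memH (Δ := {x, y, z}) (by simp) (by simp) (by simp)
  have tB : ∀ b ∈ BF π A (Fb f u), b * t = t * b := fun b hb => L.B_comm' (HH_mono hΔ m) hb
  simp only [List.mem_cons, List.not_mem_nil, or_false, not_or, forall_eq_or_imp, forall_eq] at h ⊢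
  rcases h with h | h
  · exact ⟨t, (L.HH_comm hΔ m (by simpa using h)).symm, L.can_pow ht, tB,
      by rw [ht.eq, cyc_fst h1 h3], fun s hs => by rw [ht.eq, cyc_other] <;> tauto⟩
  have ht' := L.can_conj ht a
  have e := L.HH_comm hΔ m (x := a * t * a⁻¹) fun s hs => by rw [ht'.eq, cyc_other] <;> grind
  refine ⟨t * (a * t * a⁻¹), ?_, ?_, fun b hb => ?_, ?_, fun s hs => ?_⟩
  · conv_rhs => rw [← e]
    rw [← mul_assoc, ← mul_assoc, ← mul_assoc, ← mul_assoc, ← mul_assoc, L.sq ha, L.inv_eq ha,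
      mul_assoc _ a a, L.sq ha, one_mul, mul_one]
  · rw [Commute.mul_pow e.symm, L.can_pow ht, L.can_pow ht', one_mul]
  · have h4 : Commute b a := L.comm b hb.1 a ha
    exact Commute.mul_right (tB b hb) ((h4.mul_right (tB b hb)).mul_right h4.inv_right)
  · rw [map_mul, mul_apply, ht'.eq, cyc_other, ht.eq, cyc_fst h1 h3] <;> tauto
  · rw [map_mul, mul_apply, ht'.eq, cyc_other (x := s), ht.eq, cyc_other] <;> tauto

theorem st_of {a b : M} (ha : a ∈ A) (hb : b ∈ A) {x y z v : Ω} (fx : f x = f u) (fy : f y = f u)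
    (fz : f z = f u) (h1 : x ≠ y) (h2 : x ≠ z) (h3 : y ≠ z)
    (h : (π a x = x ∧ π a y = y ∧ π a z = z) ∨ ∀ s ∈ [x, y, z], π a s ∉ [x, y, z])
    (h' : π b x ∉ [x, y, z, π a x, π a y, π a z] ∨ (π b x = x ∧ π b y ≠ y)) (fv : f v = f u)
    (av : π a v ≠ v) (hv : v ∉ [x, y, z, π a x, π a y, π a z, π b x, π b y, π b z, π b (π a x),
      π b (π a y), π b (π a z)]) : St V π f A u a := by
  obtain ⟨g, g1, -, -, g2, g3⟩ := L.exists_g ((L.ge_of (L.AE ha) av).of_eq fv.symm) ha fx fy fz h1 h2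
    h3 h
  have c1 : Commute b a := L.comm b hb a ha
  have c2 : Commute g a := g1
  refine ⟨b * g * b⁻¹ * g⁻¹, Fb f u \ [x, y, z, π a x, π a y, π a z, π b x, π b y, π b z, π b (π a x),
    π b (π a y), π b (π a z)].toFinset, Finset.sdiff_subset, ?_,
    ((c1.mul_left c2).mul_left c1.inv_left).mul_left c2.inv_left, mem_KW.2 fun w _ => ?_,
    fun s hs => ?_, ⟨v, by rw [Finset.mem_sdiff, List.mem_toFinset]; exact ⟨mem_Fb.2 fv, hv⟩, av⟩,
    y, fy, ?_⟩
  · have := L.card_sd u [x, y, z, π a x, π a y, π a z, π b x, π b y, π b z, π b (π a x),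
      π b (π a y), π b (π a z)]
    simp only [List.length_cons, List.length_nil] at this
    omega
  · rw [mul_smul, mul_smul, mul_smul, smul_Dl_of c2.inv_left, L.quad _ (inv_mem hb) a ha,
      smul_Dl_of c2, smul_inv_smul, L.quad _ hb a ha]
  · simp only [Finset.mem_sdiff, List.mem_toFinset, List.mem_cons, List.not_mem_nil, or_false,
      not_or] at hs g3
    have k1 : π g⁻¹ s = s := by rw [map_inv, Perm.inv_eq_iff_eq, g3 s (by tauto)]
    have k2 : π g (π b s) = π b s := g3 _ (by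
      have := L.invol hb
      (repeat' apply And.intro) <;> grind)
    simp only [map_mul, mul_apply, k1, L.inv_eq hb, k2, L.invol hb]
  · have k1 : π g⁻¹ y = x := by rw [map_inv, Perm.inv_eq_iff_eq, g2]
    simp only [map_mul, mul_apply, k1, L.inv_eq hb]
    rcases h' with h' | h'
    · rw [g3 _ h', L.invol hb]; exact h1
    · rw [h'.1, g2]; exact h'.2

theorem st_three {a b : M} (ha : a ∈ A) (hb : b ∈ A) (h : 13 ≤ (Mv f (π a) u).card) {x y : Ω}
    (hx : x ∈ Mv f (π a) u) (hy : y ∈ Mv f (π a) u) (h1 : π b x = x) (h2 : π b y ≠ y) :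
    St V π f A u a := by
  obtain ⟨z, hz, z1⟩ := pick _ [x, y, π a x, π a y] (by simp only [List.length_cons, List.length_nil]; omega : _ < (Mv f (π a) u).card)
  obtain ⟨v, hv, v1⟩ := pick _ [x, y, z, π a x, π a y, π a z, π b x, π b y, π b z, π b (π a x),
    π b (π a y), π b (π a z)] (by simp only [List.length_cons, List.length_nil]; omega : _ < (Mv f (π a) u).card)
  rw [mem_Mv] at hx hy hz hv
  have := L.cm ha hb x
  have := L.invol ha
  simp only [List.mem_cons, List.not_mem_nil, or_false, not_or] at z1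
  refine L.st_of ha hb hx.1 hy.1 hz.1 (by grind) (by tauto) (by tauto) (Or.inr ?_) (Or.inr ⟨h1, h2⟩)
    hv.1 hv.2 v1
  simp only [List.mem_cons, List.not_mem_nil, or_false, not_or, forall_eq_or_imp, forall_eq]
  clear v1
  (repeat' apply And.intro) <;> grind

theorem st_big {a : M} (ha : a ∈ A) (h : 13 ≤ (Mv f (π a) u).card) :
    ∃ a' ∈ A, St V π f A u a' ∧ f (π a' u) = f (π a u) := by
  have i1 := L.invol ha
  by_cases h0 : ∀ b ∈ A, (∀ s ∈ Fb f u, π b s = s) ∨ ∀ s ∈ Fb f u, π b s = π a s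
  · obtain ⟨x, hx, -⟩ := pick _ [] (by simp only [List.length_nil]; omega : _ < (Mv f (π a) u).card)
    obtain ⟨y, hy, y1⟩ := pick _ [x, π a x] (by simp only [List.length_cons, List.length_nil]; omega : _ < (Mv f (π a) u).card)
    obtain ⟨z, hz, z1⟩ := pick _ [x, y, π a x, π a y] (by simp only [List.length_cons, List.length_nil]; omega : _ < (Mv f (π a) u).card)
    obtain ⟨v, hv, v1⟩ := pick _ [x, y, z, π a x, π a y, π a z] (by simp only [List.length_cons, List.length_nil]; omega : _ < (Mv f (π a) u).card)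
    rw [mem_Mv] at hx hy hz hv
    simp only [List.mem_cons, List.not_mem_nil, or_false, not_or] at y1 z1
    obtain ⟨g, g1, g2, g3, g4, g5⟩ := L.exists_g ((L.ge_of (L.AE ha) hx.2).of_eq hx.1.symm) ha hx.1
      hy.1 hz.1 (by tauto) (by tauto) (by tauto) (Or.inr (by
        simp only [List.mem_cons, List.not_mem_nil, or_false, not_or, forall_eq_or_imp, forall_eq]
        (repeat' apply And.intro) <;> grind))
    have hW := L.W_le (Fb f u) {x, π a x} (fun b => π b x) (fun b hb => by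
      rcases h0 b hb with k | k <;> simp [k x (mem_Fb.2 hx.1)]) fun b hb b' hb' e s hs => by
      have := mem_Fb.2 hx.1
      rcases h0 b hb with k | k <;> rcases h0 b' hb' with k' | k' <;> grind
    have := L.finV
    have h2 := (card_map_le (CV_le _) (fun v hv => hv a ha) hW).trans Finset.card_le_two
    refine ⟨a, ha, ⟨g, Fb f u \ [x, y, z, π a x, π a y, π a z].toFinset, Finset.sdiff_subset, ?_, g1,
      fun w hw => fix_of_small Nat.prime_three g2 (Set.toFinite _) (Nat.lt_succ_of_le h2) ?_ hw,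
      fun s hs => g5 s (by simpa using (Finset.mem_sdiff.1 hs).2),
      ⟨v, by rw [Finset.mem_sdiff, List.mem_toFinset]; exact ⟨mem_Fb.2 hv.1, v1⟩, hv.2⟩, x, hx.1,
      by rw [g4]; tauto⟩, rfl⟩
    · have := L.card_sd u [x, y, z, π a x, π a y, π a z]
      simp only [List.length_cons, List.length_nil] at this
      omega
    · rintro _ ⟨w, hw, rfl⟩
      exact ⟨g • w, W_inv g3 hw, (smul_Dl_of g1 w).symm⟩
  push Not at h0
  obtain ⟨b, hb, ⟨s, hs, s1⟩, t, ht, t1⟩ := h0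
  by_cases h1 : ∃ x ∈ Mv f (π a) u, π b x ≠ x ∧ π b x ≠ π a x
  · obtain ⟨x, hx, x1, x2⟩ := h1
    obtain ⟨y, hy, y1⟩ := pick _ [x, π a x, π b x, π a (π b x)] (by simp only [List.length_cons, List.length_nil]; omega : _ < (Mv f (π a) u).card)
    obtain ⟨z, hz, z1⟩ := pick _ [x, y, π a x, π a y, π b x, π a (π b x)] (by simp only [List.length_cons, List.length_nil]; omega : _ < (Mv f (π a) u).card)
    obtain ⟨v, hv, v1⟩ := pick _ [x, y, z, π a x, π a y, π a z, π b x, π b y, π b z, π b (π a x),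
      π b (π a y), π b (π a z)] (by simp only [List.length_cons, List.length_nil]; omega : _ < (Mv f (π a) u).card)
    rw [mem_Mv] at hx hy hz hv
    simp only [List.mem_cons, List.not_mem_nil, or_false, not_or] at y1 z1
    refine ⟨a, ha, L.st_of ha hb hx.1 hy.1 hz.1 (by tauto) (by tauto) (by tauto) (Or.inr ?_)
      (Or.inl ?_) hv.1 hv.2 v1, rfl⟩ <;>
    simp only [List.mem_cons, List.not_mem_nil, or_false, not_or, forall_eq_or_imp, forall_eq] <;>
    clear v1 <;> (repeat' apply And.intro) <;> grind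
  push Not at h1
  have key : ∀ b ∈ A, (∃ s ∈ Fb f u, π b s ≠ s) → ∀ x ∈ Mv f (π a) u, π b x = x →
      ∃ a' ∈ A, St V π f A u a' ∧ f (π a' u) = f (π a u) := fun b hb ⟨s, hs, s1⟩ x hx x1 => by
    by_cases h2 : ∃ y ∈ Mv f (π a) u, π b y ≠ y
    · obtain ⟨y, hy, y1⟩ := h2
      exact ⟨a, ha, L.st_three ha hb h hx hy x1 y1, rfl⟩
    push Not at h2
    have h3 : Mv f (π a) u ⊆ Mv f (π (a * b)) u := fun y hy => by
      have := h2 y hy
      rw [mem_Mv] at hy ⊢
      simpa [this] using hy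
    refine ⟨a * b, mul_mem ha hb, L.st_three (mul_mem ha hb) hb (h.trans (Finset.card_le_card h3))
      (h3 hx) (y := s) ?_ x1 s1, ?_⟩
    · have := h2 s
      have := L.cm ha hb s
      simp only [mem_Mv, mem_Fb, map_mul, mul_apply] at *
      grind
    · rw [← L.fib _ _ _ (mem_Mv.1 hx).1, ← L.fib _ _ _ (mem_Mv.1 hx).1, map_mul, mul_apply, x1]
  obtain ⟨x, hx, -⟩ := pick _ [] (by simp only [List.length_nil]; omega : _ < (Mv f (π a) u).card)
  by_cases h2 : π b x = x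
  · exact key b hb ⟨s, hs, s1⟩ x hx h2
  · exact key (a * b) (mul_mem ha hb) ⟨t, ht, by simp only [map_mul, mul_apply]; grind⟩ x hx
      (by rw [map_mul, mul_apply, h1 x hx h2, i1])

theorem st_small (h : ∀ a ∈ A, (Mv f (π a) u).card ≤ 12) {a : M} (ha : a ∈ A) {x : Ω}
    (hx : x ∈ Mv f (π a) u) : ∃ a' ∈ A, St V π f A u a' := by
  by_cases h0 : ∃ a ∈ A, ∃ b ∈ A, ∃ v ∈ Mv f (π a) u, ∃ x ∈ Mv f (π b) u, π a x = x
  · obtain ⟨a, ha, b, hb, v, hv, x, hx, x1⟩ := h0
    obtain ⟨y, fy, y1, y2⟩ := L.pick_fix (h a ha) [x, π b x] (by simp)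
    obtain ⟨z, fz, z1, z2⟩ := L.pick_fix (h a ha) [x, y, π b x] (by simp)
    rw [mem_Mv] at hx hv
    have := L.cm ha hb
    simp only [List.mem_cons, List.not_mem_nil, or_false, not_or] at y2 z2
    refine ⟨a, ha, L.st_of ha hb hx.1 fy fz (by tauto) (by tauto) (by tauto) (Or.inl ⟨x1, y1, z1⟩)
      (Or.inl ?_) hv.1 hv.2 ?_⟩ <;>
    simp only [List.mem_cons, List.not_mem_nil, or_false, not_or] <;>
    (repeat' apply And.intro) <;> grind
  push Not at h0
  have hW := L.W_le (Fb f u) (Mv f (π a) u) (fun b => π b x) (fun b hb => by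
    obtain ⟨s, hs, s1, -⟩ := L.pick_fix (h b hb) [] (by simp)
    rw [mem_Mv] at hx ⊢
    exact ⟨by rw [L.fib b _ _ (hx.1.trans hs.symm), s1, hs], by
      rw [L.cm ha hb]; exact (π b).injective.ne hx.2⟩) fun b hb b' hb' e s hs => by
    by_contra hc
    refine h0 (b * b') (mul_mem hb hb') a ha s (mem_Mv.2 ⟨mem_Fb.1 hs, fun e => hc ?_⟩) x hx ?_
    · rw [← L.invol hb (π b' s), ← mul_apply (π b) (π b'), ← map_mul, e]
    · rw [map_mul, mul_apply, ← show π b x = π b' x from e, L.invol hb]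
  have := L.finV
  have h2 := (card_map_le (CV_le _) (fun v hv => hv a ha) hW).trans (h a ha)
  have h3 := L.big u
  have h4 := Finset.le_card_sdiff (Mv f (π a) u) (Fb f u)
  have h5 := h a ha
  obtain ⟨Δ, hΔ, c⟩ := Finset.exists_subset_card_eq (s := Fb f u \ Mv f (π a) u) (n := 13) (by omega)
  have hΔ' := hΔ.trans Finset.sdiff_subset
  obtain ⟨σ, hσ, s1, s2⟩ := exists_order 13 (by norm_num) (by norm_num) c.ge
  obtain ⟨g, hg, rfl⟩ := L.HH_surj ((L.ge_of (L.AE ha) (mem_Mv.1 hx).2).of_eq (mem_Mv.1 hx).1.symm)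
    hΔ' (by omega) hσ
  have g1 := L.HH_comm hΔ' hg (x := a) fun s hs => by
    have := hΔ hs
    simp only [Finset.mem_sdiff, mem_Fb, mem_Mv] at this
    tauto
  have h6 := Finset.le_card_sdiff Δ (Fb f u)
  obtain ⟨y, hy⟩ : ∃ y, π g y ≠ y := by
    by_contra hc
    push Not at hc
    exact s1 (Equiv.ext hc)
  refine ⟨a, ha, g, Fb f u \ Δ, Finset.sdiff_subset, by omega, g1.symm,
    fun w hw => fix_of_small (q := 13) (by norm_num) (L.HH_ker u _ hΔ' _ (pow_mem hg 13)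
      (by rw [map_pow, s2])) (Set.toFinite _) (Nat.lt_succ_of_le h2) ?_ hw,
    fun s hs => hσ.1 s (Finset.mem_sdiff.1 hs).2, ⟨x, Finset.mem_sdiff.2 ⟨mem_Fb.2 (mem_Mv.1 hx).1,
      fun e => (Finset.mem_sdiff.1 (hΔ e)).2 hx⟩, (mem_Mv.1 hx).2⟩, y, mem_Fb.1 (hΔ' ?_), hy⟩
  · rintro _ ⟨w, hw, rfl⟩
    exact ⟨g • w, W_inv (fun b hb => L.B_comm' (HH_mono hΔ' hg) hb) hw, (smul_Dl_of g1.symm w).symm⟩
  · by_contra hc
    exact hy (hσ.1 y hc)

theorem nv {a : M} (ha : a ∈ A) (h : π a u ≠ u) : NV V π f E u := by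
  by_cases h0 : ∀ a ∈ A, (Mv f (π a) u).card ≤ 12
  · obtain ⟨a', ha', h1⟩ := L.st_small h0 ha (mem_Mv.2 ⟨rfl, h⟩)
    exact (L.spread ha' h1).1
  · push Not at h0
    obtain ⟨b, hb, h1⟩ := h0
    obtain ⟨a', ha', h1, -⟩ := L.st_big hb h1
    exact (L.spread ha' h1).1

theorem nx {a : M} (ha : a ∈ A) (h : f (π a u) ≠ f u) : NX V π f E u (π a u) := by
  obtain ⟨a', ha', h1, h2⟩ := L.st_big (u := u) ha (((by norm_num : 13 ≤ 25).trans (L.big u)).trans
    (Finset.card_le_card fun x hx => mem_Mv.2 ⟨mem_Fb.1 hx, fun e => h (by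
      rw [← L.fib a _ _ (mem_Fb.1 hx), e, mem_Fb.1 hx])⟩))
  have := (L.spread ha' h1).2 (by rwa [h2])
  unfold NX at *
  rwa [Fb_eq h2] at this

end Loc

end Pool.Agent.Lib.MP_03ba20_al
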