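import Mathlib

namespace Pool.Agent.Lib.MP_03ba20_al

open Equiv Equiv.Perm

variable {Ω : Type*} [DecidableEq Ω]

theorem pick (Δ : Finset Ω) (l : List Ω) (h : l.length < Δ.card) : ∃ x ∈ Δ, x ∉ l := by
  by_contra hc
  push Not at hc
  have := (Finset.card_le_card (fun x hx => List.mem_toFinset.2 (hc x hx))).trans l.toFinset_card_le
  omega

/-- the cycle `u → v → w → u`. -/
def cyc (u v w : Ω) : Perm Ω := swap u w * swap u v

theorem cyc_apply (u v w x : Ω) : cyc u v w x = swap u w (swap u v x) := rfl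

section cyc

variable {u v w x : Ω}

theorem cyc_fst (h1 : u ≠ v) (h2 : v ≠ w) : cyc u v w u = v := by
  simp only [cyc_apply, swap_apply_def]; grind

theorem cyc_snd : cyc u v w v = w := by simp [cyc_apply]

theorem cyc_thd (h1 : u ≠ w) (h2 : v ≠ w) : cyc u v w w = u := by
  simp only [cyc_apply, swap_apply_def]; grind

theorem cyc_other (h1 : x ≠ u) (h2 : x ≠ v) (h3 : x ≠ w) : cyc u v w x = x := by
  simp only [cyc_apply, swap_apply_def]; grind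

theorem cyc_conj (g : Perm Ω) : g * cyc u v w * g⁻¹ = cyc (g u) (g v) (g w) := by
  simp only [cyc, swap_apply_apply]; group

theorem cyc_inv : (cyc u v w)⁻¹ = swap u v * swap u w := by simp [cyc]

theorem cyc_inv' : (cyc u v w)⁻¹ = cyc u w v := by simp [cyc]

theorem cyc_rot (h1 : u ≠ v) (h2 : u ≠ w) (h3 : v ≠ w) : cyc u v w = cyc v w u := by
  ext x; simp only [cyc_apply, swap_apply_def]; grind

theorem cyc_sq (h1 : u ≠ v) (h2 : u ≠ w) (h3 : v ≠ w) : cyc u v w * cyc u v w = cyc u w v := by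
  ext x; simp only [mul_apply, cyc_apply, swap_apply_def]; grind

theorem cyc_cube (h1 : u ≠ v) (h2 : u ≠ w) (h3 : v ≠ w) :
    cyc u v w * cyc u v w * cyc u v w = 1 := by
  rw [cyc_sq h1 h2 h3, ← cyc_inv', inv_mul_cancel]

theorem cyc_ne_one (h1 : u ≠ v) (h2 : v ≠ w) : cyc u v w ≠ 1 := fun e => by
  have := cyc_fst h1 h2
  rw [e] at this
  exact h1 this

end cyc

variable [Fintype Ω]

/-- the alternating group on a subset. -/
def alt (Δ : Finset Ω) : Subgroup (Perm Ω) where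
  carrier := {g | (∀ x ∉ Δ, g x = x) ∧ sign g = 1}
  one_mem' := ⟨fun _ _ => rfl, sign_one⟩
  mul_mem' := fun ha hb => ⟨fun x hx => by rw [mul_apply, hb.1 x hx, ha.1 x hx], by
    rw [Perm.sign_mul, ha.2, hb.2, one_mul]⟩
  inv_mem' := fun ha => ⟨fun x hx => inv_eq_iff_eq.2 (ha.1 x hx).symm, by rw [sign_inv, ha.2]⟩

variable {Δ Δ' : Finset Ω}

theorem alt_mono (h : Δ ⊆ Δ') : alt Δ ≤ alt Δ' := fun _ hg => ⟨fun x hx => hg.1 x fun e => hx (h e), hg.2⟩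

theorem alt_mem {g : Perm Ω} (hg : g ∈ alt Δ) {x : Ω} (hx : x ∈ Δ) : g x ∈ Δ := by
  by_contra h
  exact h ((g.injective (hg.1 _ h)).symm ▸ hx)

theorem swaps_mem {a b c d : Ω} (h1 : a ≠ b) (h2 : c ≠ d) (ha : a ∈ Δ) (hb : b ∈ Δ) (hc : c ∈ Δ)
    (hd : d ∈ Δ) : swap a b * swap c d ∈ alt Δ :=
  ⟨fun x hx => by simp only [mul_apply, swap_apply_def]; grind, by simp [h1, h2]⟩

theorem cyc_mem {u v w : Ω} (h1 : u ≠ v) (h2 : u ≠ w) (hu : u ∈ Δ) (hv : v ∈ Δ) (hw : w ∈ Δ) :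
    cyc u v w ∈ alt Δ := swaps_mem h2 h1 hu hw hu hv

theorem alt_conj {g σ : Perm Ω} (hσ : σ ∈ alt Δ) (h : ∀ x ∈ Δ, g x ∈ Δ') : g * σ * g⁻¹ ∈ alt Δ' :=
  ⟨fun x hx => by
    rw [mul_apply, mul_apply, hσ.1 _ fun e => hx (by simpa using h _ e)]; simp, by
    simp [hσ.2]⟩

theorem alt_comm {g σ : Perm Ω} (hσ : σ ∈ alt Δ) (h : ∀ x ∈ Δ, g x = x) : g * σ = σ * g := by
  ext x
  by_cases hx : x ∈ Δ
  · simp [h x hx, h _ (alt_mem hσ hx)]
  · have : g x ∉ Δ := fun e => hx (g.injective (h _ e) ▸ e)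
    simp [hσ.1 x hx, hσ.1 _ this]

/-- the embedding of the alternating group of a subset. -/
def altHom (Δ : Finset Ω) : alternatingGroup Δ →* Perm Ω :=
  (alternatingGroup Ω).subtype.comp (alternatingGroup.ofSubtype Δ)

theorem altHom_inj : Function.Injective (altHom Δ) :=
  (alternatingGroup Ω).subtype_injective.comp alternatingGroup.ofSubtype_injective

theorem altHom_range : (altHom Δ).range = alt Δ := by
  ext g
  constructor
  · rintro ⟨k, rfl⟩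
    exact ⟨fun x hx => ofSubtype_apply_of_not_mem _ hx, (alternatingGroup.ofSubtype Δ k).2⟩
  · intro hg
    obtain ⟨k, hk⟩ := (alternatingGroup.mem_range_ofSubtype_iff Δ ⟨g, hg.2⟩).2 fun x hx => by
      by_contra h
      exact mem_support.1 hx (hg.1 x h)
    exact ⟨k, congrArg Subtype.val hk⟩

theorem alt_le_of_normal (h5 : 5 ≤ Δ.card) {N : Subgroup (Perm Ω)}
    (hN : ∀ σ ∈ alt Δ, ∀ g ∈ N, σ * g * σ⁻¹ ∈ N) {g : Perm Ω} (h1 : g ∈ N) (h2 : g ∈ alt Δ)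
    (h3 : g ≠ 1) : alt Δ ≤ N := by
  have := alternatingGroup.isSimpleGroup (α := Δ) (by simpa using h5)
  have hn : (N.comap (altHom Δ)).Normal := ⟨fun n hn k => by
    simpa using hN _ (altHom_range.le ⟨k, rfl⟩) _ hn⟩
  rw [← altHom_range] at h2 ⊢
  obtain ⟨k, rfl⟩ := h2
  rcases hn.eq_bot_or_eq_top with e | e
  · have : k ∈ N.comap (altHom Δ) := h1
    rw [e, Subgroup.mem_bot] at this
    exact absurd (by rw [this, map_one]) h3
  · rintro _ ⟨k, rfl⟩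
    exact (e ▸ Subgroup.mem_top k : k ∈ N.comap (altHom Δ))

theorem exists_order (q : ℕ) (hq : q.Prime) (h3 : 3 ≤ q) (h : q ≤ Δ.card) :
    ∃ σ ∈ alt Δ, σ ≠ 1 ∧ σ ^ q = 1 := by
  have := Fact.mk hq
  have : Nontrivial Δ := Fintype.one_lt_card_iff_nontrivial.1 (by simp; omega)
  have h1 := two_mul_nat_card_alternatingGroup (α := Δ)
  rw [Nat.card_perm, Nat.card_eq_fintype_card (α := Δ), Fintype.card_coe] at h1
  have h2 : q ∣ Nat.card (alternatingGroup Δ) :=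
    (Nat.Coprime.dvd_mul_left ((Nat.coprime_primes hq Nat.prime_two).2 (by omega))).1
      (h1 ▸ Nat.dvd_factorial hq.pos h)
  obtain ⟨k, hk⟩ := exists_prime_orderOf_dvd_card' q h2
  refine ⟨altHom Δ k, altHom_range.le ⟨k, rfl⟩, fun e => ?_, by
    rw [← map_pow, ← hk, pow_orderOf_eq_one, map_one]⟩
  rw [altHom_inj (e.trans (map_one _).symm), orderOf_one] at hk
  omega

theorem exists_map3 (h5 : 5 ≤ Δ.card) {a b c a' b' c' : Ω} (h1 : a ≠ b) (h2 : a ≠ c) (h3 : b ≠ c)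
    (h1' : a' ≠ b') (h2' : a' ≠ c') (h3' : b' ≠ c') (ha : a ∈ Δ) (hb : b ∈ Δ) (hc : c ∈ Δ)
    (ha' : a' ∈ Δ) (hb' : b' ∈ Δ) (hc' : c' ∈ Δ) :
    ∃ σ ∈ alt Δ, σ a = a' ∧ σ b = b' ∧ σ c = c' := by
  let s1 := swap a a'
  let s2 := swap (s1 b) b' * s1
  let s3 := swap (s2 c) c' * s2
  have e : s3 a = a' ∧ s3 b = b' ∧ s3 c = c' := by
    simp only [s1, s2, s3, mul_apply, swap_apply_def]; grind
  have e' : ∀ x ∉ Δ, s3 x = x := by
    intro x hx
    simp only [s1, s2, s3, mul_apply, swap_apply_def]; grind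
  rcases Int.units_eq_one_or (sign s3) with h | h
  · exact ⟨s3, ⟨e', h⟩, e⟩
  obtain ⟨l, hl, l1⟩ := pick Δ [a', b', c'] (by simp; omega)
  obtain ⟨m, hm, m1⟩ := pick Δ [l, a', b', c'] (by simp; omega)
  simp only [List.mem_cons, List.not_mem_nil, or_false, not_or] at l1 m1
  refine ⟨swap l m * s3, ⟨fun x hx => ?_, by simp [h, Ne.symm m1.1]⟩, ?_⟩
  · rw [mul_apply, e' x hx]; simp only [swap_apply_def]; grind
  · simp only [mul_apply, e, swap_apply_def]; grind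

/-- a permutation moving a point of `Δ` produces a nontrivial element of `alt Δ` by commutators. -/
theorem exists_comm (h8 : 8 ≤ Δ.card) {a : Perm Ω} {u : Ω} (hu : u ∈ Δ) (ha : a u ≠ u) :
    ∃ c ∈ alt Δ, ∃ c' ∈ alt Δ, ∃ s ∈ Δ, (c * a * c⁻¹ * a⁻¹) s = s ∧
      (c * a * c⁻¹ * a⁻¹) * c' * (c * a * c⁻¹ * a⁻¹)⁻¹ ∈ alt Δ ∧
      (c * a * c⁻¹ * a⁻¹) * c' * (c * a * c⁻¹ * a⁻¹)⁻¹ ≠ c' := by
  obtain ⟨v, hv, v1⟩ := pick Δ [u, a⁻¹ u] (by simp; omega)
  obtain ⟨w, hw, w1⟩ := pick Δ [u, a⁻¹ u, v] (by simp; omega)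
  obtain ⟨s, hs, s1⟩ := pick Δ [u, v, w, a u, a v, a w] (by simp; omega)
  obtain ⟨t, ht, t1⟩ := pick Δ [u, v, w, a u, a v, a w, s] (by simp; omega)
  simp only [List.mem_cons, List.not_mem_nil, or_false, not_or] at v1 w1 s1 t1
  have e : cyc u v w * a * (cyc u v w)⁻¹ * a⁻¹ = cyc u v w * cyc (a u) (a w) (a v) := by
    rw [← cyc_conj, cyc_inv']; group
  have v2 : u ≠ a v := fun e => v1.2 (by rw [e]; simp)
  have w2 : u ≠ a w := fun e => w1.2.1 (by rw [e]; simp)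
  have e1 : (cyc u v w * cyc (a u) (a w) (a v)) u = v := by
    rw [mul_apply, cyc_other ha.symm w2 v2, cyc_fst (Ne.symm v1.1) (Ne.symm w1.2.2)]
  have e2 : (cyc u v w * cyc (a u) (a w) (a v)) s = s := by
    rw [mul_apply, cyc_other (x := s), cyc_other] <;> tauto
  have e3 : (cyc u v w * cyc (a u) (a w) (a v)) t = t := by
    rw [mul_apply, cyc_other (x := t), cyc_other] <;> tauto
  refine ⟨cyc u v w, cyc_mem (Ne.symm v1.1) (Ne.symm w1.1) hu hv hw, cyc u s t,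
    cyc_mem (Ne.symm s1.1) (Ne.symm t1.1) hu hs ht, s, hs, by rw [e, e2], ?_, ?_⟩
  · rw [e, cyc_conj, e1, e2, e3]
    exact cyc_mem (Ne.symm s1.2.1) (Ne.symm t1.2.1) hv hs ht
  · rw [e, cyc_conj, e1, e2, e3]
    intro h
    have : cyc v s t t = cyc u s t t := by rw [h]
    rw [cyc_thd, cyc_thd] at this <;> tauto

theorem alt_le_of_moves (h8 : 8 ≤ Δ.card) {N : Subgroup (Perm Ω)}
    (hN : ∀ σ ∈ alt Δ, ∀ g ∈ N, σ * g * σ⁻¹ ∈ N) {a : Perm Ω} (h1 : a ∈ N) {u : Ω} (hu : u ∈ Δ)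
    (ha : a u ≠ u) : alt Δ ≤ N := by
  obtain ⟨c, hc, c', hc', -, -, -, h2, h3⟩ := exists_comm h8 hu ha
  have h4 : c * a * c⁻¹ * a⁻¹ ∈ N := mul_mem (hN c hc a h1) (inv_mem h1)
  refine alt_le_of_normal (by omega) hN (g := _ * c'⁻¹) ?_ (mul_mem h2 (inv_mem hc'))
    (by rwa [Ne, mul_inv_eq_one])
  simpa [mul_assoc] using mul_mem h4 (hN c' hc' _ (inv_mem h4))

theorem alt_le_of_cyc (h5 : 5 ≤ Δ.card) {N : Subgroup (Perm Ω)}
    (hN : ∀ u ∈ Δ, ∀ v ∈ Δ, ∀ w ∈ Δ, u ≠ v → u ≠ w → v ≠ w → cyc u v w ∈ N) : alt Δ ≤ N := by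
  let X : Set (Perm Ω) := {c | ∃ u ∈ Δ, ∃ v ∈ Δ, ∃ w ∈ Δ, u ≠ v ∧ u ≠ w ∧ v ≠ w ∧ c = cyc u v w}
  obtain ⟨u, hu, -⟩ := pick Δ [] (by simp only [List.length_nil]; omega)
  obtain ⟨v, hv, v1⟩ := pick Δ [u] (by simp; omega)
  obtain ⟨w, hw, w1⟩ := pick Δ [u, v] (by simp; omega)
  simp only [List.mem_cons, List.not_mem_nil, or_false, not_or] at v1 w1
  refine (alt_le_of_normal (N := Subgroup.closure X) h5 (fun σ hσ g hg => ?_)
    (Subgroup.subset_closure ⟨u, hu, v, hv, w, hw, Ne.symm v1, Ne.symm w1.1, Ne.symm w1.2, rfl⟩)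
    (cyc_mem (Ne.symm v1) (Ne.symm w1.1) hu hv hw) (cyc_ne_one (Ne.symm v1) (Ne.symm w1.2))).trans
    ((Subgroup.closure_le _).2 ?_)
  · induction hg using Subgroup.closure_induction with
    | mem x hx =>
      obtain ⟨u, hu, v, hv, w, hw, h1, h2, h3, rfl⟩ := hx
      exact Subgroup.subset_closure ⟨_, alt_mem hσ hu, _, alt_mem hσ hv, _, alt_mem hσ hw,
        σ.injective.ne h1, σ.injective.ne h2, σ.injective.ne h3, cyc_conj σ⟩
    | one => simp
    | mul x y _ _ h1 h2 => simpa [mul_assoc] using mul_mem h1 h2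
    | inv x _ h1 => simpa [mul_assoc] using inv_mem h1
  · rintro _ ⟨u, hu, v, hv, w, hw, h1, h2, h3, rfl⟩
    exact hN u hu v hv w hw h1 h2 h3

omit [DecidableEq Ω] [Fintype Ω] in
theorem pow_inj {M X : Type*} [Group M] [MulAction M X] {q : ℕ} (hq : q.Prime) {g : M}
    (hg : g ^ q = 1) {y : X} (hy : g • y ≠ y) {i j : ℕ} (hi : i < q) (hj : j < q)
    (e : g ^ i • y = g ^ j • y) : i = j := by
  have h1 : MulAction.period g y = q :=
    ((Nat.dvd_prime hq).1 (MulAction.pow_smul_eq_iff_period_dvd.1 (by rw [hg, one_smul]))).resolve_left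
      fun e => hy (MulAction.period_eq_one_iff.1 e)
  rw [MulAction.period_eq_minimalPeriod] at h1
  exact (Function.iterate_eq_iterate_iff_of_lt_minimalPeriod (f := fun x => g • x) (h1 ▸ hi)
    (h1 ▸ hj)).1 (by simpa using e)

omit [DecidableEq Ω] [Fintype Ω] in
theorem fix_of_small {M X : Type*} [Group M] [MulAction M X] {q : ℕ} (hq : q.Prime) {g : M}
    (hg : g ^ q = 1) {Y : Set X} (hY : Y.Finite) (h1 : Y.ncard < q) (h2 : ∀ y ∈ Y, g • y ∈ Y)
    {y : X} (hy : y ∈ Y) : g • y = y := by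
  by_contra h
  have h3 : ∀ n : ℕ, g ^ n • y ∈ Y := fun n => by
    induction n with
    | zero => simpa using hy
    | succ n ih => rw [pow_succ', mul_smul]; exact h2 _ ih
  have := Set.ncard_le_ncard_of_injOn (s := (Finset.range q : Set ℕ)) (fun n => g ^ n • y)
    (fun n _ => h3 n) (fun i hi j hj e => pow_inj hq hg h (by simpa using hi) (by simpa using hj) e) hY
  simp at this
  omega

end Pool.Agent.Lib.MP_03ba20_al
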