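import Pool.Agent.Lib.MP_03ba20_al.AltN

namespace Pool.Agent.Lib.MP_03ba20_al

open Equiv Equiv.Perm

variable {M V Ω ι : Type*} [Group M] [AddCommGroup V] [DistribMulAction M V]
variable [Fintype Ω] [DecidableEq Ω] [DecidableEq ι]
variable {π : M →* Perm Ω} {f : Ω → ι} {E A : Subgroup M} {u : Ω}

variable (π f E u) in
/-- a root system on the fibre of `u`. -/
structure RSys (r : Ω → Ω → V) : Prop where
  eqv : ∀ g ∈ HH π f E (Fb f u), ∀ x y, g • r x y = r (π g x) (π g y)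
  coc : ∀ x y z, f x = f u → f y = f u → f z = f u → r x y + r y z = r x z
  out : ∀ x y, ¬ (f x = f u ∧ f y = f u) → r x y = 0

variable (π) in
/-- transport of root systems. -/
def act (g : M) (r : Ω → Ω → V) : Ω → Ω → V := fun x y => g • r (π g⁻¹ x) (π g⁻¹ y)

omit [Fintype Ω] [DecidableEq Ω] in
theorem act_act (g h : M) (r : Ω → Ω → V) : act π g (act π h r) = act π (g * h) r := by
  ext x y; simp [act, mul_smul]

omit [Fintype Ω] [DecidableEq Ω] in
theorem act_add (g : M) (r s : Ω → Ω → V) : act π g (r + s) = act π g r + act π g s := by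
  ext x y; simp [act]

omit [Fintype Ω] [DecidableEq Ω] in
theorem act_one (r : Ω → Ω → V) : act π (1 : M) r = r := by ext x y; simp [act]

omit [Fintype Ω] [DecidableEq Ω] in
theorem act_apply (g : M) (r : Ω → Ω → V) (x y : Ω) : act π g r (π g x) (π g y) = g • r x y := by
  simp [act]

theorem RSys.of_eq {r : Ω → Ω → V} (h : RSys π f E u r) {v : Ω} (e : f v = f u) : RSys π f E v r :=
  ⟨by rw [Fb_eq e]; exact h.eqv, by rw [e]; exact h.coc, by rw [e]; exact h.out⟩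

theorem RSys.add {r s : Ω → Ω → V} (h : RSys π f E u r) (h' : RSys π f E u s) :
    RSys π f E u (r + s) :=
  ⟨fun g hg x y => by simp [h.eqv g hg, h'.eqv g hg], fun x y z hx hy hz => by
    simp only [Pi.add_apply, ← h.coc x y z hx hy hz, ← h'.coc x y z hx hy hz]; abel,
    fun x y k => by simp [h.out x y k, h'.out x y k]⟩

theorem RSys.self {r : Ω → Ω → V} (h : RSys π f E u r) (x : Ω) : r x x = 0 := by
  by_cases hx : f x = f u
  · simpa using h.coc x x x hx hx hx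
  · exact h.out x x fun e => hx e.1

omit [Fintype Ω] [DecidableEq Ω] in
theorem root_alg (P : Ω → Prop) (X : Ω → Ω → Ω → V) (two : ∀ v : V, v + v = 0)
    (pk : ∀ l : List Ω, l.length < 25 → ∃ x, P x ∧ x ∉ l)
    (sym : ∀ i j k, P i → P j → P k → i ≠ j → i ≠ k → j ≠ k → X i j k = X j i k)
    (cy : ∀ i j k, P i → P j → P k → i ≠ j → i ≠ k → j ≠ k → X i j k + X j k i = X k i j)
    (d1 : ∀ i j p q k l, P i → P j → P p → P q → P k → P l →
      i ≠ j → p ≠ q → k ≠ l → i ≠ k → i ≠ l → j ≠ k → j ≠ l → p ≠ k → p ≠ l → q ≠ k → q ≠ l →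
      X i j k + X i j l = X p q k + X p q l) (p q l l' : Ω) (hp : P p) (hq : P q) (hl : P l)
    (hl' : P l') (h1 : p ≠ q) (h2 : p ≠ l) (h3 : q ≠ l) (h4 : p ≠ l') (h5 : q ≠ l') :
    X p q l = X p q l' := by
  obtain ⟨i, hi, i1⟩ := pk [p, q, l, l'] (by simp)
  obtain ⟨j, hj, j1⟩ := pk [p, q, l, l', i] (by simp)
  obtain ⟨k, hk, k1⟩ := pk [p, q, l, l', i, j] (by simp)
  simp only [List.mem_cons, List.not_mem_nil, or_false, not_or] at i1 j1 k1
  obtain ⟨i1, i2, i3, i4⟩ := i1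
  obtain ⟨j1, j2, j3, j4, j5⟩ := j1
  obtain ⟨k1, k2, k3, k4, k5, k6⟩ := k1
  have d2 : ∀ l, P l → p ≠ l → q ≠ l → i ≠ l → j ≠ l → k ≠ l →
      X p q l = X p q i + X p q j + X p q k := fun l hl pl ql il jl kl => by
    have ij := Ne.symm j5; have ik := Ne.symm k5; have jk := Ne.symm k6
    have pi := Ne.symm i1; have pj := Ne.symm j1; have pk := Ne.symm k1
    have qi := Ne.symm i2; have qj := Ne.symm j2; have qk := Ne.symm k2
    have e1 := cy i j k hi hj hk ij ik jk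
    have e2 := cy i j l hi hj hl ij il jl
    have e3 := cy i k l hi hk hl ik il kl
    have e4 := cy j k l hj hk hl jk jl kl
    have s1 := sym k i j hk hi hj k5 k6 ij
    have s2 := sym l j k hl hj hk jl.symm kl.symm jk
    have a1 := d1 i j p q k l hi hj hp hq hk hl ij h1 kl ik il jk jl pk pl qk ql
    have a2 := d1 j k p q i l hj hk hp hq hi hl jk h1 il j5 jl k5 kl pi pl qi ql
    have a3 := d1 i k p q j l hi hk hp hq hj hl ik h1 jl ij il k6 kl pj pl qj ql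
    have a4 := d1 j l p q i k hj hl hp hq hi hk jl h1 ik j5 jk il.symm kl.symm pi pk qi qk
    have a5 := d1 l i p q j k hl hi hp hq hj hk il.symm h1 jk jl.symm kl.symm ij ik pj pk qj qk
    have a6 := d1 k l p q i j hk hl hp hq hi hj kl h1 ij k5 k6 il.symm jl.symm pi pj qi qj
    linear_combination (norm := abel1) e1 + e2 + e3 + e4 - a1 - a2 - a3 - a4 - a5 - a6 + s1 + s2
      + two (X i k j) + two (X l i j) + two (X l i k) + two (X j l k) - two (X p q i) - two (X p q j)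
      - two (X p q k) - two (X p q l) - two (X p q i) - two (X p q j) - two (X p q k)
  rw [d2 l hl h2 h3 i3 j3 k3, d2 l' hl' h4 h5 i4 j4 k4]

namespace Loc

variable (L : Loc V 2 π f E A)
include L

theorem two (v : V) : v + v = 0 := by rw [← two_nsmul, L.exp]

theorem neg (v : V) : -v = v := neg_eq_of_add_eq_zero_left (L.two v)

theorem add_eq {v w : V} : v + w = 0 ↔ v = w := by rw [add_eq_zero_iff_eq_neg, L.neg]

theorem map3 (hG : GE π f E u) {Δ : Finset Ω} (hΔ : Δ ⊆ Fb f u) (h5 : 5 ≤ Δ.card) {a b c a' b' c' : Ω}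
    (h1 : a ≠ b) (h2 : a ≠ c) (h3 : b ≠ c) (h1' : a' ≠ b') (h2' : a' ≠ c') (h3' : b' ≠ c')
    (ha : a ∈ Δ) (hb : b ∈ Δ) (hc : c ∈ Δ) (ha' : a' ∈ Δ) (hb' : b' ∈ Δ) (hc' : c' ∈ Δ) :
    ∃ g ∈ HH π f E Δ, π g a = a' ∧ π g b = b' ∧ π g c = c' := by
  obtain ⟨σ, hσ, s⟩ := exists_map3 h5 h1 h2 h3 h1' h2' h3' ha hb hc ha' hb' hc'
  obtain ⟨g, hg, rfl⟩ := L.HH_surj hG hΔ h5 hσ
  exact ⟨g, hg, s⟩

theorem rs_symm {r : Ω → Ω → V} (h : RSys π f E u r) (x y : Ω) : r x y = r y x := by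
  by_cases k : f x = f u ∧ f y = f u
  · rw [← L.add_eq, h.coc x y x k.1 k.2 k.1, h.self]
  · rw [h.out x y k, h.out y x fun e => k e.symm]

theorem rs_map (hG : GE π f E u) {x y x' y' : Ω} (h : x ≠ y) (h' : x' ≠ y') (hx : f x = f u)
    (hy : f y = f u) (hx' : f x' = f u) (hy' : f y' = f u) :
    ∃ g ∈ HH π f E (Fb f u), π g x = x' ∧ π g y = y' := by
  obtain ⟨z, hz, z1⟩ := L.pickF u [x, y, x', y'] (by simp)
  simp only [List.mem_cons, List.not_mem_nil, or_false, not_or] at z1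
  obtain ⟨g, hg, g1, g2, -⟩ := L.map3 hG subset_rfl ((by norm_num : 5 ≤ 25).trans (L.big u)) h
    (Ne.symm z1.1) (Ne.symm z1.2.1) h' (Ne.symm z1.2.2.1) (Ne.symm z1.2.2.2) (mem_Fb.2 hx)
    (mem_Fb.2 hy) (mem_Fb.2 hz) (mem_Fb.2 hx') (mem_Fb.2 hy') (mem_Fb.2 hz)
  exact ⟨g, hg, g1, g2⟩

theorem rs_ne (hG : GE π f E u) {r : Ω → Ω → V} (h : RSys π f E u r) (h0 : r ≠ 0) {x y : Ω}
    (hxy : x ≠ y) (hx : f x = f u) (hy : f y = f u) : r x y ≠ 0 := fun e => h0 (by
  ext x' y'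
  by_cases k : f x' = f u ∧ f y' = f u
  · by_cases k' : x' = y'
    · rw [k', h.self]; rfl
    obtain ⟨g, hg, rfl, rfl⟩ := L.rs_map hG hxy k' hx hy k.1 k.2
    rw [← h.eqv g hg, e, smul_zero]; rfl
  · exact h.out _ _ k)

theorem rs_act {r : Ω → Ω → V} (h : RSys π f E u r) (g : M) : RSys π f E (π g u) (act π g r) := by
  have k : ∀ x, f x = f (π g u) ↔ f (π g⁻¹ x) = f u := fun x =>
    ⟨fun e => by simpa using L.fib g⁻¹ _ _ e, fun e => by simpa using L.fib g _ _ e⟩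
  refine ⟨fun s hs x y => ?_, fun x y z hx hy hz => ?_, fun x y e => ?_⟩
  · have := h.eqv _ (L.HH_conj g⁻¹ hs fun y hy => mem_Fb.2 ((k y).1 (mem_Fb.1 hy))) (π g⁻¹ x) (π g⁻¹ y)
    simp only [act]
    rw [← mul_smul, show s * g = g * (g⁻¹ * s * g⁻¹⁻¹) by group, mul_smul, this]
    simp
  · simp only [act]
    rw [← smul_add, h.coc _ _ _ ((k x).1 hx) ((k y).1 hy) ((k z).1 hz)]
  · simp only [act]
    rw [h.out _ _ (by rwa [← k, ← k]), smul_zero]

theorem rs_exists (hG : GE π f E u) (hN : NV V π f E u) : ∃ r : Ω → Ω → V, RSys π f E u r ∧ r ≠ 0 := by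
  have h5 : 5 ≤ (Fb f u).card := (by norm_num : 5 ≤ 25).trans (L.big u)
  obtain ⟨b, fb, b1⟩ := L.pickF u [u] (by simp)
  obtain ⟨c, fc, c1⟩ := L.pickF u [u, b] (by simp)
  obtain ⟨l, fl, l1⟩ := L.pickF u [u, b, c] (by simp)
  obtain ⟨m, fm, m1⟩ := L.pickF u [u, b, c, l] (by simp)
  simp only [List.mem_cons, List.not_mem_nil, or_false, not_or] at b1 c1 l1 m1
  obtain ⟨d, hd⟩ := L.can_exists hG (Ne.symm b1) (Ne.symm c1.1) (Ne.symm c1.2) fb fc
  obtain ⟨t, ht, et⟩ := L.HH_surj hG subset_rfl h5 (swaps_mem (Ne.symm b1) (Ne.symm m1.2.2.2)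
    (mem_Fb.2 rfl) (mem_Fb.2 fb) (mem_Fb.2 fl) (mem_Fb.2 fm))
  have t1 : π t u = b ∧ π t b = u ∧ π t c = c := by
    simp only [et, mul_apply, swap_apply_def]; grind
  have t2 : t * t = 1 := L.HH_ker u _ subset_rfl _ (mul_mem ht ht) (by
    rw [map_mul, et]; ext x; simp only [mul_apply, swap_apply_def, one_apply]; grind)
  have t3 : t * d * t⁻¹ = d⁻¹ := by
    have := L.can_conj hd t
    simp only [t1] at this
    exact L.can_uniq this hd.inv'.rot.rot
  obtain ⟨x₀, x1, x2, v, x3⟩ : ∃ x₀ : V, x₀ ≠ 0 ∧ t • x₀ = x₀ ∧ ∃ v, Dl d v = x₀ := by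
    obtain ⟨v, hv⟩ : ∃ v : V, Dl d v ≠ 0 := by
      by_contra hc
      push Not at hc
      exact cyc_ne_one hd.uv hd.vw (by
        rw [← hd.eq, L.faith d fun v => Dl_eq_zero.1 (hc v), map_one])
    by_cases h : t • Dl d v = Dl d v
    · exact ⟨_, hv, h, v, rfl⟩
    · refine ⟨Dl d v + t • Dl d v, fun e => h (L.add_eq.1 e).symm, by
        rw [smul_add, ← mul_smul, t2, one_smul, add_comm], v - d⁻¹ • t • v, ?_⟩
      rw [smul_Dl, t3]
      simp only [Dl_apply, smul_sub, smul_inv_smul]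
      abel
  classical
  let X : Ω → Ω → Ω → V := fun i j k =>
    if h : ∃ g ∈ HH π f E (Fb f u), π g u = i ∧ π g b = j ∧ π g c = k then h.choose • x₀ else 0
  have key : ∀ g ∈ HH π f E (Fb f u), X (π g u) (π g b) (π g c) = g • x₀ := fun g hg => by
    have h : ∃ g' ∈ HH π f E (Fb f u), π g' u = π g u ∧ π g' b = π g b ∧ π g' c = π g c :=
      ⟨g, hg, rfl, rfl, rfl⟩
    simp only [X, dif_pos h]
    obtain ⟨h1, h2, h3, h4⟩ := h.choose_spec
    have h6 := mul_mem (inv_mem hg) h1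
    obtain ⟨s, hs, e⟩ := L.HH_surj hG (Δ := Fb f u \ {u, b, c}) Finset.sdiff_subset
      ((by norm_num : 5 ≤ 22).trans (L.card_sd3 u u b c)) (σ := π (g⁻¹ * h.choose))
      ⟨fun x hx => by
        by_cases k : x ∈ Fb f u
        · simp only [Finset.mem_sdiff, k, true_and, not_not, Finset.mem_insert,
            Finset.mem_singleton] at hx
          rcases hx with rfl | rfl | rfl <;> simp [*]
        · exact (HH_alt h6).1 x k, (HH_alt h6).2⟩
    rw [← inv_smul_eq_iff, ← mul_smul, ← L.HH_inj (HH_mono Finset.sdiff_subset hs) h6 e, ← x3]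
    exact mem_KW.1 (hN u b c d rfl hd hs) v trivial
  have ex : ∀ i j k, f i = f u → f j = f u → f k = f u → i ≠ j → i ≠ k → j ≠ k →
      ∃ g ∈ HH π f E (Fb f u), π g u = i ∧ π g b = j ∧ π g c = k := fun i j k hi hj hk h1 h2 h3 =>
    L.map3 hG subset_rfl h5 hd.uv hd.uw hd.vw h1 h2 h3 (mem_Fb.2 rfl) (mem_Fb.2 fb) (mem_Fb.2 fc)
      (mem_Fb.2 hi) (mem_Fb.2 hj) (mem_Fb.2 hk)
  have eqv : ∀ s ∈ HH π f E (Fb f u), ∀ i j k, f i = f u → f j = f u → f k = f u → i ≠ j → i ≠ k →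
      j ≠ k → s • X i j k = X (π s i) (π s j) (π s k) := fun s hs i j k hi hj hk h1 h2 h3 => by
    obtain ⟨g, hg, rfl, rfl, rfl⟩ := ex i j k hi hj hk h1 h2 h3
    rw [key g hg, ← mul_smul, ← key _ (mul_mem hs hg)]
    simp
  have sym : ∀ i j k, f i = f u → f j = f u → f k = f u → i ≠ j → i ≠ k → j ≠ k →
      X i j k = X j i k := fun i j k hi hj hk h1 h2 h3 => by
    obtain ⟨g, hg, rfl, rfl, rfl⟩ := ex i j k hi hj hk h1 h2 h3
    rw [key g hg, ← x2, ← mul_smul, ← key _ (mul_mem hg ht)]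
    simp [t1]
  have cy : ∀ i j k, f i = f u → f j = f u → f k = f u → i ≠ j → i ≠ k → j ≠ k →
      X i j k + X j k i = X k i j := fun i j k hi hj hk h1 h2 h3 => by
    obtain ⟨g, hg, rfl, rfl, rfl⟩ := ex i j k hi hj hk h1 h2 h3
    have e1 := key _ (mul_mem hg hd.memF)
    have e2 := key _ (mul_mem hg (mul_mem hd.memF hd.memF))
    simp only [map_mul, mul_apply, hd.eq, cyc_fst hd.uv hd.vw, cyc_snd, cyc_thd hd.uw hd.vw] at e1 e2
    rw [key g hg, e1, e2, mul_smul, mul_smul g, ← smul_add, ← x3, ← L.neg (Dl d v + _)]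
    congr 1
    simp only [Dl_apply, smul_sub, ← mul_smul]
    rw [← pow_two, ← pow_succ, L.can_pow hd, one_smul]
    abel
  have d1 : ∀ i j p q k l, f i = f u → f j = f u → f p = f u → f q = f u → f k = f u → f l = f u →
      i ≠ j → p ≠ q → k ≠ l → i ≠ k → i ≠ l → j ≠ k → j ≠ l → p ≠ k → p ≠ l → q ≠ k → q ≠ l →
      X i j k + X i j l = X p q k + X p q l := by
    intro i j p q k l hi hj hp hq hk hl h1 h2 h3 h4 h5 h6 h7 h8 h9 h10 h11
    obtain ⟨m, hm, m1⟩ := L.pickF u [i, j, p, q, k, l] (by simp)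
    obtain ⟨z, hz, z1⟩ := L.pickF u [i, j, p, q, k, l, m] (by simp)
    simp only [List.mem_cons, List.not_mem_nil, or_false, not_or] at m1 z1
    obtain ⟨m1, m2, m3, m4, m5, m6⟩ := m1
    obtain ⟨z1, z2, z3, z4, z5, z6, z7⟩ := z1
    obtain ⟨e, he⟩ := L.can_exists (hG.of_eq hk) h3 (Ne.symm m5) (Ne.symm m6) (hl.trans hk.symm)
      (hm.trans hk.symm)
    have mem : ∀ x, f x = f u → x ≠ k → x ≠ l → x ≠ m → x ∈ Fb f u \ {k, l, m} :=
      fun x a b c d => by
        simp only [Finset.mem_sdiff, mem_Fb, Finset.mem_insert, Finset.mem_singleton, not_or]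
        exact ⟨a, b, c, d⟩
    obtain ⟨g, hg, g1, g2, -⟩ := L.map3 hG (Δ := Fb f u \ {k, l, m}) Finset.sdiff_subset
      ((by norm_num : 5 ≤ 22).trans (L.card_sd3 u k l m)) h1 (Ne.symm z1) (Ne.symm z2) h2
      (Ne.symm z3) (Ne.symm z4) (mem i hi h4 h5 (Ne.symm m1)) (mem j hj h6 h7 (Ne.symm m2))
      (mem z hz z5 z6 z7) (mem p hp h8 h9 (Ne.symm m3)) (mem q hq h10 h11 (Ne.symm m4))
      (mem z hz z5 z6 z7)
    have k1 := mem_KW.1 (hN k l m e hk he hg) (X i j k) trivial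
    have k2 := HH_mono Finset.sdiff_subset hg
    rw [Dl_apply, eqv e (Fb_eq hk ▸ he.memF) i j k hi hj hk h1 h4 h6, he.eq, cyc_fst he.uv he.vw,
      cyc_other h4 h5 (Ne.symm m1), cyc_other h6 h7 (Ne.symm m2), smul_sub, eqv g k2 i j k hi hj hk h1 h4 h6,
      eqv g k2 i j l hi hj hl h1 h5 h7, g1, g2, (HH_alt hg).1 k (by simp), (HH_alt hg).1 l (by simp),
      sub_eq_add_neg, sub_eq_add_neg, L.neg, L.neg] at k1
    rw [add_comm, ← k1, add_comm]
  have d3 := root_alg (fun x => f x = f u) X L.two (L.pickF u) sym cy d1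
  choose th th1 th2 using fun x y => L.pickF u [x, y] (by simp)
  simp only [List.mem_cons, List.not_mem_nil, or_false, not_or] at th2
  let r : Ω → Ω → V := fun x y => if f x = f u ∧ f y = f u ∧ x ≠ y then X x y (th x y) else 0
  have hr : ∀ x y z, f x = f u → f y = f u → f z = f u → x ≠ y → x ≠ z → y ≠ z → r x y = X x y z :=
    fun x y z hx hy hz h1 h2 h3 => by
      simp only [r, if_pos (And.intro hx (And.intro hy h1))]
      exact d3 x y _ z hx hy (th1 x y) hz h1 (Ne.symm (th2 x y).1) (Ne.symm (th2 x y).2) h2 h3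
  have r0 : ∀ x, r x x = 0 := fun x => by simp [r]
  refine ⟨r, ⟨fun g hg x y => ?_, fun x y z hx hy hz => ?_, fun x y h => if_neg fun e => h ⟨e.1, e.2.1⟩⟩,
    fun e => x1 ?_⟩
  · have k : ∀ x, f (π g x) = f u ↔ f x = f u := fun x => by
      rw [← mem_Fb, ← mem_Fb]
      exact ⟨fun h => by simpa using alt_mem (HH_alt (inv_mem hg)) h, alt_mem (HH_alt hg)⟩
    by_cases h : f x = f u ∧ f y = f u ∧ x ≠ y
    · have h1 := Ne.symm (th2 x y).1
      have h2 := Ne.symm (th2 x y).2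
      rw [hr x y _ h.1 h.2.1 (th1 x y) h.2.2 h1 h2, eqv g hg _ _ _ h.1 h.2.1 (th1 x y) h.2.2 h1 h2,
        hr _ _ _ ((k _).2 h.1) ((k _).2 h.2.1) ((k _).2 (th1 x y)) ((π g).injective.ne h.2.2)
        ((π g).injective.ne h1) ((π g).injective.ne h2)]
    · simp only [r]
      rw [if_neg h, if_neg (by simpa [k] using h), smul_zero]
  · by_cases h1 : x = y
    · rw [h1, r0, zero_add]
    by_cases h2 : y = z
    · rw [h2, r0, add_zero]
    by_cases h3 : x = z
    · subst h3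
      have h4 := Ne.symm (th2 x y).1
      have h5 := Ne.symm (th2 x y).2
      rw [r0, L.add_eq, hr x y _ hx hy (th1 x y) h1 h4 h5, hr y x _ hy hx (th1 x y) h2 h5 h4,
        sym _ _ _ hx hy (th1 x y) h1 h4 h5]
    rw [hr x y z hx hy hz h1 h3 h2, hr y z x hy hz hx h2 (Ne.symm h1) (Ne.symm h3),
      hr x z y hx hz hy h3 h1 (Ne.symm h2), cy x y z hx hy hz h1 h3 h2,
      sym z x y hz hx hy (Ne.symm h3) (Ne.symm h2) h1]
  · have := key 1 (one_mem _)
    simp only [map_one, one_apply, one_smul] at this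
    rw [← this, ← hr u b c rfl fb fc hd.uv hd.uw hd.vw, e]; rfl

theorem rs_fixed (hG : GE π f E u) (hN : NV V π f E u) : ∃ r : Ω → Ω → V, RSys π f E u r ∧ r ≠ 0 ∧
    ∀ a ∈ A, f (π a u) = f u → act π a r = r := by
  have := L.finM
  classical
  have := Fintype.ofFinite M
  suffices h : ∀ s : Finset M, ∃ r : Ω → Ω → V, RSys π f E u r ∧ r ≠ 0 ∧
      ∀ a ∈ s, a ∈ A → f (π a u) = f u → act π a r = r from
    (h Finset.univ).imp fun r hr => ⟨hr.1, hr.2.1, fun a => hr.2.2 a (Finset.mem_univ a)⟩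
  intro s
  induction s using Finset.induction_on with
  | empty => exact (L.rs_exists hG hN).imp fun r hr => ⟨hr.1, hr.2, by simp⟩
  | insert a s _ ih =>
    obtain ⟨r, h1, h2, h3⟩ := ih
    by_cases h : a ∈ A → f (π a u) = f u → act π a r = r
    · exact ⟨r, h1, h2, by simpa using ⟨h, h3⟩⟩
    push Not at h
    refine ⟨r + act π a r, h1.add ((L.rs_act h1 a).of_eq h.2.1.symm), fun e => h.2.2 ?_,
      fun b hb hb' fb => ?_⟩
    · ext x y
      exact (L.add_eq.1 (congrFun (congrFun e x) y)).symm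
    · rw [act_add, act_act]
      rcases Finset.mem_insert.1 hb with rfl | hb
      · rw [L.sq hb', act_one, add_comm]
      · rw [L.comm b hb' a h.1, ← act_act, h3 b hb hb' fb]

end Loc

end Pool.Agent.Lib.MP_03ba20_al
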