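import Pool.Agent.Lib.MP_03ba20_al.AltTau

namespace Pool.Agent.Lib.MP_03ba20_al

open Equiv Equiv.Perm Subgroup MulAction

variable {G V Ω ι : Type*} [Group G] [MulAction G V] {Γ : SimpleGraph V}
variable [Fintype Ω] [DecidableEq Ω] [DecidableEq ι]
variable {x y : V} {π : G → Perm Ω} {f : Ω → ι} {R : Ω → Ω → G} {τ : Perm Ω}

theorem ZZ_sq {z : G} (h : z ∈ ZZ G Γ 2 x) : z * z = 1 := by rw [← pow_two, h.2.2.1]

theorem ZZ_inv {z : G} (h : z ∈ ZZ G Γ 2 x) : z⁻¹ = z := inv_eq_of_mul_eq_one_left (ZZ_sq h)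

theorem ZZ_comm {z w : G} (h : z ∈ ZZ G Γ 2 x) (h' : w ∈ ZZ G Γ 2 x) : z * w = w * z := h'.2.2.2 z h.1

namespace ArcS

variable (A : ArcS Γ x y π f R τ)
include A

theorem self (u : Ω) : R u u = 1 := by simpa using A.rt.coc u u u rfl rfl

theorem symm {u v : Ω} (h : f v = f u) : R u v = R v u := by
  rw [← ZZ_inv (A.rt.mem u v), inv_eq_iff_mul_eq_one, A.rt.coc u v u h rfl, A.self]

theorem move {u v : Ω} (hu : Gd' f R u) (h : u ≠ v) (hv : f v = f u) (l : List Ω) (hl : l.length < 23) :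
    ∃ c : G, c • x = x ∧ c * R u v * c⁻¹ ≠ R u v ∧ ∀ s ∈ l, s ≠ u → s ≠ v → π c s = s := by
  obtain ⟨z, hz, z1⟩ := A.loc.pickF u (u :: v :: l) (by simp; omega)
  simp only [List.mem_cons, not_or] at z1
  obtain ⟨c, c1, c2⟩ := A.loc.lift3 h (Ne.symm z1.1) hv hz
  refine ⟨c, c1, fun e => hu u z rfl hz (Ne.symm z1.1) ?_, fun s hs h1 h2 => by
    rw [c2, cyc_other h1 h2 fun e : s = z => z1.2.2 (e ▸ hs)]⟩
  rw [A.rt.eqv c c1, c2, cyc_fst h (Ne.symm z1.2.1), cyc_snd] at e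
  rw [← A.rt.coc u v z hv hz, e, ZZ_sq (A.rt.mem _ _)]

theorem ne_tau {u w : Ω} (h : w ≠ τ u) : τ w ≠ u := fun e => h (by rw [← e, A.inv])

theorem sl_ne {u w : Ω} (hu : τ u ≠ u) (h1 : w ≠ u) (h2 : w ≠ τ u) : R u (τ u) ≠ R w (τ w) := fun e => by
  obtain ⟨c, c1, c2, c3⟩ := A.move (A.gd u hu) hu.symm (A.ft u) [w, τ w] (by simp)
  rw [e, A.rt.eqv c c1, c3 w (by simp) h1 h2, c3 (τ w) (by simp) (A.ne_tau h2) (τ.injective.ne h1)] at c2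
  exact c2 rfl

theorem sl_eq {u w : Ω} (h : w = u ∨ w = τ u) : R w (τ w) = R u (τ u) := by
  rcases h with rfl | rfl
  · rfl
  · rw [A.inv, A.symm (A.ft u)]

theorem sl3 {u v w : Ω} (hu : τ u ≠ u) (hv : τ v ≠ v) (hw : τ w ≠ w) :
    R u (τ u) * R v (τ v) ≠ R w (τ w) := fun e => by
  by_cases h1 : v = u ∨ v = τ u
  · rw [A.sl_eq h1, ZZ_sq (A.rt.mem _ _)] at e
    exact A.gd w hw _ _ rfl (A.ft w) hw.symm e.symm
  by_cases h2 : w = u ∨ w = τ u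
  · rw [A.sl_eq h2, mul_eq_left] at e
    exact A.gd v hv _ _ rfl (A.ft v) hv.symm e
  push Not at h1 h2
  obtain ⟨c, c1, c2, c3⟩ := A.move (A.gd u hu) hu.symm (A.ft u) [v, τ v, w, τ w] (by simp)
  apply c2
  rw [eq_mul_inv_of_mul_eq e, show c * (R w (τ w) * (R v (τ v))⁻¹) * c⁻¹ =
    (c * R w (τ w) * c⁻¹) * (c * R v (τ v) * c⁻¹)⁻¹ by group, A.rt.eqv c c1, A.rt.eqv c c1,
    c3 w (by simp) h2.1 h2.2, c3 (τ w) (by simp) (A.ne_tau h2.2) (τ.injective.ne h2.1),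
    c3 v (by simp) h1.1 h1.2, c3 (τ v) (by simp) (A.ne_tau h1.2) (τ.injective.ne h1.1)]

theorem fq {q : G} (hq : q ∈ Op 2 (KK G Γ y)) (u : Ω) : f (π q u) = f u := by
  rcases A.q q hq u with e | e <;> rw [e]
  exact A.ft u

theorem comm (h : Γ.Adj x y) {q : G} (hq : q ∈ Op 2 (KK G Γ y)) {u w : Ω} (hw : f w = f u) :
    q * R u w * q⁻¹ * (R u w)⁻¹ = R u (π q u) * R w (π q w) := by
  have h1 := A.fq hq u
  have h2 := A.fq hq w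
  rw [A.rt.eqv q ((Op_le _ hq).2 x h.symm), ← A.rt.coc (π q u) u _ h1.symm (by rw [h1, h2, hw]),
    ← A.rt.coc u w (π q w) hw (h2.trans hw), A.symm h1.symm, ZZ_comm (A.rt.mem u w) (A.rt.mem w _)]
  group

theorem comm' (h : Γ.Adj x y) {q : G} (hq : q ∈ Op 2 (KK G Γ y)) {u w : Ω} (hw : f w = f u) :
    R u w * q * (R u w)⁻¹ * q⁻¹ = R u (π q u) * R w (π q w) := by
  rw [← ZZ_inv (mul_mem (A.rt.mem u _) (A.rt.mem w _)), ← A.comm h hq hw]; group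

theorem weight (h : Γ.Adj x y) {a : G} (ha : a ∈ Op 2 (KK G Γ y)) (h1 : a ∉ KK G Γ x) {r s : G}
    (h2 : ∀ z ∈ ZZ G Γ 2 x, a * z * a⁻¹ * z⁻¹ ∈ [1, r, s, r * s]) :
    ∃ u, π a u = τ u ∧ τ u ≠ u ∧ (Mv f (π a) u).card ≤ 8 := by
  classical
  obtain ⟨u, hu⟩ : ∃ u, π a u ≠ u := by
    by_contra hc
    push Not at hc
    exact h1 ((A.loc.ker a ((Op_le _ ha).2 x h.symm)).1 (Equiv.ext hc))
  have e := (A.q a ha u).resolve_left hu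
  refine ⟨u, e, e ▸ hu, (Finset.card_le_mul_card_image_of_maps_to
    (f := fun w => R u (τ u) * R w (τ w)) (t := [1, r, s, r * s].toFinset) (fun w hw => ?_) 2
    fun z _ => ?_).trans (Nat.mul_le_mul_left 2 (List.toFinset_card_le _))⟩
  · rw [mem_Mv] at hw
    rw [List.mem_toFinset, ← e, ← (A.q a ha w).resolve_left hw.2, ← A.comm h ha hw.1]
    exact h2 _ (A.rt.mem _ _)
  · rcases ((Mv f (π a) u).filter fun w => R u (τ u) * R w (τ w) = z).eq_empty_or_nonempty with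
      e | ⟨w, hw⟩
    · rw [e]; simp
    refine (Finset.card_le_card fun v hv => ?_).trans (Finset.card_le_two (a := w) (b := τ w))
    simp only [Finset.mem_filter, mem_Mv] at hw hv
    by_contra hc
    simp only [Finset.mem_insert, Finset.mem_singleton, not_or] at hc
    exact A.sl_ne ((A.q a ha w).resolve_left hw.1.2 ▸ hw.1.2) hc.1 hc.2
      (mul_left_cancel (hw.2.trans hv.2.symm))

theorem comm_mem (h : Γ.Adj x y) {q : G} (hq : q ∈ Op 2 (KK G Γ y)) {u w : Ω} (hw : f w = f u) :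
    R u w * q * (R u w)⁻¹ * q⁻¹ ∈ [1, R u (τ u), R w (τ w), R u (τ u) * R w (τ w)] := by
  rw [A.comm' h hq hw]
  rcases A.q q hq u with e | e <;> rcases A.q q hq w with e' | e' <;> simp [e, e', A.self]

theorem pick_fix {σ : Perm Ω} {u : Ω} (h : (Mv f σ u).card ≤ 8) (l : List Ω)
    (hl : l.length < 17) : ∃ s, f s = f u ∧ σ s = s ∧ s ∉ l := by
  have h1 := A.loc.big u
  have h2 := Finset.le_card_sdiff (Mv f σ u) (Fb f u)
  obtain ⟨x, hx, hx'⟩ := pick (Fb f u \ Mv f σ u) l (by omega)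
  simp only [Finset.mem_sdiff, mem_Fb, mem_Mv, not_and, not_not] at hx
  exact ⟨x, hx.1, hx.2 hx.1, hx'⟩

end ArcS

namespace Setup

variable (S : Setup G Γ)
include S

theorem arc_conj (A : ArcS Γ x y π f R τ) (g : G) : ArcS Γ (g • x) (g • y) (fun h => π (g⁻¹ * h * g)) f
    (fun u v => g * R u v * g⁻¹) τ := by
  have k : ∀ (h : G) (v : V), h • g • v = g • v → (g⁻¹ * h * g) • v = v := fun h v e => by
    rw [mul_smul, mul_smul, e, inv_smul_smul]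
  have kq : ∀ q ∈ Op 2 (KK G Γ (g • y)), g⁻¹ * q * g ∈ Op 2 (KK G Γ y) := fun q hq => by
    simpa using S.eqvQ 2 g⁻¹ _ q hq
  refine ⟨⟨fun a b ha hb => ?_, fun a ha => ?_, fun a ha => A.loc.fib _ (k a x ha), A.loc.big,
    fun u σ hσ => ?_⟩, ⟨fun u v => S.eqvZ g x _ (A.rt.mem u v), fun a ha u v => ?_,
    fun u v w hv hw => ?_⟩, A.inv, A.ft, fun a h1 h2 => A.cm _ (k a x h1) (k a y h2),
    fun q hq => A.q _ (kq q hq), fun u hu v w hv hw e => ?_, fun u hu w h1 h2 h3 => ?_⟩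
  · rw [← A.loc.mul _ _ (k a x ha) (k b x hb)]; congr 1; group
  · rw [A.loc.ker _ (k a x ha), ← S.eqvK.cj_eq, mem_cj]
  · obtain ⟨a, h1, rfl⟩ := A.loc.lift u σ hσ
    exact ⟨g * a * g⁻¹, by rw [conj_smul, h1], by simp [mul_assoc]⟩
  · rw [← A.rt.eqv _ (k a x ha)]; group
  · rw [← A.rt.coc u v w hv hw]; group
  · simpa using A.gd u hu v w hv hw e
  · obtain ⟨q, hq, h4⟩ := A.sw u hu w h1 h2 h3
    exact ⟨_, S.eqvQ 2 g y q hq, by simpa [mul_assoc] using h4⟩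

variable {ρ : V → V → Set G} (hρ : Eqv2 ρ)
  (hA : ∀ x y, Γ.Adj x y → ∃ (π : G → Perm Ω) (R : Ω → Ω → G) (τ : Perm Ω), ArcS Γ x y π f R τ ∧
    ∀ z, z ∈ ρ x y ↔ ∃ u, τ u ≠ u ∧ z = R u (τ u))

include hρ hA in
theorem change (h : Γ.Adj x y) (A : ArcS Γ x y π f R τ)
    (hr : ∀ z, z ∈ ρ x y ↔ ∃ u, τ u ≠ u ∧ z = R u (τ u)) {t : G} (ht : t ∈ Op 2 (KK G Γ y)) {u w : Ω}
    (h1 : π t u = τ u) (h2 : τ u ≠ u) (hw : f w = f u) (h3 : π t w = w) :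
    ∃ δ, Γ.Adj x δ ∧ t • δ ≠ δ ∧ (∀ z ∈ ρ δ x, t * z = z * t → z ∈ ρ y x) ∧
      (∀ z ∈ ρ x δ, t * z = z * t → z ∈ ρ x y) ∧ R u (τ u) ∉ ρ x δ := by
  have hQ : ∀ q ∈ Op 2 (KK G Γ y), q • x = x := fun q hq => (Op_le _ hq).2 x h.symm
  have qc : ∀ q ∈ Op 2 (KK G Γ y), ∀ u, π q (τ u) = τ (π q u) := fun q hq =>
    A.cm q (hQ q hq) (Op_le _ hq).1
  have w1 : w ≠ u := fun e => h2 (by rw [← h1, ← e, h3])
  have w2 : w ≠ τ u := fun e => h2 (by rw [← e, ← h3, e, qc t ht, h1, A.inv])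
  obtain ⟨g, g1, g2⟩ := A.loc.lift3 w1.symm h2.symm hw (A.ft u)
  obtain ⟨q, hq, q1, q2⟩ := A.sw u h2 w hw w1 w2
  have hδ : Γ.Adj x (g • y) := by simpa [g1] using S.adj g _ _ h
  have hq' := S.eqvQ 2 g y q hq
  have iv : ∀ q ∈ Op 2 (KK G Γ y), π q u = τ u → π q w = w → π q * π g * (π q)⁻¹ = (π g)⁻¹ :=
    fun q hq q1 q2 => by
      rw [g2, cyc_conj, qc q hq, q1, q2, A.inv, cyc_inv', cyc_rot h2.symm w1.symm w2.symm,
        cyc_rot w2.symm h2 w1, cyc_rot w1 w2 h2.symm]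
  have e1 : (t * (g * q * g⁻¹)) • y = g • y := by
    have k : g⁻¹ * t * g * q * g⁻¹ * q⁻¹ * t⁻¹ ∈ KK G Γ x := by
      let k : stabilizer G x := ⟨g, g1⟩⁻¹ * ⟨t, hQ t ht⟩ * ⟨g, g1⟩ * ⟨q, hQ q hq⟩ * ⟨g, g1⟩⁻¹ *
        ⟨q, hQ q hq⟩⁻¹ * ⟨t, hQ t ht⟩⁻¹
      have := (A.loc.ker k.1 k.2).1 (by
          change A.loc.hom k = 1
          simp only [k, map_mul, map_inv]
          change (π g)⁻¹ * π t * π g * π q * (π g)⁻¹ * (π q)⁻¹ * (π t)⁻¹ = 1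
          calc _ = (π g)⁻¹ * π t * π g * (π q * π g * (π q)⁻¹)⁻¹ * (π t)⁻¹ := by group
            _ = (π g)⁻¹ * (π t * π g * (π t)⁻¹) * (π t * π g * (π t)⁻¹) := by rw [iv q hq q1 q2]; group
            _ = (π g * π g * π g)⁻¹ := by rw [iv t ht h1 h3]; group
            _ = 1 := by rw [g2, cyc_cube w1.symm h2.symm w2, inv_one])
      exact this
    have := k.2 y h
    simp only [mul_smul, inv_fix (Op_le _ ht).1, inv_fix (Op_le _ hq).1, inv_smul_eq_iff] at this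
    simpa [mul_smul] using this
  have tx := hQ t ht
  have qx : (g * q * g⁻¹) • x = x := (Op_le _ hq').2 x hδ.symm
  have d3 : R u (τ u) ∉ ρ x (g • y) := fun e => by
    obtain ⟨π', R', τ', A', hr'⟩ := hA x _ hδ
    obtain ⟨s, -, e'⟩ := (hr' _).1 e
    have k : (g * q * g⁻¹) * R u (τ u) * (g * q * g⁻¹)⁻¹ = R u (τ u) := by
      rw [e', A'.rt.eqv _ qx, A'.cm _ qx (Op_le _ hq').1, A'.sl_eq (A'.q _ hq' s)]
    rw [A.rt.eqv _ qx, A.loc.mul _ _ (by rw [mul_smul, hQ q hq, g1]) (inv_fix g1),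
      A.loc.mul _ _ g1 (hQ q hq), A.loc.inv g1, g2, cyc_inv'] at k
    simp only [mul_apply, cyc_fst h2.symm w2.symm, cyc_snd, qc q hq, q1, q2, A.inv,
      cyc_fst w1.symm w2] at k
    exact A.gd u h2 u w rfl hw w1.symm (by
      rw [← mul_eq_right (b := R w (τ u)), A.rt.coc _ _ _ hw (A.ft u), k])
  refine ⟨g • y, hδ, fun e => d3 ?_, fun z hz e => ?_, fun z hz e => ?_, d3⟩
  · have : (t * (g * q * g⁻¹)) • g • y = g • y := by rw [mul_smul, (Op_le _ hq').1, e]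
    rw [smul_left_cancel _ (this.trans e1.symm)]
    exact (hr _).2 ⟨u, h2, rfl⟩
  · obtain ⟨π', R', τ', A', hr'⟩ := hA _ x hδ.symm
    obtain ⟨s, -, e'⟩ := (hr' _).1 hz
    have k := (e' ▸ A'.rt.mem s (τ' s) : z ∈ ZZ G Γ 2 (g • y)).2.2.2 _ hq'
    have := hρ (t * (g * q * g⁻¹))⁻¹ _ _ z hz
    have k' : Commute (t * (g * q * g⁻¹)) z := Commute.mul_left e k
    rwa [← e1, inv_smul_smul, inv_fix (by rw [mul_smul, qx, tx]), k'.inv_left.eq,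
      mul_inv_cancel_right] at this
  · have := hρ g⁻¹ _ _ z hz
    rw [inv_smul_smul, inv_fix g1] at this
    obtain ⟨s, s1, s2⟩ := (hr _).1 this
    have k : z = R (π g s) (π g (τ s)) := by rw [← A.rt.eqv g g1, ← s2]; group
    have k1 := A.rt.eqv t tx (π g s) (π g (τ s))
    rw [← k, e, mul_inv_cancel_right, k, g2] at k1
    have k2 : ∀ v, f v = f u → R u v ≠ R (τ u) v := fun v hv e => A.gd u h2 _ _ rfl (A.ft u) h2.symm (by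
      rw [← A.rt.coc u v _ hv (A.ft u), e, A.rt.coc _ _ _ (hv.trans (A.ft u).symm) rfl, A.self])
    have k3 : π t (τ u) = u := by rw [qc t ht, h1, A.inv]
    have k4 : π t (τ w) = τ w := by rw [qc t ht, h3]
    have k5 := (A.ft w).trans hw
    by_cases a1 : s = u
    · rw [a1, cyc_fst w1.symm w2, cyc_thd h2.symm w2, h3, h1, A.symm hw.symm,
        A.symm ((A.ft u).trans hw.symm)] at k1
      exact absurd k1 (k2 w hw)
    by_cases a2 : s = τ u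
    · rw [a2, A.inv, cyc_fst w1.symm w2, cyc_thd h2.symm w2, h3, h1] at k1
      exact absurd k1 (k2 w hw)
    by_cases a3 : s = w
    · rw [a3, cyc_snd, cyc_other (A.ne_tau w2) (a3 ▸ s1) (τ.injective.ne w1), k3, k4] at k1
      exact absurd k1.symm (k2 _ k5)
    by_cases a4 : s = τ w
    · rw [a4, A.inv, cyc_snd, cyc_other (A.ne_tau w2) (a4 ▸ a3) (τ.injective.ne w1), k3, k4,
        A.symm ((A.ft u).trans k5.symm), A.symm k5.symm] at k1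
      exact absurd k1.symm (k2 _ k5)
    rw [k, g2, cyc_other a1 a3 a2, cyc_other (A.ne_tau a2) (A.ne_tau a4) (τ.injective.ne a1)]
    exact (hr _).2 ⟨s, s1, rfl⟩

theorem sup_ne (hZ : ∀ u v, Γ.Adj u v → ∃ z ∈ ZZ G Γ 2 u ⊓ ZZ G Γ 2 v, z ≠ 1) {c δ : V}
    (h : Γ.Adj δ c) {t : G} (t1 : t • c = c) (t2 : t • δ ≠ δ) (t3 : t⁻¹ = t)
    (h1 : ∀ z ∈ ZZ G Γ 2 δ, t * z * t⁻¹ * z⁻¹ ∈ ZZ G Γ 2 δ ⊔ ZZ G Γ 2 c) : False := by
  have key : ∀ x ∈ ZZ G Γ 2 δ ⊔ ZZ G Γ 2 c, t * x * t⁻¹ ∈ ZZ G Γ 2 δ ⊔ ZZ G Γ 2 c := by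
    intro x hx
    have : ZZ G Γ 2 δ ⊔ ZZ G Γ 2 c ≤ cj t⁻¹ (ZZ G Γ 2 δ ⊔ ZZ G Γ 2 c) :=
      sup_le (fun x hx => mem_cj.2 (by simpa using mul_mem (h1 x hx) (mem_sup_left hx)))
        fun x hx => mem_cj.2 (mem_sup_right (by simpa using S.eqvZ.conj t1 hx))
    simpa using mem_cj.1 (this hx)
  obtain ⟨z, hz, hz1⟩ := hZ δ c h
  refine hz1 (S.TL1 (F := fun u v => ((ZZ G Γ 2 u ⊔ ZZ G Γ 2 v : Subgroup G) : Set G))
    (fun g u v x hx => ?_) h (by simp only [sup_comm]) (fun x hx => ?_)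
    (mem_nrm key fun x hx => by simpa [t3] using key x hx) t1 t2 z (mem_sup_left hz.1))
  · have : ZZ G Γ 2 u ⊔ ZZ G Γ 2 v ≤ cj g⁻¹ (ZZ G Γ 2 (g • u) ⊔ ZZ G Γ 2 (g • v)) :=
      sup_le (fun x hx => mem_cj.2 (mem_sup_left (by simpa using S.eqvZ g u x hx)))
        fun x hx => mem_cj.2 (mem_sup_right (by simpa using S.eqvZ g v x hx))
    simpa using mem_cj.1 (this hx)
  · have : ZZ G Γ 2 δ ⊔ ZZ G Γ 2 c ≤ stabilizer G δ ⊓ stabilizer G c :=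
      sup_le (fun x hx => ⟨(Op_le _ hx.1).1, (Op_le _ hx.1).2 c h⟩)
        fun x hx => ⟨(Op_le _ hx.1).2 δ h.symm, (Op_le _ hx.1).1⟩
    exact this hx

variable (hE : ∀ u v, Γ.Adj u v → KK G Γ u ⊓ KK G Γ v ≤ Op 2 (KK G Γ v))
  (hZ : ∀ u v, Γ.Adj u v → ∃ z ∈ ZZ G Γ 2 u ⊓ ZZ G Γ 2 v, z ≠ 1)

include hρ hA hE hZ in
theorem shift2 {a a₁ c₁ c : V} (e1 : Γ.Adj a a₁) (e2 : Γ.Adj c c₁)
    (z1 : ZZ G Γ 2 a ≤ Op 2 (KK G Γ c₁)) (z2 : ZZ G Γ 2 c ≤ Op 2 (KK G Γ a₁))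
    (z3 : ∀ δ, Γ.Adj c δ → ZZ G Γ 2 δ ≤ KK G Γ a₁ → ZZ G Γ 2 δ ≤ Op 2 (KK G Γ a₁))
    (h : ¬ ZZ G Γ 2 a ≤ KK G Γ c) :
    ∃ δ, Γ.Adj c δ ∧ ¬ ZZ G Γ 2 δ ≤ KK G Γ a₁ ∧ ∃ t ∈ ZZ G Γ 2 a,
      (∀ z ∈ ρ δ c, t * z = z * t → z ∈ ρ c₁ c) ∧ (∀ z ∈ ρ c δ, t * z = z * t → z ∈ ρ c c₁) ∧
      ∃ z ∈ ρ c c₁, z ∈ ZZ G Γ 2 a ∧ z ∉ ρ c δ := by
  obtain ⟨π, R, τ, A, -⟩ := hA a a₁ e1
  obtain ⟨π', R', τ', C, hr⟩ := hA c c₁ e2
  have fc : ∀ z ∈ ZZ G Γ 2 a, z • c = c := fun z hz => (Op_le _ (z1 hz)).2 c e2.symm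
  have fa : ∀ z ∈ ZZ G Γ 2 c, z • a = a := fun z hz => (Op_le _ (z2 hz)).2 a e1.symm
  have cz : ∀ v t, t • v = v → ∀ z ∈ ZZ G Γ 2 v, t * z * t⁻¹ * z⁻¹ ∈ ZZ G Γ 2 v := fun v t ht z hz =>
    mul_mem (S.eqvZ.conj ht hz) (inv_mem hz)
  have cz' : ∀ v t, t • v = v → ∀ z ∈ ZZ G Γ 2 v, z * t * z⁻¹ * t⁻¹ ∈ ZZ G Γ 2 v := fun v t ht z hz => by
    simpa [mul_assoc] using inv_mem (cz v t ht z hz)
  obtain ⟨a', ha', a1, u, u1, u2, u3⟩ : ∃ a' ∈ ZZ G Γ 2 c, a' ∉ KK G Γ a ∧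
      ∃ u, π a' u = τ u ∧ τ u ≠ u ∧ (Mv f (π a') u).card ≤ 8 := by
    obtain ⟨t, ht, t1⟩ := SetLike.not_le_iff_exists.1 h
    obtain ⟨u, hu⟩ : ∃ u, π' t u ≠ u := by
      by_contra hc
      push Not at hc
      exact t1 ((C.loc.ker t (fc t ht)).1 (Equiv.ext hc))
    have e := (C.q t (z1 ht) u).resolve_left hu
    obtain ⟨w, hw, w1⟩ := C.loc.pickF u [u, τ' u] (by simp)
    simp only [List.mem_cons, List.not_mem_nil, or_false, not_or] at w1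
    have k : R' u w ∉ KK G Γ a := fun k => by
      have k1 := C.comm e2 (z1 ht) hw
      rw [← ht.2.2.2 _ (hE _ _ e1.symm ⟨Op_le _ (z2 (C.rt.mem u w)), k⟩), e] at k1
      rcases C.q t (z1 ht) w with e' | e' <;> rw [e'] at k1
      · exact C.gd u (e ▸ hu) _ _ rfl (C.ft u) (e ▸ hu.symm) (by simpa [C.self] using k1.symm)
      · exact C.sl_ne (e ▸ hu) w1.1 w1.2 (by
          rw [← ZZ_inv (C.rt.mem w _), ← mul_eq_one_iff_eq_inv, ← k1]; group)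
    exact ⟨_, C.rt.mem u w, k, A.weight e1 (z2 (C.rt.mem u w)) k fun z hz => C.comm_mem e2 (z1 hz) hw⟩
  have r1 : ∀ w, f w = f u → π a' w = w → a' * R u w * a'⁻¹ * (R u w)⁻¹ = R u (τ u) := fun w hw e => by
    rw [A.comm e1 (z2 ha') hw, u1, e, A.self, mul_one]
  have r2 : R u (τ u) ∈ ZZ G Γ 2 c := by
    obtain ⟨w, hw, w1, -⟩ := A.pick_fix u3 [] (by simp)
    exact r1 w hw w1 ▸ cz' c _ (fc _ (A.rt.mem u w)) a' ha'
  have r3 : ∀ z ∈ Op 2 (KK G Γ a₁), R u (π z u) ∈ ZZ G Γ 2 c := fun z hz => by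
    rcases A.q z hz u with e | e <;> rw [e]
    · rw [A.self]; exact one_mem _
    · exact r2
  have main : ∀ w, f w = f u → π a' w = w → ∃ δ, Γ.Adj c δ ∧ R u w • δ ≠ δ ∧ ∃ t ∈ ZZ G Γ 2 a,
      (∀ z ∈ ρ δ c, t * z = z * t → z ∈ ρ c₁ c) ∧ (∀ z ∈ ρ c δ, t * z = z * t → z ∈ ρ c c₁) ∧
      ∃ z ∈ ρ c c₁, z ∈ ZZ G Γ 2 a ∧ z ∉ ρ c δ := fun w hw w1 => by
    have m := A.rt.mem u w
    obtain ⟨v, v1, v2, v3⟩ := C.weight e2 (z1 m) (fun k => A.gd u u2 _ _ rfl (A.ft u) u2.symm (by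
      rw [← r1 w hw w1, ← ha'.2.2.2 _ (hE _ _ e2.symm ⟨Op_le _ (z1 m), k⟩)]; group))
      fun z hz => A.comm_mem e1 (z2 hz) hw
    obtain ⟨s, hs, s1, -⟩ := C.pick_fix v3 [] (by simp)
    obtain ⟨δ, d1, d2, d3, d4, d5⟩ := S.change hρ hA e2 C hr (z1 m) v1 v2 hs s1
    refine ⟨δ, d1, d2, _, m, d3, d4, _, (hr _).2 ⟨v, v2, rfl⟩, ?_, d5⟩
    have := cz' a _ (fa _ (C.rt.mem v s)) _ m
    rwa [C.comm e2 (z1 m) hs, v1, s1, C.self, mul_one] at this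
  have fin : ∀ w δ, f w = f u → Γ.Adj c δ → R u w • δ ≠ δ → ZZ G Γ 2 δ ≤ Op 2 (KK G Γ a₁) →
      (∀ z ∈ ZZ G Γ 2 δ, R w (π z w) ∈ ZZ G Γ 2 δ ⊔ ZZ G Γ 2 c) → False := fun w δ hw d1 d2 d3 d4 =>
    S.sup_ne hZ d1.symm (fc _ (A.rt.mem u w)) d2 (ZZ_inv (A.rt.mem u w)) fun z hz => by
      rw [A.comm' e1 (d3 hz) hw]
      exact mul_mem (mem_sup_right (r3 z (d3 hz))) (d4 z hz)
  have fin' : ∀ w δ, f w = f u → Γ.Adj c δ → R u w • δ ≠ δ → ZZ G Γ 2 δ ≤ Op 2 (KK G Γ a₁) →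
      R w (τ w) ∉ ZZ G Γ 2 δ ⊔ ZZ G Γ 2 c := fun w δ hw d1 d2 d3 d4 =>
    fin w δ hw d1 d2 d3 fun z hz => by
      rcases A.q z (d3 hz) w with e | e <;> rw [e]
      · rw [A.self]; exact one_mem _
      · exact d4
  by_cases h1 : ∃ w, f w = f u ∧ π a' w = w ∧ R w (τ w) ∈ ZZ G Γ 2 c
  · obtain ⟨w, hw, w1, w2⟩ := h1
    obtain ⟨δ, d1, d2, d3⟩ := main w hw w1
    exact ⟨δ, d1, fun k => fin' w δ hw d1 d2 (z3 δ d1 k) (mem_sup_right w2), d3⟩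
  push Not at h1
  obtain ⟨w, hw, w1, -⟩ := A.pick_fix u3 [] (by simp)
  obtain ⟨δ, d1, d2, d3⟩ := main w hw w1
  refine ⟨δ, d1, fun k => ?_, d3⟩
  have d4 := z3 δ d1 k
  have k1 : ∀ w, f w = f u → π a' w = w → ∀ z ∈ ZZ G Γ 2 c, π z w = w := fun w hw w1 z hz => by
    refine (A.q z (z2 hz) w).resolve_right fun e => h1 w hw w1 ?_
    have := cz c _ (fc _ (A.rt.mem u w)) z hz
    rw [A.comm' e1 (z2 hz) hw, e] at this
    simpa using mul_mem (inv_mem (r3 z (z2 hz))) this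
  have k2 : ∀ w w', f w = f u → π a' w = w → f w' = f u → π a' w' = w' → R w w' ∈ KK G Γ c :=
    fun w w' hw w1 hw' w1' => S.cent_le hZ e2.symm (fc _ (A.rt.mem _ _)) fun z hz => by
      have := A.comm' e1 (z2 hz) (hw'.trans hw.symm)
      rwa [k1 w hw w1 z hz, k1 w' hw' w1' z hz, A.self, A.self, mul_one, mul_inv_eq_one,
        mul_inv_eq_iff_eq_mul] at this
  have k3 : ∀ v, f v = f u → π a' v = v → R u v • δ ≠ δ := fun v hv v1 => by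
    rwa [← A.rt.coc u w v hw hv, mul_smul, (k2 w v hw w1 hv v1).2 δ d1]
  obtain ⟨π'', R'', τ'', D, -⟩ := hA δ c d1.symm
  have k4 : ∀ v v', f v = f u → π a' v = v → f v' = f u → π a' v' = v' → v' ≠ v → v' ≠ τ v →
      ∃ s, τ'' s ≠ s ∧ R'' s (τ'' s) = R v (τ v) * R v' (τ v') := fun v v' hv v1 hv' v1' n1 n2 => by
    have m := k2 v v' hv v1 hv' v1'
    have m' := hE _ _ e2.symm ⟨Op_le _ (z1 (A.rt.mem v v')), m⟩
    have f1 := hv'.trans hv.symm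
    have k5 : ∀ z ∈ ZZ G Γ 2 δ, π z v = v ∧ π z v' = v' ∨ π z v = τ v ∧ π z v' = τ v' := fun z hz => by
      have := cz δ _ (m.2 δ d1) z hz
      rw [A.comm' e1 (d4 hz) f1] at this
      rcases A.q z (d4 hz) v with e | e <;> rcases A.q z (d4 hz) v' with e' | e' <;> rw [e, e'] at this
      · exact Or.inl ⟨e, e'⟩
      · exact absurd (mem_sup_left (by simpa [A.self] using this)) (fin' v' δ hv' d1 (k3 v' hv' v1') d4)
      · exact absurd (mem_sup_left (by simpa [A.self] using this)) (fin' v δ hv d1 (k3 v hv v1) d4)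
      · exact Or.inr ⟨e, e'⟩
    have tv : τ v ≠ v := fun e => h1 v hv v1 (by rw [e, A.self]; exact one_mem _)
    obtain ⟨s, s1, s2, s3⟩ := D.weight d1.symm m' (fun k => fin v δ hv d1 (k3 v hv v1) d4 fun z hz => by
      rcases k5 z hz with e | e
      · rw [e.1, A.self]; exact one_mem _
      · have := A.comm' e1 (d4 hz) f1
        rw [hz.2.2.2 _ (hE _ _ d1 ⟨m, k⟩), e.1, e.2] at this
        exact absurd (by rw [← ZZ_inv (A.rt.mem v' _), ← mul_eq_one_iff_eq_inv, ← this]; group)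
          (A.sl_ne tv n1 n2)) fun z hz => A.comm_mem e1 (d4 hz) f1
    obtain ⟨s', hs', s4, -⟩ := D.pick_fix s3 [] (by simp)
    have k6 := D.comm d1.symm m' hs'
    rw [s1, s4, D.self, mul_one, A.comm' e1 (d4 (D.rt.mem _ _)) f1] at k6
    refine ⟨s, s2, ?_⟩
    rcases k5 _ (D.rt.mem s s') with e | e <;> rw [e.1, e.2] at k6
    · exact absurd (by simpa [A.self] using k6.symm) (D.gd s s2 _ _ rfl (D.ft s) s2.symm)
    · exact k6.symm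
  obtain ⟨v, hv, v1, v2⟩ := A.pick_fix u3 [w, τ w] (by simp)
  obtain ⟨v', hv', v1', v2'⟩ := A.pick_fix u3 [w, τ w, v, τ v] (by simp)
  simp only [List.mem_cons, List.not_mem_nil, or_false, not_or] at v2 v2'
  obtain ⟨s1, h2, h3⟩ := k4 w v hw w1 hv v1 v2.1 v2.2
  obtain ⟨s2, h4, h5⟩ := k4 v v' hv v1 hv' v1' v2'.2.2.1 v2'.2.2.2
  obtain ⟨s3, h6, h7⟩ := k4 w v' hw w1 hv' v1' v2'.1 v2'.2.1
  exact D.sl3 h2 h4 h6 (by
    rw [h3, h5, h7, mul_assoc, ← mul_assoc (R v _), ZZ_sq (A.rt.mem _ _), one_mul])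

end Setup

end Pool.Agent.Lib.MP_03ba20_al
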