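import Pool.Agent.Lib.MP_03ba20_al.AltLoc

namespace Pool.Agent.Lib.MP_03ba20_al

open Equiv Equiv.Perm

variable {M V Ω ι : Type*} [Group M] [AddCommGroup V] [DistribMulAction M V]
  [Fintype Ω] [DecidableEq Ω] [DecidableEq ι]

/-- canonical lift of a three-cycle. -/
structure Can (π : M →* Perm Ω) (f : Ω → ι) (E : Subgroup M) (u v w : Ω) (g : M) : Prop where
  uv : u ≠ v
  uw : u ≠ w
  vw : v ≠ w
  fv : f v = f u
  fw : f w = f u
  ge : GE π f E u
  mem : g ∈ E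
  eq : π g = cyc u v w
  inv : ∃ t ∈ E, π t ∈ alt (Fb f u) ∧ t * g * t⁻¹ = g⁻¹

/-- the subgroup generated by the canonical lifts. -/
def HH (π : M →* Perm Ω) (f : Ω → ι) (E : Subgroup M) (Δ : Finset Ω) : Subgroup M :=
  Subgroup.closure {g | ∃ u ∈ Δ, ∃ v ∈ Δ, ∃ w ∈ Δ, Can π f E u v w g}

variable {π : M →* Perm Ω} {f : Ω → ι} {E A : Subgroup M} {u v w : Ω} {g : M} {Δ Δ' : Finset Ω}

theorem GE.of_eq (h : GE π f E u) (e : f v = f u) : GE π f E v := by
  unfold GE at *; rwa [Fb_eq e]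

theorem Can.inv' (h : Can π f E u v w g) : Can π f E u w v g⁻¹ :=
  ⟨h.uw, h.uv, h.vw.symm, h.fw, h.fv, h.ge, inv_mem h.mem, by rw [map_inv, h.eq, cyc_inv'],
    h.inv.imp fun t ht => ⟨ht.1, ht.2.1, by rw [← congrArg Inv.inv ht.2.2]; group⟩⟩

theorem Can.rot (h : Can π f E u v w g) : Can π f E v w u g :=
  ⟨h.vw, h.uv.symm, h.uw.symm, h.fw.trans h.fv.symm, h.fv.symm, h.ge.of_eq h.fv, h.mem,
    by rw [h.eq, cyc_rot h.uv h.uw h.vw], by rw [Fb_eq h.fv]; exact h.inv⟩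

theorem Can.memH (h : Can π f E u v w g) (hu : u ∈ Δ) (hv : v ∈ Δ) (hw : w ∈ Δ) : g ∈ HH π f E Δ :=
  Subgroup.subset_closure ⟨u, hu, v, hv, w, hw, h⟩

theorem Can.memF (h : Can π f E u v w g) : g ∈ HH π f E (Fb f u) :=
  h.memH (mem_Fb.2 rfl) (mem_Fb.2 h.fv) (mem_Fb.2 h.fw)

theorem HH_mono (h : Δ ⊆ Δ') : HH π f E Δ ≤ HH π f E Δ' :=
  Subgroup.closure_mono fun _ ⟨u, hu, v, hv, w, hw, c⟩ => ⟨u, h hu, v, h hv, w, h hw, c⟩

theorem HH_alt (h : g ∈ HH π f E Δ) : π g ∈ alt Δ := by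
  refine ((Subgroup.closure_le ((alt Δ).comap π)).2 ?_) h
  rintro _ ⟨u, hu, v, hv, w, hw, c⟩
  exact Subgroup.mem_comap.2 (c.eq ▸ cyc_mem c.uv c.uw hu hv hw)

namespace Loc

variable (L : Loc V 2 π f E A)
include L

theorem can_conj (h : Can π f E u v w g) (x : M) :
    Can π f E (π x u) (π x v) (π x w) (x * g * x⁻¹) := by
  have k : ∀ y ∈ Fb f u, π x y ∈ Fb f (π x u) := fun y hy => mem_Fb.2 (L.fib x _ _ (mem_Fb.1 hy))
  obtain ⟨t, ht, t1, t2⟩ := h.inv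
  refine ⟨(π x).injective.ne h.uv, (π x).injective.ne h.uw, (π x).injective.ne h.vw,
    L.fib x _ _ h.fv, L.fib x _ _ h.fw, L.ge_of (L.nrm.conj_mem g h.mem x) ?_,
    L.nrm.conj_mem g h.mem x, by rw [map_mul, map_mul, map_inv, h.eq, cyc_conj], x * t * x⁻¹,
    L.nrm.conj_mem t ht x, by simpa using alt_conj t1 k, ?_⟩
  · simpa [h.eq, cyc_fst h.uv h.vw] using h.uv.symm
  · calc _ = x * (t * g * t⁻¹) * x⁻¹ := by group
      _ = _ := by rw [t2]; group

theorem can_comm (h1 : u ≠ v) (h2 : u ≠ w) (h3 : v ≠ w) (fv : f v = f u) (fw : f w = f u)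
    (hu : GE π f E u) (hg : g ∈ E) (e : π g = cyc u v w) {s : M} (hs : s ∈ E)
    (s1 : π s ∈ alt (Fb f u)) (s2 : π s * π g = π g * π s) : s * g = g * s := by
  have m : π g ∈ alt (Fb f u) := e ▸ cyc_mem h1 h2 (mem_Fb.2 rfl) (mem_Fb.2 fv) (mem_Fb.2 fw)
  have key : ∀ s ∈ E, π s ∈ alt (Fb f u) → π s * π g = π g * π s → π s u = u → s * g = g * s :=
    fun s hs s1 s2 s3 => by
      have k : ∀ x, π s (π g x) = π g (π s x) := fun x => by rw [← mul_apply, s2, mul_apply]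
      have s4 : π s v = v := by have := k u; rwa [s3, e, cyc_fst h1 h3] at this
      have s5 : π s w = w := by have := k v; rwa [s4, e, cyc_snd] at this
      have := L.big u
      have := Finset.le_card_sdiff {u, v, w} (Fb f u)
      have : ({u, v, w} : Finset Ω).card ≤ 3 := Finset.card_le_three
      refine (L.comm_lift hu (Δ := Fb f u \ {u, v, w}) Finset.sdiff_subset (by omega) hg
        (fun x hx => ?_) hs ⟨fun x hx => ?_, s1.2⟩).symm
      · simp only [Finset.mem_sdiff, Finset.mem_insert, Finset.mem_singleton, not_or] at hx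
        rw [e, cyc_other] <;> tauto
      · have := s1.1 x
        grind
  have k : π s u = u ∨ π s u = v ∨ π s u = w := by
    by_contra hc
    push Not at hc
    have : π s (π g u) = π g (π s u) := by rw [← mul_apply, s2, mul_apply]
    rw [e, cyc_fst h1 h3, cyc_other hc.1 hc.2.1 hc.2.2] at this
    exact h1 ((π s).injective this).symm
  rcases k with k | k | k
  · exact key s hs s1 s2 k
  · have := key (g⁻¹ * s) (mul_mem (inv_mem hg) hs) (by simpa using mul_mem (inv_mem m) s1)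
      (by simp [mul_assoc, s2]) (by simp [k, e, Equiv.symm_apply_eq, cyc_fst h1 h3])
    calc s * g = g * (g⁻¹ * s * g) := by group
      _ = _ := by rw [this]; group
  · have := key (g * s) (mul_mem hg hs) (by simpa using mul_mem m s1)
      (by simp [mul_assoc, s2]) (by simp [k, e, cyc_thd h2 h3])
    rwa [mul_assoc, mul_left_cancel_iff] at this

theorem can_inv (h : Can π f E u v w g) {t : M} (ht : t ∈ E) (t1 : π t ∈ alt (Fb f u))
    (t2 : π t * π g * (π t)⁻¹ = (π g)⁻¹) : t * g * t⁻¹ = g⁻¹ := by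
  obtain ⟨s, hs, s1, s2⟩ := h.inv
  have s3 := congrArg π s2
  simp only [map_mul, map_inv] at s3
  have := L.can_comm h.uv h.uw h.vw h.fv h.fw h.ge h.mem h.eq (mul_mem (inv_mem hs) ht)
    (by simpa using mul_mem (inv_mem s1) t1) (by
      simp only [map_mul, map_inv]
      calc _ = (π s)⁻¹ * (π t * π g * (π t)⁻¹) * π t := by group
        _ = _ := by rw [t2, ← s3]; group)
  calc _ = s * (s⁻¹ * t * g) * t⁻¹ := by group
    _ = _ := by rw [this, ← s2]; group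

theorem eq_of_inv {g g' t : M} (hg : g ∈ E) (hg' : g' ∈ E) (e : π g = π g') (ht : t ∈ E)
    (h1 : t * g * t⁻¹ = g⁻¹) (h2 : t * g' * t⁻¹ = g'⁻¹) : g = g' := by
  obtain ⟨z, hz, z1, rfl, z2⟩ := L.exists_z hg hg' e
  have : z * z = 1 := by
    calc z * z = (g * z) * (g⁻¹ * z) := by rw [z2 g hg]; group
      _ = (g * z) * (t * g * (t⁻¹ * z)) := by rw [← h1]; group
      _ = (g * z) * (t * (g * z) * t⁻¹) := by rw [z2 _ (inv_mem ht)]; group
      _ = 1 := by rw [h2, mul_inv_cancel]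
  rw [L.odd rfl z hz z1 this, mul_one]

theorem can_uniq {g' : M} (h : Can π f E u v w g) (h' : Can π f E u v w g') : g = g' := by
  obtain ⟨t, ht, t1, t2⟩ := h.inv
  refine L.eq_of_inv h.mem h'.mem (h.eq.trans h'.eq.symm) ht t2 (L.can_inv h' ht t1 ?_)
  simpa [h.eq, h'.eq] using congrArg π t2

theorem can_exists (hu : GE π f E u) (h1 : u ≠ v) (h2 : u ≠ w) (h3 : v ≠ w) (fv : f v = f u)
    (fw : f w = f u) : ∃ g, Can π f E u v w g := by
  obtain ⟨l, hl, l1⟩ := L.pickF u [u, v, w] (by simp)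
  obtain ⟨m, hm, m1⟩ := L.pickF u [u, v, w, l] (by simp)
  simp only [List.mem_cons, List.not_mem_nil, or_false, not_or] at l1 m1
  have k : swap u v * swap l m ∈ alt (Fb f u) := swaps_mem h1 (by tauto) (mem_Fb.2 rfl)
    (mem_Fb.2 fv) (mem_Fb.2 hl) (mem_Fb.2 hm)
  obtain ⟨t, ht, et⟩ := hu _ k
  obtain ⟨c, hc, ec⟩ := hu _ (cyc_mem h1 h2 (mem_Fb.2 rfl) (mem_Fb.2 fv) (mem_Fb.2 fw))
  have := L.cen (t * t) (mul_mem ht ht) (by
    rw [map_mul, et]; ext x; simp only [mul_apply, swap_apply_def, one_apply]; grind)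
  refine ⟨t * c * t⁻¹ * c⁻¹, h1, h2, h3, fv, fw, hu, mul_mem (L.nrm.conj_mem c hc t) (inv_mem hc),
    ?_, t, ht, et ▸ k, ?_⟩
  · simp only [map_mul, map_inv, et, ec, cyc_conj, cyc_inv']
    ext x; simp only [mul_apply, cyc_apply, swap_apply_def]; grind
  · calc _ = (t * t * c) * t⁻¹ * c⁻¹ * t⁻¹ := by group
      _ = _ := by rw [← this c hc]; group

theorem can_cube (h : Can π f E u v w g) : g * g = g⁻¹ := by
  obtain ⟨t, ht, -, t2⟩ := h.inv
  refine L.eq_of_inv (mul_mem h.mem h.mem) (inv_mem h.mem) (by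
    rw [map_mul, map_inv, h.eq, cyc_sq h.uv h.uw h.vw, cyc_inv']) ht ?_ ?_
  · calc _ = (t * g * t⁻¹) * (t * g * t⁻¹) := by group
      _ = _ := by rw [t2]; group
  · rw [← congrArg Inv.inv t2]; group

theorem can_rel {p a b e : Ω} {x y z : M} (hx : Can π f E p a b x) (hy : Can π f E p b e y)
    (hz : Can π f E b e a z) : x * y = z := by
  have h1 := hx.uv; have h2 := hx.uw; have h3 := hx.vw; have h4 := hy.uw; have h5 := hy.vw
  have h6 := hz.vw
  obtain ⟨l, hl, l1⟩ := L.pickF p [p, a, b, e] (by simp)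
  obtain ⟨m, hm, m1⟩ := L.pickF p [p, a, b, e, l] (by simp)
  simp only [List.mem_cons, List.not_mem_nil, or_false, not_or] at l1 m1
  have k : swap a e * swap l m ∈ alt (Fb f p) := swaps_mem h6.symm (by tauto) (mem_Fb.2 hx.fv)
    (mem_Fb.2 hy.fw) (mem_Fb.2 hl) (mem_Fb.2 hm)
  obtain ⟨t, ht, et⟩ := hx.ge _ k
  have t1 : π t p = p ∧ π t a = e ∧ π t b = b ∧ π t e = a := by
    simp only [et, mul_apply, swap_apply_def]; grind
  have e1 := L.can_conj hx t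
  have e2 := L.can_conj hy t
  have e3 := L.can_conj hz t
  simp only [t1] at e1 e2 e3
  refine L.eq_of_inv (mul_mem hx.mem hy.mem) hz.mem ?_ ht ?_ (L.can_uniq e3 hz.inv')
  · rw [map_mul, hx.eq, hy.eq, hz.eq]
    ext x; simp only [mul_apply, cyc_apply, swap_apply_def]; grind
  · rw [mul_inv_rev, ← L.can_uniq e1 hy.inv', ← L.can_uniq e2 hx.inv']; group

theorem HH_conj (x : M) (h : g ∈ HH π f E Δ) (hx : ∀ y ∈ Δ, π x y ∈ Δ') :
    x * g * x⁻¹ ∈ HH π f E Δ' := by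
  induction h using Subgroup.closure_induction with
  | mem g hg =>
    obtain ⟨u, hu, v, hv, w, hw, c⟩ := hg
    exact (L.can_conj c x).memH (hx u hu) (hx v hv) (hx w hw)
  | one => simp
  | mul x y _ _ h1 h2 => simpa [mul_assoc] using mul_mem h1 h2
  | inv x _ h1 => simpa [mul_assoc] using inv_mem h1

theorem HH_ker (u : Ω) (Δ : Finset Ω) : Δ ⊆ Fb f u → ∀ g ∈ HH π f E Δ, π g = 1 → g = 1 := by
  induction Δ using Finset.induction_on with
  | empty => intro _ g hg _; simpa [HH] using hg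
  | insert p Δ hp ih =>
    intro hΔ g hg h1
    let S : M → Prop := fun g => g ∈ HH π f E Δ ∨ ∃ i ∈ Δ, ∃ j ∈ Δ, ∃ y, Can π f E p i j y ∧
      ∃ h ∈ HH π f E Δ, g = y * h
    have sa : ∀ x ∈ HH π f E Δ, ∀ g, S g → S (x * g) := by
      rintro x hx g (hg | ⟨i, hi, j, hj, y, hy, h, hh, rfl⟩)
      · exact Or.inl (mul_mem hx hg)
      · have := L.can_conj hy x
        rw [(HH_alt hx).1 p hp] at this
        exact Or.inr ⟨_, alt_mem (HH_alt hx) hi, _, alt_mem (HH_alt hx) hj, _, this, x * h,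
          mul_mem hx hh, by group⟩
    have co : ∀ k ∈ Δ, ∀ l ∈ Δ, ∀ e ∈ Δ, ∀ y y', Can π f E p k l y → Can π f E p k e y' →
        ∃ h ∈ HH π f E Δ, y = y' * h := fun k hk l hl e he y y' hy hy' => by
      by_cases h : l = e
      · subst h; exact ⟨1, one_mem _, by rw [L.can_uniq hy hy', mul_one]⟩
      obtain ⟨z, hz⟩ := L.can_exists (hy.ge.of_eq hy.fv) hy.vw hy'.vw h (hy.fw.trans hy.fv.symm)
        (hy'.fw.trans hy.fv.symm)
      exact ⟨z, hz.memH hk hl he, by rw [← L.can_rel hy'.inv' hy hz]; group⟩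
    have sb : ∀ i ∈ Δ, ∀ j ∈ Δ, ∀ x, Can π f E p i j x → ∀ g, S g → S (x * g) := by
      rintro i hi j hj x hx g (hg | ⟨k, hk, l, hl, y, hy, h, hh, rfl⟩)
      · exact Or.inr ⟨i, hi, j, hj, x, hx, g, hg, rfl⟩
      by_cases h2 : k = j
      · subst h2
        obtain ⟨h', hh', rfl⟩ := co k hk l hl i hi y _ hy hx.inv'
        exact Or.inl (by simpa [mul_assoc] using mul_mem hh' hh)
      by_cases h3 : k = i
      · subst h3
        obtain ⟨h', hh', rfl⟩ := co k hk l hl j hj y _ hy hx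
        exact Or.inr ⟨j, hj, k, hk, _, hx.inv', h' * h, mul_mem hh' hh, by
          rw [← L.can_cube hx]; group⟩
      obtain ⟨y', hy'⟩ := L.can_exists hx.ge hy.uv hx.uv h3 hy.fv hx.fv
      obtain ⟨h', hh', rfl⟩ := co k hk l hl i hi y _ hy hy'
      have := L.can_conj hy' x
      rw [hx.eq, cyc_fst hx.uv hx.vw, cyc_snd, cyc_other hy.uv.symm h3 h2] at this
      rw [show x * (y' * h' * h) = (x * y' * x⁻¹) * (x * (h' * h)) by group]
      exact sa _ (this.memH hi hk hj) _ (Or.inr ⟨i, hi, j, hj, x, hx, _, mul_mem hh' hh, rfl⟩)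
    have sc : ∀ a ∈ insert p Δ, ∀ b ∈ insert p Δ, ∀ c ∈ insert p Δ, ∀ x, Can π f E a b c x →
        ∀ g, S g → S (x * g) := fun a ha b hb c hc x hx => by
      have := hx.uv; have := hx.uw; have := hx.vw
      rw [Finset.mem_insert] at ha hb hc
      rcases ha with rfl | ha
      · exact sb b (by tauto) c (by tauto) x hx
      rcases hb with rfl | hb
      · exact sb c (by tauto) a ha x hx.rot
      rcases hc with rfl | hc
      · exact sb a ha b hb x hx.rot.rot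
      exact sa x (hx.memH ha hb hc)
    have : S g := by
      clear h1
      induction hg using Subgroup.closure_induction_left with
      | one => exact Or.inl (one_mem _)
      | mul_left x hx y _ ih =>
        obtain ⟨a, ha, b, hb, c, hc, hx⟩ := hx
        exact sc a ha b hb c hc x hx y ih
      | inv_mul_cancel x hx y _ ih =>
        obtain ⟨a, ha, b, hb, c, hc, hx⟩ := hx
        exact sc a ha c hc b hb _ hx.inv' y ih
    rcases this with h | ⟨i, hi, j, hj, y, hy, h, hh, rfl⟩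
    · exact ih ((Finset.subset_insert _ _).trans hΔ) g h h1
    · have : π (y * h) p = p := by rw [h1, one_apply]
      rw [map_mul, mul_apply, (HH_alt hh).1 p hp, hy.eq, cyc_fst hy.uv hy.vw] at this
      exact absurd this.symm hy.uv

theorem HH_inj {g' : M} (h : g ∈ HH π f E (Fb f u)) (h' : g' ∈ HH π f E (Fb f u)) (e : π g = π g') :
    g = g' :=
  inv_mul_eq_one.1 (L.HH_ker u _ subset_rfl _ (mul_mem (inv_mem h) h') (by simp [e]))

theorem HH_surj (hu : GE π f E u) (hΔ : Δ ⊆ Fb f u) (h5 : 5 ≤ Δ.card) {σ : Perm Ω} (hσ : σ ∈ alt Δ) :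
    ∃ g ∈ HH π f E Δ, π g = σ :=
  alt_le_of_cyc (N := (HH π f E Δ).map π) h5 (fun a ha b hb c hc h1 h2 h3 => by
    have fa := mem_Fb.1 (hΔ ha)
    obtain ⟨g, hg⟩ := L.can_exists (hu.of_eq fa) h1 h2 h3 ((mem_Fb.1 (hΔ hb)).trans fa.symm)
      ((mem_Fb.1 (hΔ hc)).trans fa.symm)
    exact ⟨g, hg.memH ha hb hc, hg.eq⟩) hσ

theorem HH_conjF (x : M) (h : g ∈ HH π f E (Fb f u)) (hx : f (π x u) = f u) :
    x * g * x⁻¹ ∈ HH π f E (Fb f u) :=
  L.HH_conj x h fun _ hy => mem_Fb.2 ((L.fib x _ _ (mem_Fb.1 hy)).trans hx)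

theorem HH_comm (hΔ : Δ ⊆ Fb f u) (h : g ∈ HH π f E Δ) {x : M} (hx : ∀ y ∈ Δ, π x y = y) :
    x * g = g * x :=
  mul_inv_eq_iff_eq_mul.1 (L.HH_inj (HH_mono hΔ (L.HH_conj x h fun y hy => by rwa [hx y hy]))
    (HH_mono hΔ h) (by simp [alt_comm (HH_alt h) hx]))

theorem HH_le (hu : GE π f E u) (hΔ : Δ ⊆ Fb f u) (h8 : 8 ≤ Δ.card) {T : Subgroup M}
    (hT : ∀ g ∈ HH π f E Δ, ∀ t ∈ T, g * t * g⁻¹ ∈ T) {a : M} (ha : a ∈ T) (hv : v ∈ Δ)
    (h1 : π a v ≠ v) : HH π f E Δ ≤ T := by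
  obtain ⟨c₀, hc₀, c₁, hc₁, s, hs, s1, s2, s3⟩ := exists_comm h8 hv h1
  obtain ⟨c, hc, rfl⟩ := L.HH_surj hu hΔ (by omega) hc₀
  obtain ⟨c', hc', rfl⟩ := L.HH_surj hu hΔ (by omega) hc₁
  have k : c * a * c⁻¹ * a⁻¹ ∈ T := mul_mem (hT c hc a ha) (inv_mem ha)
  have k1 : π (c * a * c⁻¹ * a⁻¹) = π c * π a * (π c)⁻¹ * (π a)⁻¹ := by simp
  rw [← k1] at s1 s2 s3
  set d := c * a * c⁻¹ * a⁻¹
  have fs := mem_Fb.1 (hΔ hs)
  have k2 : d * c' * d⁻¹ ∈ HH π f E (Fb f u) := L.HH_conjF d (HH_mono hΔ hc') (by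
    rw [L.fib d _ _ fs.symm, s1, fs])
  intro g hg
  obtain ⟨g', hg', e⟩ := alt_le_of_normal (N := (T ⊓ HH π f E (Fb f u)).map π) (by omega) (by
    rintro σ hσ _ ⟨t, ht, rfl⟩
    obtain ⟨s, hs, rfl⟩ := L.HH_surj hu hΔ (by omega) hσ
    exact ⟨s * t * s⁻¹, ⟨hT s hs t ht.1, (HH π f E _).mul_mem ((HH π f E _).mul_mem (HH_mono hΔ hs) ht.2)
      ((HH π f E _).inv_mem (HH_mono hΔ hs))⟩, by simp⟩) (g := π d * π c' * (π d)⁻¹ * (π c')⁻¹)
    ⟨d * c' * d⁻¹ * c'⁻¹, ⟨by simpa [mul_assoc] using T.mul_mem k (hT c' hc' _ (T.inv_mem k)),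
      (HH π f E _).mul_mem k2 ((HH π f E _).inv_mem (HH_mono hΔ hc'))⟩, by simp⟩
    (mul_mem s2 (inv_mem (HH_alt hc'))) (by rwa [Ne, mul_inv_eq_one]) (HH_alt hg)
  exact L.HH_inj hg'.2 (HH_mono hΔ hg) e ▸ hg'.1

end Loc

end Pool.Agent.Lib.MP_03ba20_al
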