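import Pool.Agent.Lib.MP_03ba20_al.AltArc

namespace Pool.Agent.Lib.MP_03ba20_al

open Equiv Equiv.Perm Subgroup MulAction

variable {G V Ω ι : Type*} [Group G] [MulAction G V] {Γ : SimpleGraph V}
variable [Fintype Ω] [DecidableEq Ω] [DecidableEq ι]

variable (Γ) in
/-- the structure of an arc: the stabiliser centralises an involution `τ` and `Q_y` acts inside
the group generated by the transpositions of `τ`. -/
structure ArcS (x y : V) (π : G → Perm Ω) (f : Ω → ι) (R : Ω → Ω → G) (τ : Perm Ω) : Prop where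
  loc : LocAlt Γ x π f
  rt : Rt Γ 2 x π f R
  inv : ∀ u, τ (τ u) = u
  ft : ∀ u, f (τ u) = f u
  cm : ∀ g : G, g • x = x → g • y = y → ∀ u, π g (τ u) = τ (π g u)
  q : ∀ q ∈ Op 2 (KK G Γ y), ∀ u, π q u = u ∨ π q u = τ u
  gd : ∀ u, τ u ≠ u → Gd' f R u
  sw : ∀ u, τ u ≠ u → ∀ w, f w = f u → w ≠ u → w ≠ τ u →
    ∃ q ∈ Op 2 (KK G Γ y), π q u = τ u ∧ π q w = w

variable {x y : V} {π : G → Perm Ω} {f : Ω → ι} {R : Ω → Ω → G}

omit [Fintype Ω] [DecidableEq Ω] in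
theorem three_fix {σ : Perm Ω} {k : ℕ} (h : σ ^ 2 ^ k = 1) {u : Ω} (h3 : σ (σ (σ u)) = u) : σ u = u := by
  have h1 : period σ u ∣ 3 := pow_smul_eq_iff_period_dvd.1 (by simpa [pow_succ] using h3)
  have h2 : period σ u ∣ 2 ^ k := pow_smul_eq_iff_period_dvd.1 (by rw [h, one_smul])
  have := Nat.dvd_gcd h1 h2
  rw [Nat.Coprime.pow_right k (by norm_num : Nat.Coprime 3 2), Nat.dvd_one] at this
  exact period_eq_one_iff.1 this

/-- a three-cycle on the orbits of `τ`. -/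
def dc (τ : Perm Ω) (u v w : Ω) : Perm Ω := cyc u v w * cyc (τ u) (τ v) (τ w)

omit [Fintype Ω] in
theorem dc_conj {τ g : Perm Ω} (h : ∀ u, g (τ u) = τ (g u)) (u v w : Ω) :
    g * dc τ u v w * g⁻¹ = dc τ (g u) (g v) (g w) := by
  simp only [dc, ← h, ← cyc_conj]; group

omit [Fintype Ω] in
theorem dc_comm {τ : Perm Ω} (h : ∀ u, τ (τ u) = u) {u v w : Ω}
    (n : [u, v, w, τ u, τ v, τ w].Nodup) (s : Ω) : dc τ u v w (τ s) = τ (dc τ u v w s) := by
  simp only [List.nodup_cons, List.mem_cons, List.not_mem_nil, or_false, not_or] at n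
  have e := dc_conj (g := τ) (τ := τ) (fun _ => rfl) u v w
  have e' : dc τ (τ u) (τ v) (τ w) = dc τ u v w := by
    simp only [dc, h]
    generalize τ u = u' at *
    generalize τ v = v' at *
    generalize τ w = w' at *
    ext s; simp only [mul_apply, cyc_apply, swap_apply_def]; grind
  rw [← mul_apply, ← mul_apply, ← mul_inv_eq_iff_eq_mul.1 (e.trans e')]

omit [Fintype Ω] in
theorem dc_calc {τ q : Perm Ω} (h : ∀ u, τ (τ u) = u) (hq : ∀ u, q (τ u) = τ (q u)) {u v w s t : Ω}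
    (n1 : [u, v, w, s, t, τ u, τ v, τ w, τ s, τ t].Nodup)
    (n2 : ∀ z ∈ [u, s, t], z ∉ [q u, q v, q w, τ (q u), τ (q v), τ (q w)]) {g e : Perm Ω}
    (hg : g = dc τ u v w * q * (dc τ u v w)⁻¹ * q⁻¹)
    (he : e = g * dc τ u s t * g⁻¹ * (dc τ u s t)⁻¹) : e (e (e u)) = u ∧ e u ≠ u := by
  simp only [List.nodup_cons, List.mem_cons, List.not_mem_nil, or_false, not_or, forall_eq_or_imp,
    forall_eq] at n1 n2
  have n3 : [u, v, w, τ u, τ v, τ w].Nodup := by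
    simp only [List.nodup_cons, List.mem_cons, List.not_mem_nil, or_false, not_or]; tauto
  have e1 : g = dc τ u v w * (dc τ (q u) (q v) (q w))⁻¹ := by rw [← dc_conj hq, hg]; group
  have e2 : ∀ z, g (τ z) = τ (g z) := fun z => by
    have k1 : ∀ σ : Perm Ω, (∀ z, σ (τ z) = τ (σ z)) → ∀ z, σ⁻¹ (τ z) = τ (σ⁻¹ z) := fun σ k z => by
      rw [Perm.inv_eq_iff_eq, k]; simp
    simp only [hg, mul_apply, k1 q hq, k1 _ (dc_comm h n3), hq, dc_comm h n3]
  have e3 : ∀ z, z ≠ q u → z ≠ q v → z ≠ q w → z ≠ τ (q u) → z ≠ τ (q v) → z ≠ τ (q w) →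
      g z = dc τ u v w z := fun z _ _ _ _ _ _ => by
    rw [e1, mul_apply, show (dc τ (q u) (q v) (q w))⁻¹ z = z by
      rw [Perm.inv_eq_iff_eq, dc, mul_apply, cyc_other (x := z), cyc_other] <;> assumption]
  have e4 : g u = v ∧ g s = s ∧ g t = t := by
    rw [e3 u, e3 s, e3 t]
    · simp only [dc, mul_apply, cyc_apply, swap_apply_def]
      clear * - n1
      grind
    all_goals tauto
  rw [dc_conj e2, e4.1, e4.2.1, e4.2.2] at he
  have e5 : e u = v ∧ e v = s ∧ e s = u := by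
    simp only [he, dc, mul_inv_rev, cyc_inv', mul_apply, cyc_apply, swap_apply_def]
    clear * - n1
    grind
  rw [e5.1, e5.2.1, e5.2.2]
  tauto

namespace Setup

variable (S : Setup G Γ)
include S

theorem exists_arc (h : Γ.Adj x y) (hL : LocAlt Γ x π f) (hR : Rt Γ 2 x π f R) {i j : Ω} (ij : i ≠ j)
    (fj : f j = f i) (gi : Gd' f R i) (h0 : ∀ w, f w = f i → w ≠ i → w ≠ j →
      ∃ q ∈ Op 2 (KK G Γ y), π q i = j ∧ π q j = i ∧ π q w = w) : ∃ τ, ArcS Γ x y π f R τ := by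
  classical
  have hQ : ∀ q ∈ Op 2 (KK G Γ y), q • x = x := fun q hq => (Op_le _ hq).2 x h.symm
  have odd : ∀ q ∈ Op 2 (KK G Γ y), ∀ u, π q (π q (π q u)) = u → π q u = u := fun q hq u e => by
    obtain ⟨k, hk⟩ := isPGroup_iff.1 (Op_pgroup _) q hq
    exact three_fix (k := k) (by rw [← hL.pow (hQ q hq), hk, hL.one]) e
  let P : Ω → Ω → Prop := fun u v => u ≠ v ∧ f v = f u ∧ Gd' f R u ∧ ∀ w, f w = f u → w ≠ u → w ≠ v →
    ∃ q ∈ Op 2 (KK G Γ y), π q u = v ∧ π q v = u ∧ π q w = w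
  have p1 : ∀ u v, P u v → P v u := fun u v ⟨h1, h2, h3, h4⟩ =>
    ⟨h1.symm, h2.symm, fun a b ha hb => h3 a b (ha.trans h2) (hb.trans h2), fun w k1 k2 k3 =>
      (h4 w (k1.trans h2) k3 k2).imp fun q hq => ⟨hq.1, hq.2.2.1, hq.2.1, hq.2.2.2⟩⟩
  have p2 : ∀ u v v', P u v → P u v' → v = v' := fun u v v' h1 h2 => by
    by_contra hc
    obtain ⟨q, hq, q1, q2, q3⟩ := h1.2.2.2 v' h2.2.1 h2.1.symm (Ne.symm hc)
    obtain ⟨q', hq', q1', q2', q3'⟩ := h2.2.2.2 v h1.2.1 h1.1.symm hc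
    have := odd _ (mul_mem hq hq') u
    simp only [hL.mul _ _ (hQ q hq) (hQ q' hq'), mul_apply, q1, q2, q3, q1', q2', q3'] at this
    exact h2.1 (this trivial).symm
  have cj : ∀ g t : G, g • x = x → t • x = x → ∀ u, π (g * t * g⁻¹) (π g u) = π g (π t u) :=
    fun g t hg ht u => by
      rw [hL.mul _ _ (by rw [mul_smul, ht, hg]) (inv_fix hg), hL.mul _ _ hg ht, hL.inv hg]; simp
  have p3 : ∀ g : G, g • x = x → g • y = y → ∀ u v, P u v → P (π g u) (π g v) :=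
    fun g g1 g2 u v ⟨h1, h2, h3, h4⟩ => by
      have k : ∀ w, f w = f (π g u) → f ((π g)⁻¹ w) = f u := fun w hw => by
        simpa [hL.inv g1] using hL.fib _ (inv_fix g1) _ _ hw
      refine ⟨(π g).injective.ne h1, hL.fib g g1 _ _ h2, fun a b ha hb e e' => ?_, fun w k1 k2 k3 => ?_⟩
      · refine h3 _ _ (k a ha) (k b hb) ((π g)⁻¹.injective.ne e) ?_
        rw [← hL.inv g1, ← hR.eqv _ (inv_fix g1), e']; simp
      · obtain ⟨q, hq, q1, q2, q3⟩ := h4 _ (k w k1) (by rwa [Ne, Perm.inv_eq_iff_eq])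
          (by rwa [Ne, Perm.inv_eq_iff_eq])
        refine ⟨_, (S.eqvQ 2).conj g2 hq, by rw [cj g q g1 (hQ q hq), q1],
          by rw [cj g q g1 (hQ q hq), q2], ?_⟩
        have := cj g q g1 (hQ q hq) ((π g)⁻¹ w)
        rw [q3] at this
        simpa using this
  let t : Ω → Ω := fun u => if h : ∃ v, P u v then h.choose else u
  have t1 : ∀ u v, P u v → t u = v := fun u v h => by
    have h' : ∃ v, P u v := ⟨v, h⟩
    simp only [t, dif_pos h']
    exact p2 u _ _ h'.choose_spec h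
  have t2 : ∀ u, t u ≠ u → P u (t u) := fun u hu => by
    by_cases h : ∃ v, P u v
    · exact h.elim fun v hv => t1 u v hv ▸ hv
    · exact absurd (dif_neg h) hu
  have t3 : Function.Involutive t := fun u => by
    by_cases h : t u = u
    · rw [h, h]
    · exact t1 _ _ (p1 _ _ (t2 u h))
  obtain ⟨τ, hτ⟩ : ∃ τ : Perm Ω, ∀ u, τ u = t u := ⟨t3.toPerm t, fun _ => rfl⟩
  simp only [← hτ] at t1 t2
  replace t3 : ∀ u, τ (τ u) = u := fun u => by rw [hτ, hτ, t3]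
  clear hτ t
  have ft : ∀ u, f (τ u) = f u := fun u => by
    by_cases h : τ u = u
    · rw [h]
    · exact (t2 u h).2.1
  have cm : ∀ g : G, g • x = x → g • y = y → ∀ u, π g (τ u) = τ (π g u) := fun g g1 g2 u => by
    by_cases h : τ u = u
    · by_contra hc
      rw [h] at hc
      have := t1 _ _ (p3 _ (inv_fix g1) (inv_fix g2) _ _ (t2 _ (Ne.symm hc)))
      rw [hL.inv g1, Perm.eq_inv_iff_eq, ← mul_apply (π g)⁻¹, inv_mul_cancel, one_apply, h] at this
      exact hc this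
    · exact (t1 _ _ (p3 g g1 g2 _ _ (t2 u h))).symm
  refine ⟨τ, hL, hR, t3, ft, cm, ?_, fun u hu => (t2 u hu).2.2.1, fun u hu w h1 h2 h3 =>
    ((t2 u hu).2.2.2 w h1 h2 h3).imp fun q hq => ⟨hq.1, hq.2.1, hq.2.2.2⟩⟩
  have nc : ∀ u w, τ u ≠ u → w ≠ u → w ≠ τ u → cyc u (τ u) w (τ u) ≠ τ (cyc u (τ u) w u) :=
    fun u w h1 h2 h3 => by rwa [cyc_snd, cyc_fst h1.symm h3.symm, t3]
  have c1 : ∀ g : G, g • x = x → (∀ u, π g (τ u) = τ (π g u)) → g • y = y := fun g g1 g2 => by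
    have ti := t1 i j ⟨ij, fj, gi, h0⟩
    obtain ⟨w, hw, w1⟩ := hL.pickF i [i, τ i] (by simp)
    simp only [List.mem_cons, List.not_mem_nil, or_false, not_or] at w1
    obtain ⟨c, c1, c2⟩ := hL.lift3 (ti ▸ ij) (Ne.symm w1.1) (ft i) hw
    exact S.max (H :=
      { carrier := {g | g • x = x ∧ ∀ u, π g (τ u) = τ (π g u)}
        one_mem' := by simp [hL.one]
        mul_mem' := fun ha hb => ⟨by rw [mul_smul, hb.1, ha.1], fun u => by
          simp [hL.mul _ _ ha.1 hb.1, ha.2, hb.2]⟩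
        inv_mem' := fun ha => ⟨inv_fix ha.1, fun u => by
          rw [hL.inv ha.1, Perm.inv_eq_iff_eq, ha.2]; simp⟩ }) h (fun g g1 g2 => ⟨g1, cm g g1 g2⟩) c1
      (fun e => nc i w (ti ▸ ij.symm) w1.1 w1.2 (c2 ▸ e.2 i)) ⟨g1, g2⟩ g1
  have fx : ∀ u, 8 ≤ ((Fb f u).filter fun s => τ s = s).card → ∀ q ∈ Op 2 (KK G Γ y),
      ∀ s, f s = f u → τ s = s → π q s = s := fun u h8 q hq s fs ts => by
    by_contra hc
    set Δ := (Fb f u).filter fun s => τ s = s
    obtain ⟨a, ha, -⟩ := pick Δ [] (by simp only [List.length_nil]; omega)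
    obtain ⟨b, hb, b1⟩ := pick Δ [a] (by simp; omega)
    obtain ⟨c, hc', c2⟩ := pick Δ [a, b] (by simp; omega)
    simp only [List.mem_cons, List.not_mem_nil, or_false, not_or] at b1 c2
    obtain ⟨d, hd, e⟩ := alt_le_of_moves (N :=
      { carrier := {σ | ∃ q ∈ Op 2 (KK G Γ y), π q = σ}
        one_mem' := ⟨1, one_mem _, hL.one⟩
        mul_mem' := by
          rintro _ _ ⟨a, ha, rfl⟩ ⟨b, hb, rfl⟩
          exact ⟨_, mul_mem ha hb, hL.mul _ _ (hQ a ha) (hQ b hb)⟩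
        inv_mem' := by
          rintro _ ⟨a, ha, rfl⟩
          exact ⟨_, inv_mem ha, hL.inv (hQ a ha)⟩ }) h8 (by
        rintro σ hσ _ ⟨d, hd, rfl⟩
        obtain ⟨g, g1, rfl⟩ := hL.lift u σ (alt_mono (Finset.filter_subset _ _) hσ)
        refine ⟨_, (S.eqvQ 2).conj (c1 g g1 fun s => ?_) hd, Equiv.ext fun s => by
          simpa using cj g d g1 (hQ d hd) ((π g)⁻¹ s)⟩
        rw [← mul_apply, ← alt_comm hσ fun s hs => (Finset.mem_filter.1 hs).2, mul_apply])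
      ⟨q, hq, rfl⟩ (Finset.mem_filter.2 ⟨mem_Fb.2 fs, ts⟩) hc
      (cyc_mem (Ne.symm b1) (Ne.symm c2.1) ha hb hc')
    have := odd d hd a
    rw [e, cyc_fst (Ne.symm b1) (Ne.symm c2.2), cyc_snd, cyc_thd (Ne.symm c2.1) (Ne.symm c2.2)] at this
    exact b1 (this rfl)
  intro q hq u
  have qc := cm q (hQ q hq) (Op_le _ hq).1
  by_cases hm : ∃ a b, f b = f a ∧ τ a ≠ a ∧ τ b = b
  · obtain ⟨a, b, fb, ta, tb⟩ := hm
    have ab : b ≠ τ a := fun e => ta (by rw [← e, ← tb, e, t3])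
    have ab' : a ≠ b := fun e => ta (e ▸ tb)
    obtain ⟨c, c2, c3⟩ := hL.lift3 ab' ta.symm fb (ft a)
    have c4 : ∀ g : G, g • x = x → (∀ u, τ (π g u) = π g u ↔ τ u = u) → g • y = y := fun g g1 g2 =>
      S.max (H :=
        { carrier := {g | g • x = x ∧ ∀ u, τ (π g u) = π g u ↔ τ u = u}
          one_mem' := by simp [hL.one]
          mul_mem' := fun ha hb => ⟨by rw [mul_smul, hb.1, ha.1], fun u => by
            simp [hL.mul _ _ ha.1 hb.1, ha.2, hb.2]⟩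
          inv_mem' := fun ha => ⟨inv_fix ha.1, fun u => by
            rw [hL.inv ha.1, ← ha.2]; simp⟩ }) h (fun g g1 g2 => ⟨g1, fun u => by
          simp [← cm g g1 g2]⟩) c2 (fun e => ta ((e.2 a).1 (by
            rw [c3, cyc_fst ab' ab, tb]))) ⟨g1, g2⟩ g1
    have one : ∀ a b, f b = f a → τ a ≠ a → τ b ≠ b → b = a ∨ b = τ a := fun a b fb ta tb => by
      by_contra hc
      push Not at hc
      obtain ⟨c, c2, c3⟩ := hL.lift3 ta.symm hc.1.symm (ft a) fb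
      refine nc a b ta hc.1 hc.2 (c3 ▸ cm c c2 (c4 c c2 fun s => ?_) a)
      have := t3 a
      rw [c3, cyc_apply]
      simp only [swap_apply_def]
      clear * - this ta tb hc
      grind
    have h8 : 8 ≤ ((Fb f u).filter fun s => τ s = s).card := by
      have k1 := hL.big u
      have k2 := Finset.card_filter_add_card_filter_not (s := Fb f u) fun s => τ s = s
      have k3 : ((Fb f u).filter fun s => ¬ τ s = s).card ≤ 2 := by
        rcases ((Fb f u).filter fun s => ¬ τ s = s).eq_empty_or_nonempty with e | ⟨a, ha⟩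
        · simp [e]
        refine (Finset.card_le_card fun b hb => ?_).trans (Finset.card_le_two (a := a) (b := τ a))
        simp only [Finset.mem_filter, mem_Fb] at ha hb
        simpa using one a b (hb.1.trans ha.1.symm) ha.2 hb.2
      omega
    by_cases hu : τ u = u
    · exact Or.inl (fx u h8 q hq u rfl hu)
    obtain ⟨s, hs, -⟩ := pick _ [] (lt_of_lt_of_le (by simp) h8)
    simp only [Finset.mem_filter, mem_Fb] at hs
    exact one u _ (by rw [← hL.fib q (hQ q hq) _ _ hs.1, fx u h8 q hq s hs.1 hs.2, hs.1]) hu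
      (by rw [← qc]; exact (π q).injective.ne hu)
  push Not at hm
  by_cases hu : τ u = u
  · refine Or.inl (fx u (((by norm_num : 8 ≤ 25).trans (hL.big u)).trans
      (Finset.card_le_card fun s hs => Finset.mem_filter.2 ⟨hs, ?_⟩)) q hq u rfl hu)
    by_contra hc
    exact hm s u (mem_Fb.1 hs).symm hc hu
  by_contra hc
  push Not at hc
  obtain ⟨v, hv, v1⟩ := hL.pickF u [u, τ u, (π q)⁻¹ u, (π q)⁻¹ (τ u)] (by simp)
  obtain ⟨w, hw, w1⟩ := hL.pickF u [u, τ u, (π q)⁻¹ u, (π q)⁻¹ (τ u), v, τ v] (by simp)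
  obtain ⟨s, hs, s1⟩ := hL.pickF u [u, τ u, v, τ v, w, τ w, π q u, π q v, π q w, τ (π q u), τ (π q v),
    τ (π q w)] (by simp)
  obtain ⟨t, ht, t4⟩ := hL.pickF u [u, τ u, v, τ v, w, τ w, π q u, π q v, π q w, τ (π q u), τ (π q v),
    τ (π q w), s, τ s] (by simp)
  simp only [List.mem_cons, List.not_mem_nil, or_false, not_or, Perm.eq_inv_iff_eq] at v1 w1 s1 t4
  have tv := hm u v hv hu
  have tw := hm u w hw hu
  have ts := hm u s hs hu
  have tt := hm u t ht hu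
  have n1 : [u, v, w, s, t, τ u, τ v, τ w, τ s, τ t].Nodup := by
    simp only [List.nodup_cons, List.mem_cons, List.not_mem_nil, or_false, not_or]
    clear * - t3 v1 w1 s1 t4 hu tv tw ts tt
    (repeat' apply And.intro) <;> grind
  have lf : ∀ a b, f a = f u → f b = f u → [u, a, b, τ u, τ a, τ b].Nodup →
      ∃ c : G, c • x = x ∧ c • y = y ∧ π c = dc τ u a b := fun a b ha hb n => by
    have n' := n
    simp only [List.nodup_cons, List.mem_cons, List.not_mem_nil, or_false, not_or] at n'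
    obtain ⟨c, c2, c3⟩ := hL.lift u (dc τ u a b) (mul_mem (cyc_mem n'.1.1 n'.1.2.1 (mem_Fb.2 rfl)
      (mem_Fb.2 ha) (mem_Fb.2 hb)) (cyc_mem (τ.injective.ne n'.1.1) (τ.injective.ne n'.1.2.1)
      (mem_Fb.2 (ft u)) (mem_Fb.2 ((ft a).trans ha)) (mem_Fb.2 ((ft b).trans hb))))
    exact ⟨c, c2, c1 c c2 (c3 ▸ dc_comm t3 n), c3⟩
  have n2 := n1
  simp only [List.nodup_cons, List.mem_cons, List.not_mem_nil, or_false, not_or] at n2
  obtain ⟨c, c2, c3, c4⟩ := lf v w hv hw (by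
    simp only [List.nodup_cons, List.mem_cons, List.not_mem_nil, or_false, not_or]
    clear * - n2
    tauto)
  obtain ⟨d, d2, d3, d4⟩ := lf s t hs ht (by
    simp only [List.nodup_cons, List.mem_cons, List.not_mem_nil, or_false, not_or]
    clear * - n2
    tauto)
  have m1 : c * q * c⁻¹ * q⁻¹ ∈ Op 2 (KK G Γ y) := mul_mem ((S.eqvQ 2).conj c3 hq) (inv_mem hq)
  have m2 : c * q * c⁻¹ * q⁻¹ * d * (c * q * c⁻¹ * q⁻¹)⁻¹ * d⁻¹ ∈ Op 2 (KK G Γ y) := by
    simpa only [mul_assoc] using mul_mem m1 ((S.eqvQ 2).conj d3 (inv_mem m1))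
  have := dc_calc t3 qc n1 (by
    simp only [List.mem_cons, List.not_mem_nil, or_false, not_or, forall_eq_or_imp, forall_eq]
    clear * - t3 v1 w1 s1 t4 hc
    (repeat' apply And.intro) <;> grind) rfl
    (e := π (c * q * c⁻¹ * q⁻¹ * d * (c * q * c⁻¹ * q⁻¹)⁻¹ * d⁻¹)) (by
      rw [← c4, ← d4]
      change hL.hom (⟨c, c2⟩ * ⟨q, hQ q hq⟩ * ⟨c, c2⟩⁻¹ * ⟨q, hQ q hq⟩⁻¹ * ⟨d, d2⟩ *
        (⟨c, c2⟩ * ⟨q, hQ q hq⟩ * ⟨c, c2⟩⁻¹ * ⟨q, hQ q hq⟩⁻¹)⁻¹ * ⟨d, d2⟩⁻¹) = _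
      simp only [map_mul, map_inv]
      rfl)
  exact this.2 (odd _ m2 u this.1)

end Setup

end Pool.Agent.Lib.MP_03ba20_al
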