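import Pool.Agent.Lib.MP_03ba20_al.AltRoot

namespace Pool.Agent.Lib.MP_03ba20_al

open Equiv Equiv.Perm

variable {M V Ω ι : Type*} [Group M] [AddCommGroup V] [DistribMulAction M V]
variable [Fintype Ω] [DecidableEq Ω] [DecidableEq ι]
variable {π : M →* Perm Ω} {f : Ω → ι} {E A : Subgroup M} {u : Ω} {r : Ω → Ω → V}

variable (π f E A u r) in
/-- an `A`-invariant root system. -/
structure Fx : Prop where
  ge : GE π f E u
  nv : NV V π f E u
  rs : RSys π f E u r
  ne : r ≠ 0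
  inv : ∀ a ∈ A, f (π a u) = f u → ∀ x y, a • r x y = r (π a x) (π a y)

namespace Loc

variable (L : Loc V 2 π f E A)
include L

theorem exists_fx {a : M} (ha : a ∈ A) (h : π a u ≠ u) : ∃ r : Ω → Ω → V, Fx π f E A u r := by
  obtain ⟨r, h1, h2, h3⟩ := L.rs_fixed (L.ge_of (L.AE ha) h) (L.nv ha h)
  exact ⟨r, L.ge_of (L.AE ha) h, L.nv ha h, h1, h2, fun b hb e x y => by
    rw [← act_apply (π := π), h3 b hb e]⟩

theorem rs_add (h : RSys π f E u r) {x y : Ω} (hx : f x = f u) (hy : f y = f u) :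
    r x y = r u x + r u y := by rw [L.rs_symm h u x, h.coc x u y hx rfl hy]

theorem rs_move (hG : GE π f E u) (h : RSys π f E u r) (h0 : r ≠ 0) {x y z : Ω} {c : M}
    (hx : f x = f u) (hc : Can π f E x y z c) : c • r x y ≠ r x y := fun e => by
  have hy := hc.fv.trans hx
  have hz := hc.fw.trans hx
  rw [h.eqv c (Fb_eq hx ▸ hc.memF), hc.eq, cyc_fst hc.uv hc.vw, cyc_snd] at e
  exact L.rs_ne hG h h0 hc.uw hx hz (by rw [← h.coc x y z hx hy hz, e, L.two])

theorem rs_nonfix (hG : GE π f E u) (h : RSys π f E u r) (h0 : r ≠ 0) {x y : Ω} (hxy : x ≠ y)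
    (hx : f x = f u) (hy : f y = f u) (l : List Ω) (hl : l.length < 23) :
    ∃ c ∈ HH π f E (Fb f u), c • r x y ≠ r x y ∧ ∀ s ∈ l, s ≠ x → s ≠ y → π c s = s := by
  obtain ⟨z, hz, z1⟩ := L.pickF u (x :: y :: l) (by simp; omega)
  simp only [List.mem_cons, not_or] at z1
  obtain ⟨c, hc⟩ := L.can_exists (hG.of_eq hx) hxy (Ne.symm z1.1) (Ne.symm z1.2.1)
    (hy.trans hx.symm) (hz.trans hx.symm)
  exact ⟨c, Fb_eq hx ▸ hc.memF, L.rs_move hG h h0 hx hc, fun s hs h1 h2 => by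
    rw [hc.eq, cyc_other h1 h2 fun e : s = z => z1.2.2 (e ▸ hs)]⟩

theorem rs_range (h : RSys π f E u r) {x y z : Ω} {c : M} (hx : f x = f u) (hc : Can π f E x y z c) :
    ∃ s, f s = f u ∧ r x y = Dl c (r x s) := by
  obtain ⟨s, hs, s1⟩ := L.pickF u [x, y, z] (by simp)
  simp only [List.mem_cons, List.not_mem_nil, or_false, not_or] at s1
  refine ⟨s, hs, ?_⟩
  rw [Dl_apply, h.eqv c (Fb_eq hx ▸ hc.memF), hc.eq, cyc_fst hc.uv hc.vw,
    cyc_other s1.1 s1.2.1 s1.2.2, ← h.coc x y s hx (hc.fv.trans hx) hs]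
  linear_combination (norm := abel1) L.two (r x y)

omit L in
theorem fx_W (F : Fx π f E A u r) (x y : Ω) : r x y ∈ CV V (BF π A (Fb f u)) := fun b hb => by
  by_cases k : f x = f u ∧ f y = f u
  · rw [F.inv b hb.1 (by rw [hb.2 u (mem_Fb.2 rfl)]), hb.2 x (mem_Fb.2 k.1), hb.2 y (mem_Fb.2 k.2)]
  · rw [F.rs.out x y k, smul_zero]

theorem fx_fib (F : Fx π f E A u r) {a : M} (ha : a ∈ A) : f (π a u) = f u := by
  by_contra h
  have X : ∀ b ∈ A, f (π b u) ≠ f u → ∀ x y, f x = f u → f y = f u → ∀ c ∈ HH π f E (Fb f u),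
      c • b • r x y = b • r x y := fun b hb fb x y hx hy c hc => by
    by_cases e : x = y
    · simp [e, F.rs.self]
    obtain ⟨z, hz, z1⟩ := L.pickF u [x, y] (by simp)
    simp only [List.mem_cons, List.not_mem_nil, or_false, not_or] at z1
    obtain ⟨d, hd⟩ := L.can_exists (F.ge.of_eq hx) e (Ne.symm z1.1) (Ne.symm z1.2) (hy.trans hx.symm)
      (hz.trans hx.symm)
    obtain ⟨s, -, e⟩ := L.rs_range F.rs hx hd
    have := L.nx (u := π b u) hb (by rw [L.invol hb]; exact fb.symm) _ _ _ _ (L.fib b _ _ hx)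
      (L.can_conj hd b)
    rw [L.invol hb] at this
    rw [e, smul_Dl b]
    exact mem_KW.1 (this hc) _ trivial
  have k1 : ∀ b ∈ A, f (π b u) = f u → ∀ x ∈ Fb f u, π b x = x := fun b hb fb x hx => by
    by_contra hc
    rw [mem_Fb] at hx
    obtain ⟨w, hw, w1⟩ := L.pickF u [x, π b x] (by simp)
    simp only [List.mem_cons, List.not_mem_nil, or_false, not_or] at w1
    have hx' := (L.fib b _ _ hx).trans fb
    have hw' := (L.fib b _ _ hw).trans fb
    obtain ⟨c, hc, c1, c2⟩ := L.rs_nonfix F.ge F.rs F.ne (Ne.symm hc) hx hx' [w, π b w] (by simp)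
    have q := L.quad a ha b hb (r x w)
    rw [Dl_apply, F.inv b hb fb, smul_sub] at q
    have e1 := X a ha h _ _ hx' hw' c hc
    have e2 := X a ha h _ _ hx hw c hc
    have e3 := F.rs.eqv c hc w (π b w)
    have i := L.invol hb
    rw [c2 w (by simp) w1.1 w1.2, c2 (π b w) (by simp) (by grind) (by grind)] at e3
    have e4 : r x (π b x) = (a • r (π b x) (π b w) - a • r x w) + r w (π b w) := by
      rw [q, L.rs_add F.rs hx hx', L.rs_add F.rs hx' hw', L.rs_add F.rs hx hw, L.rs_add F.rs hw hw']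
      linear_combination (norm := abel1) L.two (r u x) - L.two (r u (π b w))
    exact c1 (by rw [e4, smul_add, smul_sub, e1, e2, e3])
  obtain ⟨y, hy, y1⟩ := L.pickF u [u] (by simp)
  obtain ⟨z, hz, z1⟩ := L.pickF u [u, y] (by simp)
  simp only [List.mem_cons, List.not_mem_nil, or_false, not_or] at y1 z1
  have k2 : ∀ b ∈ A, f (π b u) = f u ∨ f (π (a * b) u) = f u := fun b hb => by
    by_contra hc
    push Not at hc
    obtain ⟨c, hc', c1, -⟩ := L.rs_nonfix F.ge F.rs F.ne (Ne.symm y1) rfl hy [] (by simp)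
    have q := L.quad a ha b hb (r u y)
    rw [Dl_apply, smul_sub, ← mul_smul] at q
    have e : r u y = b • r u y - ((a * b) • r u y - a • r u y) := by rw [q]; abel
    exact c1 (by rw [e, smul_sub, smul_sub, X a ha h _ _ rfl hy c hc', X b hb hc.1 _ _ rfl hy c hc',
      X _ (mul_mem ha hb) hc.2 _ _ rfl hy c hc'])
  have k3 : ∀ b ∈ A, (∀ x ∈ Fb f u, π b x = x) ∨ ∀ x ∈ Fb f u, π b x = π a x := fun b hb =>
    (k2 b hb).imp (k1 b hb) fun e x hx => by
      have := k1 _ (mul_mem ha hb) e x hx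
      rw [← L.invol ha (π b x), ← mul_apply (π a) (π b), ← map_mul, this]
  have hW := L.W_le (Fb f u) {u, π a u} (fun b => π b u) (fun b hb => by
    rcases k3 b hb with k | k <;> simp [k u (mem_Fb.2 rfl)]) fun b hb b' hb' e s hs => by
    have := mem_Fb.2 (rfl : f u = f u)
    rcases k3 b hb with k | k <;> rcases k3 b' hb' with k' | k' <;> grind
  have := L.finV
  have k4 := mul_le_card (CV_le (π := π) (A := A) (Fb f u)) {u, y, z} (r u) (fun i _ => fx_W F u i)
    fun i hi j hj e => by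
      by_contra hc
      have hi' : f i = f u := by grind
      have hj' : f j = f u := by grind
      rw [sub_eq_add_neg, L.neg, ← L.rs_add F.rs hi' hj'] at e
      obtain ⟨c, hc', c1, -⟩ := L.rs_nonfix F.ge F.rs F.ne hc hi' hj' [] (by simp)
      exact c1 (by rw [← e a ha, X a ha h _ _ hi' hj' c hc'])
  have k5 : ({u, y, z} : Finset Ω).card = 3 := by grind
  have k6 : ({u, π a u} : Finset Ω).card ≤ 2 := Finset.card_le_two
  have := Nat.le_of_mul_le_mul_right (k4.trans hW) Nat.card_pos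
  omega

theorem fx_fib' (F : Fx π f E A u r) {a : M} (ha : a ∈ A) {x : Ω} (hx : f x = f u) : f (π a x) = f u :=
  (L.fib a _ _ hx).trans (L.fx_fib F ha)

theorem fx_orb (F : Fx π f E A u r) {a b : M} (ha : a ∈ A) (hb : b ∈ A) {x : Ω} (hx : f x = f u)
    (h1 : π a x ≠ x) (h2 : π b x ≠ x) : π b x = π a x := by
  by_contra hc
  obtain ⟨w, hw, w1⟩ := L.pickF u [x, π a x, π b x, π a (π b x)] (by simp)
  simp only [List.mem_cons, List.not_mem_nil, or_false, not_or] at w1
  have ax := L.fx_fib' F ha hx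
  have aw := L.fx_fib' F ha hw
  have bx := L.fx_fib' F hb hx
  have bw := L.fx_fib' F hb hw
  have abx := L.fx_fib' F ha bx
  have abw := L.fx_fib' F ha bw
  obtain ⟨c, hc, c1, c2⟩ := L.rs_nonfix F.ge F.rs F.ne h1.symm hx ax
    [π b x, π a (π b x), w, π a w, π b w, π a (π b w)] (by simp)
  have q := L.quad a ha b hb (r x w)
  rw [Dl_apply, F.inv b hb (L.fx_fib F hb), smul_sub, F.inv a ha (L.fx_fib F ha),
    F.inv a ha (L.fx_fib F ha)] at q
  have i1 := L.invol ha
  have i2 := L.invol hb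
  have i3 := L.cm ha hb
  have e1 := F.rs.eqv c hc (π b x) (π a (π b x))
  have e2 := F.rs.eqv c hc w (π a w)
  have e3 := F.rs.eqv c hc (π b w) (π a (π b w))
  rw [c2 _ (by simp) (by grind) (by grind), c2 _ (by simp) (by grind) (by grind)] at e1 e2 e3
  have e4 : r x (π a x) = r (π b x) (π a (π b x)) + r w (π a w) + r (π b w) (π a (π b w)) := by
    rw [L.rs_add F.rs abx abw, L.rs_add F.rs ax aw, L.rs_add F.rs bx bw, L.rs_add F.rs hx hw] at q
    rw [L.rs_add F.rs hx ax, L.rs_add F.rs bx abx, L.rs_add F.rs hw aw, L.rs_add F.rs bw abw]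
    linear_combination (norm := abel1) -q - L.two (r u (π a w)) - L.two (r u (π b x))
      - L.two (r u (π b w)) + L.two (r u x)
  exact c1 (by rw [e4, smul_add, smul_add, e1, e2, e3])

theorem uniq_W (F : Fx π f E A u r) {i j w : Ω} {c : M} (hi : f i = f u) (hc : Can π f E i j w c)
    (h : ∀ v ∈ CV V (BF π A (Fb f u)), Dl c v ∈ AddSubgroup.closure {y | ∃ x z, y = r x z})
    {s : Ω → Ω → V} (hs : RSys π f E u s) (h0 : s ≠ 0) (hW : ∀ x y, s x y ∈ CV V (BF π A (Fb f u))) :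
    s = r := by
  have hj := hc.fv.trans hi
  have hw := hc.fw.trans hi
  have mc : c ∈ HH π f E (Fb f u) := Fb_eq hi ▸ hc.memF
  have c1 := F.rs.coc i j w hi hj hw
  have t := L.two
  let Y : AddSubgroup V :=
    { carrier := {y | y = 0 ∨ y = r i j ∨ y = r j w ∨ y = r i j + r j w}
      zero_mem' := Or.inl rfl
      neg_mem' := fun h => by rwa [L.neg]
      add_mem' := by
        rintro a b (rfl | rfl | rfl | rfl) (rfl | rfl | rfl | rfl) <;>
        simp [t, add_comm, add_left_comm, ← add_assoc] }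
  have k1 : ∀ x, f x = f u → r x (π c x) ∈ Y := fun x hx => by
    rw [hc.eq]
    by_cases h1 : x = i
    · rw [h1, cyc_fst hc.uv hc.vw]; exact Or.inr (Or.inl rfl)
    by_cases h2 : x = j
    · rw [h2, cyc_snd]; exact Or.inr (Or.inr (Or.inl rfl))
    by_cases h3 : x = w
    · rw [h3, cyc_thd hc.uw hc.vw, L.rs_symm F.rs]; exact Or.inr (Or.inr (Or.inr c1.symm))
    · rw [cyc_other h1 h2 h3, F.rs.self]; exact zero_mem _
  have k2 : AddSubgroup.closure {y | ∃ x z, y = r x z} ≤ Y.comap (Dl c) :=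
    (AddSubgroup.closure_le _).2 (by
      rintro _ ⟨x, z, rfl⟩
      change Dl c (r x z) ∈ Y
      by_cases k : f x = f u ∧ f z = f u
      · have x1 := mem_Fb.1 (alt_mem (HH_alt mc) (mem_Fb.2 k.1))
        have z1 := mem_Fb.1 (alt_mem (HH_alt mc) (mem_Fb.2 k.2))
        have : Dl c (r x z) = r x (π c x) + r z (π c z) := by
          rw [Dl_apply, F.rs.eqv c mc, L.rs_add F.rs x1 z1, L.rs_add F.rs k.1 k.2, L.rs_add F.rs k.1 x1,
            L.rs_add F.rs k.2 z1]
          linear_combination (norm := abel1) -t (r u x) - t (r u z)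
        rw [this]
        exact add_mem (k1 x k.1) (k1 z k.2)
      · rw [F.rs.out x z k, map_zero]; exact zero_mem _)
  obtain ⟨z, -, e⟩ := L.rs_range hs hi hc
  have k3 : Dl c (s i j) ∈ Y := k2 (e ▸ h _ (hW i z))
  rw [Dl_apply, hs.eqv c mc, hc.eq, cyc_fst hc.uv hc.vw, cyc_snd, ← add_sub_cancel_left (s i j) (s j w),
    hs.coc i j w hi hj hw, sub_sub, t, sub_zero] at k3
  obtain ⟨l, fl, l1⟩ := L.pickF u [i, j, w] (by simp)
  obtain ⟨m, fm, m1⟩ := L.pickF u [i, j, w, l] (by simp)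
  simp only [List.mem_cons, List.not_mem_nil, or_false, not_or] at l1 m1
  obtain ⟨g, hg, eg⟩ := L.HH_surj F.ge subset_rfl ((by norm_num : 5 ≤ 25).trans (L.big u))
    (swaps_mem hc.uw (Ne.symm m1.2.2.2) (mem_Fb.2 hi) (mem_Fb.2 hw) (mem_Fb.2 fl) (mem_Fb.2 fm))
  have g1 : π g i = w ∧ π g w = i ∧ π g j = j := by
    have := hc.uv; have := hc.vw
    simp only [eg, mul_apply, swap_apply_def]; grind
  have k4 := hs.eqv g hg i w
  rw [g1.1, g1.2.1, L.rs_symm hs w i] at k4
  have n := L.rs_ne F.ge F.rs F.ne hc.uw hi hw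
  have k5 : s i w = r i w := by
    rcases k3 with k | k | k | k
    · exact absurd k (L.rs_ne F.ge hs h0 hc.uw hi hw)
    · rw [k, F.rs.eqv g hg, g1.1, g1.2.2, L.rs_symm F.rs w j] at k4
      rw [← c1, k4, t] at n
      exact absurd rfl n
    · rw [k, F.rs.eqv g hg, g1.2.1, g1.2.2, L.rs_symm F.rs j i] at k4
      rw [← c1, k4, t] at n
      exact absurd rfl n
    · rw [k, c1]
  ext x y
  by_cases k : f x = f u ∧ f y = f u
  · by_cases k' : x = y
    · rw [k', hs.self, F.rs.self]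
    obtain ⟨g, hg, rfl, rfl⟩ := L.rs_map F.ge hc.uw k' hi hw k.1 k.2
    rw [← hs.eqv g hg, ← F.rs.eqv g hg, k5]
  · rw [hs.out x y k, F.rs.out x y k]

theorem uniq_V (F : Fx π f E A u r) {i j w : Ω} {c : M} (hi : f i = f u) (hc : Can π f E i j w c)
    (h : ∀ v ∈ CV V (BF π A (Fb f u)), Dl c v ∈ AddSubgroup.closure {y | ∃ x z, y = r x z})
    {a : M} (ha : a ∈ A) (a1 : π a i = j) (a2 : π a w = w)
    {s : Ω → Ω → V} (hs : RSys π f E u s) (h0 : s ≠ 0) : s = r := by
  have k : ∀ b ∈ BF π A (Fb f u), ∀ x y, act π b s x y = b • s x y := fun b hb x y => by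
    by_cases k : f x = f u ∧ f y = f u
    · rw [← act_apply (π := π), hb.2 x (mem_Fb.2 k.1), hb.2 y (mem_Fb.2 k.2)]
    · rw [hs.out x y k, smul_zero, ((L.rs_act hs b).of_eq (L.fx_fib F hb.1).symm).out x y k]
  refine L.uniq_W F hi hc h hs h0 fun x y b hb => ?_
  by_contra hb'
  have k1 : ∀ x y, (s + act π b s) x y ∈ CV V A := fun x y a ha => by
    have := L.quad a ha b hb.1 (s x y)
    rwa [Dl_apply, sub_eq_add_neg, L.neg, add_comm, ← k b hb] at this
  have := L.uniq_W F hi hc h (hs.add ((L.rs_act hs b).of_eq (L.fx_fib F hb.1).symm)) (fun e => hb' (by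
    rw [← k b hb, eq_comm, ← L.add_eq]; exact congrFun (congrFun e x) y)) fun x y => CV_le _ (k1 x y)
  have k2 := k1 i w a ha
  rw [this, F.inv a ha (L.fx_fib F ha), a1, a2] at k2
  exact L.rs_ne F.ge F.rs F.ne hc.uv hi (hc.fv.trans hi) (by
    rw [← F.rs.coc i w j hi (hc.fw.trans hi) (hc.fv.trans hi), ← k2, L.rs_symm F.rs w j, L.two])

omit L [Fintype Ω] [DecidableEq Ω] in
theorem U_inv {g : M} (hg : ∀ x y, g • r x y = r (π g x) (π g y)) {v : V}
    (hv : v ∈ AddSubgroup.closure {y | ∃ x z, y = r x z}) :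
    g • v ∈ AddSubgroup.closure {y | ∃ x z, y = r x z} :=
  (AddSubgroup.closure_le ((AddSubgroup.closure {y | ∃ x z, y = r x z}).comap
    (DistribSMul.toAddMonoidHom V g))).2 (by
      rintro _ ⟨x, z, rfl⟩
      exact AddSubgroup.subset_closure ⟨_, _, hg x z⟩) hv

theorem sq_Dl {x y z : Ω} {c : M} (hc : Can π f E x y z c) (v : V) : c • Dl c (Dl c v) = Dl c v := by
  simp only [Dl_apply, smul_sub, ← mul_smul]
  rw [← mul_assoc, ← pow_two, ← pow_succ, L.can_pow hc, one_smul]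
  linear_combination (norm := abel1) L.two v - L.two (c ^ 2 • v)

theorem exists_out (F : Fx π f E A u r) {i j w : Ω} {c : M} (hi : f i = f u) (hc : Can π f E i j w c)
    {a : M} (ha : a ∈ A) (a1 : π a i = j) (a2 : π a w = w)
    (h : ¬ ∀ v ∈ CV V (BF π A (Fb f u)), Dl c v ∈ AddSubgroup.closure {y | ∃ x z, y = r x z}) :
    ∃ v ∈ CV V (BF π A (Fb f u)), Dl a (Dl c v) ∉ AddSubgroup.closure {y | ∃ x z, y = r x z} := by
  by_contra hc'
  push Not at hc'
  refine h fun v hv => ?_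
  have mc : c ∈ HH π f E (Fb f u) := Fb_eq hi ▸ hc.memF
  have e : a * c * a⁻¹ = c⁻¹ := by
    have := L.can_conj hc a
    rw [a1, a2, ← a1, L.invol ha, a1] at this
    exact L.can_uniq this hc.inv'.rot.rot
  have k1 := hc' v hv
  have k2 := hc' (c • v) (W_inv (fun b hb => L.B_comm' mc hb) hv)
  rw [← smul_Dl_of rfl] at k2
  have k3 := U_inv (F.rs.eqv c mc) k2
  have k4 := L.sq_Dl hc v
  generalize Dl c v = y at k1 k3 k4
  have : c • y = Dl a y - c • Dl a (c • y) := by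
    have e1 : c * (a * c) = a := by rw [mul_inv_eq_iff_eq_mul.1 e, mul_inv_cancel_left]
    simp only [Dl_apply, smul_sub, ← mul_smul, e1] at k4 ⊢
    linear_combination (norm := abel1) -k4
  rw [← inv_smul_smul c y, this]
  exact U_inv (F.rs.eqv _ (inv_mem mc)) (sub_mem k1 k3)

theorem exists_tau (F : Fx π f E A u r) : ∃ (τ : Ω → Ω) (T : Finset Ω),
    (∀ a ∈ A, ∀ x, f x = f u → π a x = x ∨ π a x = τ x) ∧
    (∀ x, τ x ≠ x → ∃ a ∈ A, π a x = τ x) ∧ (∀ x, f x = f u → τ (τ x) = x ∧ f (τ x) = f u) ∧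
    (∀ x ∈ T, f x = f u ∧ τ x ≠ x ∧ τ x ∉ T) ∧ ∀ x, f x = f u → τ x ≠ x → x ∈ T ∨ τ x ∈ T := by
  classical
  let τ : Ω → Ω := fun x => if h : ∃ a ∈ A, π a x ≠ x then π h.choose x else x
  have t1 : ∀ a ∈ A, ∀ x, f x = f u → π a x = x ∨ π a x = τ x := fun a ha x hx => by
    by_cases h : π a x = x
    · exact Or.inl h
    · have h' : ∃ a ∈ A, π a x ≠ x := ⟨a, ha, h⟩
      simp only [τ, dif_pos h']
      exact Or.inr (L.fx_orb F h'.choose_spec.1 ha hx h'.choose_spec.2 h)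
  have t2 : ∀ x, τ x ≠ x → ∃ a ∈ A, π a x = τ x := fun x hx => by
    by_cases h : ∃ a ∈ A, π a x ≠ x
    · exact ⟨_, h.choose_spec.1, by simp only [τ, dif_pos h]⟩
    · exact absurd (dif_neg h) hx
  have t3 : ∀ x, f x = f u → τ (τ x) = x ∧ f (τ x) = f u := fun x hx => by
    by_cases h : τ x = x
    · simp [h, hx]
    obtain ⟨a, ha, e⟩ := t2 x h
    have := t1 a ha (τ x) (e ▸ L.fx_fib' F ha hx)
    rw [← e, L.invol ha, e] at this
    exact ⟨(this.resolve_left (Ne.symm h)).symm, e ▸ L.fx_fib' F ha hx⟩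
  let e := Fintype.equivFin Ω
  refine ⟨τ, (Fb f u).filter fun x => e x < e (τ x), t1, t2, t3, fun x hx => ?_, fun x hx h => ?_⟩
  · simp only [Finset.mem_filter, mem_Fb] at hx ⊢
    refine ⟨hx.1, fun h => by simp [h] at hx, fun h => ?_⟩
    rw [(t3 x hx.1).1] at h
    exact lt_asymm hx.2 h.2
  · simp only [Finset.mem_filter, mem_Fb, t3 x hx, hx, true_and]
    exact lt_or_gt_of_ne (e.injective.ne h.symm)

theorem sum_ne (F : Fx π f E A u r) {S : Finset Ω} (hS : ∀ x ∈ S, f x = f u) {w i z : Ω}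
    (hw : f w = f u) (hi : i ∈ S) (hz : f z = f u) {a : M} (ha : a ∈ A) (h1 : π a i ≠ i)
    (h2 : ∀ j ∈ insert w S, π a j = j ∨ (z ≠ j ∧ z ≠ π a j ∧ (j = i ∨ (j ≠ π a i ∧ π a j ≠ π a i))))
    (h3 : w ≠ i) : ∑ j ∈ S, r j w ∉ CV V A := fun h => by
  have k := (h2 i (Finset.mem_insert_of_mem hi)).resolve_left h1
  have fi := hS i hi
  obtain ⟨c, hc⟩ := L.can_exists (F.ge.of_eq fi) h1.symm k.1.symm k.2.1.symm
    ((L.fx_fib' F ha fi).trans fi.symm) (hz.trans fi.symm)
  have mc : c ∈ HH π f E (Fb f u) := Fb_eq fi ▸ hc.memF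
  have k1 : ∀ j ∈ insert w S, j ≠ i → c • r j (π a j) = r j (π a j) := fun j hj ji => by
    rcases h2 j hj with e | e
    · rw [e, F.rs.self, smul_zero]
    · have := L.invol ha
      rw [F.rs.eqv c mc, hc.eq, cyc_other, cyc_other] <;> grind
  have k2 : ∑ j ∈ S, (r j (π a j) + r w (π a w)) = 0 := by
    rw [← Dl_eq_zero.2 (h a ha), map_sum]
    refine Finset.sum_congr rfl fun j hj => ?_
    have j1 := hS j hj
    have j2 := L.fx_fib' F ha j1
    have j3 := L.fx_fib' F ha hw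
    rw [Dl_apply, F.inv a ha (L.fx_fib F ha), L.rs_add F.rs j1 j2, L.rs_add F.rs hw j3,
      L.rs_add F.rs j2 j3, L.rs_add F.rs j1 hw]
    linear_combination (norm := abel1) L.two (r u j) + L.two (r u w)
  have k3 := congrArg (Dl c) k2
  have k4 := k1 w (Finset.mem_insert_self _ _) h3
  rw [map_sum, map_zero, Finset.sum_eq_single_of_mem i hi fun j hj ji => by
    rw [Dl_eq_zero, smul_add, k4, k1 j (Finset.mem_insert_of_mem hj) ji], Dl_eq_zero, smul_add, k4,
    add_left_inj] at k3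
  exact L.rs_move F.ge F.rs F.ne fi hc k3

theorem sum_sub (x : Ω → V) (S S' : Finset Ω) :
    ∑ j ∈ S, x j - ∑ j ∈ S', x j = ∑ j ∈ symmDiff S S', x j := by
  rw [← Finset.sum_sdiff_sub_sum_sdiff, sub_eq_add_neg, L.neg, symmDiff_def, Finset.sup_eq_union,
    Finset.sum_union disjoint_sdiff_sdiff]

omit L in
theorem three_le {K : Finset (Finset Ω)} {T S S' : Finset Ω} (hK : K ⊆ T.powerset)
    (h : ∀ X ∈ K, ∀ Y ∈ K, symmDiff X Y ∈ K) (hS : S ⊆ T) (hS' : S' ⊆ T) (h1 : S ∉ K) (h2 : S' ∉ K)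
    (h3 : symmDiff S S' ∉ K) : 3 * K.card ≤ 2 ^ T.card := by
  rcases K.eq_empty_or_nonempty with rfl | ⟨X, hX⟩
  · simp
  have h0 : ∅ ∈ K := by simpa using h X hX X hX
  have c : ({∅, S, S'} : Finset (Finset Ω)).card = 3 := by
    rw [Finset.card_eq_three]
    exact ⟨∅, S, S', fun e => h1 (e ▸ h0), fun e => h2 (e ▸ h0), fun e => h3 (by simpa [e] using h0), rfl⟩
  rw [← c, ← Finset.card_product, ← Finset.card_powerset]
  refine Finset.card_le_card_of_injOn (fun y => symmDiff y.1 y.2) (fun y hy => ?_) fun y hy y' hy' e => ?_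
  · simp only [Finset.coe_product, Set.mem_prod, Finset.mem_coe, Finset.mem_powerset] at hy ⊢
    have := Finset.mem_powerset.1 (hK hy.2)
    refine symmDiff_le_sup.trans (sup_le ?_ this)
    simp only [Finset.mem_insert, Finset.mem_singleton] at hy
    rcases hy.1 with e | e | e <;> simp [e, hS, hS']
  · simp only [Finset.coe_product, Set.mem_prod, Finset.mem_coe] at hy hy' e
    have e1 : symmDiff y.1 y'.1 ∈ K := by
      have := h _ hy.2 _ hy'.2
      rwa [show symmDiff y.2 y'.2 = symmDiff y.1 y'.1 by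
        rw [← symmDiff_symmDiff_cancel_left y.1 y.2, e, symmDiff_assoc, symmDiff_symmDiff_cancel_right]]
        at this
    have e2 : y.1 = y'.1 := by
      simp only [Finset.mem_insert, Finset.mem_singleton] at hy hy'
      rcases hy.1 with a | a | a <;> rcases hy'.1 with b | b | b <;> rw [a, b] at e1 ⊢ <;>
        simp_all [symmDiff_comm, ← Finset.bot_eq_empty]
    rw [e2] at e
    exact Prod.ext e2 (symmDiff_right_injective _ e)

end Loc

end Pool.Agent.Lib.MP_03ba20_al
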