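import Mathlib

namespace Pool.Agent.Lib.MP_03ba20_al

/-- The permutation group induced on the neighbours of `v` by the elements of `H` fixing `v`
and `u`. -/
def localStab {V : Type} {G : SimpleGraph V} (H : Subgroup (G ≃g G)) (v u : V) :
    Subgroup (Equiv.Perm (G.neighborSet v)) where
  carrier := {σ | ∃ h ∈ H, h v = v ∧ h u = u ∧ ∀ x : G.neighborSet v, (σ x : V) = h x}
  one_mem' := ⟨1, one_mem _, rfl, rfl, fun _ => rfl⟩
  mul_mem' := by
    rintro σ τ ⟨h, h1, h2, h3, h4⟩ ⟨k, k1, k2, k3, k4⟩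
    exact ⟨h * k, mul_mem h1 k1, by simp [h2, k2], by simp [h3, k3], fun x => by simp [h4, k4]⟩
  inv_mem' := by
    rintro σ ⟨h, h1, h2, h3, h4⟩
    exact ⟨h⁻¹, inv_mem h1, h.injective (by simp [h2]), h.injective (by simp [h3]),
      fun x => h.injective (by simp [← h4])⟩

/-- Every normal `p`-subgroup has at most one subgroup of order `p`, for every prime `p`. -/
def RankOneFitting (L : Type) [Group L] : Prop :=
  ∀ p : ℕ, p.Prime → ∀ N : Subgroup L, N.Normal → IsPGroup p N →
    ∀ A ≤ N, ∀ B ≤ N, Nat.card A = p → Nat.card B = p → A = B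

end Pool.Agent.Lib.MP_03ba20_al
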