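import Pool.Agent.Lib.MP_03ba20_al.Subn

namespace Pool.Agent.Lib.MP_03ba20_al

open Subgroup MulAction

/-- a faithful, vertex-transitive, locally primitive action with finite stabilisers. -/
structure Setup (G : Type*) {V : Type*} [Group G] [MulAction G V] (Γ : SimpleGraph V) : Prop where
  adj : ∀ (g : G) u v, Γ.Adj u v → Γ.Adj (g • u) (g • v)
  conn : Γ.Preconnected
  faith : ∀ g : G, (∀ v : V, g • v = v) → g = 1
  fin : ∀ v : V, Finite (stabilizer G v)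
  trans : ∀ v w : V, ∃ g : G, g • v = w
  loc : ∀ v u w, Γ.Adj v u → Γ.Adj v w → ∃ g : G, g • v = v ∧ g • u = w
  prim : ∀ v u, Γ.Adj v u → ∀ H : Subgroup G, (∀ g : G, g • v = v → g • u = u → g ∈ H) →
    ∀ t ∈ H, t • v = v → t • u ≠ u → ∀ w, Γ.Adj v w → ∃ h ∈ H, h • v = v ∧ h • u = w

variable {G V : Type*} [Group G] [MulAction G V] {Γ : SimpleGraph V}

/-- `H ∩ G_v` is transitive on the neighbours of `v`. -/
def Tr (Γ : SimpleGraph V) (H : Subgroup G) (v : V) : Prop :=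
  ∀ a b, Γ.Adj v a → Γ.Adj v b → ∃ h ∈ H, h • v = v ∧ h • a = b

theorem inv_fix {g : G} {v : V} (h : g • v = v) : g⁻¹ • v = v := inv_smul_eq_iff.2 h.symm

theorem conj_smul (g x : G) (v : V) : (g * x * g⁻¹) • g • v = g • x • v := by
  simp [mul_smul]

/-- an equivariant family of subsets indexed by vertices. -/
def Eqv (F : V → Subgroup G) : Prop := ∀ (g : G) v x, x ∈ F v → g * x * g⁻¹ ∈ F (g • v)

/-- an equivariant family of subsets indexed by pairs of vertices. -/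
def Eqv2 (F : V → V → Set G) : Prop :=
  ∀ (g : G) u v x, x ∈ F u v → g * x * g⁻¹ ∈ F (g • u) (g • v)

theorem Eqv.nrm {F : V → Subgroup G} (h : Eqv F) {g : G} {v : V} (hg : g • v = v) :
    g ∈ normalizer (F v : Set G) :=
  mem_nrm (fun x hx => by simpa [hg] using h g v x hx)
    (fun x hx => by simpa [inv_fix hg] using h g⁻¹ v x hx)

theorem Eqv.conj {F : V → Subgroup G} (h : Eqv F) {g x : G} {v : V} (hg : g • v = v)
    (hx : x ∈ F v) : g * x * g⁻¹ ∈ F v := nrm_conj (h.nrm hg) hx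

theorem Eqv.cj_eq {F : V → Subgroup G} (h : Eqv F) (g : G) (v : V) : cj g (F v) = F (g • v) := by
  ext x
  rw [mem_cj]
  exact ⟨fun hx => by simpa [mul_assoc] using h g v _ hx, fun hx => by simpa using h g⁻¹ _ x hx⟩

theorem Eqv.ne_bot {F : V → Subgroup G} (h : Eqv F) (S : Setup G Γ) {v : V} (hv : F v ≠ ⊥)
    (w : V) : F w ≠ ⊥ := by
  obtain ⟨g, rfl⟩ := S.trans w v
  intro e
  apply hv
  rw [← h.cj_eq, e]
  ext x; simp [mem_cj, mul_assoc, inv_mul_eq_one]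

theorem Eqv2.nrm {F : V → V → Set G} (h : Eqv2 F) {g : G} {u v u' v' : V} (hu : g • u = u')
    (hv : g • v = v') (e : F u' v' = F u v) : g ∈ normalizer (F u v) :=
  mem_nrm (fun x hx => by simpa [hu, hv, e] using h g u v x hx)
    (fun x hx => by simpa [← hu, ← hv] using h g⁻¹ u' v' x (e ▸ hx))

theorem Tr.smul (S : Setup G Γ) {H : Subgroup G} {v : V} (h : Tr Γ H v) {g : G} (hg : g ∈ H) :
    Tr Γ H (g • v) := by
  intro a b ha hb
  obtain ⟨n, hn, h1, h2⟩ := h (g⁻¹ • a) (g⁻¹ • b) (by simpa using S.adj g⁻¹ _ _ ha)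
    (by simpa using S.adj g⁻¹ _ _ hb)
  exact ⟨g * n * g⁻¹, mul_mem (mul_mem hg hn) (inv_mem hg), by rw [conj_smul, h1],
    by simp [mul_smul, h2]⟩

namespace Setup

variable (S : Setup G Γ)
include S

theorem flip {u v : V} (h : Γ.Adj u v) : ∃ g : G, g • u = v ∧ g • v = u := by
  obtain ⟨g, hg⟩ := S.trans u v
  obtain ⟨g', h1, h2⟩ := S.loc v (g • v) u (by simpa [hg] using S.adj g _ _ h) h.symm
  exact ⟨g' * g, by rw [mul_smul, hg, h1], by rw [mul_smul, h2]⟩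

theorem tr_of {u v : V} (h : Γ.Adj v u) {H : Subgroup G}
    (h1 : ∀ g : G, g • v = v → g • u = u → g ∈ H) {t : G} (ht : t ∈ H) (h2 : t • v = v)
    (h3 : t • u ≠ u) : Tr Γ H v := by
  intro a b ha hb
  obtain ⟨x, hx, x1, rfl⟩ := S.prim v u h H h1 t ht h2 h3 a ha
  obtain ⟨y, hy, y1, rfl⟩ := S.prim v u h H h1 t ht h2 h3 b hb
  exact ⟨y * x⁻¹, mul_mem hy (inv_mem hx), by rw [mul_smul, inv_fix x1, y1], by simp [mul_smul]⟩

theorem TL {u v : V} (h : Γ.Adj u v) {X : Set G} (hX : ∀ x ∈ X, x • u = u ∧ x • v = v)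
    (hu : Tr Γ (normalizer X) u) (hv : Tr Γ (normalizer X) v) : ∀ x ∈ X, x = 1 := by
  let Q : V → Prop := fun w => (∀ x ∈ X, x • w = w) ∧ Tr Γ (normalizer X) w
  have hQ : ∀ n ∈ normalizer X, ∀ w, Q w → Q (n • w) := fun n hn w hw =>
    ⟨fun x hx => by
      have := hw.1 _ (nrm_conj' hn hx)
      rw [mul_smul, mul_smul, inv_smul_eq_iff] at this
      exact this, hw.2.smul S hn⟩
  have key : ∀ w, Q w ∧ ∃ w', Γ.Adj w w' ∧ Q w' := by
    intro w
    have := (SimpleGraph.reachable_iff_reflTransGen u w).1 (S.conn u w)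
    induction this with
    | refl => exact ⟨⟨fun x hx => (hX x hx).1, hu⟩, v, h, fun x hx => (hX x hx).2, hv⟩
    | @tail a b _ hab ih =>
      obtain ⟨ha, a', ha', qa'⟩ := ih
      obtain ⟨n, hn, -, rfl⟩ := ha.2 a' b ha' hab
      exact ⟨hQ n hn _ qa', a, hab.symm, ha⟩
  exact fun x hx => S.faith x fun w => (key w).1.1 x hx

/-- a symmetric equivariant family normalised by an element moving the edge is trivial. -/
theorem TL1 {F : V → V → Set G} (hF : Eqv2 F) {u v : V} (h : Γ.Adj u v) (hs : F v u = F u v)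
    (hX : ∀ x ∈ F u v, x • u = u ∧ x • v = v) {t : G} (ht : t ∈ normalizer (F u v))
    (h2 : t • v = v) (h3 : t • u ≠ u) : ∀ x ∈ F u v, x = 1 := by
  have h1 := S.tr_of h.symm (fun g g1 g2 => hF.nrm g2 g1 rfl) ht h2 h3
  obtain ⟨g, g1, g2⟩ := S.flip h
  have := h1.smul S (hF.nrm g1 g2 hs)
  rw [g2] at this
  exact S.TL h hX this h1

/-- an equivariant family constant along an edge is trivial. -/
theorem TL2 {F : V → Subgroup G} (hF : Eqv F) {u v : V} (h : Γ.Adj u v) (e : F u = F v)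
    (hX : ∀ x ∈ F u, x • u = u) : F u = ⊥ := by
  obtain ⟨g, g1, -⟩ := S.flip h
  have tr : ∀ w, Tr Γ (normalizer (F w : Set G)) w := fun w a b ha hb =>
    (S.loc w a b ha hb).imp fun g hg => ⟨hF.nrm hg.1, hg⟩
  refine (eq_bot_iff_forall _).2 (S.TL h (fun x hx => ⟨hX x hx, ?_⟩) (tr u) (e ▸ tr v))
  have := hX _ (show g⁻¹ * x * g ∈ F u by
    rw [← mem_cj, hF.cj_eq, g1, ← e]; exact hx)
  rwa [mul_smul, mul_smul, inv_smul_eq_iff, g1] at this

end Setup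

variable (G Γ) in
/-- the kernel of the action of `G_v` on the neighbours of `v`. -/
def KK (v : V) : Subgroup G where
  carrier := {g | g • v = v ∧ ∀ u, Γ.Adj v u → g • u = u}
  one_mem' := by simp
  mul_mem' := fun ha hb => ⟨by rw [mul_smul, hb.1, ha.1], fun u hu => by
    rw [mul_smul, hb.2 u hu, ha.2 u hu]⟩
  inv_mem' := fun ha => ⟨inv_fix ha.1, fun u hu => inv_fix (ha.2 u hu)⟩

namespace Setup

variable (S : Setup G Γ)
include S

theorem eqvK : Eqv (KK G Γ) := fun g v x hx =>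
  ⟨by rw [conj_smul, hx.1], fun u hu => by
    have := hx.2 (g⁻¹ • u) (by simpa using S.adj g⁻¹ _ _ hu)
    simp [mul_smul, this]⟩

theorem eqvQ (p : ℕ) : Eqv fun v => Op p (KK G Γ v) := fun g v x hx => by
  have := conj_mem_Op hx g
  rwa [S.eqvK.cj_eq] at this

theorem finK (v : V) : Finite (KK G Γ v) :=
  have := S.fin v
  Finite.of_injective _ (inclusion_injective (show KK G Γ v ≤ stabilizer G v from fun _ h => h.1))

theorem move {t : G} {v u : V} (h1 : t • v = v) (h2 : t ∉ KK G Γ v) (h : Γ.Adj v u) :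
    ∃ g : G, g • v = v ∧ (g * t * g⁻¹) • u ≠ u := by
  have : ∃ y, Γ.Adj v y ∧ t • y ≠ y := by
    by_contra hc
    push Not at hc
    exact h2 ⟨h1, hc⟩
  obtain ⟨y, hy, hty⟩ := this
  obtain ⟨g, g1, rfl⟩ := S.loc v y u hy h
  exact ⟨g, g1, by rw [conj_smul]; simpa using hty⟩

theorem eqvE : Eqv2 fun u v => ((KK G Γ u ⊓ KK G Γ v : Subgroup G) : Set G) :=
  fun g u v x hx => ⟨S.eqvK g u x hx.1, S.eqvK g v x hx.2⟩

theorem nmK {u v : V} (h : Γ.Adj v u) : Nm (KK G Γ v) (stabilizer G u ⊓ stabilizer G v) :=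
  ⟨fun _ hx => ⟨hx.2 u h, hx.1⟩, fun _ hg => S.eqvK.nrm hg.2⟩

/-- first half of the Thompson-Wielandt theorem. -/
theorem exists_prime {u v : V} (h : Γ.Adj u v) (hE : KK G Γ u ⊓ KK G Γ v ≠ ⊥) :
    ∃ p, p.Prime ∧ Op p (KK G Γ v) ≠ ⊥ := by
  by_contra hc
  push Not at hc
  have key : ∀ u v, Γ.Adj u v → KK G Γ u ⊓ KK G Γ v ≠ ⊥ →
      ∀ T, Sn T (KK G Γ v) ∧ NS T → Sn T (KK G Γ u) ∧ NS T := by
    intro u v h hE T ⟨h1, h2⟩
    have h3 : Sn T (stabilizer G u ⊓ stabilizer G v) := h1.tail (S.nmK h.symm)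
    have h4 := S.nmK h
    rw [inf_comm] at h4
    by_cases hle : T ≤ KK G Γ u
    · exact ⟨h3.of_le hle h4.1, h2⟩
    exfalso
    have := S.fin u
    have : Finite (stabilizer G u ⊓ stabilizer G v : Subgroup G) :=
      Finite.of_injective _ (inclusion_injective inf_le_left)
    have h5 := h2.centralizes' h3 h4 hle
    obtain ⟨t, ht, ht'⟩ := SetLike.not_le_iff_exists.1 hle
    have htu : t • u = u := (h1.le ht).2 u h.symm
    obtain ⟨g, g1, g2⟩ := S.move htu ht' h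
    have h6 : ∀ x ∈ KK G Γ u, g * t * g⁻¹ * x = x * (g * t * g⁻¹) := fun x hx => by
      have := h5 t ht _ (nrm_conj' (S.eqvK.nrm g1) hx)
      calc g * t * g⁻¹ * x = g * (t * (g⁻¹ * x * g)) * g⁻¹ := by group
        _ = _ := by rw [this]; group
    apply hE
    rw [inf_comm]
    refine (eq_bot_iff_forall _).2 (S.TL1 S.eqvE h.symm (by rw [inf_comm])
      (fun x hx => ⟨hx.1.1, hx.2.1⟩) (t := g * t * g⁻¹) (mem_nrm (fun x hx => ?_) fun x hx => ?_)
      (by rw [← g1, conj_smul, htu]) g2)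
    · rwa [h6 x hx.2, mul_inv_cancel_right]
    · rwa [mul_assoc, ← h6 x hx.2, inv_mul_cancel_left]
  let X : V → Subgroup G := fun v => sSup {T | Sn T (KK G Γ v) ∧ NS T}
  have hX : Eqv X := fun g v x hx => by
    have : X v ≤ cj g⁻¹ (X (g • v)) := sSup_le fun T hT => by
      have h1 : cj g T ≤ X (g • v) := le_sSup ⟨S.eqvK.cj_eq g v ▸ hT.1.conj g, hT.2.conj g⟩
      intro y hy
      exact mem_cj.2 (h1 (mem_cj.2 (by simpa [mul_assoc] using hy)))
    simpa using mem_cj.1 (this hx)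
  have e : X v = X u := le_antisymm (sSup_le_sSup (key u v h hE))
    (sSup_le_sSup (key v u h.symm (by rwa [inf_comm])))
  have h0 := S.TL2 hX h.symm e fun x hx => ((sSup_le fun T hT => hT.1.le : X v ≤ _) hx).1
  have := S.finK v
  obtain ⟨T, h1, h2⟩ := exists_NS (B := KK G Γ v) (fun e => hE (by simp [e])) hc
  have : T ≤ X v := le_sSup ⟨h1, h2⟩
  rw [h0, le_bot_iff] at this
  obtain ⟨-, a, ha, b, -, hab⟩ := h2
  rw [this, mem_bot] at ha
  simp [ha] at hab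

variable {p : ℕ}

theorem Q_not_le {v₀ : V} (h0 : Op p (KK G Γ v₀) ≠ ⊥) {u v : V} (h : Γ.Adj u v) :
    ¬ Op p (KK G Γ u) ≤ KK G Γ v := by
  have key : ∀ u v, Γ.Adj u v → Op p (KK G Γ u) ≤ KK G Γ v →
      Op p (KK G Γ u) ≤ Op p (KK G Γ v) := fun u v h hle =>
    le_Op ⟨hle, fun g hg => (S.eqvQ p).nrm (hg.2 u h.symm)⟩ (Op_pgroup _)
  intro hle
  obtain ⟨g, g1, g2⟩ := S.flip h
  have hle' : Op p (KK G Γ v) ≤ KK G Γ u := by
    intro x hx
    rw [← g1, ← (S.eqvQ p).cj_eq] at hx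
    rw [← g2, ← S.eqvK.cj_eq]
    exact mem_cj.2 (hle (mem_cj.1 hx))
  exact (S.eqvQ p).ne_bot S h0 u (S.TL2 (S.eqvQ p) h
    (le_antisymm (key u v h hle) (key v u h.symm hle')) fun x hx => (Op_le _ hx).1)

omit S in
theorem pow_mul_eq {E : Subgroup G} {e q : G} (he : e ∈ E) (hq : q ∈ normalizer (E : Set G))
    (n : ℕ) : ∃ e' ∈ E, (e * q) ^ n = e' * q ^ n := by
  induction n with
  | zero => exact ⟨1, one_mem _, by simp⟩
  | succ n ih =>
    obtain ⟨e', he', h⟩ := ih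
    exact ⟨e * (q * e' * q⁻¹), mul_mem he (nrm_conj hq he'), by rw [pow_succ', h]; group⟩

/-- second half of the Thompson-Wielandt theorem. -/
theorem E_le (hp : p.Prime) {v₀ : V} (h0 : Op p (KK G Γ v₀) ≠ ⊥) {u v : V} (h : Γ.Adj u v) :
    KK G Γ u ⊓ KK G Γ v ≤ Op p (KK G Γ v) := by
  let Y : V → V → Set G := fun u v =>
    {x | x ∈ KK G Γ u ⊓ KK G Γ v ∧ (orderOf x).Coprime p}
  have ord : ∀ g x : G, orderOf (g * x * g⁻¹) = orderOf x := fun g x =>
    (MulAut.conj g).orderOf_eq x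
  have hY : Eqv2 Y := fun g u v x hx => ⟨S.eqvE g u v x hx.1, by rw [ord]; exact hx.2⟩
  obtain ⟨t₀, ht, ht'⟩ := SetLike.not_le_iff_exists.1 (S.Q_not_le h0 h)
  obtain ⟨g, g1, g2⟩ := S.move ((Op_le _ ht).2 v h) ht' h.symm
  have hy : Γ.Adj v (g • u) := by simpa [g1] using S.adj g _ _ h.symm
  have key : ∀ t ∈ Op p (KK G Γ (g • u)), ∀ x ∈ Y u v, t * x * t⁻¹ ∈ Y u v := by
    intro t ht x hx
    have htv : t • v = v := (Op_le _ ht).2 v hy.symm
    have h1 : x⁻¹ * t * x * t⁻¹ ∈ Op p (KK G Γ (g • u)) ⊓ KK G Γ v :=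
      mem_inf.2 ⟨(Op p _).mul_mem (nrm_conj' ((S.eqvQ p).nrm (hx.1.2.2 _ hy)) ht) (inv_mem ht), by
        have := (KK G Γ v).mul_mem ((KK G Γ v).inv_mem hx.1.2) (S.eqvK.conj htv hx.1.2)
        simpa [mul_assoc] using this⟩
    have h2 : Op p (KK G Γ (g • u)) ⊓ KK G Γ v ≤ Op p (KK G Γ v) :=
      le_Op (Nm.of inf_le_right fun a ha y hy' => ⟨(S.eqvQ p).conj (ha.2 _ hy) hy'.1,
        S.eqvK.conj ha.1 hy'.2⟩) ((Op_pgroup _).to_le inf_le_left)
    obtain ⟨k, hk⟩ := isPGroup_iff.1 (Op_pgroup _) _ (h2 h1)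
    obtain ⟨e', he', h3⟩ := pow_mul_eq hx.1 (S.eqvE.nrm (h1.2.2 u h.symm) h1.2.1 rfl) (p ^ k)
    rw [hk, mul_one, show x * (x⁻¹ * t * x * t⁻¹) = t * x * t⁻¹ by group] at h3
    have hc : (p ^ k).Coprime (orderOf (t * x * t⁻¹)) := by
      rw [ord]; exact (hx.2.symm.pow_left k)
    obtain ⟨m, hm⟩ := exists_pow_eq_self_of_coprime hc
    exact ⟨by rw [← hm, h3]; exact pow_mem he' m, by rw [ord]; exact hx.2⟩
  have ht1 := S.eqvQ p g u t₀ ht
  have h4 := S.TL1 hY h (by ext x; simp [Y, and_comm]) (fun x hx => ⟨hx.1.1.1, hx.1.2.1⟩)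
    (mem_nrm (key _ ht1) fun x hx => by simpa using key _ (inv_mem ht1) x hx)
    ((Op_le _ ht1).2 v hy.symm) g2
  refine le_Op ⟨inf_le_right, fun a ha => S.eqvE.nrm (ha.2 u h.symm) ha.1 rfl⟩
    (isPGroup_iff.2 fun x hx => ?_)
  have := S.finK v
  have hx0 : orderOf x ≠ 0 := by
    have := orderOf_pos (⟨x, hx.2⟩ : KK G Γ v)
    rw [← orderOf_coe] at this
    exact this.ne'
  obtain ⟨k, m, hm, e⟩ := Nat.exists_eq_pow_mul_and_not_dvd hx0 p hp.ne_one
  refine ⟨k, h4 _ ⟨pow_mem hx _, ?_⟩⟩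
  refine Nat.Coprime.coprime_dvd_left (k := m) (orderOf_dvd_of_pow_eq_one ?_)
    ((hp.coprime_iff_not_dvd.2 hm).symm)
  rw [← pow_mul, ← e, pow_orderOf_eq_one]

end Setup

end Pool.Agent.Lib.MP_03ba20_al
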