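import Mathlib

namespace Pool.Agent.Lib.MP_03ba20_al

open Subgroup

variable {G : Type*} [Group G]

/-- conjugate subgroup `g N g⁻¹`. -/
def cj (g : G) (N : Subgroup G) : Subgroup G := N.comap (MulAut.conj g⁻¹).toMonoidHom

theorem mem_cj {g x : G} {N : Subgroup G} : x ∈ cj g N ↔ g⁻¹ * x * g ∈ N := by
  simp [cj]

theorem mem_nrm {g : G} {X : Set G} (h : ∀ x ∈ X, g * x * g⁻¹ ∈ X)
    (h' : ∀ x ∈ X, g⁻¹ * x * g ∈ X) : g ∈ normalizer X :=
  mem_set_normalizer_iff.2 fun x => ⟨h x, fun hx => by simpa [mul_assoc] using h' _ hx⟩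

theorem nrm_conj {g x : G} {X : Set G} (h : g ∈ normalizer X) (hx : x ∈ X) : g * x * g⁻¹ ∈ X :=
  (mem_set_normalizer_iff.1 h x).1 hx

theorem nrm_conj' {g x : G} {X : Set G} (h : g ∈ normalizer X) (hx : x ∈ X) : g⁻¹ * x * g ∈ X :=
  (mem_set_normalizer_iff''.1 h x).1 hx

theorem cj_eq_of_mem {g : G} {N : Subgroup G} (h : g ∈ normalizer (N : Set G)) : cj g N = N := by
  ext x; rw [mem_cj]; exact (mem_normalizer_iff''.1 h x).symm

theorem mem_nrm_of_cj {g : G} {N : Subgroup G} (h : cj g N = N) : g ∈ normalizer (N : Set G) :=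
  mem_normalizer_iff''.2 fun x => by rw [← mem_cj, h]

theorem cj_cj (g : G) (N : Subgroup G) : cj g⁻¹ (cj g N) = N := by
  ext x; simp [mem_cj, mul_assoc]

/-- `A` is a normal subgroup of `B`. -/
def Nm (A B : Subgroup G) : Prop := A ≤ B ∧ B ≤ normalizer (A : Set G)

theorem Nm.of {A B : Subgroup G} (h : A ≤ B) (h' : ∀ g ∈ B, ∀ x ∈ A, g * x * g⁻¹ ∈ A) : Nm A B :=
  ⟨h, fun g hg => mem_nrm (h' g hg) fun x hx => by simpa using h' _ (inv_mem hg) x hx⟩

theorem Nm.inf {A B : Subgroup G} (h : Nm A B) (D : Subgroup G) : Nm (A ⊓ D) (B ⊓ D) :=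
  Nm.of (inf_le_inf_right D h.1) fun _ hg _ hx =>
    ⟨nrm_conj (h.2 hg.1) hx.1, D.mul_mem (D.mul_mem hg.2 hx.2) (D.inv_mem hg.2)⟩

theorem Nm.conj {A B : Subgroup G} (h : Nm A B) (g : G) : Nm (cj g A) (cj g B) :=
  Nm.of (fun _ hx => mem_cj.2 (h.1 (mem_cj.1 hx))) fun y hy x hx => mem_cj.2 (by
    have := nrm_conj (h.2 (mem_cj.1 hy)) (mem_cj.1 hx)
    simpa [mul_assoc] using this)

/-- `A` is subnormal in `B`. -/
def Sn (A B : Subgroup G) : Prop := Relation.ReflTransGen Nm A B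

theorem Sn.le {A B : Subgroup G} (h : Sn A B) : A ≤ B := by
  induction h with
  | refl => exact le_rfl
  | tail _ h ih => exact ih.trans h.1

theorem Sn.inf {A B : Subgroup G} (h : Sn A B) (D : Subgroup G) : Sn (A ⊓ D) (B ⊓ D) := by
  induction h with
  | refl => exact .refl
  | tail _ h ih => exact ih.tail (h.inf D)

theorem Sn.conj {A B : Subgroup G} (h : Sn A B) (g : G) : Sn (cj g A) (cj g B) := by
  induction h with
  | refl => exact .refl
  | tail _ h ih => exact ih.tail (h.conj g)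

theorem Sn.of_le {A B D : Subgroup G} (h : Sn A B) (h1 : A ≤ D) (h2 : D ≤ B) : Sn A D := by
  have := h.inf D
  rwa [inf_eq_left.2 h1, inf_eq_right.2 h2] at this

theorem Sn.exists_proper {A B : Subgroup G} (h : Sn A B) (hne : A ≠ B) :
    ∃ H, Sn A H ∧ Nm H B ∧ H ≠ B := by
  induction h with
  | refl => exact absurd rfl hne
  | @tail C D h1 h2 ih =>
    by_cases hCD : C = D
    · subst hCD; exact ih hne
    · exact ⟨C, h1, h2, hCD⟩

/-- the largest normal `p`-subgroup of `C`. -/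
def Op (p : ℕ) (C : Subgroup G) : Subgroup G where
  carrier := {x | ∃ N : Subgroup G, x ∈ N ∧ Nm N C ∧ IsPGroup p N}
  one_mem' := ⟨⊥, one_mem _, Nm.of bot_le (by simp), IsPGroup.of_bot⟩
  inv_mem' := fun ⟨N, h, h'⟩ => ⟨N, inv_mem h, h'⟩
  mul_mem' := by
    rintro x y ⟨N, hx, hN, pN⟩ ⟨M, hy, hM, pM⟩
    refine ⟨N ⊔ M, mul_mem (mem_sup_left hx) (mem_sup_right hy), Nm.of (sup_le hN.1 hM.1)
      fun g hg => ?_, pN.to_sup_of_normal_left' pM (hM.1.trans hN.2)⟩
    have : N ⊔ M ≤ cj g⁻¹ (N ⊔ M) := sup_le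
      (fun z hz => mem_cj.2 (mem_sup_left (by simpa using nrm_conj (hN.2 hg) hz)))
      (fun z hz => mem_cj.2 (mem_sup_right (by simpa using nrm_conj (hM.2 hg) hz)))
    intro z hz
    simpa using mem_cj.1 (this hz)

variable {p : ℕ}

theorem isPGroup_iff {N : Subgroup G} : IsPGroup p N ↔ ∀ x ∈ N, ∃ k, x ^ p ^ k = 1 :=
  ⟨fun h x hx => (h ⟨x, hx⟩).imp fun _ hk => congrArg Subtype.val hk,
    fun h x => (h x.1 x.2).imp fun _ hk => Subtype.ext hk⟩

theorem Op_le (C : Subgroup G) : Op p C ≤ C := fun _ ⟨_, h, h', _⟩ => h'.1 h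

theorem Op_pgroup (C : Subgroup G) : IsPGroup p (Op p C) :=
  isPGroup_iff.2 fun x ⟨_, h, _, h'⟩ => isPGroup_iff.1 h' x h

theorem le_Op {N C : Subgroup G} (h : Nm N C) (hp : IsPGroup p N) : N ≤ Op p C :=
  fun _ hx => ⟨N, hx, h, hp⟩

theorem pgroup_cj {N : Subgroup G} (h : IsPGroup p N) (g : G) : IsPGroup p (cj g N) :=
  isPGroup_iff.2 fun x hx => (isPGroup_iff.1 h _ (mem_cj.1 hx)).imp fun k hk => by
    have : g⁻¹ * x * g = g⁻¹ * x * g⁻¹⁻¹ := by simp
    rw [this, conj_pow] at hk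
    simpa [mul_assoc] using congrArg (fun y => g * y * g⁻¹) hk

theorem conj_mem_Op {C : Subgroup G} {x : G} (hx : x ∈ Op p C) (g : G) :
    g * x * g⁻¹ ∈ Op p (cj g C) := by
  obtain ⟨N, h, h1, h2⟩ := hx
  exact ⟨cj g N, mem_cj.2 (by simpa [mul_assoc] using h), h1.conj g, pgroup_cj h2 g⟩

theorem Sn.le_Op {A B : Subgroup G} (h : Sn A B) (hp : IsPGroup p A) : A ≤ Op p B := by
  induction h with
  | refl => exact _root_.Pool.Agent.Lib.MP_03ba20_al.le_Op (Nm.of le_rfl fun g hg x hx =>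
      mul_mem (mul_mem hg hx) (inv_mem hg)) hp
  | @tail C D _ h ih =>
    refine ih.trans (_root_.Pool.Agent.Lib.MP_03ba20_al.le_Op (Nm.of ((Op_le C).trans h.1)
      fun g hg x hx => ?_) (Op_pgroup C))
    have := conj_mem_Op hx g
    rwa [cj_eq_of_mem (h.2 hg)] at this

/-- nonabelian simple. -/
def NS (T : Subgroup G) : Prop :=
  (∀ N, Nm N T → N = ⊥ ∨ N = T) ∧ ∃ a ∈ T, ∃ b ∈ T, a * b ≠ b * a

theorem NS.conj {T : Subgroup G} (h : NS T) (g : G) : NS (cj g T) := by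
  obtain ⟨h1, a, ha, b, hb, hab⟩ := h
  refine ⟨fun N hN => ?_, g * a * g⁻¹, mem_cj.2 (by simpa [mul_assoc] using ha),
    g * b * g⁻¹, mem_cj.2 (by simpa [mul_assoc] using hb), fun e => hab (by
      simpa [mul_assoc] using congrArg (fun y => g⁻¹ * y * g) e)⟩
  have := hN.conj g⁻¹
  rw [cj_cj] at this
  have e := cj_cj g⁻¹ N
  rw [inv_inv] at e
  rcases h1 _ this with h | h
  · left; rw [← e, h]; ext x; simp [mem_cj, mul_assoc, inv_mul_eq_one]
  · right; rw [← e, h]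

theorem NS.eq_of_sn {T A : Subgroup G} (h : NS T) (hA : NS A) (hs : Sn A T) : A = T := by
  by_contra hne
  obtain ⟨H, h1, h2, h3⟩ := hs.exists_proper hne
  obtain ⟨-, a, ha, b, hb, hab⟩ := hA
  have h4 := h1.le
  rw [(h.1 H h2).resolve_right h3, le_bot_iff] at h4
  rw [h4, mem_bot] at ha
  simp [ha] at hab

theorem NS.centralizes {T H B : Subgroup G} (hT : NS T) (hTB : T ≤ B) (hH : Nm H B)
    (hne : ¬ T ≤ H)
    (hc : ∀ n ∈ H, cj n T = T ∨ ∀ a ∈ T, ∀ b ∈ cj n T, a * b = b * a) :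
    ∀ t ∈ T, ∀ n ∈ H, t * n = n * t := by
  have h0 : H ⊓ T = ⊥ := by
    have := hH.inf T
    rw [inf_eq_right.2 hTB] at this
    exact (hT.1 _ this).resolve_right fun e => hne (e ▸ inf_le_left)
  have h1 : ∀ x ∈ H, x ∈ T → x = 1 := fun x hx hx' => mem_bot.1 (h0 ▸ ⟨hx, hx'⟩)
  intro t ht n hn
  rcases hc n hn with h | h
  · have := h1 (t⁻¹ * n * t * n⁻¹) (mul_mem (nrm_conj' (hH.2 (hTB ht)) hn) (inv_mem hn)) (by
      have := nrm_conj (mem_nrm_of_cj h) ht
      simpa [mul_assoc] using mul_mem (inv_mem ht) this)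
    calc t * n = t * (t⁻¹ * n * t * n⁻¹) * n := by rw [this, mul_one]
      _ = n * t := by group
  · obtain ⟨-, a, ha, b, hb, hab⟩ := hT
    exfalso
    apply hab
    have e := h a ha (n * b * n⁻¹) (mem_cj.2 (by simpa [mul_assoc] using hb))
    have hh : b⁻¹ * n * b * n⁻¹ ∈ H := mul_mem (nrm_conj' (hH.2 (hTB hb)) hn) (inv_mem hn)
    have := h1 ((b * a)⁻¹ * (a * b)) (by
      have e2 : (b * a)⁻¹ * (a * b) =
          a⁻¹ * (b⁻¹ * n * b * n⁻¹) * a * (b⁻¹ * n * b * n⁻¹)⁻¹ := by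
        calc (b * a)⁻¹ * (a * b) = a⁻¹ * b⁻¹ * (a * (n * b * n⁻¹)) * (b⁻¹ * n * b * n⁻¹)⁻¹ := by
              group
          _ = _ := by rw [e]; group
      rw [e2]
      exact mul_mem (nrm_conj' (hH.2 (hTB ha)) hh) (inv_mem hh))
      (mul_mem (inv_mem (mul_mem hb ha)) (mul_mem ha hb))
    exact (inv_mul_eq_one.1 this).symm

theorem NS.commute (n : ℕ) : ∀ B : Subgroup G, Finite B → Nat.card B ≤ n → ∀ T T', NS T → NS T' →
    Sn T B → Sn T' B → T ≠ T' → ∀ a ∈ T, ∀ b ∈ T', a * b = b * a := by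
  induction n with
  | zero => intro B _ h; exact absurd h (by have := Nat.card_pos (α := B); omega)
  | succ n ih =>
    intro B hB hn T T' hT hT' hs hs' hne
    have lt : ∀ H : Subgroup G, Nm H B → H ≠ B → Finite H ∧ Nat.card H ≤ n := fun H h1 h2 => by
      refine ⟨Finite.of_injective _ (inclusion_injective h1.1), ?_⟩
      by_contra hc
      exact h2 (eq_of_le_of_card_ge h1.1 (by omega))
    obtain ⟨H, h1, h2, h3⟩ := hs.exists_proper fun e => hne (by
      subst e; exact (hT.eq_of_sn hT' hs').symm)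
    obtain ⟨H', h1', h2', h3'⟩ := hs'.exists_proper fun e => hne (by
      subst e; exact hT'.eq_of_sn hT hs)
    by_cases hle : T' ≤ H
    · exact ih H (lt H h2 h3).1 (lt H h2 h3).2 T T' hT hT' h1 (hs'.of_le hle h2.1) hne
    · intro a ha b hb
      refine (hT'.centralizes hs'.le h2 hle (fun m hm => ?_) b hb a (h1.le ha)).symm
      by_cases e : cj m T' = T'
      · exact Or.inl e
      · refine Or.inr (ih H' (lt H' h2' h3').1 (lt H' h2' h3').2 _ _ hT' (hT'.conj m) h1' ?_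
          (Ne.symm e))
        have := h1'.conj m
        rwa [cj_eq_of_mem (h2'.2 (h2.1 hm))] at this

theorem NS.centralizes' {T H B : Subgroup G} [Finite B] (hT : NS T) (hs : Sn T B) (hH : Nm H B)
    (hne : ¬ T ≤ H) : ∀ t ∈ T, ∀ n ∈ H, t * n = n * t := by
  refine hT.centralizes hs.le hH hne fun m hm => ?_
  by_cases e : cj m T = T
  · exact Or.inl e
  · refine Or.inr (NS.commute _ B inferInstance le_rfl _ _ hT (hT.conj m) hs ?_ (Ne.symm e))
    have := hs.conj m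
    rwa [cj_eq_of_mem (le_normalizer (hH.1 hm))] at this

theorem exists_NS {B : Subgroup G} [Finite B] (hB : B ≠ ⊥) (h : ∀ p, p.Prime → Op p B = ⊥) :
    ∃ T, Sn T B ∧ NS T := by
  obtain ⟨T, ⟨hT, hT0⟩, hmin⟩ := exists_minimalFor_of_wellFoundedLT
    (fun T : Subgroup G => Sn T B ∧ T ≠ ⊥) (fun T => Nat.card T) ⟨B, .refl, hB⟩
  have : Finite T := Finite.of_injective _ (inclusion_injective hT.le)
  have hs : ∀ N, Nm N T → N = ⊥ ∨ N = T := fun N hN => by
    by_cases h0 : N = ⊥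
    · exact Or.inl h0
    · have h1 : Sn N B ∧ N ≠ ⊥ := ⟨Relation.ReflTransGen.head hN hT, h0⟩
      exact Or.inr (eq_of_le_of_card_ge hN.1 (hmin h1 (card_le_of_le hN.1)))
  refine ⟨T, hT, hs, ?_⟩
  by_contra hc
  push Not at hc
  have : Nontrivial T := (nontrivial_iff_ne_bot T).2 hT0
  obtain ⟨p, hp, hd⟩ := Nat.exists_prime_and_dvd (Finite.one_lt_card (α := T)).ne'
  have := Fact.mk hp
  obtain ⟨x, hx⟩ := exists_prime_orderOf_dvd_card' p hd
  have hx1 : (x : G) ^ p = 1 := by rw [← coe_pow, ← hx, pow_orderOf_eq_one]; rfl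
  have h1 : Nm (zpowers (x : G)) T := Nm.of (zpowers_le.2 x.2) fun g hg y hy => by
    rw [hc g hg y (zpowers_le.2 x.2 hy)]; simpa using hy
  have h2 : zpowers (x : G) ≤ Op p B :=
    Sn.le_Op (Relation.ReflTransGen.head h1 hT) (isPGroup_iff.2 fun y hy => ⟨1, by
      obtain ⟨k, rfl⟩ := hy
      rw [pow_one, ← zpow_natCast, ← zpow_mul, mul_comm, zpow_mul, zpow_natCast, hx1, one_zpow]⟩)
  rw [h p hp, le_bot_iff, zpowers_eq_bot] at h2
  have : x = 1 := Subtype.ext h2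
  rw [this, orderOf_one] at hx
  exact hp.one_lt.ne hx

/-- a nontrivial subgroup normalised by a finite `p`-group containing it meets the centre. -/
theorem exists_central (hp : p.Prime) {D T : Subgroup G} [Finite T] (hT : IsPGroup p T)
    (hD : Nm D T) (h0 : D ≠ ⊥) :
    ∃ z ∈ D, z ≠ 1 ∧ z ^ p = 1 ∧ ∀ t ∈ T, t * z = z * t := by
  have := Fact.mk hp
  have : Finite D := Finite.of_injective _ (inclusion_injective hD.1)
  let _ : MulAction T D :=
    { smul := fun t d => ⟨t * d * t⁻¹, nrm_conj (hD.2 t.2) d.2⟩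
      one_smul := fun d => Subtype.ext (by change (1 : G) * d * 1⁻¹ = d; simp)
      mul_smul := fun s t d => Subtype.ext (by
        change (s : G) * t * d * ((s : G) * t)⁻¹ = s * (t * d * (t : G)⁻¹) * (s : G)⁻¹; group) }
  have : Nontrivial D := (nontrivial_iff_ne_bot D).2 h0
  obtain ⟨n, hn, hc⟩ := (hT.to_le hD.1).nontrivial_iff_card.1 inferInstance
  obtain ⟨z, hz, hz1⟩ := hT.exists_fixed_point_of_prime_dvd_card_of_fixed_point D
    (hc ▸ dvd_pow_self p hn.ne') (a := 1) (fun t => Subtype.ext (by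
      change (t : G) * 1 * t⁻¹ = 1; simp))
  have hz2 : ∀ t ∈ T, t * z = z * t := fun t ht => by
    have : t * z * t⁻¹ = z := congrArg Subtype.val (hz ⟨t, ht⟩)
    exact mul_inv_eq_iff_eq_mul.1 this
  have hk := isPGroup_iff.1 hT z (hD.1 z.2)
  classical
  have hk0 : Nat.find hk ≠ 0 := fun e => by
    have := Nat.find_spec hk
    rw [e, pow_zero, pow_one] at this
    exact hz1 (Subtype.ext this.symm)
  obtain ⟨k, hk1⟩ := Nat.exists_eq_succ_of_ne_zero hk0
  refine ⟨z ^ p ^ k, pow_mem z.2 _, Nat.find_min hk (by omega), ?_, fun t ht =>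
    (Commute.pow_right (hz2 t ht) _)⟩
  rw [← pow_mul, ← pow_succ, ← Nat.succ_eq_add_one, ← hk1]
  exact Nat.find_spec hk

end Pool.Agent.Lib.MP_03ba20_al
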