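import Mathlib

namespace Pool.Agent.Lib.MP_03ba20_al

/-- the conclusion of the regularisation lemma: a window `[w, w + ρ l]` inside `[s, s + B]` on
which `g l` grows by less than one and `Φ` has increments at most `D (i' - i + 2 l)`. -/
def RegWin (ρ : ℕ) (D : ℝ) (Φ : ℕ → ℝ) (g : ℕ → ℕ → ℝ) (s B : ℕ) : Prop :=
  ∃ l w : ℕ, 1 ≤ l ∧ s ≤ w ∧ w + ρ * l ≤ s + B ∧ g l (w + ρ * l) < g l w + 1 ∧
    ∀ i i' : ℕ, w ≤ i → i ≤ i' → i' ≤ w + ρ * l → Φ i' - Φ i ≤ D * ((i' : ℝ) - i + 2 * l)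

theorem RegWin.mono {ρ : ℕ} {D : ℝ} {Φ : ℕ → ℝ} {g : ℕ → ℕ → ℝ} {s B s' B' : ℕ}
    (h : RegWin ρ D Φ g s B) (h1 : s' ≤ s) (h2 : s + B ≤ s' + B') : RegWin ρ D Φ g s' B' := by
  obtain ⟨l, w, a, b, c, d, e⟩ := h
  exact ⟨l, w, a, h1.trans b, c.trans h2, d, e⟩

theorem reg_pigeon (n : ℕ) (f : ℕ → ℝ) (c : ℝ) (h : f n - f 0 < n * c) :
    ∃ q, q < n ∧ f (q + 1) - f q < c := by
  by_contra hc
  push Not at hc
  have : ∀ m, m ≤ n → (m : ℝ) * c ≤ f m - f 0 := by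
    intro m
    induction m with
    | zero => intro _; simp
    | succ m ih =>
      intro hm
      have h1 := ih (by omega)
      have h2 := hc m (by omega)
      push_cast
      linarith
  exact absurd (this n le_rfl) (by linarith)

theorem reg_steps (n : ℕ) (f : ℕ → ℝ) (h : ∀ t, t < n → f t ≤ f (t + 1)) (a b : ℕ) (hab : a ≤ b)
    (hb : b ≤ n) : f a ≤ f b := by
  induction b, hab using Nat.le_induction with
  | base => exact le_rfl
  | succ m _ ih => exact (ih (by omega)).trans (h m (by omega))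

theorem reg_aux (ρ : ℕ) (hρ : 1 ≤ ρ) (M : ℕ → ℝ) (D : ℝ) (k : ℕ) :
    (k : ℝ) / (2 * ρ) + 1 ≤ D + 1 / (2 * ρ) → ∃ B : ℕ, 1 ≤ B ∧
      ∀ (Φ : ℕ → ℝ) (g : ℕ → ℕ → ℝ) (s : ℕ),
        (∀ i j, s ≤ i → i ≤ j → j ≤ s + B → Φ i ≤ Φ j) →
        (∀ l j, s ≤ j → j ≤ s + B → 0 ≤ g l j ∧ g l j ≤ M l) →
        (∀ l i j, s ≤ i → i ≤ j → j ≤ s + B → g l i ≤ g l j) →
        Φ (s + B) - Φ s < k * B / (2 * ρ) → RegWin ρ D Φ g s B := by
  have hρ' : (0 : ℝ) < ρ := by exact_mod_cast hρ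
  induction k with
  | zero =>
    intro _
    refine ⟨1, le_rfl, fun Φ g s hΦ _ _ h => ?_⟩
    have := hΦ s (s + 1) le_rfl (by omega) le_rfl
    simp at h
    linarith
  | succ k ih =>
    intro hk
    have h2ρ : (0 : ℝ) < 1 / (2 * ρ) := by positivity
    have hk1 : (k : ℝ) / (2 * ρ) + 1 ≤ D := by
      have : ((k + 1 : ℕ) : ℝ) / (2 * ρ) = k / (2 * ρ) + 1 / (2 * ρ) := by
        push_cast; ring
      linarith
    obtain ⟨B, hB, ihB⟩ := ih (by linarith)
    have hB' : (0 : ℝ) < B := by exact_mod_cast hB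
    obtain ⟨n, hn1, hnM⟩ : ∃ n : ℕ, 1 ≤ n ∧ 2 * M B ≤ n :=
      ⟨⌈2 * M B⌉₊ + 1, by omega, by
        have := Nat.le_ceil (2 * M B)
        push_cast; linarith⟩
    refine ⟨n * (ρ * B), Nat.mul_pos hn1 (Nat.mul_pos hρ hB), fun Φ g s hΦ hg0 hg h => ?_⟩
    set c : ℝ := k * B / (2 * ρ) with hc
    have hc0 : 0 ≤ c := by positivity
    by_cases hex : ∃ t, t < n * ρ ∧ Φ (s + t * B + B) - Φ (s + t * B) < c
    · obtain ⟨t, ht, hlt⟩ := hex
      have hle : s + t * B + B ≤ s + n * (ρ * B) := by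
        have : (t + 1) * B ≤ (n * ρ) * B := Nat.mul_le_mul_right _ ht
        nlinarith
      refine (ihB Φ g (s + t * B) ?_ ?_ ?_ hlt).mono (by omega) hle
      · intro i j a b d; exact hΦ i j (by omega) b (by omega)
      · intro l j a d; exact hg0 l j (by omega) (by omega)
      · intro l i j a b d; exact hg l i j (by omega) b (by omega)
    · push Not at hex
      set Ψ : ℕ → ℝ := fun t => Φ (s + t * B) - t * c with hΨ
      have hΨm : ∀ a b, a ≤ b → b ≤ n * ρ → Ψ a ≤ Ψ b := by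
        refine reg_steps (n * ρ) Ψ fun t ht => ?_
        have := hex t ht
        simp only [hΨ]
        rw [show s + (t + 1) * B = s + t * B + B by ring]
        push_cast
        linarith
      obtain ⟨q, hq, hlt⟩ := reg_pigeon n (fun q => Ψ (q * ρ) / B + g B (s + q * ρ * B)) 1 (by
        have e1 : s + n * ρ * B = s + n * (ρ * B) := by ring
        have a1 := (hg0 B (s + n * (ρ * B)) (by omega) le_rfl).2
        have a2 := (hg0 B s le_rfl (by omega)).1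
        have a3 : (Ψ (n * ρ) - Ψ 0) / B < n / 2 := by
          rw [div_lt_iff₀ hB']
          simp only [hΨ, e1, Nat.add_zero, Nat.cast_zero, zero_mul, sub_zero]
          have e2 : ((k + 1 : ℕ) : ℝ) * ((n * (ρ * B) : ℕ) : ℝ) / (2 * ρ)
              = ((n * ρ : ℕ) : ℝ) * c + n / 2 * B := by
            rw [hc]; push_cast; field_simp
          linarith
        simp only [e1, Nat.zero_mul, Nat.add_zero]
        rw [sub_div] at a3
        linarith)
      have hq1 : (q + 1) * ρ ≤ n * ρ := Nat.mul_le_mul_right _ hq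
      have hw : s + q * ρ * B + ρ * B = s + (q + 1) * ρ * B := by ring
      have hend : s + (q + 1) * ρ * B ≤ s + n * (ρ * B) := by
        have : (q + 1) * ρ * B ≤ n * ρ * B := Nat.mul_le_mul_right _ hq1
        nlinarith
      have b1 : Ψ (q * ρ) ≤ Ψ ((q + 1) * ρ) := hΨm _ _ (by nlinarith) hq1
      have b2 : g B (s + q * ρ * B) ≤ g B (s + (q + 1) * ρ * B) :=
        hg B _ _ (by omega) (by omega) hend
      have b3 : 0 ≤ (Ψ ((q + 1) * ρ) - Ψ (q * ρ)) / B := div_nonneg (by linarith) hB'.le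
      have b4 : (Ψ ((q + 1) * ρ) - Ψ (q * ρ)) / B < 1 := by rw [sub_div]; linarith
      rw [div_lt_one hB'] at b4
      rw [sub_div] at b3
      refine ⟨B, s + q * ρ * B, hB, by omega, by omega, by rw [hw]; linarith, ?_⟩
      intro i i' hi hii hi'
      rw [hw] at hi'
      obtain ⟨t0, r0, hr0, e0⟩ : ∃ t0 r0, r0 < B ∧ i = s + t0 * B + r0 :=
        ⟨(i - s) / B, (i - s) % B, Nat.mod_lt _ hB, by
          have := Nat.div_add_mod' (i - s) B
          omega⟩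
      obtain ⟨t1, r1, hr1, e1⟩ : ∃ t1 r1, r1 < B ∧ i' + r1 = s + t1 * B :=
        ⟨(i' - s + B - 1) / B, B - 1 - (i' - s + B - 1) % B, by omega, by
          have := Nat.div_add_mod' (i' - s + B - 1) B
          have := Nat.mod_lt (i' - s + B - 1) hB
          omega⟩
      have c0 : q * ρ ≤ t0 := by
        by_contra hh
        have : (t0 + 1) * B ≤ q * ρ * B := Nat.mul_le_mul_right _ (by omega)
        nlinarith
      have c1 : t1 ≤ (q + 1) * ρ := by
        by_contra hh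
        have : ((q + 1) * ρ + 1) * B ≤ t1 * B := Nat.mul_le_mul_right _ (by omega)
        nlinarith
      have c2 : t0 ≤ t1 := by
        by_contra hh
        have : (t1 + 1) * B ≤ t0 * B := Nat.mul_le_mul_right _ (by omega)
        nlinarith
      have c3 : t1 * B ≤ (q + 1) * ρ * B := Nat.mul_le_mul_right _ c1
      have d0 : Φ (s + t0 * B) ≤ Φ i := hΦ _ _ (by omega) (by omega) (by omega)
      have d1 : Φ i' ≤ Φ (s + t1 * B) := hΦ _ _ (by omega) (by omega) (by omega)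
      have d2 : Ψ (q * ρ) ≤ Ψ t0 := hΨm _ _ c0 (by omega)
      have d3 : Ψ t1 ≤ Ψ ((q + 1) * ρ) := hΨm _ _ c1 hq1
      have d4 : Ψ t1 - Ψ t0 = Φ (s + t1 * B) - Φ (s + t0 * B) - ((t1 : ℝ) - t0) * c := by
        simp only [hΨ]; ring
      have e0' : (i : ℝ) = s + t0 * B + r0 := by exact_mod_cast e0
      have e1' : (i' : ℝ) + r1 = s + t1 * B := by exact_mod_cast e1
      have hr0' : (r0 : ℝ) ≤ B := by exact_mod_cast hr0.le
      have hr1' : (r1 : ℝ) ≤ B := by exact_mod_cast hr1.le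
      have hii' : (i : ℝ) ≤ i' := by exact_mod_cast hii
      have d5 : ((t1 : ℝ) - t0) * B ≤ (i' : ℝ) - i + 2 * B := by linarith
      have d6 : ((t1 : ℝ) - t0) * c ≤ k / (2 * ρ) * ((i' : ℝ) - i + 2 * B) := by
        have : ((t1 : ℝ) - t0) * c = k / (2 * ρ) * (((t1 : ℝ) - t0) * B) := by rw [hc]; ring
        rw [this]
        exact mul_le_mul_of_nonneg_left d5 (by positivity)
      have d7 : ((k : ℝ) / (2 * ρ) + 1) * ((i' : ℝ) - i + 2 * B) ≤ D * ((i' : ℝ) - i + 2 * B) :=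
        mul_le_mul_of_nonneg_right hk1 (by linarith)
      linarith

/-- REG: regularisation lemma for real sequences on one block. -/
theorem reg_block (ρ : ℕ) (hρ : 1 ≤ ρ) (C : ℝ) (hC : 0 ≤ C) (M : ℕ → ℝ) :
    ∃ B : ℕ, 1 ≤ B ∧ ∀ (Φ : ℕ → ℝ) (g : ℕ → ℕ → ℝ) (s : ℕ),
      (∀ i j, s ≤ i → i ≤ j → j ≤ s + B → Φ i ≤ Φ j) →
      (∀ l j, s ≤ j → j ≤ s + B → 0 ≤ g l j ∧ g l j ≤ M l) →
      (∀ l i j, s ≤ i → i ≤ j → j ≤ s + B → g l i ≤ g l j) →
      Φ (s + B) - Φ s ≤ C * B → RegWin ρ (C + 2) Φ g s B := by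
  have hρ' : (1 : ℝ) ≤ ρ := by exact_mod_cast hρ
  have h2 : (0 : ℝ) < 2 * ρ := by linarith
  have hf := Nat.floor_le (show 0 ≤ 2 * ρ * C by positivity)
  have hl := Nat.lt_floor_add_one (2 * ρ * C)
  obtain ⟨B, hB, h⟩ := reg_aux ρ hρ M (C + 2) (⌊2 * ρ * C⌋₊ + 1) (by
    have : ((⌊2 * ρ * C⌋₊ + 1 : ℕ) : ℝ) / (2 * ρ) ≤ C + 1 / (2 * ρ) := by
      rw [div_le_iff₀ h2]
      have : (C + 1 / (2 * ρ)) * (2 * ρ) = 2 * ρ * C + 1 := by field_simp
      rw [this]; push_cast; linarith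
    linarith)
  refine ⟨B, hB, fun Φ g s a b c d => h Φ g s a b c (d.trans_lt ?_)⟩
  have hB' : (0 : ℝ) < B := by exact_mod_cast hB
  rw [lt_div_iff₀ h2]
  push_cast
  nlinarith

/-- REG on a long interval `[0, b]`: total increment `≤ C b` gives a window with constant
`2 C + 2`. -/
theorem reg_global (ρ : ℕ) (hρ : 1 ≤ ρ) (C : ℝ) (hC : 0 ≤ C) (M : ℕ → ℝ) :
    ∃ B : ℕ, 1 ≤ B ∧ ∀ (b : ℕ) (Φ : ℕ → ℝ) (g : ℕ → ℕ → ℝ), B ≤ b →
      (∀ i j, i ≤ j → j ≤ b → Φ i ≤ Φ j) →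
      (∀ l j, j ≤ b → 0 ≤ g l j ∧ g l j ≤ M l) →
      (∀ l i j, i ≤ j → j ≤ b → g l i ≤ g l j) →
      Φ b - Φ 0 ≤ C * b → RegWin ρ (2 * C + 2) Φ g 0 b := by
  obtain ⟨B, hB, h⟩ := reg_block ρ hρ (2 * C) (by linarith) M
  refine ⟨B, hB, fun b Φ g hb hΦ hg0 hg hC' => ?_⟩
  have hn : 1 ≤ b / B := (Nat.le_div_iff_mul_le hB).2 (by omega)
  have e := Nat.div_add_mod' b B
  have hm := Nat.mod_lt b hB
  set n := b / B with hnd
  have hb2 : b ≤ 2 * (n * B) := by nlinarith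
  have hb2' : (b : ℝ) ≤ 2 * (n * B) := by exact_mod_cast hb2
  obtain ⟨q, hq, hlt⟩ : ∃ q, q < n ∧ Φ ((q + 1) * B) - Φ (q * B) ≤ 2 * C * B := by
    by_contra hc
    push Not at hc
    have key : ∀ m, 1 ≤ m → m ≤ n → (m : ℝ) * (2 * C * B) < Φ (m * B) - Φ 0 := by
      intro m hm1
      induction m, hm1 using Nat.le_induction with
      | base => intro h1; have := hc 0 (by omega); simpa using this
      | succ m _ ih =>
        intro hm
        have h1 := ih (by omega)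
        have h2 := hc m (by omega)
        push_cast
        linarith
    have h1 := key n hn le_rfl
    have h2 : Φ (n * B) ≤ Φ b := hΦ _ _ (by omega) le_rfl
    have h3 : C * b ≤ C * (2 * (n * B)) := mul_le_mul_of_nonneg_left hb2' hC
    nlinarith
  have hle : q * B + B ≤ b := by
    have h1 : (q + 1) * B ≤ n * B := Nat.mul_le_mul_right _ hq
    have h2 : (q + 1) * B = q * B + B := by ring
    omega
  refine (h Φ g (q * B) ?_ ?_ ?_ ?_).mono (Nat.zero_le _) (by omega)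
  · intro i j _ b d; exact hΦ i j b (by omega)
  · intro l j _ d; exact hg0 l j (by omega)
  · intro l i j _ b d; exact hg l i j b (by omega)
  · rw [show q * B + B = (q + 1) * B by ring]; exact hlt

end Pool.Agent.Lib.MP_03ba20_al
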